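import Mathlib

/-!
A `C^1` action of the affine group of the line on an interval, tangent to the identity at both ends.
-/

open Set Filter Topology Real

noncomputable section

namespace Pool.Agent.H581Z

theorem glue_contDiff {X F : Type*} [NormedAddCommGroup X] [NormedSpace ℝ X]
    [NormedAddCommGroup F] [NormedSpace ℝ F] {O : Set X} (hO : IsOpen O) (hc : Convex ℝ O)
    {u : X → F} {u' : X → X →L[ℝ] F} (hu : ∀ z ∈ O, HasFDerivAt u (u' z) z)
    (hu' : ContinuousOn u' O) (h0 : ∀ z ∉ O, u z = 0) (h0' : ∀ z ∉ O, u' z = 0)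
    {κ : X → ℝ} (hκ : Continuous κ) (hκ0 : ∀ z ∉ O, κ z = 0) (hb : ∀ z ∈ O, ‖u z‖ ≤ κ z)
    (hb' : ∀ z ∈ O, ‖u' z‖ ≤ κ z) :
    ContDiff ℝ 1 u ∧ ∀ z, HasFDerivAt u (u' z) z := by
  have hb1 : ∀ z, ‖u z‖ ≤ κ z := fun z => by
    by_cases h : z ∈ O
    · exact hb z h
    · rw [h0 z h, hκ0 z h, norm_zero]
  have hb2 : ∀ z, ‖u' z‖ ≤ κ z := fun z => by
    by_cases h : z ∈ O
    · exact hb' z h
    · rw [h0' z h, hκ0 z h, norm_zero]
  have hκt : ∀ z ∉ O, Tendsto κ (𝓝 z) (𝓝 0) := fun z hz => by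
    have := hκ.tendsto z
    rwa [hκ0 z hz] at this
  have hcu : Continuous u := by
    rw [continuous_iff_continuousAt]
    intro z
    by_cases h : z ∈ O
    · exact (hu z h).continuousAt
    · rw [ContinuousAt, h0 z h]
      exact squeeze_zero_norm hb1 (hκt z h)
  have hcu' : Continuous u' := by
    rw [continuous_iff_continuousAt]
    intro z
    by_cases h : z ∈ O
    · exact hu'.continuousAt (hO.mem_nhds h)
    · rw [ContinuousAt, h0' z h]
      exact squeeze_zero_norm hb2 (hκt z h)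
  have hD : ∀ z, HasFDerivAt u (u' z) z := by
    intro z
    by_cases h : z ∈ O
    · exact hu z h
    · have h1 : HasFDerivWithinAt u (u' z) (closure O) z := by
        refine hasFDerivWithinAt_closure_of_tendsto_fderiv
          (fun y hy => (hu y hy).differentiableAt.differentiableWithinAt) hc hO
          (fun y _ => hcu.continuousWithinAt) ?_
        refine (hcu'.continuousWithinAt (s := O) (x := z)).tendsto.congr' ?_
        filter_upwards [self_mem_nhdsWithin] with y hy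
        exact (hu y hy).fderiv.symm
      have h2 : HasFDerivWithinAt u (u' z) Oᶜ z := by
        rw [h0' z h]
        exact (hasFDerivWithinAt_const (0 : F) z Oᶜ).congr (fun y hy => h0 y hy) (h0 z h)
      have h3 := h1.union h2
      have h4 : closure O ∪ Oᶜ = univ := by
        rw [eq_univ_iff_forall]
        intro y
        by_cases hy : y ∈ O
        · exact Or.inl (subset_closure hy)
        · exact Or.inr hy
      rwa [h4, hasFDerivWithinAt_univ] at h3
  exact ⟨contDiff_one_iff_hasFDerivAt.2 ⟨u', hcu', hD⟩, hD⟩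

theorem arsinh_lip (y y' : ℝ) : |arsinh y - arsinh y'| ≤ |y - y'| := by
  have h := convex_univ.norm_image_sub_le_of_norm_hasDerivWithin_le (f := arsinh)
    (f' := fun x => (√(1 + x ^ 2))⁻¹) (C := 1)
    (fun x _ => (hasDerivAt_arsinh x).hasDerivWithinAt) (fun x _ => by
      rw [Real.norm_eq_abs, abs_of_nonneg (by positivity)]
      refine inv_le_one_of_one_le₀ ?_
      rw [Real.one_le_sqrt]; nlinarith) (mem_univ y') (mem_univ y)
  simpa using h

theorem arsinh_dil (t c : ℝ) (hc : 1 / 2 ≤ c) : |arsinh (c * t) - arsinh t| ≤ 2 * |c - 1| := by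
  have h := (convex_Ici (1 / 2 : ℝ)).norm_image_sub_le_of_norm_hasDerivWithin_le
    (f := fun c => arsinh (c * t)) (f' := fun c => (√(1 + (c * t) ^ 2))⁻¹ • t) (C := 2)
    (fun x _ => by
      have : HasDerivAt (fun c => c * t) t x := by simpa using (hasDerivAt_id x).mul_const t
      exact this.arsinh.hasDerivWithinAt)
    (fun x hx => by
      have hx' : 1 / 2 ≤ x := hx
      have h1 : 0 < √(1 + (x * t) ^ 2) := by positivity
      rw [Real.norm_eq_abs, smul_eq_mul, abs_mul, abs_of_nonneg (by positivity), inv_mul_le_iff₀ h1]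
      have h2 : |x * t| ≤ √(1 + (x * t) ^ 2) := Real.abs_le_sqrt (by linarith)
      rw [abs_mul, abs_of_nonneg (by linarith : (0 : ℝ) ≤ x)] at h2
      nlinarith [abs_nonneg t])
    (show (1 : ℝ) ∈ Ici (1 / 2 : ℝ) by simp; norm_num) (show c ∈ Ici (1 / 2 : ℝ) from hc)
  simpa using h

/-- size of the affine map `t ↦ c t + s` -/
def mm (c s : ℝ) : ℝ := 2 * |c - 1| + |s|

theorem mm_nonneg (c s : ℝ) : 0 ≤ mm c s := by unfold mm; positivity

/-- the affine map `t ↦ c t + s` in the coordinate `a = arsinh t` -/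
def Bf (c s a : ℝ) : ℝ := arsinh (c * sinh a + s)

theorem Bf_sub {c : ℝ} (hc : 1 / 2 ≤ c) (s a : ℝ) : |Bf c s a - a| ≤ mm c s := by
  have h1 := arsinh_lip (c * sinh a + s) (c * sinh a)
  have h2 := arsinh_dil (sinh a) c hc
  rw [arsinh_sinh] at h2
  rw [add_sub_cancel_left] at h1
  unfold Bf mm
  calc |arsinh (c * sinh a + s) - a|
      = |(arsinh (c * sinh a + s) - arsinh (c * sinh a)) + (arsinh (c * sinh a) - a)| := by ring_nf
    _ ≤ _ := abs_add_le _ _
    _ ≤ _ := by linarith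

theorem sqrt_le_cosh (b : ℝ) : √(1 + b ^ 2) ≤ cosh b := by
  refine Real.sqrt_le_iff.2 ⟨(cosh_pos b).le, ?_⟩
  have h1 : |b| ≤ |sinh b| := by rw [abs_sinh]; exact self_le_sinh_iff.2 (abs_nonneg b)
  have h2 : b ^ 2 ≤ sinh b ^ 2 := sq_le_sq.2 h1
  rw [cosh_sq']; linarith

theorem one_le_sq1 (b : ℝ) : 1 ≤ √(1 + b ^ 2) := by rw [Real.one_le_sqrt]; nlinarith

theorem q1_est {c s a b : ℝ} (hc : 1 / 2 ≤ c) (hc2 : c ≤ 2) (hb : sinh b = c * sinh a + s) :
    |c * cosh a / cosh b - 1| ≤ mm c s * (2 + mm c s) * (√(1 + b ^ 2))⁻¹ := by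
  have hB := cosh_pos b
  have hA := cosh_pos a
  have hB1 := one_le_cosh b
  set q := c * cosh a / cosh b with hq
  have hq0 : 0 ≤ q := by positivity
  have h1 : |q - 1| ≤ |q ^ 2 - 1| := by
    have : q ^ 2 - 1 = (q - 1) * (q + 1) := by ring
    rw [this, abs_mul, abs_of_nonneg (by linarith : 0 ≤ q + 1)]
    nlinarith [abs_nonneg (q - 1)]
  have h2 : q ^ 2 - 1 = (c ^ 2 - 1 - 2 * sinh b * s + s ^ 2) / cosh b ^ 2 := by
    rw [hq, div_pow, mul_pow, eq_div_iff (by positivity), sub_mul, div_mul_cancel₀ _ (by positivity),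
      cosh_sq' a, cosh_sq' b, hb]
    ring
  have h3 : |sinh b| ≤ cosh b := by
    refine abs_le_of_sq_le_sq' ?_ hB.le |> abs_le.2
    rw [cosh_sq']; linarith
  have h4 : |c ^ 2 - 1| ≤ 3 * |c - 1| := by
    have : c ^ 2 - 1 = (c - 1) * (c + 1) := by ring
    rw [this, abs_mul, abs_of_nonneg (by linarith : 0 ≤ c + 1)]
    nlinarith [abs_nonneg (c - 1)]
  have h5 : |c ^ 2 - 1 - 2 * sinh b * s + s ^ 2| ≤ mm c s * (2 + mm c s) * cosh b := by
    have e1 : |c ^ 2 - 1 - 2 * sinh b * s + s ^ 2| ≤ |c ^ 2 - 1| + 2 * |sinh b| * |s| + |s| ^ 2 := by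
      calc _ ≤ |c ^ 2 - 1 - 2 * sinh b * s| + |s ^ 2| := abs_add_le _ _
        _ ≤ |c ^ 2 - 1| + |2 * sinh b * s| + |s ^ 2| := by gcongr; exact abs_sub _ _
        _ = _ := by rw [abs_mul, abs_mul, abs_pow]; norm_num
    have e2 : 3 * |c - 1| + 2 * |s| + |s| ^ 2 ≤ mm c s * (2 + mm c s) := by
      unfold mm; nlinarith [abs_nonneg (c - 1), abs_nonneg s]
    have e3 : 2 * |sinh b| * |s| ≤ 2 * |s| * cosh b := by nlinarith [abs_nonneg s]
    have e4 : 3 * |c - 1| + |s| ^ 2 ≤ (3 * |c - 1| + |s| ^ 2) * cosh b :=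
      le_mul_of_one_le_right (by positivity) hB1
    calc _ ≤ (3 * |c - 1| + 2 * |s| + |s| ^ 2) * cosh b := by linarith
      _ ≤ _ := by gcongr
  have hm := mm_nonneg c s
  refine h1.trans ?_
  rw [h2, abs_div, abs_of_pos (by positivity : 0 < cosh b ^ 2), div_le_iff₀ (by positivity)]
  refine h5.trans ?_
  have h6 : cosh b ≤ (√(1 + b ^ 2))⁻¹ * cosh b ^ 2 := by
    have h7 := sqrt_le_cosh b
    have h8 : 0 < √(1 + b ^ 2) := by positivity
    rw [le_inv_mul_iff₀ h8]; nlinarith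
  rw [mul_assoc (mm c s * (2 + mm c s))]
  gcongr

theorem q2_est {a b m : ℝ} (h : |b - a| ≤ m) :
    |(1 + a ^ 2) / (1 + b ^ 2) - 1| ≤ m * (2 + m) * (√(1 + b ^ 2))⁻¹ := by
  have hm : 0 ≤ m := (abs_nonneg _).trans h
  have h1 := one_le_sq1 b
  have h2 : |b| ≤ √(1 + b ^ 2) := Real.abs_le_sqrt (by linarith)
  have h3 : √(1 + b ^ 2) ^ 2 = 1 + b ^ 2 := Real.sq_sqrt (by positivity)
  have e : (1 + a ^ 2) / (1 + b ^ 2) - 1 = (a - b) * (a + b) / (1 + b ^ 2) := by
    field_simp; ring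
  have h4 : |a + b| ≤ 2 * |b| + m := by
    calc |a + b| = |2 * b - (b - a)| := by ring_nf
      _ ≤ |2 * b| + |b - a| := abs_sub _ _
      _ ≤ _ := by rw [abs_mul]; norm_num; exact h
  rw [e, abs_div, abs_mul, abs_of_pos (by positivity : 0 < 1 + b ^ 2), div_le_iff₀ (by positivity),
    abs_sub_comm a b, ← h3]
  set r := √(1 + b ^ 2)
  have h5 : m * (2 + m) * r⁻¹ * r ^ 2 = m * ((2 + m) * r) := by field_simp
  rw [Real.sqrt_sq (by linarith), h5]
  refine mul_le_mul h (h4.trans ?_) (abs_nonneg _) hm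
  nlinarith

theorem sq_cmp {a b m : ℝ} (h : |b - a| ≤ m) : 1 + a ^ 2 ≤ (2 + 2 * m ^ 2) * (1 + b ^ 2) := by
  have h1 : (b - a) ^ 2 ≤ m ^ 2 := by
    rw [← sq_abs]; exact pow_le_pow_left₀ (abs_nonneg _) h 2
  nlinarith [sq_nonneg (2 * b - a), sq_nonneg (m * b), sq_nonneg (b - (b - a)),
    sq_nonneg (b + (b - a))]

theorem w_est {a b m : ℝ} (h : |b - a| ≤ m) :
    (√(1 + b ^ 2))⁻¹ ≤ (2 + 2 * m ^ 2) * (√(1 + a ^ 2))⁻¹ := by
  have h1 := sq_cmp h
  have h2 : √(1 + a ^ 2) ≤ (2 + 2 * m ^ 2) * √(1 + b ^ 2) := by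
    refine Real.sqrt_le_iff.2 ⟨by positivity, ?_⟩
    rw [mul_pow, Real.sq_sqrt (by positivity)]
    refine h1.trans ?_
    gcongr
    nlinarith [sq_nonneg m]
  rw [← div_eq_mul_inv, inv_eq_one_div, div_le_div_iff₀ (by positivity) (by positivity)]
  linarith

theorem arctan_est {a b m : ℝ} (h : |b - a| ≤ m) :
    |arctan b - arctan a| ≤ m * (2 + 2 * m ^ 2) * (√(1 + a ^ 2))⁻¹ := by
  have hm : 0 ≤ m := (abs_nonneg _).trans h
  have h0 := (convex_closedBall a m).norm_image_sub_le_of_norm_hasDerivWithin_le (f := arctan)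
    (f' := fun x => (1 + x ^ 2)⁻¹) (C := (2 + 2 * m ^ 2) * (√(1 + a ^ 2))⁻¹)
    (fun x _ => (hasDerivAt_arctan' x).hasDerivWithinAt) (fun x hx => by
      rw [Metric.mem_closedBall, Real.dist_eq] at hx
      refine le_trans ?_ (w_est hx)
      rw [Real.norm_eq_abs, abs_of_nonneg (by positivity)]
      refine inv_anti₀ (by positivity) ?_
      have := one_le_sq1 x
      have h3 : √(1 + x ^ 2) ^ 2 = 1 + x ^ 2 := Real.sq_sqrt (by positivity)
      nlinarith)
    (Metric.mem_closedBall_self hm) (show b ∈ Metric.closedBall a m from h)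
  rw [Real.norm_eq_abs, Real.norm_eq_abs] at h0
  refine h0.trans ?_
  rw [mul_assoc m, mul_comm m]
  gcongr

theorem arctan_lip (a b : ℝ) : |arctan b - arctan a| ≤ |b - a| := by
  have h := convex_univ.norm_image_sub_le_of_norm_hasDerivWithin_le (f := arctan)
    (f' := fun x => (1 + x ^ 2)⁻¹) (C := 1)
    (fun x _ => (hasDerivAt_arctan' x).hasDerivWithinAt) (fun x _ => by
      rw [Real.norm_eq_abs, abs_of_nonneg (by positivity)]
      refine inv_le_one_of_one_le₀ ?_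
      nlinarith) (mem_univ a) (mem_univ b)
  simpa using h

/-- the action on the line, trivial outside `(-π/2, π/2)` -/
def Phi (c s x : ℝ) : ℝ := if |x| < π / 2 then arctan (Bf c s (tan x)) else x

theorem abs_arctan_lt (b : ℝ) : |arctan b| < π / 2 :=
  abs_lt.2 ⟨neg_pi_div_two_lt_arctan b, arctan_lt_pi_div_two b⟩

theorem Phi_comp (c s c' s' x : ℝ) :
    Phi c s (Phi c' s' x) = Phi (c * c') (c * s' + s) x := by
  unfold Phi
  by_cases h : |x| < π / 2
  · simp only [h, if_true, abs_arctan_lt, tan_arctan, Bf, sinh_arsinh]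
    congr 2; ring
  · simp only [h, if_false]

theorem Phi_one (x : ℝ) : Phi 1 0 x = x := by
  unfold Phi
  by_cases h : |x| < π / 2
  · simp only [h, if_true, Bf, one_mul, add_zero, arsinh_sinh]
    exact arctan_tan (abs_lt.1 h).1 (abs_lt.1 h).2
  · simp only [h, if_false]

theorem Phi_out {c s x : ℝ} (h : ¬ |x| < π / 2) : Phi c s x = x := by simp [Phi, h]

theorem Phi_ne {s : ℝ} (hs : s ≠ 0) : Phi 1 s 0 ≠ 0 := by
  simp [Phi, Bf, hs, pi_pos]

def ps (c s x : ℝ) : ℝ :=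
  if |x| < π / 2 then (1 + Bf c s (tan x) ^ 2)⁻¹ * (cosh (Bf c s (tan x)))⁻¹ else 0

def px (c s x : ℝ) : ℝ :=
  if |x| < π / 2 then (c * cosh (tan x) / cosh (Bf c s (tan x))) *
    ((1 + tan x ^ 2) / (1 + Bf c s (tan x) ^ 2)) - 1 else 0

def uD (c : ℝ) (p : ℝ × ℝ) : ℝ × ℝ →L[ℝ] ℝ :=
  ps c p.1 p.2 • ContinuousLinearMap.fst ℝ ℝ ℝ + px c p.1 p.2 • ContinuousLinearMap.snd ℝ ℝ ℝ

theorem inv_sqrt_le_one (b : ℝ) : (√(1 + b ^ 2))⁻¹ ≤ 1 := inv_le_one_of_one_le₀ (one_le_sq1 b)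

theorem ps_est (c s : ℝ) {x : ℝ} (h : |x| < π / 2) :
    |ps c s x| ≤ (√(1 + Bf c s (tan x) ^ 2))⁻¹ := by
  simp only [ps, h, if_true]
  set b := Bf c s (tan x)
  have := cosh_pos b
  rw [abs_of_nonneg (by positivity)]
  have h1 : (1 + b ^ 2)⁻¹ ≤ 1 := inv_le_one_of_one_le₀ (by nlinarith)
  have h2 : (cosh b)⁻¹ ≤ (√(1 + b ^ 2))⁻¹ := inv_anti₀ (by positivity) (sqrt_le_cosh b)
  calc _ ≤ 1 * (√(1 + b ^ 2))⁻¹ := by gcongr
    _ = _ := one_mul _

theorem px_est {c : ℝ} (hc : 1 / 2 ≤ c) (hc2 : c ≤ 2) (s : ℝ) {x : ℝ} (h : |x| < π / 2) :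
    |px c s x| ≤ (mm c s * (2 + mm c s)) * (2 + mm c s * (2 + mm c s)) *
      (√(1 + Bf c s (tan x) ^ 2))⁻¹ := by
  simp only [px, h, if_true]
  have h1 := q1_est (a := tan x) (b := Bf c s (tan x)) (s := s) hc hc2 (sinh_arsinh _)
  have h2 := q2_est (Bf_sub hc s (tan x))
  have h3 := inv_sqrt_le_one (Bf c s (tan x))
  have hm := mm_nonneg c s
  set q1 := c * cosh (tan x) / cosh (Bf c s (tan x))
  set q2 := (1 + tan x ^ 2) / (1 + Bf c s (tan x) ^ 2)
  set w := (√(1 + Bf c s (tan x) ^ 2))⁻¹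
  set M := mm c s * (2 + mm c s)
  have hM : 0 ≤ M := by positivity
  have hw : 0 ≤ w := by positivity
  have e : q1 * q2 - 1 = (q1 - 1) * (q2 - 1) + (q1 - 1) + (q2 - 1) := by ring
  have h4 : |(q1 - 1) * (q2 - 1)| ≤ M * w * M := by
    rw [abs_mul]
    refine mul_le_mul h1 (h2.trans ?_) (abs_nonneg _) (by positivity)
    exact mul_le_of_le_one_right hM h3
  rw [e]
  calc _ ≤ |(q1 - 1) * (q2 - 1)| + |q1 - 1| + |q2 - 1| := abs_add_three _ _ _
    _ ≤ M * w * M + M * w + M * w := by gcongr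
    _ = _ := by ring

theorem inv_sqrt_tan {x : ℝ} (h : |x| < π / 2) : (√(1 + tan x ^ 2))⁻¹ ≤ π / 2 - |x| := by
  have h1 := cos_arctan (tan x)
  rw [arctan_tan (abs_lt.1 h).1 (abs_lt.1 h).2, one_div] at h1
  rw [← h1, ← cos_abs, ← sin_pi_div_two_sub]
  exact sin_le (by linarith)

theorem u_hasFDerivAt (c : ℝ) {p : ℝ × ℝ} (h : |p.2| < π / 2) :
    HasFDerivAt (fun p : ℝ × ℝ => Phi c p.1 p.2 - p.2) (uD c p) p := by
  have hcos : cos p.2 ≠ 0 := (cos_pos_of_mem_Ioo (abs_lt.1 h)).ne'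
  have h1 : HasFDerivAt (fun p : ℝ × ℝ => tan p.2)
      ((1 / cos p.2 ^ 2) • ContinuousLinearMap.snd ℝ ℝ ℝ) p :=
    (hasDerivAt_tan hcos).comp_hasFDerivAt p hasFDerivAt_snd
  have h2 := ((h1.sinh.const_mul c).add hasFDerivAt_fst).arsinh.arctan.sub hasFDerivAt_snd
  have h3 : (fun p : ℝ × ℝ => Phi c p.1 p.2 - p.2) =ᶠ[𝓝 p]
      fun p : ℝ × ℝ => arctan (arsinh (c * sinh (tan p.2) + p.1)) - p.2 := by
    have hc : Continuous fun p : ℝ × ℝ => |p.2| := by fun_prop
    filter_upwards [hc.continuousAt.eventually_lt continuousAt_const h] with q hq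
    simp only [Phi, hq, if_true, Bf]
  refine HasFDerivAt.congr_of_eventuallyEq ?_ h3
  refine h2.congr_fderiv ?_
  have e1 : 1 / cos p.2 ^ 2 = 1 + tan p.2 ^ 2 := by
    rw [← inv_one_add_tan_sq hcos, one_div, inv_inv]
  have e2 : √(1 + (c * sinh (tan p.2) + p.1) ^ 2) = cosh (Bf c p.1 (tan p.2)) :=
    (cosh_arsinh _).symm
  have hp := cosh_pos (Bf c p.1 (tan p.2))
  ext
  · simp [uD, ps, px, h, Bf]
  · simp only [uD, ps, px, h, if_true, Pi.add_apply, e1, e2]
    simp [Bf]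
    unfold Bf at hp
    field_simp

theorem uD_continuousOn (c : ℝ) : ContinuousOn (uD c) {p : ℝ × ℝ | |p.2| < π / 2} := by
  have ht : ContinuousOn (fun p : ℝ × ℝ => tan p.2) {p : ℝ × ℝ | |p.2| < π / 2} := fun p hp =>
    ((continuousAt_tan.2 (cos_pos_of_mem_Ioo (abs_lt.1 hp)).ne').comp
      continuous_snd.continuousAt).continuousWithinAt
  have hb : ContinuousOn (fun p : ℝ × ℝ => Bf c p.1 (tan p.2)) {p : ℝ × ℝ | |p.2| < π / 2} :=
    ((continuousOn_const.mul (continuous_sinh.comp_continuousOn ht)).add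
      continuous_fst.continuousOn).arsinh
  have hcb := continuous_cosh.comp_continuousOn hb
  have h1 : ContinuousOn (fun p : ℝ × ℝ => ps c p.1 p.2) {p : ℝ × ℝ | |p.2| < π / 2} := by
    refine ContinuousOn.congr (f := fun p : ℝ × ℝ =>
      (1 + Bf c p.1 (tan p.2) ^ 2)⁻¹ * (cosh (Bf c p.1 (tan p.2)))⁻¹) ?_ (fun p hp => if_pos hp)
    exact ((continuousOn_const.add (hb.pow 2)).inv₀ (fun p _ => by
      have : 0 < 1 + Bf c p.1 (tan p.2) ^ 2 := by positivity
      exact this.ne')).mul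
      (hcb.inv₀ fun p _ => (cosh_pos _).ne')
  have h2 : ContinuousOn (fun p : ℝ × ℝ => px c p.1 p.2) {p : ℝ × ℝ | |p.2| < π / 2} := by
    refine ContinuousOn.congr (f := fun p : ℝ × ℝ =>
      (c * cosh (tan p.2) / cosh (Bf c p.1 (tan p.2))) *
        ((1 + tan p.2 ^ 2) / (1 + Bf c p.1 (tan p.2) ^ 2)) - 1) ?_ (fun p hp => if_pos hp)
    refine ContinuousOn.sub (ContinuousOn.mul ?_ ?_) continuousOn_const
    · exact (continuousOn_const.mul (continuous_cosh.comp_continuousOn ht)).div hcb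
        fun p _ => (cosh_pos _).ne'
    · exact (continuousOn_const.add (ht.pow 2)).div (continuousOn_const.add (hb.pow 2))
        fun p _ => by positivity
  exact (h1.smul continuousOn_const).add (h2.smul continuousOn_const)

theorem norm_uD_le (c : ℝ) (p : ℝ × ℝ) : ‖uD c p‖ ≤ |ps c p.1 p.2| + |px c p.1 p.2| := by
  refine ContinuousLinearMap.opNorm_le_bound _ (by positivity) fun v => ?_
  simp only [uD, ContinuousLinearMap.add_apply, ContinuousLinearMap.smul_apply,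
    ContinuousLinearMap.coe_fst', ContinuousLinearMap.coe_snd', smul_eq_mul, Real.norm_eq_abs]
  have h1 : |v.1| ≤ ‖v‖ := norm_fst_le v
  have h2 : |v.2| ≤ ‖v‖ := norm_snd_le v
  calc _ ≤ |ps c p.1 p.2 * v.1| + |px c p.1 p.2 * v.2| := abs_add_le _ _
    _ = |ps c p.1 p.2| * |v.1| + |px c p.1 p.2| * |v.2| := by rw [abs_mul, abs_mul]
    _ ≤ |ps c p.1 p.2| * ‖v‖ + |px c p.1 p.2| * ‖v‖ := by gcongr
    _ = _ := by ring

theorem u_contDiff {c : ℝ} (hc : 1 / 2 ≤ c) (hc2 : c ≤ 2) :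
    ContDiff ℝ 1 (fun p : ℝ × ℝ => Phi c p.1 p.2 - p.2) ∧
      ∀ p, HasFDerivAt (fun p : ℝ × ℝ => Phi c p.1 p.2 - p.2) (uD c p) p := by
  set M : ℝ → ℝ := fun s => mm c s * (2 + mm c s) with hM
  set C : ℝ → ℝ := fun s => (1 + mm c s + M s * (2 + M s)) * (2 + 2 * mm c s ^ 2) with hC
  have hmc : Continuous (mm c) := by unfold mm; fun_prop
  have hCc : Continuous C := by simp only [hC, hM]; fun_prop
  refine glue_contDiff (O := {p : ℝ × ℝ | |p.2| < π / 2})
    (κ := fun p => C p.1 * max 0 (π / 2 - |p.2|))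
    (isOpen_lt (by fun_prop) continuous_const) ?_ (fun p hp => u_hasFDerivAt c hp)
    (uD_continuousOn c) (fun p hp => by rw [Phi_out hp, sub_self]) (fun p hp => ?_)
    (by fun_prop) (fun p hp => ?_) (fun p hp => ?_) (fun p hp => ?_)
  · have : {p : ℝ × ℝ | |p.2| < π / 2} = univ ×ˢ Ioo (-(π / 2)) (π / 2) := by
      ext p; simp [abs_lt]
    rw [this]
    exact convex_univ.prod (convex_Ioo _ _)
  · have hp' : ¬ |p.2| < π / 2 := hp
    simp [uD, ps, px, hp']
  · have hp' : π / 2 ≤ |p.2| := not_lt.1 hp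
    rw [max_eq_left (by linarith), mul_zero]
  · have hp' : |p.2| < π / 2 := hp
    have hm := mm_nonneg c p.1
    have h1 := arctan_est (Bf_sub hc p.1 (tan p.2))
    rw [arctan_tan (abs_lt.1 hp').1 (abs_lt.1 hp').2] at h1
    simp only [Phi, hp', if_true, Real.norm_eq_abs]
    refine h1.trans ?_
    refine mul_le_mul ?_ ((inv_sqrt_tan hp').trans (le_max_right _ _)) (by positivity)
      (by simp only [hC, hM]; positivity)
    simp only [hC, hM]
    gcongr
    have : 0 ≤ mm c p.1 * (2 + mm c p.1) * (2 + mm c p.1 * (2 + mm c p.1)) := by positivity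
    linarith
  · have hp' : |p.2| < π / 2 := hp
    have hm := mm_nonneg c p.1
    have h1 := ps_est c p.1 hp'
    have h2 := px_est hc hc2 p.1 hp'
    have h3 := w_est (Bf_sub hc p.1 (tan p.2))
    have h4 := (inv_sqrt_tan hp').trans (le_max_right 0 _)
    refine (norm_uD_le c p).trans ?_
    set w := (√(1 + Bf c p.1 (tan p.2) ^ 2))⁻¹
    have hw : 0 ≤ w := by positivity
    calc _ ≤ (1 + mm c p.1 + M p.1 * (2 + M p.1)) * w := by
          simp only [hM]; nlinarith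
      _ ≤ (1 + mm c p.1 + M p.1 * (2 + M p.1)) *
          ((2 + 2 * mm c p.1 ^ 2) * max 0 (π / 2 - |p.2|)) := by
          refine mul_le_mul_of_nonneg_left (h3.trans ?_) (by simp only [hM]; positivity)
          gcongr
      _ = _ := by simp only [hC]; ring

theorem ps_le (c s x : ℝ) : |ps c s x| ≤ 1 := by
  by_cases h : |x| < π / 2
  · exact (ps_est c s h).trans (inv_sqrt_le_one _)
  · simp [ps, h]

theorem px_le {c s : ℝ} (hc : 1 / 2 ≤ c) (hc2 : c ≤ 2) (hm : mm c s ≤ 1) (x : ℝ) :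
    |px c s x| ≤ 15 * mm c s := by
  have h0 := mm_nonneg c s
  by_cases h : |x| < π / 2
  · refine (px_est hc hc2 s h).trans ?_
    have h1 := inv_sqrt_le_one (Bf c s (tan x))
    have h2 : mm c s * (2 + mm c s) ≤ 3 * mm c s := by nlinarith
    calc _ ≤ (3 * mm c s) * (2 + 3) * 1 := by gcongr; linarith
      _ = _ := by ring
  · simp only [px, h, if_false, abs_zero]; positivity

theorem Phi_sub_le {c : ℝ} (hc : 1 / 2 ≤ c) (s x : ℝ) : |Phi c s x - x| ≤ mm c s := by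
  by_cases h : |x| < π / 2
  · have h1 := arctan_lip (tan x) (Bf c s (tan x))
    rw [arctan_tan (abs_lt.1 h).1 (abs_lt.1 h).2] at h1
    simp only [Phi, h, if_true]
    exact h1.trans (Bf_sub hc s _)
  · rw [Phi_out h, sub_self, abs_zero]; exact mm_nonneg c s

end Pool.Agent.H581Z
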