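import Pool.Agent.H581Z.Defs

open Set Filter Topology

noncomputable section

namespace Pool.Agent.H581Z

variable {d : ℕ}

abbrev E (d : ℕ) : Type := Fin d → ℝ

theorem proj_add (a b : E d) : proj (a + b) = proj a + proj b := by
  funext i; simp [proj]

theorem proj_sub (a b : E d) : proj (a - b) = proj a - proj b := by
  funext i; simp [proj]

theorem proj_neg (a : E d) : proj (-a) = -proj a := by
  funext i; simp [proj]

theorem proj_zero : proj (0 : E d) = 0 := by
  funext i; simp [proj]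

theorem proj_out (x : Tor d) : proj (fun i => Quotient.out (x i)) = x := by
  funext i; exact QuotientAddGroup.out_eq' (x i)

theorem proj_surj : Function.Surjective (proj : E d → Tor d) := fun x => ⟨_, proj_out x⟩

theorem proj_quot : IsOpenQuotientMap (proj : E d → Tor d) :=
  IsOpenQuotientMap.piMap (fun _ => QuotientAddGroup.isOpenQuotientMap_mk)

theorem continuous_proj : Continuous (proj : E d → Tor d) := proj_quot.continuous

theorem norm_proj_le (a : E d) : ‖proj a‖ ≤ ‖a‖ := by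
  refine (pi_norm_le_iff_of_nonneg (norm_nonneg _)).2 fun i => ?_
  exact (QuotientAddGroup.norm_mk_le_norm).trans (norm_le_pi_norm a i)

theorem dist_proj_le (a b : E d) : dist (proj a) (proj b) ≤ ‖a - b‖ := by
  rw [dist_eq_norm, ← proj_sub]; exact norm_proj_le _

theorem coe_eq_zero_int {t : ℝ} (h : (t : UnitAddCircle) = 0) : ∃ n : ℤ, t = n := by
  obtain ⟨n, hn⟩ := (AddCircle.coe_eq_zero_iff (1 : ℝ)).1 h
  exact ⟨n, by simpa using hn.symm⟩

theorem coe_int (n : ℤ) : ((n : ℝ) : UnitAddCircle) = 0 :=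
  (AddCircle.coe_eq_zero_iff (1 : ℝ)).2 ⟨n, by simp⟩

theorem coe_inj_of_lt {s t : ℝ} (h : (s : UnitAddCircle) = t) (hl : |s - t| < 1) : s = t := by
  have h0 : ((s - t : ℝ) : UnitAddCircle) = 0 := by rw [AddCircle.coe_sub, h, sub_self]
  obtain ⟨n, hn⟩ := coe_eq_zero_int h0
  rw [hn] at hl
  have : |n| < 1 := by exact_mod_cast hl
  have : n = 0 := Int.abs_lt_one_iff.1 this
  rw [this] at hn
  simpa [sub_eq_zero] using hn

theorem proj_inj_of_lt {a b : E d} (h : proj a = proj b) (hl : ‖a - b‖ < 1) : a = b := by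
  funext i
  refine coe_inj_of_lt (congrFun h i) ?_
  exact lt_of_le_of_lt (norm_le_pi_norm (a - b) i) hl

theorem norm_proj_eq {a : E d} (h : ‖a‖ ≤ 1 / 2) : ‖proj a‖ = ‖a‖ := by
  refine le_antisymm (norm_proj_le a) ?_
  refine (pi_norm_le_iff_of_nonneg (norm_nonneg _)).2 fun i => ?_
  have h1 : ‖(a i : UnitAddCircle)‖ = |a i| := by
    rw [AddCircle.norm_coe_eq_abs_iff (1 : ℝ) one_ne_zero]
    have := (norm_le_pi_norm a i).trans h
    simpa using this
  rw [Real.norm_eq_abs, ← h1]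
  exact norm_le_pi_norm (proj a) i

theorem exists_small_lift (x : Tor d) : ∃ a : E d, proj a = x ∧ ‖a‖ = ‖x‖ := by
  obtain ⟨b, rfl⟩ := proj_surj x
  have h1 : proj (fun i => b i - round (b i)) = proj b := by
    funext i
    simp only [proj, AddCircle.coe_sub, coe_int, sub_zero]
  refine ⟨fun i => b i - round (b i), h1, ?_⟩
  rw [← h1, norm_proj_eq]
  refine (pi_norm_le_iff_of_nonneg (by norm_num)).2 fun i => ?_
  exact abs_sub_round (b i)

theorem exists_lift_close (a : E d) (y : Tor d) :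
    ∃ b : E d, proj b = y ∧ ‖b - a‖ = dist y (proj a) := by
  obtain ⟨c, hc, hn⟩ := exists_small_lift (y - proj a)
  refine ⟨a + c, by rw [proj_add, hc]; abel, ?_⟩
  rw [dist_eq_norm, ← hn]; simp

theorem lifts_const {X : Type*} [TopologicalSpace X] [PreconnectedSpace X] [Nonempty X]
    {F G : X → E d} (hF : Continuous F) (hG : Continuous G)
    (h : ∀ z, proj (F z) = proj (G z)) : ∃ c : E d, proj c = 0 ∧ ∀ z, G z = F z + c := by
  obtain ⟨z0⟩ := ‹Nonempty X›
  refine ⟨G z0 - F z0, by rw [proj_sub, h, sub_self], fun z => ?_⟩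
  have key : G z - F z = G z0 - F z0 := by
    funext i
    have hd : IsDiscrete (range (Int.cast : ℤ → ℝ)) :=
      Int.isClosedEmbedding_coe_real.isEmbedding.isDiscrete_range
    refine isPreconnected_univ.constant_of_mapsTo hd
      (f := fun z => (G z - F z) i) (by fun_prop) ?_ (mem_univ z) (mem_univ z0)
    intro w _
    have h0 : (((G w - F w) i : ℝ) : UnitAddCircle) = 0 := by
      have := congrFun (proj_sub (G w) (F w)) i
      rw [h, sub_self] at this
      exact this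
    obtain ⟨n, hn⟩ := coe_eq_zero_int h0
    exact ⟨n, hn.symm⟩
  rw [← key]; abel

/-- `F` is a `C^1` lift of `f`. -/
structure Lift (f : Diff1 d) (F : E d → E d) : Prop where
  cd : ContDiff ℝ 1 F
  eq : ∀ z, proj (F z) = f.1 (proj z)

theorem exists_lift (f : Diff1 d) : ∃ F, Lift f F := by
  obtain ⟨F, h1, h2⟩ := f.2.1
  exact ⟨F, h1, h2⟩

theorem Lift.diff {f : Diff1 d} {F : E d → E d} (h : Lift f F) : Differentiable ℝ F :=
  h.cd.differentiable one_ne_zero

theorem Lift.D_eq {f : Diff1 d} {F : E d → E d} (h : Lift f F) (z : E d) :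
    D f (proj z) = fderiv ℝ F z := by
  have h0 : Lift f f.2.1.choose := ⟨f.2.1.choose_spec.1, f.2.1.choose_spec.2⟩
  set F0 := f.2.1.choose
  set w : E d := fun i => Quotient.out (proj z i) with hw
  have hwz : proj w = proj z := proj_out _
  have hk : proj (w - z) = 0 := by rw [proj_sub, hwz, sub_self]
  obtain ⟨c, -, hc⟩ := lifts_const (F := F) (G := fun y => F0 (y + (w - z))) h.cd.continuous
    (h0.cd.continuous.comp (continuous_id.add continuous_const))
    (fun y => by rw [h.eq, h0.eq, proj_add, hk, add_zero])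
  have h1 : HasFDerivAt (fun y => F0 (y + (w - z))) (fderiv ℝ F0 w) z := by
    have h2 : HasFDerivAt F0 (fderiv ℝ F0 w) (z + (w - z)) := by
      rw [add_sub_cancel]; exact (h0.diff w).hasFDerivAt
    simpa using h2.comp z ((hasFDerivAt_id z).add_const (w - z))
  have h3 : HasFDerivAt (fun y => F0 (y + (w - z))) (fderiv ℝ F z) z := by
    have : (fun y => F0 (y + (w - z))) = fun y => F y + c := funext hc
    rw [this]
    exact (h.diff z).hasFDerivAt.add_const c
  exact h1.unique h3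

theorem Lift.hasFDerivAt {f : Diff1 d} {F : E d → E d} (h : Lift f F) (z : E d) :
    HasFDerivAt F (D f (proj z)) z := by
  rw [h.D_eq]; exact (h.diff z).hasFDerivAt

theorem Lift.mul {f g : Diff1 d} {F G : E d → E d} (hf : Lift f F) (hg : Lift g G) :
    Lift (f * g) (F ∘ G) :=
  ⟨hf.cd.comp hg.cd, fun z => by rw [Function.comp_apply, hf.eq, hg.eq]; rfl⟩

theorem lift_one : Lift (1 : Diff1 d) id := ⟨contDiff_id, fun _ => rfl⟩

theorem Lift.add_const {f : Diff1 d} {F : E d → E d} (h : Lift f F) {c : E d} (hc : proj c = 0) :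
    Lift f (fun z => F z + c) :=
  ⟨h.cd.add contDiff_const, fun z => by rw [proj_add, hc, add_zero, h.eq]⟩

@[simp] theorem mul_ap (f g : Diff1 d) (x : Tor d) : (f * g).1 x = f.1 (g.1 x) := rfl
@[simp] theorem one_ap (x : Tor d) : (1 : Diff1 d).1 x = x := rfl
@[simp] theorem inv_ap (f : Diff1 d) (x : Tor d) : (f⁻¹).1 (f.1 x) = x := by
  rw [← mul_ap, inv_mul_cancel, one_ap]
@[simp] theorem ap_inv (f : Diff1 d) (x : Tor d) : f.1 ((f⁻¹).1 x) = x := by
  rw [← mul_ap, mul_inv_cancel, one_ap]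

theorem D_mul (f g : Diff1 d) (x : Tor d) : D (f * g) x = D f (g.1 x) ∘L D g x := by
  obtain ⟨z, rfl⟩ := proj_surj x
  obtain ⟨F, hF⟩ := exists_lift f
  obtain ⟨G, hG⟩ := exists_lift g
  have h1 := (hF.hasFDerivAt (G z)).comp z (hG.hasFDerivAt z)
  rw [hG.eq] at h1
  exact ((hF.mul hG).hasFDerivAt z).unique h1

theorem D_one (x : Tor d) : D (1 : Diff1 d) x = ContinuousLinearMap.id ℝ (E d) := by
  obtain ⟨z, rfl⟩ := proj_surj x
  rw [lift_one.D_eq, fderiv_id]

theorem D_inv_comp (f : Diff1 d) (x : Tor d) (v : E d) : D f⁻¹ (f.1 x) (D f x v) = v := by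
  have := D_mul f⁻¹ f x
  rw [inv_mul_cancel, D_one] at this
  exact (congrArg (fun L : E d →L[ℝ] E d => L v) this).symm

theorem D_comp_inv (f : Diff1 d) (x : Tor d) (v : E d) : D f x (D f⁻¹ (f.1 x) v) = v := by
  have := D_inv_comp f⁻¹ (f.1 x) v
  rwa [inv_inv, inv_ap] at this

/-- The derivative as a continuous linear equivalence. -/
def DE (f : Diff1 d) (x : Tor d) : E d ≃L[ℝ] E d :=
  ContinuousLinearEquiv.equivOfInverse (D f x) (D f⁻¹ (f.1 x)) (D_inv_comp f x) (D_comp_inv f x)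

theorem continuous_ap (f : Diff1 d) : Continuous f.1 := by
  obtain ⟨F, hF⟩ := exists_lift f
  rw [← proj_quot.continuous_comp_iff]
  have : (f.1 : Tor d → Tor d) ∘ proj = proj ∘ F := funext fun z => (hF.eq z).symm
  rw [this]
  exact continuous_proj.comp hF.cd.continuous

theorem continuous_D (f : Diff1 d) : Continuous (D f) := by
  obtain ⟨F, hF⟩ := exists_lift f
  rw [← proj_quot.continuous_comp_iff]
  have : D f ∘ proj = fderiv ℝ F := funext fun z => hF.D_eq z
  rw [this]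
  exact hF.cd.continuous_fderiv one_ne_zero

theorem exists_D_bound (f : Diff1 d) : ∃ K : ℝ, 1 ≤ K ∧ ∀ x, ‖D f x‖ ≤ K := by
  obtain ⟨K, hK⟩ := isCompact_univ.exists_bound_of_continuousOn (continuous_D f).continuousOn
  exact ⟨max K 1, le_max_right _ _, fun x => (hK x (mem_univ x)).trans (le_max_left _ _)⟩

theorem D_unif (f : Diff1 d) {ε : ℝ} (hε : 0 < ε) :
    ∃ δ > 0, ∀ x y, dist x y < δ → ‖D f x - D f y‖ < ε := by
  have := CompactSpace.uniformContinuous_of_continuous (continuous_D f)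
  obtain ⟨δ, hδ, h⟩ := Metric.uniformContinuous_iff.1 this ε hε
  exact ⟨δ, hδ, fun x y hxy => by rw [← dist_eq_norm]; exact h hxy⟩

theorem Lift.lip {f : Diff1 d} {F : E d → E d} (h : Lift f F) {K : ℝ} (hK : ∀ x, ‖D f x‖ ≤ K)
    (a b : E d) : ‖F a - F b‖ ≤ K * ‖a - b‖ :=
  convex_univ.norm_image_sub_le_of_norm_hasFDerivWithin_le (f' := fun z => D f (proj z))
    (fun z _ => (h.hasFDerivAt z).hasFDerivWithinAt) (fun z _ => hK _) (mem_univ b) (mem_univ a)

theorem dist_ap_le (f : Diff1 d) {K : ℝ} (hK : ∀ x, ‖D f x‖ ≤ K) (x y : Tor d) :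
    dist (f.1 x) (f.1 y) ≤ K * dist x y := by
  obtain ⟨F, hF⟩ := exists_lift f
  obtain ⟨b, rfl⟩ := proj_surj y
  obtain ⟨a, rfl, ha⟩ := exists_lift_close b x
  rw [← hF.eq, ← hF.eq, ← ha]
  exact (dist_proj_le _ _).trans (hF.lip hK a b)

theorem Lift.exists_inv {f : Diff1 d} {F : E d → E d} (h : Lift f F) :
    ∃ G, Lift f⁻¹ G ∧ (∀ z, G (F z) = z) ∧ ∀ z, F (G z) = z := by
  obtain ⟨G0, hG0⟩ := exists_lift f⁻¹
  obtain ⟨c, hc, e⟩ := lifts_const (F := fun z => G0 (F z)) (G := id)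
    (hG0.cd.continuous.comp h.cd.continuous) continuous_id
    (fun z => by rw [hG0.eq, h.eq, inv_ap]; rfl)
  have hG := hG0.add_const hc
  have e1 : ∀ z, G0 (F z) + c = z := fun z => (e z).symm
  obtain ⟨c', -, e'⟩ := lifts_const (F := id) (G := fun z => F (G0 z + c)) continuous_id
    (h.cd.continuous.comp hG.cd.continuous)
    (fun z => by rw [h.eq, hG.eq, ap_inv]; rfl)
  have hc' : c' = 0 := by
    have := e' (F 0)
    simp only [id, e1] at this
    simpa using this
  refine ⟨_, hG, e1, fun z => ?_⟩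
  have := e' z
  simpa [hc'] using this

/-- Closeness in the `C^1` topology. -/
def Close (ε : ℝ) (f g : Diff1 d) : Prop :=
  ∀ x, dist (f.1 x) (g.1 x) < ε ∧ ‖D f x - D g x‖ < ε

theorem Close.mono {ε ε' : ℝ} {f g : Diff1 d} (h : Close ε f g) (hε : ε ≤ ε') : Close ε' f g :=
  fun x => ⟨(h x).1.trans_le hε, (h x).2.trans_le hε⟩

theorem nhds_basis (f : Diff1 d) :
    (𝓝 f).HasBasis (fun ε : ℝ => 0 < ε) (fun ε => {g | Close ε f g}) := by
  rw [nhds_induced, nhds_prod_eq]
  have h1 := UniformFun.hasBasis_nhds_of_basis (Tor d) (Tor d)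
    (UniformFun.ofFun (fun x => f.1 x)) Metric.uniformity_basis_dist
  have h2 := UniformFun.hasBasis_nhds_of_basis (Tor d) (E d →L[ℝ] E d)
    (UniformFun.ofFun (D f)) Metric.uniformity_basis_dist
  have h3 := (h1.prod h2).comap
    (fun f : Diff1 d => (UniformFun.ofFun (fun x => f.1 x), UniformFun.ofFun (D f)))
  refine h3.to_hasBasis ?_ ?_
  · rintro ⟨ε1, ε2⟩ ⟨h1, h2⟩
    refine ⟨min ε1 ε2, lt_min h1 h2, fun g hg => ⟨fun x => ?_, fun x => ?_⟩⟩
    · exact (hg x).1.trans_le (min_le_left _ _)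
    · have := (hg x).2.trans_le (min_le_right _ _)
      rw [← dist_eq_norm] at this
      exact this
  · intro ε hε
    refine ⟨(ε, ε), ⟨hε, hε⟩, fun g hg x => ⟨hg.1 x, ?_⟩⟩
    rw [← dist_eq_norm]
    exact hg.2 x

theorem mem_nhds_close (f : Diff1 d) {ε : ℝ} (hε : 0 < ε) : {g | Close ε f g} ∈ 𝓝 f :=
  (nhds_basis f).mem_of_mem hε

theorem inv_close (f : Diff1 d) {ε : ℝ} (hε : 0 < ε) :
    ∃ δ > 0, ∀ g, Close δ f g → Close ε f⁻¹ g⁻¹ := by
  obtain ⟨K, hK1, hK⟩ := exists_D_bound f⁻¹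
  have hK0 : 0 < K := by linarith
  set η : ℝ := min (1 / (2 * K)) (ε / (4 * K ^ 2)) with hη
  have hη0 : 0 < η := lt_min (by positivity) (by positivity)
  obtain ⟨δ1, hδ1, h1⟩ := D_unif f (half_pos hη0)
  refine ⟨min (η / 2) (min (δ1 / K) (ε / K)), lt_min (half_pos hη0) (lt_min (by positivity)
    (by positivity)), fun g hg y => ?_⟩
  have hd : dist ((f⁻¹).1 y) ((g⁻¹).1 y) < K * min (δ1 / K) (ε / K) := by
    have e1 : (g⁻¹).1 y = (f⁻¹).1 (f.1 ((g⁻¹).1 y)) := by rw [inv_ap]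
    rw [e1]
    refine (dist_ap_le f⁻¹ hK _ _).trans_lt (mul_lt_mul_of_pos_left ?_ hK0)
    have := (hg ((g⁻¹).1 y)).1
    rw [ap_inv, dist_comm] at this
    exact this.trans_le (min_le_right _ _)
  have hd1 : dist ((f⁻¹).1 y) ((g⁻¹).1 y) < δ1 := by
    refine hd.trans_le ?_
    calc K * min (δ1 / K) (ε / K) ≤ K * (δ1 / K) := by gcongr; exact min_le_left _ _
      _ = δ1 := by field_simp
  have hd2 : dist ((f⁻¹).1 y) ((g⁻¹).1 y) < ε := by
    refine hd.trans_le ?_
    calc K * min (δ1 / K) (ε / K) ≤ K * (ε / K) := by gcongr; exact min_le_right _ _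
      _ = ε := by field_simp
  refine ⟨hd2, ?_⟩
  set X := D f ((f⁻¹).1 y)
  set Y := D g ((g⁻¹).1 y)
  set X' := D f⁻¹ y
  set Y' := D g⁻¹ y
  have hXY : ‖X - Y‖ < η := by
    have a1 := h1 _ _ hd1
    have a2 := (hg ((g⁻¹).1 y)).2.trans_le (min_le_left _ _)
    calc ‖X - Y‖ = ‖(X - D f ((g⁻¹).1 y)) + (D f ((g⁻¹).1 y) - Y)‖ := by congr 1; abel
      _ ≤ _ := norm_add_le _ _
      _ < η / 2 + η / 2 := add_lt_add a1 a2
      _ = η := by ring
  have e1 : ∀ v, X' (X v) = v := fun v => by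
    have := D_inv_comp f ((f⁻¹).1 y) v
    rwa [ap_inv] at this
  have e2 : ∀ v, Y (Y' v) = v := fun v => by
    have := D_comp_inv g ((g⁻¹).1 y) v
    rwa [ap_inv] at this
  have e3 : X' - Y' = X' ∘L (Y - X) ∘L Y' := by
    ext1 v
    simp [e1, e2]
  have hX' : ‖X'‖ ≤ K := hK y
  have b1 : ‖X' - Y'‖ ≤ K * (η * ‖Y'‖) := by
    rw [e3]
    refine (ContinuousLinearMap.opNorm_comp_le _ _).trans ?_
    refine mul_le_mul hX' ((ContinuousLinearMap.opNorm_comp_le _ _).trans ?_) (norm_nonneg _) hK0.le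
    rw [norm_sub_rev]
    gcongr
  have hη1 : K * η ≤ 1 / 2 := by
    calc K * η ≤ K * (1 / (2 * K)) := by gcongr; exact min_le_left _ _
      _ = 1 / 2 := by field_simp
  have hη2 : K * η * (2 * K) ≤ ε / 2 := by
    calc K * η * (2 * K) ≤ K * (ε / (4 * K ^ 2)) * (2 * K) := by gcongr; exact min_le_right _ _
      _ = ε / 2 := by field_simp; ring
  have b2 : ‖Y'‖ ≤ 2 * K := by
    have : ‖Y'‖ ≤ ‖X'‖ + ‖X' - Y'‖ := by
      calc ‖Y'‖ = ‖X' - (X' - Y')‖ := by congr 1; abel
        _ ≤ _ := norm_sub_le _ _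
    nlinarith [norm_nonneg Y']
  calc ‖X' - Y'‖ ≤ K * η * ‖Y'‖ := by linarith [b1]
    _ ≤ K * η * (2 * K) := by gcongr
    _ < ε := by linarith

theorem continuous_inv' : Continuous (fun f : Diff1 d => f⁻¹) := by
  rw [continuous_iff_continuousAt]
  intro f
  refine ((nhds_basis f).tendsto_iff (nhds_basis f⁻¹)).2 fun ε hε => ?_
  obtain ⟨δ, hδ, h⟩ := inv_close f hε
  exact ⟨δ, hδ, fun g hg => h g hg⟩

end Pool.Agent.H581Z
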