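import Pool.Agent.H581Z.Model

open Set Filter Topology Metric

noncomputable section

namespace Pool.Agent.H581Z

variable {d : ℕ}

theorem modulus (f : Diff1 d) : ∃ ω : ℝ → ℝ, (∀ s, 0 ≤ ω s) ∧
    (∀ x y s, dist x y ≤ s → ‖D f x - D f y‖ ≤ ω s) ∧ Tendsto ω (𝓝 0) (𝓝 0) := by
  obtain ⟨K, -, hK⟩ := exists_D_bound f
  let S : ℝ → Set ℝ := fun s => (fun p : Tor d × Tor d => ‖D f p.1 - D f p.2‖) ''
    {p | dist p.1 p.2 ≤ s}
  have h0 : ∀ s, 0 ≤ sSup (S s) := fun s => Real.sSup_nonneg (by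
    rintro _ ⟨p, -, rfl⟩; exact norm_nonneg _)
  refine ⟨fun s => sSup (S s), h0, fun x y s h => ?_, ?_⟩
  · refine le_csSup ⟨K + K, ?_⟩ ⟨(x, y), h, rfl⟩
    rintro _ ⟨p, -, rfl⟩
    exact (norm_sub_le _ _).trans (add_le_add (hK _) (hK _))
  · rw [Metric.tendsto_nhds_nhds]
    intro ε hε
    obtain ⟨δ, hδ, h⟩ := D_unif f (half_pos hε)
    refine ⟨δ, hδ, fun s hs => ?_⟩
    rw [Real.dist_eq, sub_zero] at hs ⊢
    rw [abs_of_nonneg (h0 s)]
    refine lt_of_le_of_lt (Real.sSup_le ?_ (half_pos hε).le) (half_lt_self hε)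
    rintro _ ⟨p, hp, rfl⟩
    exact (h _ _ (lt_of_le_of_lt hp (lt_of_abs_lt hs))).le

theorem perturb' (f : Diff1 d) {ε : ℝ} (hε : 0 < ε) :
    ∃ η > 0, ∀ (c : E d) (a : ℝ) (U : E d → E d), a < 1 / 2 → (∀ z, a < ‖z - c‖ → U z = 0) →
      ContDiff ℝ 1 U → (∀ z, ‖fderiv ℝ U z‖ ≤ η) →
      ∃ g : Diff1 d, Close ε f g ∧ ∀ x, g.1 x = f.1 x + proj (U (loc c x)) := by
  obtain ⟨η, hη, h⟩ := perturb f hε
  refine ⟨η, hη, fun c a U ha hU hc h1 => h c a U ha hU hc (fun z => ?_) h1⟩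
  by_cases hz : a < ‖z - c‖
  · rw [hU z hz, norm_zero]; exact hη.le
  rcases isEmpty_or_nonempty (Fin d) with hd | hd
  · rw [Subsingleton.elim (U z) 0, norm_zero]; exact hη.le
  · have e1 : ‖(c + fun _ => 1 / 2) - c‖ = 1 / 2 := by
      rw [add_sub_cancel_left, pi_norm_const]; norm_num
    have h2 : U (c + fun _ => 1 / 2) = 0 := hU _ (by rw [e1]; exact ha)
    have h3 := convex_univ.norm_image_sub_le_of_norm_fderiv_le
      (fun z _ => hc.differentiable one_ne_zero z) (fun z _ => h1 z)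
      (mem_univ (c + fun _ => 1 / 2)) (mem_univ z)
    rw [h2, sub_zero] at h3
    refine h3.trans (mul_le_of_le_one_right hη.le ?_)
    calc ‖z - (c + fun _ => 1 / 2)‖ = ‖(z - c) - ((c + fun _ => 1 / 2) - c)‖ := by congr 1; abel
      _ ≤ ‖z - c‖ + ‖(c + fun _ => 1 / 2) - c‖ := norm_sub_le _ _
      _ ≤ 1 := by rw [e1]; linarith [not_lt.1 hz]

theorem homeo_ball {w : E d → E d} (hw : ContDiff ℝ 1 w) (hb : ∀ z, ‖fderiv ℝ w z‖ ≤ 1 / 2)
    {R : ℝ} (h0 : ∀ v, R ≤ ‖v‖ → w v = 0) :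
    (∀ v, ‖v‖ ≤ R → ‖v + w v‖ ≤ R) ∧ ∀ y, ‖y‖ ≤ R → ∃ v, ‖v‖ ≤ R ∧ v + w v = y := by
  obtain ⟨K, hK, -⟩ := exists_homeo_of_small hw hb
  refine ⟨fun v hv => ?_, fun y hy => ?_⟩
  · by_contra h
    have h1 : K (v + w v) = K v := by rw [hK, hK, h0 _ (not_le.1 h).le, add_zero]
    have h2 := K.injective h1
    rw [h2] at h
    exact h hv
  · refine ⟨K.symm y, ?_, by rw [← hK, K.apply_symm_apply]⟩
    by_contra h
    have h1 := hK (K.symm y)
    rw [K.apply_symm_apply, h0 _ (not_le.1 h).le, add_zero] at h1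
    rw [← h1] at h
    exact h hy

theorem smul_vec {a : E d → ℝ} (ha : ContDiff ℝ 1 a) {ε : ℝ} (hb : ∀ v, ‖fderiv ℝ a v‖ ≤ ε)
    (N : E d →L[ℝ] E d) (x y : E d) {r : ℝ} (hr : 0 < r) :
    ContDiff ℝ 1 (fun z => (r * a (r⁻¹ • N (z - x))) • y) ∧
      ∀ z, ‖fderiv ℝ (fun z => (r * a (r⁻¹ • N (z - x))) • y) z‖ ≤ ε * (‖y‖ * ‖N‖) := by
  have h1 : ContDiff ℝ 1 (fun z => r⁻¹ • N (z - x)) :=
    (N.contDiff.comp (contDiff_id.sub contDiff_const)).const_smul _
  refine ⟨(contDiff_const.mul (ha.comp h1)).smul contDiff_const, fun z => ?_⟩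
  have h2 : HasFDerivAt (fun z => r⁻¹ • N (z - x)) (r⁻¹ • N) z := by
    have := (N.hasFDerivAt.comp z ((hasFDerivAt_id z).sub_const x)).const_smul r⁻¹
    simpa using this
  have h3 := ((((ha.differentiable one_ne_zero _).hasFDerivAt.comp z h2).const_mul r).smul_const y)
  have h4 : fderiv ℝ (fun z => (r * a (r⁻¹ • N (z - x))) • y) z = _ := h3.fderiv
  rw [h4, ContinuousLinearMap.norm_smulRight_apply, norm_smul, Real.norm_eq_abs, abs_of_pos hr]
  have h5 : ‖fderiv ℝ a (r⁻¹ • N (z - x)) ∘L (r⁻¹ • N)‖ ≤ ε * (r⁻¹ * ‖N‖) := by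
    refine (ContinuousLinearMap.opNorm_comp_le _ _).trans ?_
    rw [norm_smul, Real.norm_eq_abs, abs_of_pos (inv_pos.2 hr)]
    exact mul_le_mul_of_nonneg_right (hb _) (by positivity)
  calc _ ≤ r * (ε * (r⁻¹ * ‖N‖)) * ‖y‖ := by gcongr
    _ = _ := by field_simp

theorem fderiv_zero_of_ball {u : E d → E d} {x : E d} {s s' : ℝ} (hs : s' < s)
    (h : ∀ z, s' < ‖z - x‖ → u z = 0) {z : E d} (hz : z ∉ ball x s) :
    u z = 0 ∧ fderiv ℝ u z = 0 := by
  rw [mem_ball_iff_norm, not_lt] at hz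
  have h1 : s' < ‖z - x‖ := hs.trans_le hz
  refine ⟨h z h1, ?_⟩
  have hc : Continuous fun z : E d => ‖z - x‖ := by fun_prop
  have : u =ᶠ[𝓝 z] fun _ => 0 := by
    filter_upwards [continuousAt_const.eventually_lt hc.continuousAt h1] with y hy using h y hy
  rw [this.fderiv_eq, fderiv_fun_const]; rfl

theorem lin_bump : ∃ Kβ : ℝ, 0 ≤ Kβ ∧ ∀ (F : E d → E d), ContDiff ℝ 1 F → ∀ (x : E d) (s ω : ℝ),
    0 < s → (∀ z, ‖z - x‖ ≤ s → ‖fderiv ℝ F x - fderiv ℝ F z‖ ≤ ω) →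
    ∃ u : E d → E d, ContDiff ℝ 1 u ∧ (∀ z, 3 / 4 * s < ‖z - x‖ → u z = 0) ∧
      (∀ z, ‖z - x‖ ≤ s / 2 → F z + u z = F x + fderiv ℝ F x (z - x)) ∧
      ∀ z, ‖fderiv ℝ u z‖ ≤ (1 + Kβ) * ω := by
  let β : ContDiffBump (0 : E d) := ⟨1 / 2, 3 / 4, by norm_num, by norm_num⟩
  obtain ⟨K, hK0, hK⟩ := bump_bound β
  refine ⟨K, hK0, fun F hF x s ω hs hω => ?_⟩
  have hβc : ContDiff ℝ 1 β := β.contDiff
  have hω0 : 0 ≤ ω := (norm_nonneg _).trans (hω x (by simpa using hs.le))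
  set A := fderiv ℝ F x
  have hL : ∀ z, HasFDerivAt (fun z => F x + A (z - x) - F z) (A - fderiv ℝ F z) z := fun z => by
    have h1 := ((A.hasFDerivAt.comp z ((hasFDerivAt_id z).sub_const x)).const_add (F x)).sub
      (hF.differentiable one_ne_zero z).hasFDerivAt
    simpa using h1
  have hn : ∀ z, ‖s⁻¹ • (z - x)‖ = s⁻¹ * ‖z - x‖ := fun z => by
    rw [norm_smul, Real.norm_eq_abs, abs_of_pos (inv_pos.2 hs)]
  have h0 : ∀ z, 3 / 4 * s < ‖z - x‖ → β (s⁻¹ • (z - x)) • (F x + A (z - x) - F z) = 0 := by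
    intro z hz
    rw [β.zero_of_le_dist, zero_smul]
    rw [dist_zero_right, hn, le_inv_mul_iff₀ hs]
    change s * (3 / 4) ≤ _
    linarith
  refine ⟨fun z => β (s⁻¹ • (z - x)) • (F x + A (z - x) - F z), ?_, h0, fun z hz => ?_,
    fun z => ?_⟩
  · exact (hβc.comp ((contDiff_id.sub contDiff_const).const_smul _)).smul
      ((contDiff_const.add (A.contDiff.comp (contDiff_id.sub contDiff_const))).sub hF)
  · have : β (s⁻¹ • (z - x)) = 1 := by
      refine β.one_of_mem_closedBall ?_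
      rw [mem_closedBall, dist_zero_right, hn, inv_mul_le_iff₀ hs]
      change _ ≤ s * (1 / 2)
      linarith
    simp only [this, one_smul]; abel
  · by_cases hz : z ∈ ball x s
    · have h1 : HasFDerivAt (fun z => s⁻¹ • (z - x)) (s⁻¹ • ContinuousLinearMap.id ℝ (E d)) z :=
        ((hasFDerivAt_id z).sub_const x).const_smul s⁻¹
      have h2 := ((hβc.differentiable one_ne_zero _).hasFDerivAt.comp z h1).smul (hL z)
      have h3 : fderiv ℝ (fun z => β (s⁻¹ • (z - x)) • (F x + A (z - x) - F z)) z = _ := h2.fderiv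
      rw [h3]
      have h4 : ‖F x + A (z - x) - F z‖ ≤ ω * s := by
        have := (convex_closedBall x s).norm_image_sub_le_of_norm_hasFDerivWithin_le
          (fun z _ => (hL z).hasFDerivWithinAt) (fun z hz => hω z (mem_closedBall_iff_norm.1 hz))
          (mem_closedBall_self hs.le) (ball_subset_closedBall hz)
        simp only [sub_self, map_zero, add_zero, sub_zero] at this
        exact this.trans (mul_le_mul_of_nonneg_left (mem_ball_iff_norm.1 hz).le hω0)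
      have h5 : ‖fderiv ℝ β (s⁻¹ • (z - x)) ∘L (s⁻¹ • ContinuousLinearMap.id ℝ (E d))‖
          ≤ K * (s⁻¹ * 1) := by
        refine (ContinuousLinearMap.opNorm_comp_le _ _).trans ?_
        rw [norm_smul, Real.norm_eq_abs, abs_of_pos (inv_pos.2 hs)]
        gcongr
        · exact hK _
        · exact ContinuousLinearMap.norm_id_le
      refine (norm_add_le _ _).trans ?_
      rw [norm_smul, ContinuousLinearMap.norm_smulRight_apply, Real.norm_eq_abs]
      have h6 : |(β ∘ fun z => s⁻¹ • (z - x)) z| ≤ 1 := by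
        rw [Function.comp_apply, abs_of_nonneg β.nonneg]; exact β.le_one
      calc _ ≤ 1 * ω + K * (s⁻¹ * 1) * (ω * s) := by
            gcongr
            exact hω z (mem_ball_iff_norm.1 hz).le
        _ = _ := by field_simp
    · rw [(fderiv_zero_of_ball (by linarith) h0 hz).2, norm_zero]; positivity

theorem zpow_orbit {g : Diff1 d} {X : ℤ → Tor d} (h : ∀ n, g.1 (X n) = X (n + 1)) (m : ℤ) :
    (g ^ m).1 (X 0) = X m := by
  induction m using Int.induction_on with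
  | zero => simp
  | succ n ih => rw [add_comm, zpow_one_add, mul_ap, ih, h, add_comm]
  | pred n ih =>
    have e : (-(n : ℤ) - 1) = -1 + -n := by ring
    have h1 := h (-n - 1)
    rw [sub_add_cancel] at h1
    rw [e, zpow_add, mul_ap, ih, ← h1, zpow_neg_one, inv_ap, e]

theorem mem_closure_nontriv (f : Diff1 d) (c : E d) {a : ℝ} (ha : a < 1 / 2) (x : ℤ → E d)
    (ρ : ℤ → ℝ) {e : E d} {K : ℝ} (hK : 0 < K)
    (hx : ∀ n, f.1 (proj (x n)) = proj (x (n + 1)))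
    (hρ : ∀ n, 0 < ρ n) (hρ0 : Tendsto ρ cofinite (𝓝 0)) (hbox : ∀ n, ‖x n - c‖ + ρ n ≤ a)
    (hdisj : ∀ n m, n ≠ m → ρ n + ρ m ≤ ‖x n - x m‖) (he : e ≠ 0)
    (hM1 : ∀ n : ℤ, ‖D (f ^ n) (proj (x 0))‖ ≤ K * ρ n)
    (hM2 : ∀ n : ℤ, ‖D (f ^ n) (proj (x 0)) e‖ * ‖D (f ^ n)⁻¹ (proj (x n))‖ ≤ K) :
    f ∈ closure {g | ¬ TrivCent g} := by
  rw [mem_closure_iff_nhds_basis (nhds_basis f)]
  intro ε hε
  obtain ⟨F, hF⟩ := exists_lift f
  obtain ⟨KF, hKF1, hKF⟩ := exists_D_bound f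
  obtain ⟨η0, hη0, hp0⟩ := perturb' f hε
  obtain ⟨η1, hη1, hp1⟩ := perturb' (1 : Diff1 d) one_pos
  obtain ⟨R, hR, hmod⟩ := model he
  obtain ⟨Kβ, hKβ, hlin⟩ := lin_bump (d := d)
  obtain ⟨ω, hω0, hω, hωt⟩ := modulus f
  have he0 : 0 < ‖e‖ := norm_pos_iff.2 he
  obtain ⟨aa, bb, ee, hεt, hee, hab, hbd, hsupp, hz0, hcomm, v0, hv0⟩ :=
    hmod (min (η0 / 2 / (KF * K)) (min (η1 / K) (1 / 2 / ‖e‖)))
      (lt_min (by positivity) (lt_min (by positivity) (by positivity)))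
  obtain ⟨δ, hδ, hδω⟩ := Metric.tendsto_nhds_nhds.1 hωt (η0 / 2 / (1 + Kβ)) (by positivity)
  set t : ℝ := min 1 δ with ht
  have ht0 : 0 < t := lt_min one_pos hδ
  set s : ℤ → ℝ := fun n => t * ρ n with hs
  have hs0 : ∀ n, 0 < s n := fun n => mul_pos ht0 (hρ n)
  have hsρ : ∀ n, s n ≤ ρ n := fun n => mul_le_of_le_one_left (hρ n).le (min_le_left _ _)
  have hρa : ∀ n, ρ n < 1 / 2 := fun n => by linarith [hbox n, norm_nonneg (x n - c)]
  have hsδ : ∀ n, ω (s n) ≤ η0 / 2 / (1 + Kβ) := fun n => by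
    have h1 : dist (s n) 0 < δ := by
      rw [Real.dist_eq, sub_zero, abs_of_pos (hs0 n)]
      have h2 : t ≤ δ := min_le_right _ _
      simp only [hs]; nlinarith [hρa n, hρ n]
    have := hδω h1
    rw [Real.dist_eq, sub_zero] at this
    exact (lt_of_abs_lt this).le
  set r : ℝ := t / (2 * K * R) with hr
  have hr0 : 0 < r := by positivity
  have hX := zpow_orbit (X := fun n => proj (x n)) hx
  set M : ℤ → E d →L[ℝ] E d := fun n => D (f ^ n) (proj (x 0)) with hM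
  set N : ℤ → E d →L[ℝ] E d := fun n => D (f ^ n)⁻¹ (proj (x n)) with hN
  have hNM : ∀ n v, N n (M n v) = v := fun n v => by
    have := D_inv_comp (f ^ n) (proj (x 0)) v
    rwa [hX] at this
  have hMN : ∀ n v, M n (N n v) = v := fun n v => by
    have := D_comp_inv (f ^ n) (proj (x 0)) v
    rwa [hX] at this
  have hMs : ∀ n v, M (n + 1) v = fderiv ℝ F (x n) (M n v) := fun n v => by
    simp only [hM]
    rw [add_comm, zpow_one_add, D_mul, hX, hF.D_eq]; rfl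
  have hσ : ∀ n v, ‖v‖ ≤ R → ‖r • M n v‖ ≤ s n / 2 := fun n v hv => by
    rw [norm_smul, Real.norm_eq_abs, abs_of_pos hr0]
    have h1 : ‖M n v‖ ≤ K * ρ n * R :=
      ((M n).le_opNorm v).trans (mul_le_mul (hM1 n) hv (norm_nonneg _) (by have := hρ n; positivity))
    calc r * ‖M n v‖ ≤ r * (K * ρ n * R) := by gcongr
      _ = s n / 2 := by simp only [hr, hs]; field_simp
  have hτσ : ∀ n v, r⁻¹ • N n (x n + r • M n v - x n) = v := fun n v => by
    rw [add_sub_cancel_left, map_smul, hNM, smul_smul, inv_mul_cancel₀ hr0.ne', one_smul]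
  have hστ : ∀ n z, x n + r • M n (r⁻¹ • N n (z - x n)) = z := fun n z => by
    rw [map_smul, hMN, smul_smul, mul_inv_cancel₀ hr0.ne', one_smul]; abel
  have hout : ∀ n z, s n / 2 < ‖z - x n‖ → R ≤ ‖r⁻¹ • N n (z - x n)‖ := fun n z hz => by
    by_contra h
    have h1 := hσ n _ (not_le.1 h).le
    have h2 : r • M n (r⁻¹ • N n (z - x n)) = z - x n := by
      rw [eq_sub_iff_add_eq', hστ]
    rw [h2] at h1
    linarith
  have hBd : Pairwise (Function.onFun Disjoint fun n => ball (x n) (s n)) := fun n m hnm =>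
    ball_disjoint_ball (by
      rw [dist_eq_norm]; linarith [hdisj n m hnm, hsρ n, hsρ m])
  have hBc : ∀ n z, ‖z - x n‖ ≤ s n → ‖z - c‖ ≤ a := fun n z hz => by
    calc ‖z - c‖ = ‖(z - x n) + (x n - c)‖ := by congr 1; abel
      _ ≤ _ := norm_add_le _ _
      _ ≤ a := by linarith [hbox n, hsρ n]
  have hBc' : ∀ z, a < ‖z - c‖ → ∀ n, z ∉ ball (x n) (s n) := fun z hz n h =>
    absurd (hBc n z (mem_ball_iff_norm.1 h).le) (not_le.2 hz)
  -- linearising pieces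
  choose l hlc hl0 hl1 hl2 using fun n => hlin F hF.cd (x n) (s n) (ω (s n)) (hs0 n)
    (fun z hz => by
      rw [← hF.D_eq, ← hF.D_eq]
      refine hω _ _ _ ((dist_proj_le _ _).trans ?_)
      rwa [norm_sub_rev])
  have hA := fun n => smul_vec (hab n).1 (fun v => (hbd n v).2.2.1) (N n) (x n) (M (n + 1) e) hr0
  have hB := fun n => smul_vec (hab n).2 (fun v => (hbd n v).2.2.2) (N n) (x n) (M n e) hr0
  set u : ℤ → E d → E d := fun n z =>
    l n z + (r * aa n (r⁻¹ • N n (z - x n))) • M (n + 1) e with hu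
  set γ : ℤ → E d → E d := fun n z => (r * bb n (r⁻¹ • N n (z - x n))) • M n e with hγ
  have huc : ∀ n, ContDiff ℝ 1 (u n) := fun n => (hlc n).add (hA n).1
  have hu0 : ∀ n z, z ∉ ball (x n) (s n) → u n z = 0 ∧ fderiv ℝ (u n) z = 0 := fun n z hz =>
    fderiv_zero_of_ball (s' := 3 / 4 * s n) (by linarith [hs0 n]) (fun y hy => by
      simp only [hu, hl0 n y hy, (hsupp n _ (hout n y (by linarith [hs0 n]))).1, mul_zero,
        zero_smul, add_zero]) hz
  have hγ0 : ∀ n z, z ∉ ball (x n) (s n) → γ n z = 0 ∧ fderiv ℝ (γ n) z = 0 := fun n z hz =>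
    fderiv_zero_of_ball (s' := s n / 2) (by linarith [hs0 n]) (fun y hy => by
      simp only [hγ, (hsupp n _ (hout n y hy)).2, mul_zero, zero_smul]) hz
  have hub : ∀ n z, ‖fderiv ℝ (u n) z‖ ≤ (1 + Kβ) * ω (s n) + ee n * (KF * K) := fun n z => by
    have h1 : fderiv ℝ (u n) z = fderiv ℝ (l n) z +
        fderiv ℝ (fun z => (r * aa n (r⁻¹ • N n (z - x n))) • M (n + 1) e) z :=
      fderiv_add ((hlc n).differentiable one_ne_zero z) ((hA n).1.differentiable one_ne_zero z)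
    rw [h1]
    refine (norm_add_le _ _).trans (add_le_add (hl2 n z) (((hA n).2 z).trans ?_))
    refine mul_le_mul_of_nonneg_left ?_ (hee n).1
    have h2 : ‖M (n + 1) e‖ ≤ KF * ‖M n e‖ := by
      rw [hMs, ← hF.D_eq]
      exact (ContinuousLinearMap.le_opNorm _ _).trans
        (mul_le_mul_of_nonneg_right (hKF _) (norm_nonneg _))
    calc ‖M (n + 1) e‖ * ‖N n‖ ≤ KF * ‖M n e‖ * ‖N n‖ := by gcongr
      _ = KF * (‖M n e‖ * ‖N n‖) := by ring
      _ ≤ KF * K := by gcongr; exact hM2 n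
  have hγb : ∀ n z, ‖fderiv ℝ (γ n) z‖ ≤ ee n * K := fun n z =>
    ((hB n).2 z).trans (mul_le_mul_of_nonneg_left (hM2 n) (hee n).1)
  have hst : Tendsto s cofinite (𝓝 0) := by simpa using hρ0.const_mul t
  obtain ⟨hUc, hUd⟩ := disj_sum hBd huc (fun n z h => (hu0 n z h).1) (fun n z h => (hu0 n z h).2)
    (e := fun n => (1 + Kβ) * ω (s n) + ee n * (KF * K))
    (by simpa using ((hωt.comp hst).const_mul (1 + Kβ)).add (hεt.mul_const (KF * K))) hub
  obtain ⟨hΓc, hΓd⟩ := disj_sum hBd (fun n => (hB n).1) (fun n z h => (hγ0 n z h).1)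
    (fun n z h => (hγ0 n z h).2) (e := fun n => ee n * K) (by simpa using hεt.mul_const K) hγb
  obtain ⟨f', hf'c, hf'⟩ := hp0 c a (fun z => ∑' n, u n z) ha
    (fun z hz => tsum_disj_notMem (fun n z h => (hu0 n z h).1) (hBc' z hz)) hUc (fun z => by
      rw [hUd]
      refine tsum_disj_bound hBd (fun n z h => (hu0 n z h).2) hη0.le (fun n z => ?_) z
      refine (hub n z).trans ?_
      have h1 : (1 + Kβ) * ω (s n) ≤ η0 / 2 := by
        have := hsδ n
        rwa [le_div_iff₀' (by positivity)] at this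
      have h2 : ee n * (KF * K) ≤ η0 / 2 := by
        have := (hee n).2.trans (min_le_left _ _)
        rwa [le_div_iff₀ (by positivity)] at this
      linarith)
  obtain ⟨g, -, hg⟩ := hp1 c a (fun z => ∑' n, γ n z) ha
    (fun z hz => tsum_disj_notMem (fun n z h => (hγ0 n z h).1) (hBc' z hz)) hΓc (fun z => by
      rw [hΓd]
      refine tsum_disj_bound hBd (fun n z h => (hγ0 n z h).2) hη1.le (fun n z => ?_) z
      refine (hγb n z).trans ?_
      have := ((hee n).2.trans (min_le_right _ _)).trans (min_le_left _ _)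
      rwa [le_div_iff₀ hK] at this)
  have hsm : ∀ {b : E d → ℝ} (n : ℤ), ContDiff ℝ 1 b → (∀ v, ‖fderiv ℝ b v‖ ≤ ee n) →
      (∀ v, R ≤ ‖v‖ → b v = 0) → (∀ v, ‖v‖ ≤ R → ‖v + b v • e‖ ≤ R) ∧
        ∀ y, ‖y‖ ≤ R → ∃ v, ‖v‖ ≤ R ∧ v + b v • e = y := by
    intro b n hb1 hb2 hb3
    refine homeo_ball (w := fun v => b v • e) (hb1.smul contDiff_const) (fun z => ?_)
      (fun v hv => by simp only [hb3 v hv, zero_smul])
    have h1 : fderiv ℝ (fun v => b v • e) z = _ :=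
      ((hb1.differentiable one_ne_zero z).hasFDerivAt.smul_const e).fderiv
    rw [h1, ContinuousLinearMap.norm_smulRight_apply]
    have := ((hb2 z).trans ((hee n).2.trans (min_le_right _ _))).trans (min_le_right _ _)
    rwa [le_div_iff₀ he0] at this
  have hsa := fun n => hsm n (hab n).1 (fun v => (hbd n v).2.2.1) (fun v hv => (hsupp n v hv).1)
  have hsb := fun n => hsm n (hab n).2 (fun v => (hbd n v).2.2.2) (fun v hv => (hsupp n v hv).2)
  have hσ1 : ∀ n v, ‖v‖ ≤ R → ‖x n + r • M n v - x n‖ ≤ s n / 2 := fun n v hv => by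
    rw [add_sub_cancel_left]; exact hσ n v hv
  have hσ2 : ∀ n v, ‖v‖ ≤ R → ‖x n + r • M n v - c‖ ≤ a := fun n v hv =>
    hBc n _ ((hσ1 n v hv).trans (by linarith [hs0 n]))
  have hσ3 : ∀ n v, ‖v‖ ≤ R → x n + r • M n v ∈ ball (x n) (s n) := fun n v hv =>
    mem_ball_iff_norm.2 ((hσ1 n v hv).trans_lt (by linarith [hs0 n]))
  have K1 : ∀ n v, ‖v‖ ≤ R → f'.1 (proj (x n + r • M n v)) =
      proj (x (n + 1) + r • M (n + 1) (v + aa n v • e)) := fun n v hv => by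
    rw [hf', loc_proj ((hσ2 n v hv).trans_lt ha),
      tsum_disj_mem hBd (fun n z h => (hu0 n z h).1) (hσ3 n v hv), ← hF.eq, ← proj_add]
    simp only [hu, hτσ]
    rw [← add_assoc, hl1 n _ (hσ1 n v hv), add_sub_cancel_left, map_smul, ← hMs, add_assoc,
      proj_add, hF.eq, hx, ← proj_add, map_add, map_smul, smul_add, smul_smul]
  have K2 : ∀ n v, ‖v‖ ≤ R → g.1 (proj (x n + r • M n v)) =
      proj (x n + r • M n (v + bb n v • e)) := fun n v hv => by
    rw [hg, loc_proj ((hσ2 n v hv).trans_lt ha),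
      tsum_disj_mem hBd (fun n z h => (hγ0 n z h).1) (hσ3 n v hv), one_ap, ← proj_add]
    simp only [hγ, hτσ]
    rw [map_add, map_smul, smul_add, smul_smul, add_assoc]
  have K3 : ∀ y, (¬ ∃ n v, ‖v‖ ≤ R ∧ y = proj (x n + r • M n v)) → g.1 y = y := fun y hy => by
    have h1 : ∀ n, γ n (loc c y) = 0 := fun n => by
      have h2 : R ≤ ‖r⁻¹ • N n (loc c y - x n)‖ := by
        by_contra h
        exact hy ⟨n, _, (not_le.1 h).le, by rw [hστ, proj_loc]⟩
      simp only [hγ, (hsupp n _ h2).2, mul_zero, zero_smul]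
    rw [hg, one_ap]
    simp [h1, proj_zero]
  have hcm : g * f' = f' * g := by
    refine Subtype.ext (Equiv.ext fun y => ?_)
    change g.1 (f'.1 y) = f'.1 (g.1 y)
    by_cases hy : ∃ n v, ‖v‖ ≤ R ∧ y = proj (x n + r • M n v)
    · obtain ⟨n, v, hv, rfl⟩ := hy
      rw [K1 n v hv, K2 n v hv, K2 _ _ ((hsa n).1 v hv), K1 _ _ ((hsb n).1 v hv), add_assoc,
        add_assoc, ← add_smul, ← add_smul, hcomm]
    · rw [K3 y hy, K3]
      rintro ⟨n, v, hv, h⟩
      obtain ⟨w, hw, rfl⟩ := (hsa (n - 1)).2 v hv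
      have h1 := K1 (n - 1) w hw
      rw [sub_add_cancel, ← h] at h1
      exact hy ⟨n - 1, w, hw, (f'.1.injective h1).symm⟩
  have hinj : ∀ z z', ‖z - c‖ ≤ a → ‖z' - c‖ ≤ a → proj z = proj z' → z = z' :=
    fun z z' h1 h2 h => proj_inj_of_lt h (by
      calc ‖z - z'‖ = ‖(z - c) - (z' - c)‖ := by congr 1; abel
        _ ≤ _ := norm_sub_le _ _
        _ < 1 := by linarith)
  refine ⟨f', fun htc => ?_, hf'c⟩
  have hgc : g ∈ Subgroup.zpowers f' := by
    rw [← htc, Subgroup.mem_centralizer_singleton_iff]; exact hcm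
  obtain ⟨m, hm⟩ := Subgroup.mem_zpowers_iff.1 hgc
  have hX' := zpow_orbit (g := f') (X := fun n => proj (x n)) (fun n => by
    simpa [(hz0 n).1] using K1 n 0 (by simpa using hR.le)) m
  have hg0 : g.1 (proj (x 0)) = proj (x 0) := by
    simpa [(hz0 0).2] using K2 0 0 (by simpa using hR.le)
  rw [hm, hg0] at hX'
  have hm0 : m = 0 := by
    by_contra h
    have h1 := hinj _ _ (by linarith [hbox 0, hρ 0]) (by linarith [hbox m, hρ m]) hX'
    have h2 := hdisj m 0 h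
    rw [h1, sub_self, norm_zero] at h2
    linarith [hρ m, hρ 0]
  rw [hm0, zpow_zero] at hm
  have hv0R : ‖v0‖ ≤ R := by
    by_contra h
    exact hv0 (hsupp 0 v0 (not_le.1 h).le).2
  have h1 := K2 0 v0 hv0R
  rw [← hm, one_ap] at h1
  have h2 := hinj _ _ (hσ2 0 _ hv0R) (hσ2 0 _ ((hsb 0).1 v0 hv0R)) h1
  have h3 := congrArg (fun z => r⁻¹ • N 0 (z - x 0)) h2
  simp only [hτσ] at h3
  have h4 : bb 0 v0 • e = 0 := by simpa using h3
  exact he ((smul_eq_zero.1 h4).resolve_left hv0)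

end Pool.Agent.H581Z
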