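import Mathlib

/-!
# `C^1` diffeomorphisms of tori: definitions

A map of `𝕋^d = ℝ^d/ℤ^d` is `C^1` when it has a `C^1` lift to `ℝ^d`.  The tangent space at every point
is identified with `ℝ^d`.
-/

open Set Filter Topology

noncomputable section

namespace Pool.Agent.H581Z

variable {d : ℕ}

/-- The torus `𝕋^d = (ℝ/ℤ)^d`. -/
abbrev Tor (d : ℕ) : Type := Fin d → UnitAddCircle

/-- The covering map `ℝ^d → 𝕋^d`. -/
def proj (z : Fin d → ℝ) : Tor d := fun i => (z i : UnitAddCircle)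

/-- `f : 𝕋^d → 𝕋^d` has a `C^1` lift to `ℝ^d`. -/
def HasC1Lift (f : Tor d → Tor d) : Prop :=
  ∃ F : (Fin d → ℝ) → (Fin d → ℝ), ContDiff ℝ 1 F ∧ ∀ z, proj (F z) = f (proj z)

/-- `Diff^1(𝕋^d)`: the group of bijections `f` of `𝕋^d` such that `f` and `f⁻¹` are `C^1`. -/
def Diff1 (d : ℕ) : Subgroup (Equiv.Perm (Tor d)) where
  carrier := {f | HasC1Lift f ∧ HasC1Lift f.symm}
  one_mem' := ⟨⟨id, contDiff_id, fun _ => rfl⟩, ⟨id, contDiff_id, fun _ => rfl⟩⟩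
  mul_mem' := by
    rintro f g ⟨⟨F, hF, eF⟩, ⟨F', hF', eF'⟩⟩ ⟨⟨G, hG, eG⟩, ⟨G', hG', eG'⟩⟩
    refine ⟨⟨F ∘ G, hF.comp hG, fun z => ?_⟩, ⟨G' ∘ F', hG'.comp hF', fun z => ?_⟩⟩
    · rw [Function.comp_apply, eF, eG]; rfl
    · rw [Function.comp_apply, eG', eF']; rfl
  inv_mem' := fun h => ⟨h.2, h.1⟩

/-- The derivative `Df(x)`: the derivative of a `C^1` lift of `f` at a point of `ℝ^d` above `x`
(it depends on neither choice). -/
def D (f : Diff1 d) (x : Tor d) : (Fin d → ℝ) →L[ℝ] (Fin d → ℝ) :=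
  fderiv ℝ f.2.1.choose (fun i => Quotient.out (x i))

/-- The `C^1` topology on `Diff^1(𝕋^d)`: uniform convergence of `f` and of `Df`. -/
instance c1Topology : TopologicalSpace (Diff1 d) :=
  TopologicalSpace.induced
    (fun f => (UniformFun.ofFun (fun x => f.1 x), UniformFun.ofFun (D f))) inferInstance

/-- The centralizer of `f` in `Diff^1(𝕋^d)` is `{f^n : n ∈ ℤ}`. -/
def TrivCent (f : Diff1 d) : Prop :=
  Subgroup.centralizer {f} = Subgroup.zpowers f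

/-- The nonwandering set. -/
def Omega (f : Diff1 d) : Set (Tor d) :=
  {x | ∀ U ∈ 𝓝 x, ∃ n : ℕ, 0 < n ∧ ((f ^ n).1 '' U ∩ U).Nonempty}

/-- `S` is hyperbolic for `f`: over `S` the tangent space splits `Df`-invariantly as `E^s ⊕ E^u`,
with `E^s` contracted exponentially by `Df^n` and `E^u` by `Df^{-n}`. -/
def Hyp (f : Diff1 d) (S : Set (Tor d)) : Prop :=
  ∃ (Es Eu : Tor d → Submodule ℝ (Fin d → ℝ)) (c μ : ℝ), 0 < μ ∧ μ < 1 ∧ ∀ x ∈ S,
    IsCompl (Es x) (Eu x) ∧ (Es x).map (D f x).toLinearMap = Es (f.1 x) ∧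
    (Eu x).map (D f x).toLinearMap = Eu (f.1 x) ∧
    ∀ n : ℕ, (∀ v ∈ Es x, ‖D (f ^ n) x v‖ ≤ c * μ ^ n * ‖v‖) ∧
      ∀ v ∈ Eu x, ‖D (f⁻¹ ^ n) x v‖ ≤ c * μ ^ n * ‖v‖

/-- Axiom A: `Ω(f)` is hyperbolic and the periodic points are dense in it. -/
def AxiomA (f : Diff1 d) : Prop :=
  Hyp f (Omega f) ∧ Omega f ⊆ closure (Function.periodicPts f.1)

/-- The full orbit `{f^n x : n ∈ ℤ}`. -/
def orb (f : Diff1 d) (x : Tor d) : Set (Tor d) := range fun n : ℤ => (f ^ n).1 x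

/-- The stable set `W^s(S)`, the union of the stable sets of the points of `S`.
The unstable set `W^u(S)` is `Ws f⁻¹ S`. -/
def Ws (f : Diff1 d) (S : Set (Tor d)) : Set (Tor d) :=
  {y | ∃ x ∈ S, Tendsto (fun n : ℕ => dist ((f ^ n).1 x) ((f ^ n).1 y)) atTop (𝓝 0)}

/-- A basic set: a maximal element among the orbit closures of points of `Ω(f)`.  For an Axiom A
diffeomorphism these are the pieces of the spectral decomposition. -/
def IsBasic (f : Diff1 d) (Λ : Set (Tor d)) : Prop :=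
  Maximal (fun S => ∃ x ∈ Omega f, S = closure (orb f x)) Λ

/-- No cycles: there are no basic sets `Λ 0, …, Λ m = Λ 0`, `m ≥ 1`, with
`W^u(Λ j) ∩ W^s(Λ (j+1)) \ Ω(f) ≠ ∅` for all `j < m`. -/
def NoCycles (f : Diff1 d) : Prop :=
  ¬ ∃ (m : ℕ) (Λ : ℕ → Set (Tor d)), 1 ≤ m ∧ Λ m = Λ 0 ∧ (∀ j ≤ m, IsBasic f (Λ j)) ∧
    ∀ j < m, ((Ws f⁻¹ (Λ j) ∩ Ws f (Λ (j + 1))) \ Omega f).Nonempty

/-- The vectors tangent to `S` at `x`: velocities at time `0` of `C^1` curves through `x` that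
stay in `S` for small times. -/
def Tan (S : Set (Tor d)) (x : Tor d) : Set (Fin d → ℝ) :=
  {v | ∃ γ : ℝ → (Fin d → ℝ), ContDiff ℝ 1 γ ∧ proj (γ 0) = x ∧ deriv γ 0 = v ∧
    ∀ᶠ t in 𝓝 (0 : ℝ), proj (γ t) ∈ S}

/-- The homoclinic class of `p`: the closure of the set of points where `W^s(O(p))` and
`W^u(O(p))` meet transversally. -/
def HomClass (f : Diff1 d) (p : Tor d) : Set (Tor d) :=
  closure {x | x ∈ Ws f (orb f p) ∩ Ws f⁻¹ (orb f p) ∧
    ∀ v, ∃ a ∈ Tan (Ws f (orb f p)) x, ∃ b ∈ Tan (Ws f⁻¹ (orb f p)) x, v = a + b}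

/-- Some hyperbolic periodic point has a homoclinic class not reduced to its orbit. -/
def HasNontrivHomClass (f : Diff1 d) : Prop :=
  ∃ p ∈ Function.periodicPts f.1, Hyp f (orb f p) ∧ ¬ HomClass f p ⊆ orb f p

end Pool.Agent.H581Z
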