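import Pool.Agent.H581Z.Robust

open Set Filter Topology Metric

noncomputable section

namespace Pool.Agent.H581Z

variable {d : ℕ}

theorem tendsto_int_cofinite {g : ℤ → ℝ} {l : Filter ℝ} (h1 : Tendsto (fun j : ℕ => g j) atTop l)
    (h2 : Tendsto (fun j : ℕ => g (Int.negSucc j)) atTop l) : Tendsto g cofinite l := by
  intro s hs
  rw [← Nat.cofinite_eq_atTop] at h1 h2
  have a1 := mem_cofinite.1 (h1 hs)
  have a2 := mem_cofinite.1 (h2 hs)
  refine mem_cofinite.2 (((a1.image (fun j : ℕ => (j : ℤ))).union (a2.image Int.negSucc)).subset ?_)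
  intro n hn
  cases n with
  | ofNat j => exact Or.inl ⟨j, hn, rfl⟩
  | negSucc j => exact Or.inr ⟨j, hn, rfl⟩

/-- A source in the box around `p0`, a sink in the box around `q0` and a point passing from the
first box to the second one. -/
def Rob (f : Diff1 d) (p0 q0 : E d) (a : ℝ) : Prop :=
  Sink f q0 a ∧ Sink f⁻¹ p0 a ∧
    ∃ z0 z1, ‖z0 - p0‖ < a ∧ ‖z1 - q0‖ < a ∧ f.1 (proj z0) = proj z1

theorem step2 {f : Diff1 d} {p0 q0 c p q : E d} {a δ : ℝ} (h : Rob f p0 q0 a) (ha : 0 < a)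
    (hp0 : ‖p0 - c‖ + a < 1 / 2) (hq0 : ‖q0 - c‖ + a < 1 / 2) (hgap : 2 * a < ‖p0 - q0‖)
    (hp : ‖p - p0‖ ≤ a) (hq : ‖q - q0‖ ≤ a) (hδ : 0 < δ) {A B : E d →L[ℝ] E d}
    (hA : ∀ z, ‖z - q‖ ≤ δ → f.1 (proj z) = proj (q + A (z - q)))
    (hB : ∀ z, ‖z - p‖ ≤ δ → (f⁻¹).1 (proj z) = proj (p + B (z - p))) :
    f ∈ closure {g | ¬ TrivCent g} := by
  obtain ⟨hs, hu, w0, w1, hw0, hw1, hw⟩ := h
  have ha2 : a < 1 / 2 := by linarith [norm_nonneg (p0 - c)]
  obtain ⟨μ, O, hμ0, hμ1, hO, hOd, hQ⟩ := half hs ha ha2 hq hδ hA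
  obtain ⟨μ', O', hμ0', hμ1', hO', hOd', hP⟩ := half hu ha ha2 hp hδ hB
  obtain ⟨F0, hF0⟩ := exists_lift f
  have hF := hF0.add_const (c := w1 - F0 w0) (by rw [proj_sub, hF0.eq, hw, sub_self])
  obtain ⟨H, hH⟩ := hF.homeo
  obtain ⟨z0, ⟨hz0, hz1⟩, hz2, hz3⟩ :=
    (hOd'.inter_of_isOpen_left (hOd.preimage H.isOpenMap) hO').inter_open_nonempty
      (ball p0 a ∩ H ⁻¹' ball q0 a) (isOpen_ball.inter (isOpen_ball.preimage H.continuous))
      ⟨w0, mem_ball_iff_norm.2 hw0, by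
        rw [mem_preimage, hH, add_sub_cancel]; exact mem_ball_iff_norm.2 hw1⟩
  have hz : f.1 (proj z0) = proj (H z0) := by rw [hH, hF.eq]
  obtain ⟨Y, K, cq, W, hY0, hYa, hYf, hcq, hK, hW, y1, y2, y3⟩ :=
    hQ (H z0) hz3 (mem_ball_iff_norm.1 hz1).le
  obtain ⟨Y', K', cp, W', hY0', hYa', hYf', hcp, hK', hW', z1, z2, z3⟩ :=
    hP z0 hz2 (mem_ball_iff_norm.1 hz0).le
  rw [← hY0] at y2 y3 hz
  rw [← hY0'] at z2 z3 hz
  have hz' : (f⁻¹).1 (proj (Y 0)) = proj (Y' 0) := by rw [← hz, inv_ap]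
  obtain ⟨KF, hKF1, hKF⟩ := exists_D_bound f
  obtain ⟨KG, hKG1, hKG⟩ := exists_D_bound f⁻¹
  -- the common direction
  obtain ⟨e, he, he0⟩ : ∃ e ∈ W ⊓ W'.map (DE f (proj (Y' 0))).toLinearEquiv.toLinearMap,
      e ≠ 0 := by
    rw [← Submodule.ne_bot_iff]
    intro hb
    have h1 := Submodule.finrank_sup_add_finrank_inf_eq W
      (W'.map (DE f (proj (Y' 0))).toLinearEquiv.toLinearMap)
    rw [hb, finrank_bot, LinearEquiv.finrank_map_eq] at h1
    have h2 := Submodule.finrank_le (W ⊔ W'.map (DE f (proj (Y' 0))).toLinearEquiv.toLinearMap)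
    rw [Module.finrank_fin_fun] at h2
    omega
  obtain ⟨heW, e', he', hee⟩ := he
  have hee' : D f⁻¹ (proj (Y 0)) e = e' := by
    rw [← hee, ← hz]; exact D_inv_comp f _ e'
  have he1 : 0 < ‖e‖ := norm_pos_iff.2 he0
  set m := max ‖p0 - c‖ ‖q0 - c‖ with hm
  have hm1 : m + a < 1 / 2 := by
    rcases le_total ‖p0 - c‖ ‖q0 - c‖ with h | h
    · rw [hm, max_eq_right h]; exact hq0
    · rw [hm, max_eq_left h]; exact hp0
  set κ := min (min (cq / 2) (cp / 2)) (min ((‖p0 - q0‖ - 2 * a) / 2) ((1 / 2 - (m + a)) / 2))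
    with hκ
  have hκ0 : 0 < κ := lt_min (lt_min (half_pos hcq) (half_pos hcp))
    (lt_min (by linarith) (by linarith))
  have hκ1 : κ ≤ cq / 2 := (min_le_left _ _).trans (min_le_left _ _)
  have hκ2 : κ ≤ cp / 2 := (min_le_left _ _).trans (min_le_right _ _)
  have hκ3 : κ ≤ (‖p0 - q0‖ - 2 * a) / 2 := (min_le_right _ _).trans (min_le_left _ _)
  have hκ4 : κ ≤ (1 / 2 - (m + a)) / 2 := (min_le_right _ _).trans (min_le_right _ _)
  have hle : ∀ {t : ℝ}, 0 < t → t < 1 → ∀ j : ℕ, κ * t ^ j ≤ κ := fun h0 h1 j =>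
    mul_le_of_le_one_right hκ0.le (pow_le_one₀ h0.le h1.le)
  have hsep : ∀ {t c' : ℝ} {Z : ℕ → E d}, 0 < t → t < 1 → κ ≤ c' / 2 →
      (∀ i j, i < j → c' * t ^ i ≤ ‖Z i - Z j‖) → ∀ i j, i ≠ j →
      κ * t ^ i + κ * t ^ j ≤ ‖Z i - Z j‖ := by
    intro t c' Z h0 h1 h2 h3
    have key : ∀ i j, i < j → κ * t ^ i + κ * t ^ j ≤ ‖Z i - Z j‖ := fun i j hij => by
      have a1 : t ^ j ≤ t ^ i := pow_le_pow_of_le_one h0.le h1.le hij.le
      have a2 : 0 < t ^ i := by positivity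
      have := h3 i j hij
      nlinarith
    intro i j hij
    rcases lt_or_gt_of_ne hij with h | h
    · exact key i j h
    · rw [add_comm, norm_sub_rev]; exact key j i h
  have hcross : ∀ i j, κ * μ ^ i + κ * μ' ^ j ≤ ‖Y i - Y' j‖ := fun i j => by
    have a1 : ‖p0 - q0‖ ≤ ‖Y i - Y' j‖ + ‖Y i - q0‖ + ‖Y' j - p0‖ := by
      calc ‖p0 - q0‖ = ‖-(Y i - Y' j) + (Y i - q0) + -(Y' j - p0)‖ := by congr 1; abel
        _ ≤ _ := norm_add₃_le
        _ = _ := by rw [norm_neg, norm_neg]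
    linarith [hYa i, hYa' j, hle hμ0 hμ1 i, hle hμ0' hμ1' j]
  have hpow : ∀ j : ℕ, f ^ (Int.negSucc j) = f⁻¹ ^ j * f⁻¹ := fun j => by
    rw [zpow_negSucc, ← inv_pow, pow_succ]
  have hXp : ∀ j : ℕ, (f⁻¹ ^ j).1 (proj (Y' 0)) = proj (Y' j) := fun j => by
    induction j with
    | zero => rfl
    | succ j ih => rw [pow_succ_ap', ih, hYf']
  refine mem_closure_nontriv f c (a := (1 / 2 + (m + a)) / 2) (by linarith)
    (fun n => Int.rec Y Y' n) (fun n => Int.rec (fun j => κ * μ ^ j) (fun j => κ * μ' ^ j) n)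
    (e := e) (K := K / κ + K' * KG / κ + K * ‖e‖ + KF * (K' * ‖e'‖)) (by positivity)
    (fun n => ?_) (fun n => ?_) ?_ (fun n => ?_) (fun n n' hn => ?_) he0 (fun n => ?_)
    (fun n => ?_)
  · cases n with
    | ofNat j => exact hYf j
    | negSucc j =>
      cases j with
      | zero => exact hz
      | succ j =>
        have e1 : Int.negSucc (j + 1) + 1 = Int.negSucc j := by omega
        rw [e1]
        change f.1 (proj (Y' (j + 1))) = proj (Y' j)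
        rw [← hYf', ap_inv]
  · cases n with
    | ofNat j => exact mul_pos hκ0 (pow_pos hμ0 j)
    | negSucc j => exact mul_pos hκ0 (pow_pos hμ0' j)
  · refine tendsto_int_cofinite ?_ ?_
    · have := (tendsto_pow_atTop_nhds_zero_of_lt_one hμ0.le hμ1).const_mul κ
      rw [mul_zero] at this
      exact this
    · simpa using (tendsto_pow_atTop_nhds_zero_of_lt_one hμ0'.le hμ1').const_mul κ
  · cases n with
    | ofNat j =>
      change ‖Y j - c‖ + κ * μ ^ j ≤ _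
      have a1 : ‖Y j - c‖ ≤ ‖Y j - q0‖ + ‖q0 - c‖ := by
        calc _ = ‖(Y j - q0) + (q0 - c)‖ := by congr 1; abel
          _ ≤ _ := norm_add_le _ _
      linarith [hYa j, hle hμ0 hμ1 j, le_max_right ‖p0 - c‖ ‖q0 - c‖]
    | negSucc j =>
      change ‖Y' j - c‖ + κ * μ' ^ j ≤ _
      have a1 : ‖Y' j - c‖ ≤ ‖Y' j - p0‖ + ‖p0 - c‖ := by
        calc _ = ‖(Y' j - p0) + (p0 - c)‖ := by congr 1; abel
          _ ≤ _ := norm_add_le _ _
      linarith [hYa' j, hle hμ0' hμ1' j, le_max_left ‖p0 - c‖ ‖q0 - c‖]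
  · cases n with
    | ofNat i =>
      cases n' with
      | ofNat j => exact hsep hμ0 hμ1 hκ1 y1 i j (fun h => hn (by rw [h]))
      | negSucc j => exact hcross i j
    | negSucc i =>
      cases n' with
      | ofNat j =>
        have := hcross j i
        rw [add_comm, norm_sub_rev] at this
        exact this
      | negSucc j => exact hsep hμ0' hμ1' hκ2 z1 i j (fun h => hn (by rw [h]))
  · cases n with
    | ofNat j =>
      change ‖D (f ^ (j : ℤ)) (proj (Y 0))‖ ≤ _ * (κ * μ ^ j)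
      rw [zpow_natCast]
      refine (y2 j).trans ?_
      have : K * μ ^ j = K / κ * (κ * μ ^ j) := by field_simp
      rw [this]
      gcongr
      have : 0 ≤ K' * KG / κ + K * ‖e‖ + KF * (K' * ‖e'‖) := by positivity
      linarith
    | negSucc j =>
      change ‖D (f ^ (Int.negSucc j)) (proj (Y 0))‖ ≤ _ * (κ * μ' ^ j)
      rw [hpow, D_mul, hz']
      refine (ContinuousLinearMap.opNorm_comp_le _ _).trans ?_
      calc _ ≤ K' * μ' ^ j * KG := mul_le_mul (z2 j) (hKG _) (norm_nonneg _) (by positivity)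
        _ = K' * KG / κ * (κ * μ' ^ j) := by field_simp
        _ ≤ _ := by
          gcongr
          have : 0 ≤ K / κ := by positivity
          have : 0 ≤ K * ‖e‖ + KF * (K' * ‖e'‖) := by positivity
          linarith
  · cases n with
    | ofNat j =>
      change ‖D (f ^ (j : ℤ)) (proj (Y 0)) e‖ * ‖D (f ^ (j : ℤ))⁻¹ (proj (Y j))‖ ≤ _
      rw [zpow_natCast]
      refine (y3 j e heW).trans ?_
      have : 0 ≤ K / κ + K' * KG / κ := by positivity
      have : 0 ≤ KF * (K' * ‖e'‖) := by positivity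
      linarith
    | negSucc j =>
      change ‖D (f ^ (Int.negSucc j)) (proj (Y 0)) e‖ *
        ‖D (f ^ (Int.negSucc j))⁻¹ (proj (Y' j))‖ ≤ _
      rw [hpow, D_mul, hz', mul_inv_rev, inv_inv, D_mul, ContinuousLinearMap.comp_apply, hee']
      have a1 := z3 j e' he'
      have a2 := (ContinuousLinearMap.opNorm_comp_le (D f (((f⁻¹ ^ j)⁻¹).1 (proj (Y' j))))
        (D (f⁻¹ ^ j)⁻¹ (proj (Y' j)))).trans
        (mul_le_mul_of_nonneg_right (hKF _) (norm_nonneg _))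
      calc _ ≤ ‖D (f⁻¹ ^ j) (proj (Y' 0)) e'‖ * (KF * ‖D (f⁻¹ ^ j)⁻¹ (proj (Y' j))‖) := by gcongr
        _ = KF * (‖D (f⁻¹ ^ j) (proj (Y' 0)) e'‖ * ‖D (f⁻¹ ^ j)⁻¹ (proj (Y' j))‖) := by ring
        _ ≤ KF * (K' * ‖e'‖) := by gcongr
        _ ≤ _ := by
          have : 0 ≤ K / κ + K' * KG / κ + K * ‖e‖ := by positivity
          linarith

theorem step1 {f : Diff1 d} {c p q : E d} (hp : ‖p - c‖ < 1 / 2) (hq : ‖q - c‖ < 1 / 2)
    (hpq : p ≠ q) (fp : f.1 (proj p) = proj p) (fq : f.1 (proj q) = proj q) {ε : ℝ} (hε : 0 < ε) :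
    ∃ g, Close ε f g ∧ ∃ δ > 0,
      (∀ z, ‖z - q‖ ≤ δ → g.1 (proj z) = proj (q + D f (proj q) (z - q))) ∧
      ∀ z, ‖z - p‖ ≤ δ → g.1 (proj z) = proj (p + D f (proj p) (z - p)) := by
  obtain ⟨F, hF⟩ := exists_lift f
  obtain ⟨η, hη, hper⟩ := perturb' f hε
  obtain ⟨Kβ, hKβ, hlin⟩ := lin_bump (d := d)
  obtain ⟨δ, hδ, hD⟩ := D_unif f (show 0 < η / 2 / (1 + Kβ) by positivity)
  have hpq0 : 0 < ‖p - q‖ := norm_pos_iff.2 (sub_ne_zero.2 hpq)
  set m := max ‖p - c‖ ‖q - c‖ with hm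
  have hm1 : m < 1 / 2 := max_lt hp hq
  set s := min (min (δ / 2) (‖p - q‖ / 2)) ((1 / 2 - m) / 2) with hs
  have hs0 : 0 < s := lt_min (lt_min (half_pos hδ) (half_pos hpq0)) (by linarith)
  have hs1 : s ≤ δ / 2 := (min_le_left _ _).trans (min_le_left _ _)
  have hs2 : s ≤ ‖p - q‖ / 2 := (min_le_left _ _).trans (min_le_right _ _)
  have hs3 : s ≤ (1 / 2 - m) / 2 := min_le_right _ _
  have hl := fun x => hlin F hF.cd x s (η / 2 / (1 + Kβ)) hs0 (fun z hz => by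
    rw [← hF.D_eq, ← hF.D_eq]
    refine (hD _ _ ((dist_proj_le _ _).trans_lt ?_)).le
    rw [norm_sub_rev]; linarith)
  obtain ⟨u, hu1, hu2, hu3, hu4⟩ := hl p
  obtain ⟨v, hv1, hv2, hv3, hv4⟩ := hl q
  have tri : ∀ x y z : E d, ‖x - z‖ ≤ ‖x - y‖ + ‖y - z‖ := fun x y z => by
    calc _ = ‖(x - y) + (y - z)‖ := by congr 1; abel
      _ ≤ _ := norm_add_le _ _
  have hmp : ‖p - c‖ ≤ m := le_max_left _ _
  have hmq : ‖q - c‖ ≤ m := le_max_right _ _
  obtain ⟨g, hg1, hg2⟩ := hper c (m + s) (fun z => u z + v z) (by linarith) (fun z hz => by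
    rw [hu2 z (by linarith [tri z p c]), hv2 z (by linarith [tri z q c]), add_zero])
    (hu1.add hv1) (fun z => by
      have h1 : fderiv ℝ (fun z => u z + v z) z = fderiv ℝ u z + fderiv ℝ v z :=
        fderiv_add (hu1.differentiable one_ne_zero z) (hv1.differentiable one_ne_zero z)
      have h2 : (1 + Kβ) * (η / 2 / (1 + Kβ)) = η / 2 := by field_simp
      rw [h1]
      refine (norm_add_le _ _).trans ?_
      linarith [hu4 z, hv4 z])
  refine ⟨g, hg1, s / 2, half_pos hs0, fun z hz => ?_, fun z hz => ?_⟩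
  · have h1 : u z = 0 := hu2 z (by
      have := tri p z q
      rw [norm_sub_rev p z] at this
      linarith)
    rw [hg2, loc_proj (by linarith [tri z q c]), h1, zero_add, ← hF.eq, ← proj_add, hv3 z hz,
      proj_add, proj_add, hF.eq, fq, hF.D_eq]
  · have h1 : v z = 0 := hv2 z (by
      have := tri p z q
      rw [norm_sub_rev p z] at this
      linarith)
    rw [hg2, loc_proj (by linarith [tri z p c]), h1, add_zero, ← hF.eq, ← proj_add, hu3 z hz,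
      proj_add, proj_add, hF.eq, fp, hF.D_eq]

theorem rob_eventually {f0 : Diff1 d} {p0 q0 : E d} {a : ℝ}
    (h1 : ∀ᶠ f in 𝓝 f0, Sink f q0 a) (h2 : ∀ᶠ f in 𝓝 f0⁻¹, Sink f p0 a) {z0 z1 : E d}
    (hz0 : ‖z0 - p0‖ < a) (hz1 : ‖z1 - q0‖ < a) (hz : f0.1 (proj z0) = proj z1) :
    ∀ᶠ f in 𝓝 f0, Rob f p0 q0 a := by
  filter_upwards [h1, continuous_inv'.continuousAt.eventually h2,
    mem_nhds_close f0 (sub_pos.2 hz1)] with f a1 a2 a3
  obtain ⟨b, hb, hbn⟩ := exists_lift_close z1 (f.1 (proj z0))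
  refine ⟨a1, a2, z0, b, hz0, ?_, hb.symm⟩
  have := (a3 (proj z0)).1
  rw [hz, dist_comm, ← hbn] at this
  calc ‖b - q0‖ = ‖(b - z1) + (z1 - q0)‖ := by congr 1; abel
    _ ≤ _ := norm_add_le _ _
    _ < a := by linarith

theorem locally_dense {f0 : Diff1 d} {p0 q0 c : E d} {a : ℝ} (h : ∀ᶠ f in 𝓝 f0, Rob f p0 q0 a)
    (ha : 0 < a) (hp0 : ‖p0 - c‖ + a < 1 / 2) (hq0 : ‖q0 - c‖ + a < 1 / 2)
    (hgap : 2 * a < ‖p0 - q0‖) : ∀ᶠ f in 𝓝 f0, f ∈ closure {g | ¬ TrivCent g} := by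
  filter_upwards [h.eventually_nhds] with f hf
  have hR := hf.self_of_nhds
  obtain ⟨q, hq, fq⟩ := hR.1.fixed ha
  obtain ⟨p, hp, fp'⟩ := hR.2.1.fixed ha
  have fp : f.1 (proj p) = proj p := by
    conv_lhs => rw [← fp']
    exact ap_inv f _
  have tri : ∀ x y z : E d, ‖x - z‖ ≤ ‖x - y‖ + ‖y - z‖ := fun x y z => by
    calc _ = ‖(x - y) + (y - z)‖ := by congr 1; abel
      _ ≤ _ := norm_add_le _ _
  have hpq : p ≠ q := by
    rintro rfl
    have := tri p0 p q0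
    rw [norm_sub_rev p0 p] at this
    linarith
  rw [← closure_closure, mem_closure_iff_nhds]
  intro V hV
  obtain ⟨ε, hε, hεV⟩ := (nhds_basis f).mem_iff.1 (inter_mem hV hf)
  obtain ⟨g, hg, δ, hδ, g1, g2⟩ := step1 (c := c) (by linarith [tri p p0 c])
    (by linarith [tri q q0 c]) hpq fp fq hε
  refine ⟨g, (hεV hg).1, step2 (hεV hg).2 ha hp0 hq0 hgap hp hq hδ g1
    (B := D f⁻¹ (proj p)) (fun z hz => ?_)⟩
  have h1 : ‖D f⁻¹ (proj p) (z - p)‖ ≤ δ := by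
    have := ((D f⁻¹ (proj p)).le_opNorm (z - p)).trans
      (mul_le_mul_of_nonneg_right (hR.2.1.2 p hp).1 (norm_nonneg _))
    linarith [norm_nonneg (z - p)]
  have h2 := g2 (p + D f⁻¹ (proj p) (z - p)) (by rwa [add_sub_cancel_left])
  have h3 := D_comp_inv f (proj p) (z - p)
  rw [fp] at h3
  rw [add_sub_cancel_left, h3, add_sub_cancel] at h2
  rw [← h2, inv_ap]

/-- If nontrivial centralizers are dense near a point of `O`, then no open dense subset of `O`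
consists of maps with trivial centralizer. -/
theorem no_open_dense {O : Set (Diff1 d)} {f0 : Diff1 d} (h0 : f0 ∈ O)
    (h : ∀ᶠ f in 𝓝 f0, f ∈ closure {g | ¬ TrivCent g}) :
    ¬ ∃ U ⊆ O, IsOpen U ∧ O ⊆ closure U ∧ ∀ f ∈ U, TrivCent f := by
  rintro ⟨U, -, hU, hd, ht⟩
  obtain ⟨f, hf1, hf2⟩ := mem_closure_iff_nhds.1 (hd h0) _ h
  obtain ⟨g, hg1, hg2⟩ := mem_closure_iff.1 hf1 U hU hf2
  exact hg2 (ht g hg1)

end Pool.Agent.H581Z
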