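import Pool.Agent.H581Z.Robust

open Set Filter Topology Metric

noncomputable section

namespace Pool.Agent.H581Z

variable {d : ℕ}

theorem omega_comm {f g : Diff1 d} (h : Commute f g) {x : Tor d} (hx : x ∈ Omega f) :
    g.1 x ∈ Omega f := by
  intro U hU
  obtain ⟨n, hn, _, ⟨y, hy, rfl⟩, hy'⟩ := hx _ ((continuous_ap g).continuousAt hU)
  refine ⟨n, hn, g.1 ((f ^ n).1 y), ⟨g.1 y, hy, ?_⟩, hy'⟩
  rw [← mul_ap, ← mul_ap, (h.pow_left n).eq]

theorem omega_zpow {f : Diff1 d} {x : Tor d} (hx : x ∈ Omega f) (n : ℤ) : (f ^ n).1 x ∈ Omega f :=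
  omega_comm (Commute.self_zpow f n) hx

theorem pow_ap_iterate (f : Diff1 d) (n : ℕ) (x : Tor d) : (f ^ n).1 x = (f.1)^[n] x := by
  induction n with
  | zero => rfl
  | succ n ih => rw [pow_succ_ap', ih, Function.iterate_succ_apply']

theorem per_subset_omega (f : Diff1 d) : Function.periodicPts f.1 ⊆ Omega f := by
  rintro x ⟨n, hn, hx⟩ U hU
  exact ⟨n, hn, x, ⟨x, mem_of_mem_nhds hU, by rw [pow_ap_iterate]; exact hx⟩, mem_of_mem_nhds hU⟩

theorem isClosed_omega (f : Diff1 d) : IsClosed (Omega f) := by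
  refine isClosed_of_closure_subset fun x hx U hU => ?_
  obtain ⟨y, hy, hy'⟩ := mem_closure_iff_nhds.1 hx _ (interior_mem_nhds.2 hU)
  exact hy' U (mem_interior_iff_mem_nhds.1 hy)

theorem orb_closure_inv (f : Diff1 d) (x : Tor d) (n : ℤ) {y : Tor d}
    (hy : y ∈ closure (orb f x)) : (f ^ n).1 y ∈ closure (orb f x) := by
  refine map_mem_closure (continuous_ap (f ^ n)) hy ?_
  rintro _ ⟨m, rfl⟩
  exact ⟨n + m, by simp only [zpow_add, mul_ap]⟩

theorem orb_closure_subset {f : Diff1 d} {x : Tor d} (hx : x ∈ Omega f) :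
    closure (orb f x) ⊆ Omega f :=
  (isClosed_omega f).closure_subset_iff.2 (by rintro _ ⟨n, rfl⟩; exact omega_zpow hx n)

theorem Hyp.mono {f : Diff1 d} {S T : Set (Tor d)} (h : Hyp f S) (hT : T ⊆ S) : Hyp f T := by
  obtain ⟨Es, Eu, c, μ, h1, h2, h3⟩ := h
  exact ⟨Es, Eu, c, μ, h1, h2, fun x hx => h3 x (hT hx)⟩

theorem map_eq_of_iff {f : Diff1 d} {x : Tor d} {P Q : Submodule ℝ (E d)}
    (h : ∀ v, D f x v ∈ Q ↔ v ∈ P) : P.map (D f x).toLinearMap = Q := by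
  refine le_antisymm ?_ fun w hw => ?_
  · rintro _ ⟨v, hv, rfl⟩
    exact (h v).2 hv
  · exact ⟨D f⁻¹ (f.1 x) w, (h _).1 (by rwa [D_comp_inv]), D_comp_inv f x w⟩

theorem hyp_of_one_step {f : Diff1 d} {S : Set (Tor d)} (Es Eu : Tor d → Submodule ℝ (E d))
    {μ : ℝ} (h0 : 0 < μ) (h1 : μ < 1) (hS : ∀ x, f.1 x ∈ S ↔ x ∈ S)
    (hc : ∀ x ∈ S, IsCompl (Es x) (Eu x))
    (hs : ∀ x ∈ S, ∀ v, D f x v ∈ Es (f.1 x) ↔ v ∈ Es x)
    (hu : ∀ x ∈ S, ∀ v, D f x v ∈ Eu (f.1 x) ↔ v ∈ Eu x)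
    (hs' : ∀ x ∈ S, ∀ v ∈ Es x, ‖D f x v‖ ≤ μ * ‖v‖)
    (hu' : ∀ x ∈ S, ∀ v ∈ Eu x, ‖v‖ ≤ μ * ‖D f x v‖) : Hyp f S := by
  refine ⟨Es, Eu, 1, μ, h0, h1, fun x hx => ⟨hc x hx, map_eq_of_iff (hs x hx),
    map_eq_of_iff (hu x hx), fun n => ⟨?_, ?_⟩⟩⟩
  · induction n generalizing x with
    | zero => intro v _; simp [D_one]
    | succ n ih =>
      intro v hv
      rw [pow_succ, D_mul, ContinuousLinearMap.comp_apply]
      refine (ih _ ((hS x).2 hx) _ ((hs x hx v).2 hv)).trans ?_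
      have := hs' x hx v hv
      calc 1 * μ ^ n * ‖D f x v‖ ≤ 1 * μ ^ n * (μ * ‖v‖) := by gcongr
        _ = _ := by ring
  · induction n generalizing x with
    | zero => intro v _; simp [D_one]
    | succ n ih =>
      intro v hv
      have hx' : (f⁻¹).1 x ∈ S := (hS _).1 (by rwa [ap_inv])
      have e := D_comp_inv f ((f⁻¹).1 x) v
      rw [ap_inv] at e
      have hv' : D f⁻¹ x v ∈ Eu ((f⁻¹).1 x) := (hu _ hx' _).1 (by rwa [e, ap_inv])
      rw [pow_succ, D_mul, ContinuousLinearMap.comp_apply]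
      refine (ih _ hx' _ hv').trans ?_
      have := hu' _ hx' _ hv'
      rw [e] at this
      calc 1 * μ ^ n * ‖D f⁻¹ x v‖ ≤ 1 * μ ^ n * (μ * ‖v‖) := by gcongr
        _ = _ := by ring

section Lyap

variable {f : Diff1 d} {L : Tor d → ℝ}

theorem lyap_pow (h : ∀ x, L (f.1 x) ≤ L x) (n : ℕ) (x : Tor d) : L ((f ^ n).1 x) ≤ L x := by
  induction n with
  | zero => exact le_rfl
  | succ n ih => rw [pow_succ_ap']; exact (h _).trans ih

theorem lyap_wander (hL : Continuous L) (h : ∀ x, L (f.1 x) ≤ L x) {x : Tor d}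
    (hx : L (f.1 x) < L x) : x ∉ Omega f := by
  intro hO
  obtain ⟨m, hm1, hm2⟩ := exists_between hx
  obtain ⟨n, hn, _, ⟨y, hy, rfl⟩, hy'⟩ := hO _
    (((hL.comp (continuous_ap f)).continuousAt.eventually_lt continuousAt_const hm1).and
      (continuousAt_const.eventually_lt hL.continuousAt hm2))
  obtain ⟨k, rfl⟩ := Nat.exists_eq_succ_of_ne_zero hn.ne'
  have h1 := lyap_pow h k (f.1 y)
  rw [← mul_ap, ← pow_succ] at h1
  have h2 : L (f.1 y) < m := hy.1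
  have h3 : m < L ((f ^ (k + 1)).1 y) := hy'.2
  linarith

theorem lyap_limit (hL : Continuous L) {g : Diff1 d} {x y : Tor d} {c : ℝ}
    (hx : ∀ n : ℕ, L ((g ^ n).1 x) = c)
    (h : Tendsto (fun n : ℕ => dist ((g ^ n).1 x) ((g ^ n).1 y)) atTop (𝓝 0)) :
    Tendsto (fun n : ℕ => L ((g ^ n).1 y)) atTop (𝓝 c) := by
  rw [Metric.tendsto_atTop] at h ⊢
  intro ε hε
  obtain ⟨δ, hδ, h1⟩ := Metric.uniformContinuous_iff.1
    (CompactSpace.uniformContinuous_of_continuous hL) ε hε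
  obtain ⟨N, hN⟩ := h δ hδ
  refine ⟨N, fun n hn => ?_⟩
  have := hN n hn
  rw [Real.dist_eq, sub_zero, abs_of_nonneg dist_nonneg] at this
  rw [← hx n, dist_comm]
  exact h1 this

theorem lyap_noCycles (hL : Continuous L) (h : ∀ x, L (f.1 x) ≤ L x)
    (h' : ∀ x, x ∉ Omega f → L (f.1 x) < L x) : NoCycles f := by
  rintro ⟨m, Λ, hm, hΛ, hb, he⟩
  have hO : ∀ x ∈ Omega f, ∀ n : ℤ, L ((f ^ n).1 x) = L x := fun x hx n => by
    have key : ∀ y ∈ Omega f, L (f.1 y) = L y := fun y hy =>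
      le_antisymm (h y) (not_lt.1 fun hl => lyap_wander hL h hl hy)
    induction n using Int.induction_on with
    | zero => rfl
    | succ n ih => rw [add_comm, zpow_one_add, mul_ap, key _ (omega_zpow hx _), ih]
    | pred n ih =>
      rw [← ih, ← key _ (omega_zpow hx (-n - 1)), ← mul_ap, ← zpow_one_add]
      congr 4; ring
  have hc : ∀ j, j ≤ m → ∃ c, ∀ y ∈ Λ j, ∀ n : ℤ, L ((f ^ n).1 y) = c := fun j hj => by
    obtain ⟨x, hx, e⟩ := (hb j hj).prop
    refine ⟨L x, fun y hy n => ?_⟩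
    rw [e] at hy
    have h1 : closure (orb f x) ⊆ {y | L y = L x} :=
      (isClosed_eq hL continuous_const).closure_subset_iff.2 (by
        rintro _ ⟨n, rfl⟩; exact hO x hx n)
    exact h1 (orb_closure_inv f x n hy)
  choose! c hc using hc
  have hlt : ∀ j < m, c (j + 1) < c j := fun j hj => by
    obtain ⟨y, ⟨⟨x1, hx1, t1⟩, ⟨x2, hx2, t2⟩⟩, hy⟩ := he j hj
    have l1 := lyap_limit hL (c := c j) (fun n => by
      rw [inv_pow, ← zpow_natCast, ← zpow_neg]; exact hc j hj.le x1 hx1 _) t1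
    have l2 := lyap_limit hL (c := c (j + 1)) (fun n => by
      rw [← zpow_natCast]; exact hc (j + 1) hj x2 hx2 _) t2
    have a1 : L y ≤ c j := ge_of_tendsto' l1 fun n => by
      have := lyap_pow h n ((f⁻¹ ^ n).1 y)
      rwa [← mul_ap, inv_pow, mul_inv_cancel, one_ap, ← inv_pow] at this
    have a2 : c (j + 1) ≤ L (f.1 y) := le_of_tendsto' (l2.comp (tendsto_add_atTop_nat 1))
      fun n => by
        have := lyap_pow h n (f.1 y)
        rwa [← mul_ap, ← pow_succ] at this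
    linarith [h' y hy]
  have hlt' : ∀ j, j < m → c (j + 1) < c 0 := fun j => by
    induction j with
    | zero => exact hlt 0
    | succ j ih => exact fun hj => (hlt _ hj).trans (ih (by omega))
  obtain ⟨k, rfl⟩ := Nat.exists_eq_succ_of_ne_zero (by omega : m ≠ 0)
  obtain ⟨x, hx, e⟩ := (hb 0 (by omega)).prop
  have hx0 : x ∈ Λ 0 := by rw [e]; exact subset_closure ⟨0, rfl⟩
  have a1 := hc 0 (by omega) x hx0 0
  have a2 := hc (k + 1) le_rfl x (by rw [hΛ]; exact hx0) 0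
  linarith [hlt' k (by omega)]

end Lyap

end Pool.Agent.H581Z
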