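import Pool.Agent.H581Z.Defs

/-!
# `C^∞` diffeomorphisms of tori: definitions
-/

open scoped ContDiff

noncomputable section

namespace Pool.Agent.H581Z

variable {d : ℕ}

/-- `f : 𝕋^d → 𝕋^d` has a `C^∞` lift to `ℝ^d`. -/
def HasSmoothLift (f : Tor d → Tor d) : Prop :=
  ∃ F : (Fin d → ℝ) → (Fin d → ℝ), ContDiff ℝ ∞ F ∧ ∀ z, proj (F z) = f (proj z)

/-- `Diff^∞(𝕋^d)`: the diffeomorphisms `f` such that `f` and `f⁻¹` are `C^∞`. -/
def DiffInf (d : ℕ) : Type := {f : Diff1 d // HasSmoothLift f.1 ∧ HasSmoothLift f.1.symm}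

/-- The derivative `D^(k+1) f(x)`: the derivative of order `k + 1` of a lift of `f` at a point of
`ℝ^d` above `x` (it depends on neither choice). -/
def Dk (k : ℕ) (f : Diff1 d) (x : Tor d) :
    ContinuousMultilinearMap ℝ (fun _ : Fin (k + 1) => Fin d → ℝ) (Fin d → ℝ) :=
  iteratedFDeriv ℝ (k + 1) f.2.1.choose (fun i => Quotient.out (x i))

/-- The `C^∞` topology on `Diff^∞(𝕋^d)`: uniform convergence of `f` and of each derivative. -/
instance cInfTopology : TopologicalSpace (DiffInf d) :=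
  TopologicalSpace.induced
    (fun f => (UniformFun.ofFun (fun x => f.1.1 x), fun k : ℕ => UniformFun.ofFun (Dk k f.1)))
    inferInstance

/-- Topological conjugacy. -/
def TopConj (f g : Diff1 d) : Prop := ∃ h : Tor d ≃ₜ Tor d, ∀ x, h (f.1 x) = g.1 (h x)

end Pool.Agent.H581Z
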