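import Pool.Agent.H581Z.Horse2

open Set Filter Topology Metric

noncomputable section

namespace Pool.Agent.H581Z

variable {d : ℕ}

theorem pow_add_ap (f : Diff1 d) (m n : ℕ) (x : Tor d) :
    (f ^ (m + n)).1 x = (f ^ m).1 ((f ^ n).1 x) := by rw [pow_add, mul_ap]

/-- Changing a map on a wandering set whose forward images shrink to a point does not change the
conjugacy class. -/
theorem conj_of_wander (f : Diff1 d) (χ : Tor d ≃ₜ Tor d) {K : Set (Tor d)} {Q : Tor d}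
    (hχ : ∀ z, z ∉ K → χ z = z) (hK : ∀ n : ℕ, 0 < n → ∀ z ∈ K, (f ^ n).1 z ∉ K)
    (hQ : ∀ ε > 0, ∀ᶠ n : ℕ in atTop, ∀ z ∈ K, dist ((f ^ n).1 z) Q < ε) :
    ∃ H : Tor d ≃ₜ Tor d, ∀ z, H (f.1 z) = χ (f.1 (H z)) := by
  classical
  have uq : ∀ {n m : ℕ} {w w' : Tor d}, w ∈ K → w' ∈ K → (f ^ n).1 w = (f ^ m).1 w' → n = m := by
    have : ∀ {n m : ℕ} {w w' : Tor d}, w ∈ K → w' ∈ K → (f ^ n).1 w = (f ^ m).1 w' → ¬ n < m := by
      intro n m w w' hw hw' e hlt
      obtain ⟨k, rfl⟩ := Nat.exists_eq_add_of_lt hlt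
      rw [add_assoc, pow_add_ap] at e
      exact hK (k + 1) (by omega) w' hw' ((f ^ n).1.injective e ▸ hw)
    intro n m w w' hw hw' e
    exact le_antisymm (not_lt.1 (this hw' hw e.symm)) (not_lt.1 (this hw hw' e))
  have key : ∀ c : Tor d ≃ₜ Tor d, (∀ z, z ∉ K → c z = z) → (∀ w ∈ K, c w ∈ K) ∧
      ∃ T : Tor d → Tor d, Continuous T ∧ (∀ n : ℕ, ∀ w ∈ K, T ((f ^ n).1 w) = (f ^ n).1 (c w)) ∧
        ∀ z, (∀ n : ℕ, ∀ w ∈ K, (f ^ n).1 w ≠ z) → T z = z := by
    intro c hc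
    have hcK : ∀ w ∈ K, c w ∈ K := fun w hw => by
      by_contra h
      exact h (c.injective (hc _ h) ▸ hw |> fun h' => by rwa [c.injective (hc _ h)])
    refine ⟨hcK, ?_⟩
    let T : Tor d → Tor d := fun z => if h : ∃ n : ℕ, ∃ w ∈ K, (f ^ n).1 w = z then
      (f ^ h.choose).1 (c h.choose_spec.choose) else z
    have T1 : ∀ n : ℕ, ∀ w ∈ K, T ((f ^ n).1 w) = (f ^ n).1 (c w) := fun n w hw => by
      have h : ∃ m : ℕ, ∃ w' ∈ K, (f ^ m).1 w' = (f ^ n).1 w := ⟨n, w, hw, rfl⟩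
      simp only [T, dif_pos h]
      obtain ⟨h1, h2⟩ := h.choose_spec.choose_spec
      generalize h.choose_spec.choose = w' at h1 h2 ⊢
      generalize h.choose = m at h2 ⊢
      obtain rfl := uq h1 hw h2
      rw [(f ^ m).1.injective h2]
    have T2 : ∀ z, (∀ n : ℕ, ∀ w ∈ K, (f ^ n).1 w ≠ z) → T z = z := fun z hz =>
      dif_neg fun ⟨n, w, hw, e⟩ => hz n w hw e
    have ap : ∀ N : ℕ, ∃ G : Tor d → Tor d, Continuous G ∧
        (∀ n < N, ∀ w ∈ K, G ((f ^ n).1 w) = (f ^ n).1 (c w)) ∧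
        ∀ z, (∀ n < N, ∀ w ∈ K, (f ^ n).1 w ≠ z) → G z = z := fun N => by
      induction N with
      | zero => exact ⟨id, continuous_id, fun n hn => absurd hn (by omega), fun _ _ => rfl⟩
      | succ N ih =>
        obtain ⟨G, g1, g2, g3⟩ := ih
        have fx : ∀ z, (∀ w ∈ K, (f ^ N).1 w ≠ z) → (f ^ N).1 (c (((f ^ N)⁻¹).1 z)) = z :=
          fun z hz => by rw [hc _ fun h => hz _ h (ap_inv _ _), ap_inv]
        refine ⟨fun z => (f ^ N).1 (c (((f ^ N)⁻¹).1 (G z))),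
          (continuous_ap _).comp (c.continuous.comp ((continuous_ap _).comp g1)),
          fun n hn w hw => ?_, fun z hz => ?_⟩
        · rcases eq_or_lt_of_le (Nat.lt_succ_iff.1 hn) with rfl | hn'
          · simp only
            rw [g3 _ fun m hm w' hw' e => absurd (uq hw' hw e) hm.ne, inv_ap]
          · simp only
            rw [g2 n hn' w hw]
            exact fx _ fun w' hw' e => absurd (uq hw' (hcK w hw) e) hn'.ne'
        · simp only
          rw [g3 z fun n hn => hz n (by omega)]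
          exact fx _ (hz N (by omega))
    refine ⟨T, continuous_of_uniform_approx_of_continuous fun u hu => ?_, T1, T2⟩
    obtain ⟨ε, hε, hu'⟩ := Metric.mem_uniformity_dist.1 hu
    obtain ⟨N, hN⟩ := eventually_atTop.1 (hQ _ (half_pos hε))
    obtain ⟨G, g1, g2, g3⟩ := ap N
    refine ⟨G, g1, fun z => hu' ?_⟩
    by_cases h : ∃ n : ℕ, ∃ w ∈ K, (f ^ n).1 w = z
    · obtain ⟨n, w, hw, rfl⟩ := h
      rw [T1 n w hw]
      by_cases hn : n < N
      · rw [g2 n hn w hw, dist_self]; exact hε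
      · rw [g3 _ fun m hm w' hw' e => hn (by rwa [← uq hw' hw e])]
        linarith [dist_triangle_right ((f ^ n).1 (c w)) ((f ^ n).1 w) Q,
          hN n (not_lt.1 hn) _ (hcK w hw), hN n (not_lt.1 hn) _ hw]
    · push Not at h
      rw [T2 z h, g3 z fun n _ => h n, dist_self]; exact hε
  obtain ⟨k1, T, t1, t2, t3⟩ := key χ hχ
  obtain ⟨k2, S, s1, s2, s3⟩ := key χ.symm fun z hz => by rw [χ.symm_apply_eq, hχ z hz]
  refine ⟨⟨⟨T, S, fun z => ?_, fun z => ?_⟩, t1, s1⟩, fun z => ?_⟩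
  · by_cases h : ∃ n : ℕ, ∃ w ∈ K, (f ^ n).1 w = z
    · obtain ⟨n, w, hw, rfl⟩ := h
      rw [t2 n w hw, s2 n _ (k1 w hw), χ.symm_apply_apply]
    · push Not at h
      rw [t3 z h, s3 z h]
  · by_cases h : ∃ n : ℕ, ∃ w ∈ K, (f ^ n).1 w = z
    · obtain ⟨n, w, hw, rfl⟩ := h
      rw [s2 n w hw, t2 n _ (k2 w hw), χ.apply_symm_apply]
    · push Not at h
      rw [s3 z h, t3 z h]
  · change T (f.1 z) = χ (f.1 (T z))
    by_cases h : ∃ n : ℕ, ∃ w ∈ K, (f ^ n).1 w = z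
    · obtain ⟨n, w, hw, rfl⟩ := h
      rw [t2 n w hw, ← pow_succ_ap', ← pow_succ_ap', t2 _ w hw,
        hχ _ (hK _ (by omega) _ (k1 w hw))]
    · push Not at h
      rw [t3 z h]
      by_cases h1 : f.1 z ∈ K
      · exact t2 0 _ h1
      · rw [hχ _ h1]
        refine t3 _ fun n w hw e => ?_
        cases n with
        | zero => exact h1 (e ▸ hw)
        | succ n => exact h n w hw (f.1.injective (by rwa [← pow_succ_ap']))

theorem Ctr.unif {g : Diff1 d} {Q : Tor d} {δ : ℝ} (h : Ctr g Q δ) (hδ : 0 < δ) {K : Set (Tor d)}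
    (hK : IsCompact K) (hz : ∀ z ∈ K, Tendsto (fun n : ℕ => (g ^ n).1 z) atTop (𝓝 Q)) {ε : ℝ}
    (hε : 0 < ε) : ∀ᶠ n : ℕ in atTop, ∀ z ∈ K, dist ((g ^ n).1 z) Q < ε := by
  refine hK.induction_on (p := fun S => ∀ᶠ n : ℕ in atTop, ∀ z ∈ S, dist ((g ^ n).1 z) Q < ε)
    (by simp) (fun S T hST h => h.mono fun n hn z hz => hn z (hST hz))
    (fun S T h1 h2 => (h1.and h2).mono fun n hn z hz => hz.elim (hn.1 z) (hn.2 z)) fun z hzK => ?_
  obtain ⟨N, hN⟩ := ((Metric.tendsto_nhds.1 (hz z hzK)) _ (lt_min hε hδ)).exists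
  have hc : ContinuousAt (fun w => dist ((g ^ N).1 w) Q) z :=
    ((continuous_ap _).dist continuous_const).continuousAt
  refine ⟨_, mem_nhdsWithin_of_mem_nhds (hc.eventually_lt continuousAt_const hN), ?_⟩
  filter_upwards [eventually_ge_atTop N] with n hn w hw
  obtain ⟨k, rfl⟩ := Nat.exists_eq_add_of_le' hn
  have hw' : dist ((g ^ N).1 w) Q < min ε δ := hw
  rw [pow_add_ap]
  refine (h.pow (hw'.le.trans (min_le_right _ _)) k).trans_lt ?_
  exact (mul_le_of_le_one_left dist_nonneg (pow_le_one₀ (by norm_num) (by norm_num))).trans_lt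
    (hw'.trans_le (min_le_left _ _))

theorem ns_tendsto {X : Type*} [MetricSpace X] [CompactSpace X] {g : X → X} {L : X → ℝ} {a b : X}
    (hg : Continuous g) (hL : Continuous L) (h1 : ∀ t, L (g t) ≤ L t)
    (h2 : ∀ t, t ≠ a → t ≠ b → L (g t) < L t) {t : X} (ht : L t < L b) :
    Tendsto (fun n : ℕ => g^[n] t) atTop (𝓝 a) := by
  have ha : Antitone fun n : ℕ => L (g^[n] t) := antitone_nat_of_succ_le fun n => by
    rw [Function.iterate_succ_apply']; exact h1 _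
  obtain ⟨m, -, hm⟩ := isCompact_univ.exists_isMinOn ⟨t, mem_univ t⟩ hL.continuousOn
  have hc := tendsto_atTop_ciInf ha ⟨L m, by rintro _ ⟨n, rfl⟩; exact hm (mem_univ _)⟩
  refine tendsto_of_subseq_tendsto fun ns hns => ?_
  obtain ⟨w, ms, hms, hw⟩ := CompactSpace.tendsto_subseq fun n => g^[ns n] t
  have hn := hns.comp hms.tendsto_atTop
  have e1 := tendsto_nhds_unique ((hL.tendsto w).comp hw) (hc.comp hn)
  have e2 := tendsto_nhds_unique (((hL.comp hg).tendsto w).comp hw)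
    ((hc.comp ((tendsto_add_atTop_nat 1).comp hn)).congr fun n => by
      simp only [Function.comp_apply, Function.iterate_succ_apply'])
  have e3 : L w ≤ L t := le_of_tendsto' ((hL.tendsto w).comp hw) fun n => ha (Nat.zero_le _)
  have e4 : w = a := by
    by_contra h
    have := h2 w h fun h' => by rw [h'] at e3; linarith
    simp only [Function.comp_apply] at e2
    linarith
  exact ⟨ms, e4 ▸ hw⟩

theorem lyap_wander_on {f : Diff1 d} {L : Tor d → ℝ} {V : Set (Tor d)} (hV : IsOpen V)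
    (hL : Continuous L) (h : ∀ x ∈ V, f.1 x ∈ V ∧ L (f.1 x) ≤ L x) {x : Tor d} (hxV : x ∈ V)
    (hx : L (f.1 x) < L x) : x ∉ Omega f := by
  intro hO
  have hp : ∀ n : ℕ, ∀ x ∈ V, (f ^ n).1 x ∈ V ∧ L ((f ^ n).1 x) ≤ L x := fun n x hx => by
    induction n with
    | zero => exact ⟨hx, le_rfl⟩
    | succ n ih => rw [pow_succ_ap']; exact ⟨(h _ ih.1).1, (h _ ih.1).2.trans ih.2⟩
  obtain ⟨m, hm1, hm2⟩ := exists_between hx
  obtain ⟨n, hn, _, ⟨y, hy, rfl⟩, hy'⟩ := hO _ (Eventually.and (hV.mem_nhds hxV)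
    (((hL.comp (continuous_ap f)).continuousAt.eventually_lt continuousAt_const hm1).and
      (continuousAt_const.eventually_lt hL.continuousAt hm2)))
  obtain ⟨k, rfl⟩ := Nat.exists_eq_succ_of_ne_zero hn.ne'
  have h1 := (hp k _ (h y hy.1).1).2
  rw [← mul_ap, ← pow_succ] at h1
  have h2 : L (f.1 y) < m := hy.2.1
  have h3 : m < L ((f ^ (k + 1)).1 y) := hy'.2.2
  linarith

/-- Number of visits of the full orbit of `z` to `U`. -/
def vis (f : Diff1 d) (U : Set (Tor d)) (z : Tor d) : ℕ∞ := {k : ℤ | (f ^ k).1 z ∈ U}.encard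

theorem vis_mono (f : Diff1 d) {U V : Set (Tor d)} (h : U ⊆ V) (z : Tor d) :
    vis f U z ≤ vis f V z := encard_le_encard fun _ hk => h hk

theorem vis_union (f : Diff1 d) (U V : Set (Tor d)) (z : Tor d) :
    vis f (U ∪ V) z ≤ vis f U z + vis f V z := encard_union_le _ _

theorem vis_zpow (f : Diff1 d) (U : Set (Tor d)) (z : Tor d) (m : ℤ) :
    vis f U ((f ^ m).1 z) = vis f U z := by
  unfold vis
  rw [← (add_left_injective m).encard_image]
  congr 1
  ext k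
  constructor
  · rintro ⟨j, hj, rfl⟩
    simpa only [mem_ofPred_eq, zpow_add, mul_ap] using hj
  · intro hk
    refine ⟨k - m, ?_, sub_add_cancel k m⟩
    rwa [mem_ofPred_eq, ← mul_ap, ← zpow_add, sub_add_cancel]

theorem vis_compact (f : Diff1 d) {K : Set (Tor d)} (hK : IsCompact K)
    (h : ∀ x ∈ K, x ∉ Omega f) : ∃ N : ℕ, ∀ z, vis f K z ≤ N := by
  refine hK.induction_on (p := fun S => ∃ N : ℕ, ∀ z, vis f S z ≤ N) ⟨0, fun z => by simp [vis]⟩
    (fun S T hST ⟨N, hN⟩ => ⟨N, fun z => (vis_mono f hST z).trans (hN z)⟩)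
    (fun S T ⟨N, hN⟩ ⟨M, hM⟩ => ⟨N + M, fun z => (vis_union f S T z).trans (by
      push_cast; exact add_le_add (hN z) (hM z))⟩) fun x hx => ?_
  have := h x hx
  simp only [Omega, mem_ofPred_eq, not_forall, not_exists, not_and] at this
  obtain ⟨U, hU, hU'⟩ := this
  refine ⟨U, mem_nhdsWithin_of_mem_nhds hU, 1, fun z => encard_le_one_iff.2 ?_⟩
  have key : ∀ a b : ℤ, (f ^ a).1 z ∈ U → (f ^ b).1 z ∈ U → ¬ a < b := fun a b ha hb hab =>
    hU' (b - a).toNat (by omega) ⟨_, ⟨_, ha, by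
      rw [← mul_ap, ← zpow_natCast, ← zpow_add, show ((b - a).toNat : ℤ) + a = b by omega]⟩, hb⟩
  exact fun a b ha hb => le_antisymm (not_lt.1 (key b a hb ha)) (not_lt.1 (key a b ha hb))

theorem conj_zpow {f g : Diff1 d} {H : Tor d → Tor d} (h : ∀ z, H (f.1 z) = g.1 (H z)) (k : ℤ)
    (z : Tor d) : H ((f ^ k).1 z) = (g ^ k).1 (H z) :=
  (zpow_orbit (X := fun k => H ((f ^ k).1 z)) (fun n => by
    rw [← h, add_comm n, zpow_one_add, mul_ap]) k).symm

theorem hyp_of_diag {f : Diff1 d} {S : Set (Tor d)} (hS : ∀ x, f.1 x ∈ S ↔ x ∈ S)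
    (h : ∀ x ∈ S, f.1 x = x ∧ ∃ r : Fin d → ℝ, (∀ v i, D f x v i = r i * v i) ∧
      ∀ i, (0 < r i ∧ r i ≤ 1 / 2) ∨ 2 ≤ r i) : Hyp f S := by
  choose! h0 r h1 h2 using h
  have hr : ∀ x ∈ S, ∀ i, 0 < r x i := fun x hx i => by
    rcases h2 x hx i with h | h <;> linarith [h]
  have hiff : ∀ x ∈ S, ∀ (I : Set (Fin d)) v, D f x v ∈ coordSub I ↔ v ∈ coordSub I :=
    fun x hx I v => by simp only [mem_coordSub, h1 x hx, mul_eq_zero, (hr x hx _).ne', false_or]
  refine hyp_of_one_step (fun x => coordSub {i | r x i ≤ 1 / 2})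
    (fun x => coordSub {i | r x i ≤ 1 / 2}ᶜ) (μ := 1 / 2) (by norm_num) (by norm_num) hS
    (fun x _ => isCompl_coordSub _) (fun x hx v => by rw [h0 x hx]; exact hiff x hx _ v)
    (fun x hx v => by rw [h0 x hx]; exact hiff x hx _ v) (fun x hx v hv => ?_) (fun x hx v hv => ?_)
  · refine (pi_norm_le_iff_of_nonneg (by positivity)).2 fun i => ?_
    rw [h1 x hx, Real.norm_eq_abs]
    by_cases hi : r x i ≤ 1 / 2
    · rw [abs_mul, abs_of_pos (hr x hx i)]
      exact mul_le_mul hi (norm_le_pi_norm v i) (abs_nonneg _) (by norm_num)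
    · rw [mem_coordSub.1 hv i hi]; simp
  · refine (pi_norm_le_iff_of_nonneg (by positivity)).2 fun i => ?_
    have := norm_le_pi_norm (D f x v) i
    rw [h1 x hx, Real.norm_eq_abs, abs_mul, abs_of_pos (hr x hx i)] at this
    by_cases hi : r x i ≤ 1 / 2
    · rw [mem_coordSub.1 hv i (not_not.2 hi)]; simp
    · have h3 : 2 ≤ r x i := (h2 x hx i).resolve_left fun h => hi h.2
      rw [Real.norm_eq_abs]
      nlinarith [abs_nonneg (v i)]

end Pool.Agent.H581Z
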