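import Pool.Agent.H581Z.Horse3

open Set Filter Topology Metric

noncomputable section

namespace Pool.Agent.H581Z

theorem coe_eq_of_int {s t : ℝ} (n : ℤ) (h : s = t + n) : (s : UnitAddCircle) = t := by
  rw [h, AddCircle.coe_add, coe_int, add_zero]

/-- `x` is within `r` of `c` on the circle. -/
def Near (c r : ℝ) (x : UnitAddCircle) : Prop := ∃ s, |s| ≤ r ∧ x = ((c + s : ℝ) : UnitAddCircle)

theorem Near.mono {c r r' : ℝ} {x : UnitAddCircle} (h : Near c r x) (hr : r ≤ r') : Near c r' x := by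
  obtain ⟨s, h1, h2⟩ := h
  exact ⟨s, h1.trans hr, h2⟩

theorem Near.disj {c c' r : ℝ} {x : UnitAddCircle} (h : Near c r x) (h' : Near c' r x)
    (h1 : c + 2 * r < c') (h2 : c' + 2 * r < c + 1) : False := by
  obtain ⟨s, a1, rfl⟩ := h
  obtain ⟨s', a2, e⟩ := h'
  obtain ⟨b1, b2⟩ := abs_le.1 a1
  obtain ⟨b3, b4⟩ := abs_le.1 a2
  have := coe_inj_of_lt e (abs_lt.2 ⟨by linarith, by linarith⟩)
  linarith

theorem near_two {x : Tor 2} {c : E 2} {r : ℝ} (h0 : Near (c 0) r (x 0)) (h1 : Near (c 1) r (x 1)) :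
    ∃ v, ‖v‖ ≤ r ∧ x = proj (c + v) := by
  obtain ⟨s, a1, e1⟩ := h0
  obtain ⟨s', a2, e2⟩ := h1
  refine ⟨![s, s'], norm_two_le a1 a2, ?_⟩
  ext i; fin_cases i
  exacts [e1, e2]

theorem near_dist {x : Tor 2} {c : E 2} {r : ℝ} (h0 : Near (c 0) r (x 0)) (h1 : Near (c 1) r (x 1)) :
    dist x (proj c) ≤ r := by
  obtain ⟨v, hv, rfl⟩ := near_two h0 h1
  exact (dist_proj_le _ _).trans (by rwa [add_sub_cancel_left])

theorem Step.core {Ψ : ℝ → ℝ} {a b α β : ℝ} (h : Step Ψ a b α β) (hb : 0 ≤ b) (t : ℝ)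
    (ht : ¬ Near (1 / 2) b t) : Near 0 (1 / 2 - β * b) (Ψ t) := by
  set s := t - round t with hs
  have e1 : (s : UnitAddCircle) = t := by rw [hs, AddCircle.coe_sub, coe_int, sub_zero]
  obtain ⟨e2, e3⟩ := abs_le.1 (abs_sub_round t)
  refine ⟨Ψ s, h.small hb (abs_le.2 ⟨?_, ?_⟩), by rw [zero_add, coe_congr h.add_int e1]⟩
  · by_contra h1
    exact ht ⟨s + 1 / 2, abs_le.2 ⟨by linarith, by linarith⟩,
      e1 ▸ coe_eq_of_int (-1) (by push_cast; ring)⟩
  · by_contra h1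
    exact ht ⟨s - 1 / 2, abs_le.2 ⟨by linarith, by linarith⟩, e1 ▸ by congr 1; ring⟩

variable {α β γ : ℝ}

theorem transition (h : Par α β γ) {s s' : St} {v v' : E 2} (hv : ‖v‖ ≤ 0.05) (hv' : ‖v'‖ ≤ 0.05)
    (e : proj (off α s + Dm α β γ s v) = proj (ctr s' + v')) :
    adm s s' ∧ v' = Dm α β γ s v + (off α s - ctr s') := by
  have k : ∀ i, -1 < (off α s + Dm α β γ s v) i - (ctr s' + v') i →
      (off α s + Dm α β γ s v) i - (ctr s' + v') i < 1 →
      (off α s + Dm α β γ s v) i = (ctr s' + v') i :=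
    fun i h1 h2 => coe_inj_of_lt (congrFun e i) (abs_lt.2 ⟨h1, h2⟩)
  have big : ∀ {b x : ℝ}, 9 ≤ b → b ≤ 10 → -0.05 ≤ x ∧ x ≤ 0.05 → -0.5 ≤ b * x ∧ b * x ≤ 0.5 :=
    fun h1 h2 h3 => by constructor <;> nlinarith [h3.1, h3.2]
  have a0 := small_mul h (abs_co hv 0)
  have a1 := small_mul h (abs_co hv 1)
  have b0 := big h.b0 h.b1 (abs_co hv 0)
  have b1 := big h.b0 h.b1 (abs_co hv 1)
  have c1 := big h.c0 h.c1 (abs_co hv 1)
  have d0 := abs_co hv' 0
  have d1 := abs_co hv' 1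
  have p0 := h.a0
  have p1 := h.a1
  have k0 := k 0
  have k1 := k 1
  suffices H : adm s s' ∧ (off α s + Dm α β γ s v) 0 = (ctr s' + v') 0 ∧
      (off α s + Dm α β γ s v) 1 = (ctr s' + v') 1 by
    refine ⟨H.1, ?_⟩
    ext i; fin_cases i
    · have := H.2.1
      simp only [Pi.add_apply, Pi.sub_apply, Fin.zero_eta] at this ⊢
      linarith
    · have := H.2.2
      simp only [Pi.add_apply, Pi.sub_apply, Fin.mk_one] at this ⊢
      linarith
  clear k e big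
  cases s <;> cases s' <;>
    simp only [off, ctr, Dm, mat2_ap, Pi.add_apply, Matrix.cons_val_zero, Matrix.cons_val_one,
      adm, reduceCtorEq, iff_self, false_iff, iff_false, not_true_eq_false, true_and,
      false_and] at k0 k1 ⊢ <;>
    first
    | exact ⟨k0 (by linarith) (by linarith), k1 (by linarith) (by linarith)⟩
    | (have := k0 (by linarith) (by linarith); linarith)
    | (have := k1 (by linarith) (by linarith); linarith)

theorem norm_mat2 {r s μ : ℝ} (h0 : 0 ≤ μ) (hr : |r| ≤ μ) (hs : |s| ≤ μ) : ‖mat2 0 r s 0‖ ≤ μ := by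
  refine ContinuousLinearMap.opNorm_le_bound _ h0 fun v => ?_
  rw [mat2_ap]
  refine norm_two_le ?_ ?_
  · simpa [abs_mul] using mul_le_mul hr (norm_le_pi_norm v 1) (norm_nonneg _) h0
  · simpa [abs_mul] using mul_le_mul hs (norm_le_pi_norm v 0) (norm_nonneg _) h0

theorem spec_mat2 {r s : ℝ} (hr : |r| ≤ 1 / 4) (hs : |s| ≤ 1 / 4) (h : r * s < 0) :
    ∀ᶠ A in 𝓝 (mat2 0 r s 0), Spec A := by
  refine spec_two ((norm_mat2 (by norm_num) hr hs).trans_lt (by norm_num)) ?_ ?_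
  · simp [ent, mat2_ap]; linarith
  · have := abs_le.1 hr
    have := abs_le.1 hs
    simp [ent, mat2_ap]; nlinarith

theorem trap {f : Diff1 2} (h : HS f α β γ)
    (h1 : ∀ x : Tor 2, ¬ Near (1 / 2) 0.05 (x 1) → Near 0 0.05 (f.1 x 0))
    (h2 : ∀ x : Tor 2, ¬ Near (1 / 2) 0.05 (x 0) → ¬ Near (1 / 4) 0.05 (x 1) →
      Near 0 0.05 (f.1 x 1)) (x : Tor 2) :
    (∃ n : ℤ, dist ((f ^ n).1 x) (proj 0) < 0.1 ∨
      dist ((f ^ n).1 x) (proj fun _ => 1 / 2) < 0.1) ∨ x ∈ Lam α β γ := by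
  rw [or_iff_not_imp_left]
  intro hx
  simp only [not_exists, not_or, not_lt] at hx
  have hs : ∀ n : ℤ, (f ^ (n + 1)).1 x = f.1 ((f ^ n).1 x) := fun n => by
    rw [add_comm, zpow_one_add, mul_ap]
  have st : ∀ n : ℤ, ∃ s v, ‖v‖ ≤ 0.05 ∧ (f ^ n).1 x = proj (ctr s + v) := fun n => by
    have A : Near 0 0.05 ((f ^ n).1 x 0) ∨ Near 0 0.05 ((f ^ n).1 x 1) := by
      rw [← sub_add_cancel n 1, hs]
      by_cases c1 : Near (1 / 2) 0.05 ((f ^ (n - 1)).1 x 1)
      · refine Or.inr (h2 _ (fun c0 => ?_) fun c2 => c2.disj c1 (by norm_num) (by norm_num))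
        linarith [near_dist (c := fun _ => 1 / 2) c0 c1, (hx (n - 1)).2]
      · exact Or.inl (h1 _ c1)
    have B : Near (1 / 2) 0.05 ((f ^ n).1 x 1) ∨ Near (1 / 2) 0.05 ((f ^ n).1 x 0) ∨
        Near (1 / 4) 0.05 ((f ^ n).1 x 1) := by
      by_contra hc
      simp only [not_or] at hc
      have := near_dist (c := 0) (h1 _ hc.1) (h2 _ hc.2.1 hc.2.2)
      rw [← hs] at this
      linarith [(hx (n + 1)).1]
    rcases A with A | A <;> rcases B with B | B | B
    · exact ⟨St.R, near_two A B⟩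
    · exact (A.disj B (by norm_num) (by norm_num)).elim
    · exact ⟨St.I, near_two A B⟩
    · exact (A.disj B (by norm_num) (by norm_num)).elim
    · exact ⟨St.A, near_two B A⟩
    · exact (A.disj B (by norm_num) (by norm_num)).elim
  choose ω V hV e using st
  have tr := fun j => transition h.par (hV j) (hV (j + 1))
    (by rw [← h.aff _ _ (hV j), ← e, ← e, hs])
  exact ⟨ω, V, ⟨fun j => (tr j).1, fun j => (tr j).2,
    Rec.bound h.par (fun j => (tr j).1) (fun j => (tr j).2) hV⟩, e 0⟩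

theorem example2 : ∃ f0 : Diff1 2, AxiomA f0 ∧ NoCycles f0 ∧ HasNontrivHomClass f0 ∧
    ∀ᶠ f in 𝓝 f0, f ∈ closure {g | ¬ TrivCent g} := by
  obtain ⟨Ψ, β, hβ0, hΨ⟩ := exists_step (a := 0.449) (b := 0.05) (α0 := 1 / 1000) (by norm_num)
    (by norm_num) (by norm_num) (by norm_num) (by norm_num)
  obtain ⟨Γ, γ, hγ0, hΓ⟩ := exists_step (a := 0.449) (b := 0.05) (α0 := 0) (by norm_num)
    (by norm_num) (by norm_num) (by norm_num) (by norm_num)
  have b1 : β ≤ 10 := by linarith [hΨ.up]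
  have b2 : 9.7 ≤ β := by linarith [hΨ.low]
  have b3 : γ ≤ 10 := by linarith [hΓ.up]
  have b4 : 9.7 ≤ γ := by linarith [hΓ.low]
  set α := 1 / 1000 * β with hα
  have par : Par α β γ := ⟨by positivity, by linarith, by linarith, b1, by linarith, b3⟩
  have a0 := par.a0
  have a1 := par.a1
  obtain ⟨Θ, hΘ, hΘ1, hΘ2⟩ := hΨ.exists_inv a0
  have cΨ := hΨ.cd
  have cΓ := hΓ.cd
  have gi : ∀ t (n : ℤ), Γ (t + n + 1 / 4) = Γ (t + 1 / 4) + n := fun t n => by
    rw [add_right_comm, hΓ.add_int]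
  have Θi := inv_add_int hΨ.add_int hΘ1 hΘ2
  obtain ⟨f, hF, -⟩ := exists_diff_of_lift (d := 2)
    (F := fun z => ![Ψ (z 1), -Ψ (z 0) + Γ (z 1 + 1 / 4)])
    (G := fun z => ![Θ (Γ (Θ (z 0) + 1 / 4) - z 1), Θ (z 0)])
    (contDiff_pi.2 fun i => by fin_cases i <;> simp <;> fun_prop)
    (contDiff_pi.2 fun i => by fin_cases i <;> simp <;> fun_prop)
    (fun z => by ext i; fin_cases i <;> simp [hΘ1])
    (fun z => by ext i; fin_cases i <;> simp [hΘ2])
    (fun z z' h => by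
      ext i
      fin_cases i
      · exact coe_congr hΨ.add_int (congrFun h 1)
      · change ((-Ψ (z 0) + Γ (z 1 + 1 / 4) : ℝ) : UnitAddCircle) =
          ((-Ψ (z' 0) + Γ (z' 1 + 1 / 4) : ℝ) : UnitAddCircle)
        rw [AddCircle.coe_add, AddCircle.coe_add, AddCircle.coe_neg, AddCircle.coe_neg,
          coe_congr hΨ.add_int (congrFun h 0),
          coe_congr (Ψ := fun t => Γ (t + 1 / 4)) gi (congrFun h 1)])
    (fun z z' h => by
      ext i
      fin_cases i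
      · refine coe_congr Θi ?_
        rw [AddCircle.coe_sub, AddCircle.coe_sub,
          coe_congr (Ψ := fun t => Γ (t + 1 / 4)) gi (coe_congr Θi (congrFun h 0))]
        exact congrArg _ (congrFun h 1)
      · exact coe_congr Θi (congrFun h 0))
  have hf : ∀ z, f.1 (proj z) = proj ![Ψ (z 1), -Ψ (z 0) + Γ (z 1 + 1 / 4)] :=
    fun z => (hF.eq z).symm
  have g0 : ∀ t, -0.6 ≤ t → t ≤ 0.19 → Γ (t + 1 / 4) = 0 := fun t h1 h2 => by
    rw [hΓ.lin0 _ (abs_le.2 ⟨by linarith, by linarith⟩)]; ring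
  have g1 : ∀ t, 0.31 ≤ t → t ≤ 1 → Γ (t + 1 / 4) = 1 := fun t h1 h2 => by
    rw [show t + 1 / 4 = t - 1 + 1 / 4 + 1 by ring, hΓ.add_one,
      hΓ.lin0 _ (abs_le.2 ⟨by linarith, by linarith⟩)]; ring
  have l0 : ∀ t, -0.4 ≤ t → t ≤ 0.4 → Ψ t = α * t := fun t h1 h2 =>
    hΨ.lin0 _ (abs_le.2 ⟨by linarith, by linarith⟩)
  have hs : HS f α β γ := by
    refine ⟨par, fun s v hv => ?_⟩
    obtain ⟨c0, c0'⟩ := abs_co hv 0
    obtain ⟨c1, c1'⟩ := abs_co hv 1
    rw [hf]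
    cases s <;> simp only [ctr, off, Dm, mat2_ap, Pi.add_apply, Matrix.cons_val_zero,
      Matrix.cons_val_one]
    · rw [l0 _ (by linarith) (by linarith), l0 _ (by linarith) (by linarith),
        show 1 / 4 + v 1 + 1 / 4 = 1 / 2 + v 1 by ring, hΓ.lin1 _ (abs_le.2 ⟨c1, c1'⟩)]
      congr 1; ext i; fin_cases i <;> simp <;> ring
    · rw [hΨ.lin1 _ (abs_le.2 ⟨c1, c1'⟩), l0 _ (by linarith) (by linarith),
        g1 _ (by linarith) (by linarith)]
      ext i; fin_cases i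
      · exact coe_eq_of_int 0 (by simp)
      · exact coe_eq_of_int 1 (by simp)
    · rw [hΨ.lin1 _ (abs_le.2 ⟨c0, c0'⟩), l0 _ (by linarith) (by linarith),
        g0 _ (by linarith) (by linarith)]
      ext i; fin_cases i
      · exact coe_eq_of_int 0 (by simp)
      · exact coe_eq_of_int (-1) (by simp; ring)
  have hq : ∀ z : E 2, ‖z - 0‖ ≤ 0.13 → f.1 (proj z) = proj (0 + mat2 0 α (-α) 0 (z - 0)) := by
    intro z hz
    rw [sub_zero] at hz
    obtain ⟨c0, c0'⟩ := abs_co hz 0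
    obtain ⟨c1, c1'⟩ := abs_co hz 1
    rw [hf, l0 _ (by linarith) (by linarith), l0 _ (by linarith) (by linarith),
      g0 _ (by linarith) (by linarith), mat2_ap]
    congr 1; ext i; fin_cases i <;> simp
  have hp : ∀ z : E 2, ‖z - fun _ => 1 / 2‖ ≤ 0.13 → (f⁻¹).1 (proj z) =
      proj ((fun _ => 1 / 2) + mat2 0 (-β⁻¹) β⁻¹ 0 (z - fun _ => 1 / 2)) := fun z hz => by
    have h2 : ∀ i : Fin 2, |β⁻¹ * (z i - 1 / 2)| ≤ 0.05 := fun i => by
      rw [abs_mul, abs_of_pos (by positivity), inv_mul_le_iff₀ (by linarith)]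
      have : |z i - 1 / 2| ≤ 0.13 := (norm_le_pi_norm (z - fun _ => 1 / 2) i).trans hz
      linarith
    obtain ⟨c0, c0'⟩ := abs_le.1 (h2 0)
    rw [eq_comm, ← Equiv.apply_eq_iff_eq f.1, ap_inv, hf, mat2_ap]
    simp only [Pi.add_apply, Pi.sub_apply, Matrix.cons_val_zero, Matrix.cons_val_one, zero_mul,
      zero_add, add_zero]
    rw [hΨ.lin1 _ (h2 0), hΨ.lin1 _ (by rw [neg_mul, abs_neg]; exact h2 1),
      g1 _ (by linarith) (by linarith)]
    congr 1; ext i; fin_cases i <;> simp <;> field_simp <;> ring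
  have i2 : β⁻¹ ≤ 1 / 4 := by rw [inv_le_comm₀ hβ0 (by norm_num)]; linarith
  have i3 : 0 < β⁻¹ := by positivity
  have u1 : |α| ≤ 1 / 4 := by rw [abs_of_pos a0]; linarith
  have u2 : |β⁻¹| ≤ 1 / 4 := by rwa [abs_of_pos i3]
  have n1 : ‖mat2 0 α (-α) 0‖ ≤ 1 / 4 := norm_mat2 (by norm_num) u1 (by rwa [abs_neg])
  have n2 : ‖mat2 0 (-β⁻¹) β⁻¹ 0‖ ≤ 1 / 4 := norm_mat2 (by norm_num) (by rwa [abs_neg]) u2
  have hA := hs.axiomA (δ := 0.1) (by norm_num)
    (ctr_of_affine (n1.trans (by norm_num)) fun z hz => hq z (hz.trans (by norm_num)))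
    (ctr_of_affine (n2.trans (by norm_num)) fun z hz => hp z (hz.trans (by norm_num)))
    (by rw [D_of_affine hq (by norm_num)]; linarith)
    (by rw [D_of_affine hp (by norm_num)]; linarith)
    (trap hs (fun x hx => by
      obtain ⟨z, rfl⟩ := proj_surj x
      rw [hf]
      exact (hΨ.core (by norm_num) _ hx).mono (by linarith)) (fun x hx hx' => by
      obtain ⟨z, rfl⟩ := proj_surj x
      rw [hf]
      obtain ⟨s, s1, s2⟩ := hΨ.core (by norm_num) _ hx
      obtain ⟨u, t1, t2⟩ := hΓ.core (by norm_num) (z 1 + 1 / 4) (fun ⟨s, s1, s2⟩ => hx' ⟨s, s1, by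
        have := congrArg (fun y => y - ((1 / 4 : ℝ) : UnitAddCircle)) s2
        simp only [← AddCircle.coe_sub] at this
        rwa [add_sub_cancel_right, show 1 / 2 + s - 1 / 4 = 1 / 4 + s by ring] at this⟩)
      refine ⟨-s + u, (abs_add_le _ _).trans (by rw [abs_neg]; linarith), ?_⟩
      change ((-Ψ (z 0) + Γ (z 1 + 1 / 4) : ℝ) : UnitAddCircle) = _
      rw [AddCircle.coe_add, AddCircle.coe_neg, s2, t2]
      simp))
  refine ⟨f, hA.1, hA.2, hs.homoclinic, ?_⟩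
  refine locally_dense (p0 := fun _ => 1 / 2) (q0 := 0) (c := fun _ => 1 / 4) (a := 0.12)
    (rob_eventually (z0 := fun _ => 0.39) (z1 := ![α * 0.39, -(α * 0.39)])
      (sink_eventually (A0 := mat2 0 α (-α) 0) (by norm_num) ?_
        (fun z hz => D_of_affine hq (hz.trans_lt (by norm_num))) (by linarith)
        (spec_mat2 u1 (by rwa [abs_neg]) (by nlinarith)))
      (sink_eventually (A0 := mat2 0 (-β⁻¹) β⁻¹ 0) (by norm_num) ?_
        (fun z hz => D_of_affine hp (hz.trans_lt (by norm_num))) (by linarith)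
        (spec_mat2 (by rwa [abs_neg]) u2 (by nlinarith))) ?_ ?_ ?_)
    (by norm_num) ?_ ?_ ?_
  · simpa using hq 0 (by norm_num)
  · simpa using hp (fun _ => 1 / 2) (by norm_num)
  · refine (pi_norm_lt_iff (by norm_num)).2 fun i => ?_
    norm_num [abs_lt]
  · rw [sub_zero]
    refine (norm_two_le (M := 0.1) (abs_le.2 ⟨?_, ?_⟩) (abs_le.2 ⟨?_, ?_⟩)).trans_lt
      (by norm_num) <;> simp only [Matrix.cons_val_zero, Matrix.cons_val_one] <;> linarith
  · rw [hf, l0 _ (by norm_num) (by norm_num), g1 _ (by norm_num) (by norm_num)]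
    ext i; fin_cases i
    · rfl
    · exact coe_eq_of_int 1 (by simp)
  · have : ((fun _ => 1 / 2 : E 2) - fun _ => 1 / 4) = fun _ => 1 / 4 := by ext; norm_num
    rw [this, pi_norm_const]; norm_num
  · rw [zero_sub, norm_neg, pi_norm_const]; norm_num
  · rw [sub_zero, pi_norm_const]; norm_num

end Pool.Agent.H581Z
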