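import Pool.Agent.H581Z.E0a
import Pool.Agent.H581Z.Ex2
import Pool.Agent.H581Z.E0Defs

open Set Filter Topology Metric
open scoped ContDiff

noncomputable section

namespace Pool.Agent.H581Z

abbrev C : Type := UnitAddCircle

def hh : C := ((1 / 2 : ℝ) : C)

theorem hh_add_hh : hh + hh = 0 := by
  rw [hh, ← AddCircle.coe_add]
  exact coe_eq_of_int 1 (by norm_num)

theorem norm_coe_small {t : ℝ} (ht : |t| ≤ 1 / 2) : ‖(t : C)‖ = |t| :=
  (AddCircle.norm_coe_eq_abs_iff (1 : ℝ) one_ne_zero).2 (by simpa using ht)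

theorem exists_rep (x : C) : ∃ s : ℝ, |s| ≤ 1 / 2 ∧ (s : C) = x ∧ ‖x‖ = |s| := by
  obtain ⟨t, rfl⟩ := QuotientAddGroup.mk_surjective x
  exact ⟨t - round t, abs_sub_round t, by rw [AddCircle.coe_sub, coe_int, sub_zero],
    UnitAddCircle.norm_eq⟩

theorem norm_add_hh (x : C) : ‖x + hh‖ = 1 / 2 - ‖x‖ := by
  obtain ⟨s, h1, rfl, h2⟩ := exists_rep x
  obtain ⟨h3, h4⟩ := abs_le.1 h1
  rw [h2, hh, ← AddCircle.coe_add]
  rcases le_total 0 s with h | h
  · rw [coe_eq_of_int (s := s + 1 / 2) (t := s - 1 / 2) 1 (by push_cast; ring),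
      norm_coe_small (abs_le.2 ⟨by linarith, by linarith⟩), abs_of_nonpos (by linarith),
      abs_of_nonneg h]; ring
  · rw [norm_coe_small (abs_le.2 ⟨by linarith, by linarith⟩), abs_of_nonneg (by linarith),
      abs_of_nonpos h]; ring

theorem norm_hh : ‖hh‖ = 1 / 2 := by simpa using norm_add_hh 0

theorem add_hh_eq_zero {x : C} : x + hh = 0 ↔ x = hh := by
  rw [add_eq_zero_iff_eq_neg, neg_eq_of_add_eq_zero_left hh_add_hh]

theorem norm_lt_half {x : C} (h : x ≠ hh) : ‖x‖ < 1 / 2 := by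
  have := norm_pos_iff.2 (mt add_hh_eq_zero.1 h)
  linarith [norm_add_hh x]

theorem cont_of_lift {Y : Type*} [TopologicalSpace Y] {g : C → Y}
    (h : Continuous fun t : ℝ => g t) : Continuous g :=
  QuotientAddGroup.isOpenQuotientMap_mk.continuous_comp_iff.1 h

theorem exists_bump {r R : ℝ} (h0 : 0 ≤ r) (h1 : r < R) (h2 : R ≤ 1 / 2) :
    ∃ ρ : C → ℝ, ContDiff ℝ ∞ (fun t : ℝ => ρ t) ∧ (∀ x, 0 ≤ ρ x) ∧ (∀ x, ρ x ≤ 1) ∧
      (∀ x, ‖x‖ ≤ r → ρ x = 1) ∧ ∀ x, ρ x ≠ 0 ↔ ‖x‖ < R := by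
  have hπ := Real.pi_pos
  have hA : StrictAntiOn (fun s => Real.cos (2 * Real.pi * s)) (Icc 0 (1 / 2)) :=
    fun s hs t ht hst => Real.strictAntiOn_cos ⟨by nlinarith [hs.1], by nlinarith [hs.2]⟩
      ⟨by nlinarith [ht.1], by nlinarith [ht.2]⟩ (by nlinarith)
  have hr : r ∈ Icc (0 : ℝ) (1 / 2) := ⟨h0, by linarith⟩
  have hR : R ∈ Icc (0 : ℝ) (1 / 2) := ⟨by linarith, h2⟩
  have hx : ∀ x : C, ‖x‖ ∈ Icc (0 : ℝ) (1 / 2) := fun x =>
    ⟨norm_nonneg x, by linarith [norm_add_hh x, norm_nonneg (x + hh)]⟩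
  have hw : 0 < Real.cos (2 * Real.pi * r) - Real.cos (2 * Real.pi * R) := sub_pos.2 (hA hr hR h1)
  refine ⟨fun x => Real.smoothTransition ((Real.cos (2 * Real.pi * ‖x‖) -
    Real.cos (2 * Real.pi * R)) / (Real.cos (2 * Real.pi * r) - Real.cos (2 * Real.pi * R))), ?_,
    fun x => Real.smoothTransition.nonneg _, fun x => Real.smoothTransition.le_one _,
    fun x h => Real.smoothTransition.one_of_one_le ?_, fun x => ?_⟩
  · have : ∀ t : ℝ, Real.cos (2 * Real.pi * ‖(t : C)‖) = Real.cos (2 * Real.pi * t) := fun t => by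
      rw [UnitAddCircle.norm_eq, ← abs_of_pos (by positivity : 0 < 2 * Real.pi), ← abs_mul,
        Real.cos_abs, abs_of_pos (by positivity : 0 < 2 * Real.pi), mul_sub, mul_comm _ (round t : ℝ),
        Real.cos_sub_int_mul_two_pi]
    simp only [this]
    exact Real.smoothTransition.contDiff.comp (by fun_prop)
  · rw [one_le_div hw]
    exact sub_le_sub_right (hA.antitoneOn (hx x) hr h) _
  · rw [Ne, Real.smoothTransition.zero_iff_nonpos, not_le, div_pos_iff_of_pos_right hw, sub_pos]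
    exact hA.lt_iff_gt hR (hx x)

theorem exists_step_smooth {a b α0 : ℝ} (ha : 0 < a) (hb : 0 < b) (hab : a + b < 1 / 2)
    (h0 : 0 ≤ α0) (h1 : α0 ≤ 1) : ∃ Ψ β, 0 < β ∧ Step Ψ a b (α0 * β) β ∧ ContDiff ℝ ∞ Ψ := by
  obtain ⟨ρ, ρs, ρ0, ρ1, ρa, ρb⟩ := exists_bump (r := a) (R := 1 / 2 - b) ha.le (by linarith)
    (by linarith)
  set φ : ℝ → ℝ := fun t => α0 + (1 - α0) * (1 - (ρ t + ρ (-t)) / 2) with hφ
  have hφs : ContDiff ℝ ∞ φ := contDiff_const.add (contDiff_const.mul (contDiff_const.sub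
    ((ρs.add (ρs.comp contDiff_neg)).div_const 2)))
  have hφc : Continuous φ := hφs.continuous
  have hφ0 : ∀ t, α0 ≤ φ t := fun t => by
    have : 0 ≤ (1 - α0) * (1 - (ρ t + ρ (-t)) / 2) :=
      mul_nonneg (by linarith) (by linarith [ρ1 t, ρ1 (-t)])
    simp only [hφ]; linarith
  have hφ1 : ∀ t, φ t ≤ 1 := fun t => by
    have : (1 - α0) * (1 - (ρ t + ρ (-t)) / 2) ≤ (1 - α0) * 1 :=
      mul_le_mul_of_nonneg_left (by linarith [ρ0 t, ρ0 (-t)]) (by linarith)
    simp only [hφ]; linarith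
  have hφp : ∀ t, φ (t + 1) = φ t := fun t => by simp [hφ]
  have hφn : ∀ t, φ (-t) = φ t := fun t => by simp [hφ, add_comm]
  have hφa : ∀ t, |t| ≤ a → φ t = α0 := fun t ht => by
    have : ‖(t : C)‖ ≤ a := QuotientAddGroup.norm_mk_le_norm.trans ht
    simp only [hφ]
    rw [ρa _ this, ρa _ (by rwa [norm_neg])]; ring
  have hφb : ∀ t, |t - 1 / 2| ≤ b → φ t = 1 := fun t ht => by
    have h2 : ‖((t - 1 / 2 : ℝ) : C)‖ ≤ b := QuotientAddGroup.norm_mk_le_norm.trans ht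
    have h3 := norm_add_hh ((t - 1 / 2 : ℝ) : C)
    rw [hh, ← AddCircle.coe_add, sub_add_cancel] at h3
    have h4 : ∀ x : C, ‖x‖ = ‖(t : C)‖ → ρ x = 0 := fun x hx => by
      by_contra h
      linarith [(ρb x).1 h]
    simp only [hφ]
    rw [h4 _ rfl, h4 _ (norm_neg _)]; ring
  set Φ : ℝ → ℝ := fun t => ∫ x in (0 : ℝ)..t, φ x with hΦ
  have hD : ∀ t, HasDerivAt Φ (φ t) t := fun t => (hφc.integral_hasStrictDerivAt 0 t).hasDerivAt
  have hΦ0 : Φ 0 = 0 := by simp [hΦ]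
  have hmv : ∀ (c s t : ℝ), (∀ x ∈ uIcc s t, φ x = c) → Φ t = Φ s + c * (t - s) := by
    intro c s t h
    have h2 := intervalIntegral.integral_eq_sub_of_hasDerivAt (f := Φ) (a := s) (b := t)
      (fun x _ => hD x) (hφc.intervalIntegrable _ _)
    rw [intervalIntegral.integral_congr (g := fun _ => c) h] at h2
    simp only [intervalIntegral.integral_const, smul_eq_mul] at h2
    linarith
  have hp : ∀ t, Φ (t + 1) = Φ t + Φ 1 := fun t => by
    have h2 : ∀ t, HasDerivAt (fun t => Φ (t + 1) - Φ t) 0 t := fun t => by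
      have := ((hD (t + 1)).comp_add_const t 1).sub (hD t)
      rwa [hφp, sub_self] at this
    have := is_const_of_deriv_eq_zero (fun t => (h2 t).differentiableAt) (fun t => (h2 t).deriv) t 0
    simp only [zero_add, hΦ0] at this
    linarith
  have hn : ∀ t, Φ (-t) = -Φ t := fun t => by
    have h2 : ∀ t, HasDerivAt (fun t => Φ (-t) + Φ t) 0 t := fun t => by
      have := ((hD (-t)).comp t (hasDerivAt_neg t)).add (hD t)
      rw [hφn] at this
      exact this.congr_deriv (by ring)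
    have := is_const_of_deriv_eq_zero (fun t => (h2 t).differentiableAt) (fun t => (h2 t).deriv) t 0
    simp only [neg_zero, hΦ0] at this
    linarith
  have hdf : Differentiable ℝ Φ := fun t => (hD t).differentiableAt
  have hmono : Monotone Φ := monotone_of_deriv_nonneg hdf
    (fun t => by rw [(hD t).deriv]; linarith [hφ0 t])
  have hl0 : ∀ t, |t| ≤ a → Φ t = α0 * t := fun t ht => by
    rw [hmv α0 0 t (fun x hx => hφa x ?_), hΦ0]
    · ring
    · exact (abs_sub_left_of_mem_uIcc hx).trans (by simpa using ht) |> fun h => by simpa using h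
  have hh' : Φ (1 / 2) = Φ 1 / 2 := by
    have := hp (-(1 / 2))
    rw [hn] at this
    norm_num at this ⊢
    linarith
  have hl1 : ∀ s, |s| ≤ b → Φ (1 / 2 + s) = Φ 1 / 2 + s := fun s hs => by
    rw [hmv 1 (1 / 2) (1 / 2 + s) (fun x hx => hφb x ?_), hh']
    · ring
    · exact (abs_sub_left_of_mem_uIcc hx).trans (by simpa using hs)
  have hbI : b ≤ Φ 1 / 2 := by
    have h2 := hl1 (-b) (by rw [abs_neg, abs_of_pos hb])
    have h3 : Φ 0 ≤ Φ (1 / 2 + -b) := hmono (by linarith)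
    linarith
  have hI : 0 < Φ 1 := by linarith
  have hlow : Φ 1 / 2 ≤ (1 / 2 - a) + α0 * a := by
    have h2 : Monotone fun t => t - Φ t := monotone_of_deriv_nonneg
      (differentiable_id.sub hdf) (fun t => by
        have := ((hasDerivAt_id t).sub (hD t)).deriv
        erw [this]; linarith [hφ1 t])
    have h3 := h2 (show a ≤ 1 / 2 by linarith)
    simp only [hh', hl0 a (abs_of_pos ha).le] at h3
    linarith
  have hD' : ∀ t, HasDerivAt (fun t => (Φ 1)⁻¹ * Φ t) ((Φ 1)⁻¹ * φ t) t := fun t =>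
    (hD t).const_mul _
  refine ⟨fun t => (Φ 1)⁻¹ * Φ t, (Φ 1)⁻¹, inv_pos.2 hI, ⟨?_, fun t => ?_, fun t => ?_, fun t => ?_,
    fun t ht => ?_, fun s hs => ?_, hmono.const_mul (inv_pos.2 hI).le, ?_, ?_⟩, ?_⟩
  · refine contDiff_const.mul (contDiff_one_iff_deriv.2 ⟨hdf, ?_⟩)
    have : deriv Φ = φ := funext fun t => (hD t).deriv
    rw [this]; exact hφc
  · rw [(hD' t).deriv, mul_comm]
    exact mul_le_mul_of_nonneg_left (hφ0 t) (inv_pos.2 hI).le
  · simp only [hp]; field_simp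
  · simp only [hn]; ring
  · simp only [hl0 t ht]; ring
  · simp only [hl1 s hs]; field_simp
  · rw [inv_mul_le_iff₀ hI]; linarith
  · have : (Φ 1)⁻¹ * (1 / 2 - a) + α0 * (Φ 1)⁻¹ * a = (Φ 1)⁻¹ * (1 / 2 - a + α0 * a) := by ring
    rw [this, le_inv_mul_iff₀ hI]; linarith
  · refine contDiff_const.mul (contDiff_infty_iff_deriv.2 ⟨hdf, ?_⟩)
    have : deriv Φ = φ := funext fun t => (hD t).deriv
    rw [this]; exact hφs

end Pool.Agent.H581Z
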