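import Pool.Agent.H581Z.E0b

open Set Filter Topology Metric
open scoped ContDiff

noncomputable section

namespace Pool.Agent.H581Z

/-- North-south map `ψ` of the circle with inverse `θ` and fibre maps `B`. -/
structure Bas (ψ θ : C → C) (B : Tor 2 → C) (α β : ℝ) : Prop where
  cψ : Continuous ψ
  cθ : Continuous θ
  li : ∀ t, θ (ψ t) = t
  ri : ∀ t, ψ (θ t) = t
  le : ∀ t, ‖ψ t‖ ≤ ‖t‖
  lt : ∀ t, t ≠ 0 → t ≠ hh → ‖ψ t‖ < ‖t‖
  small : ∀ t, ‖t‖ ≤ 0.45 → ‖ψ t‖ ≤ 0.02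
  lin0 : ∀ t : ℝ, |t| ≤ 0.05 → ψ t = (α * t : ℝ)
  lin1 : ∀ t : ℝ, |t| ≤ 0.05 → ψ (1 / 2 + t : ℝ) = (1 / 2 + β * t : ℝ)
  a0 : 0 < α
  a1 : α ≤ 1 / 2
  b0 : 2 ≤ β
  b1 : ∀ z, ‖z 0‖ ≤ 0.3 → B z = ψ (z 1 + hh) + hh
  b2 : ∀ z, 0.45 ≤ ‖z 0‖ → B z = ψ (z 1)
  b3 : ∀ z, z 1 = 0 → B z = 0

/-- The skew product with height function `δ`. -/
structure Mod (ψ : C → C) (B : Tor 2 → C) (δ : C → ℝ) (f : Diff1 2) : Prop where
  e0 : ∀ z, f.1 z 0 = ψ (z 0)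
  e1 : ∀ z, f.1 z 1 = B z + (δ (z 0) : ℝ)
  cont : Continuous δ
  sup : ∀ x, δ x ≠ 0 → 0.1 ≤ ‖x‖ ∧ ‖x‖ ≤ 0.2

theorem exists_circ {Ψ : ℝ → ℝ} (hc : Continuous Ψ) (h : ∀ t (n : ℤ), Ψ (t + n) = Ψ t + n) :
    ∃ ψ : C → C, Continuous ψ ∧ ∀ t : ℝ, ψ t = Ψ t := by
  have e : ∀ t : ℝ, ((Ψ (Quotient.out (t : C)) : ℝ) : C) = Ψ t := fun t =>
    coe_congr h (QuotientAddGroup.out_eq' _)
  refine ⟨fun x => Ψ (Quotient.out x), cont_of_lift ?_, e⟩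
  simp only [e]
  exact (AddCircle.continuous_mk' 1).comp hc

theorem exists_bas : ∃ ψ θ B α β, ∃ F0 : E 2 → E 2, Bas ψ θ B α β ∧ ContDiff ℝ ∞ F0 ∧
    ∀ δ : C → ℝ, ContDiff ℝ 1 (fun t : ℝ => δ t) → (∀ x, δ x ≠ 0 → 0.1 ≤ ‖x‖ ∧ ‖x‖ ≤ 0.2) →
      ∃ f : Diff1 2, Lift f (fun z => F0 z + ![0, δ (z 0)]) ∧ Mod ψ B δ f := by
  obtain ⟨Ψ, β, hβ0, hΨ, sΨ⟩ := exists_step_smooth (a := 0.449) (b := 0.05) (α0 := 1 / 1000)
    (by norm_num) (by norm_num) (by norm_num) (by norm_num) (by norm_num)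
  have b1 : β ≤ 10 := by linarith [hΨ.up]
  have b2 : 9.7 ≤ β := by linarith [hΨ.low]
  obtain ⟨Θ, hΘ, hΘ1, hΘ2⟩ := hΨ.exists_inv (by positivity)
  obtain ⟨ρ, ρs, -, -, ρa, ρb⟩ := exists_bump (r := 0.3) (R := 0.45) (by norm_num) (by norm_num)
    (by norm_num)
  obtain ⟨ψ, cψ, eψ⟩ := exists_circ sΨ.continuous hΨ.add_int
  obtain ⟨θ, cθ, eθ⟩ := exists_circ hΘ.continuous (inv_add_int hΨ.add_int hΘ1 hΘ2)
  have n0 := hΨ.norm_lt (by norm_num) (by linarith) (by linarith) (by linarith)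
  set σ : ℝ → ℝ := fun t => ρ t / 2 with hσ
  have sσ : ContDiff ℝ ∞ σ := ρs.div_const 2
  refine ⟨ψ, θ, fun z => ψ (z 1 + (ρ (z 0) / 2 : ℝ)) - ψ (ρ (z 0) / 2 : ℝ), 1 / 1000 * β, β,
    fun z => ![Ψ (z 0), Ψ (z 1 + σ (z 0)) - Ψ (σ (z 0))], ⟨cψ, cθ, fun t => ?_, fun t => ?_,
    fun t => ?_, fun t => ?_, fun t ht => ?_, fun t ht => ?_, fun t ht => ?_, by positivity,
    by linarith, by linarith, fun z hz => ?_, fun z hz => ?_, fun z hz => ?_⟩,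
    contDiff_pi.2 fun i => by fin_cases i <;> simp <;> fun_prop, fun δ hδ hs => ?_⟩
  · obtain ⟨s, -, rfl, -⟩ := exists_rep t
    rw [eψ, eθ, hΘ1]
  · obtain ⟨s, -, rfl, -⟩ := exists_rep t
    rw [eθ, eψ, hΘ2]
  · obtain ⟨s, -, rfl, -⟩ := exists_rep t
    rw [eψ]; exact (n0 s).1
  · obtain ⟨s, -, rfl, -⟩ := exists_rep t
    rw [eψ]; exact (n0 s).2
  · obtain ⟨s, -, rfl, h⟩ := exists_rep t
    rw [eψ]
    have := hΨ.small (by norm_num) (t := s) (by linarith)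
    exact QuotientAddGroup.norm_mk_le_norm.trans (this.trans (by linarith))
  · rw [eψ, hΨ.lin0 _ (by linarith)]
  · rw [eψ, hΨ.lin1 _ ht]
  · simp only [ρa _ hz]
    rw [eψ (1 / 2), hΨ.half (by norm_num), sub_eq_add_neg, ← AddCircle.coe_neg, neg_half]; rfl
  · have : ρ (z 0) = 0 := by
      by_contra h
      linarith [(ρb _).1 h]
    simp only [this, zero_div]
    rw [eψ 0, hΨ.zero]; simp
  · simp [hz]
  · have cΨ := hΨ.cd
    have cσ : ContDiff ℝ 1 σ := sσ.of_le (by exact_mod_cast le_top)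
    set δ' : ℝ → ℝ := fun t => δ t with hδ'
    have eF : ∀ z : E 2, proj (![Ψ (z 0), Ψ (z 1 + σ (z 0)) - Ψ (σ (z 0))] + ![0, δ' (z 0)]) =
        ![ψ (proj z 0), ψ (proj z 1 + (ρ (proj z 0) / 2 : ℝ)) - ψ (ρ (proj z 0) / 2 : ℝ) +
          (δ (proj z 0) : ℝ)] := fun z => by
      ext i; fin_cases i
      · simp [proj, eψ]
      · simp [proj, ← eψ, σ, δ']
    have eG : ∀ w : E 2, proj ![Θ (w 0), Θ (w 1 - δ' (Θ (w 0)) + Ψ (σ (Θ (w 0)))) - σ (Θ (w 0))] =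
        ![θ (proj w 0), θ (proj w 1 - (δ (θ (proj w 0)) : ℝ) + ψ (ρ (θ (proj w 0)) / 2 : ℝ)) -
          (ρ (θ (proj w 0)) / 2 : ℝ)] := fun w => by
      ext i; fin_cases i
      · simp [proj, eθ]
      · simp [proj, ← eψ, ← eθ, σ, δ']
    obtain ⟨f, hF, -⟩ := exists_diff_of_lift (d := 2)
      (F := fun z => ![Ψ (z 0), Ψ (z 1 + σ (z 0)) - Ψ (σ (z 0))] + ![0, δ' (z 0)])
      (G := fun w => ![Θ (w 0), Θ (w 1 - δ' (Θ (w 0)) + Ψ (σ (Θ (w 0)))) - σ (Θ (w 0))])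
      (contDiff_pi.2 fun i => by fin_cases i <;> simp <;> fun_prop)
      (contDiff_pi.2 fun i => by fin_cases i <;> simp <;> fun_prop)
      (fun z => by ext i; fin_cases i <;> simp [hΘ1])
      (fun z => by ext i; fin_cases i <;> simp [hΘ2])
      (fun z z' h => by rw [eF, eF, h]) (fun z z' h => by rw [eG, eG, h])
    refine ⟨f, hF, fun z => ?_, fun z => ?_, cont_of_lift hδ.continuous, hs⟩
    · obtain ⟨z, rfl⟩ := proj_surj z
      rw [← hF.eq, eF]; rfl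
    · obtain ⟨z, rfl⟩ := proj_surj z
      rw [← hF.eq, eF]; rfl

theorem tor_ext {z w : Tor 2} (h0 : z 0 = w 0) (h1 : z 1 = w 1) : z = w := by
  ext i; fin_cases i; exacts [h0, h1]

theorem tor_tendsto {u : ℕ → Tor 2} {w : Tor 2} (h0 : Tendsto (fun n => u n 0) atTop (𝓝 (w 0)))
    (h1 : Tendsto (fun n => u n 1) atTop (𝓝 (w 1))) : Tendsto u atTop (𝓝 w) :=
  tendsto_pi_nhds.2 fun i => by fin_cases i; exacts [h0, h1]

/-- The fibre map over the attracting circle. -/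
def bb (ψ : C → C) (y : C) : C := ψ (y + hh) + hh

theorem bb_iter (ψ : C → C) (n : ℕ) (y : C) : (bb ψ)^[n] y = ψ^[n] (y + hh) + hh := by
  induction n with
  | zero => simp [add_assoc, hh_add_hh]
  | succ n ih =>
    rw [Function.iterate_succ_apply', Function.iterate_succ_apply', ih, bb, add_assoc, hh_add_hh,
      add_zero]

variable {ψ θ : C → C} {B : Tor 2 → C} {α β : ℝ} {δ : C → ℝ} {f : Diff1 2}

namespace Bas

theorem zero (h : Bas ψ θ B α β) : ψ 0 = 0 := norm_le_zero_iff.1 (by simpa using h.le 0)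

theorem half (h : Bas ψ θ B α β) : ψ hh = hh := by simpa [hh] using h.lin1 0 (by norm_num)

theorem zero' (h : Bas ψ θ B α β) : θ 0 = 0 := by conv_lhs => rw [← h.zero, h.li]

theorem half' (h : Bas ψ θ B α β) : θ hh = hh := by conv_lhs => rw [← h.half, h.li]

theorem le' (h : Bas ψ θ B α β) (t : C) : ‖t‖ ≤ ‖θ t‖ := by simpa [h.ri] using h.le (θ t)

theorem big (h : Bas ψ θ B α β) {t : C} (ht : 0.02 < ‖t‖) : 0.45 ≤ ‖θ t‖ := by
  by_contra h1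
  have := h.small _ (not_le.1 h1).le
  rw [h.ri] at this
  linarith

theorem fwd (h : Bas ψ θ B α β) {t : C} (ht : t ≠ hh) :
    Tendsto (fun n : ℕ => ψ^[n] t) atTop (𝓝 0) :=
  ns_tendsto h.cψ continuous_norm h.le h.lt (by rw [norm_hh]; exact norm_lt_half ht)

theorem bwd (h : Bas ψ θ B α β) {t : C} (ht : t ≠ 0) :
    Tendsto (fun n : ℕ => θ^[n] t) atTop (𝓝 hh) :=
  ns_tendsto (L := fun t => -‖t‖) (b := 0) h.cθ continuous_norm.neg (fun t => neg_le_neg (h.le' t))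
    (fun t h1 h2 => neg_lt_neg (by
      have := h.lt (θ t) (fun e => h2 (by rw [← h.ri t, e, h.zero]))
        (fun e => h1 (by rw [← h.ri t, e, h.half]))
      rwa [h.ri] at this)) (by simpa using ht)

theorem bb_zero (h : Bas ψ θ B α β) : bb ψ 0 = 0 := by rw [bb, zero_add, h.half, hh_add_hh]

theorem bb_fwd (h : Bas ψ θ B α β) {y : C} (hy : y ≠ 0) :
    Tendsto (fun n : ℕ => (bb ψ)^[n] y) atTop (𝓝 hh) := by
  simp only [bb_iter]
  simpa using (h.fwd (t := y + hh) (by simpa using hy)).add_const hh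

theorem bb_bwd (h : Bas ψ θ B α β) {y : C} (hy : y ≠ hh) :
    Tendsto (fun n : ℕ => (bb θ)^[n] y) atTop (𝓝 0) := by
  simp only [bb_iter]
  simpa [hh_add_hh] using (h.bwd (t := y + hh) (mt add_hh_eq_zero.1 hy)).add_const hh

theorem iter_le (h : Bas ψ θ B α β) (n : ℕ) (t : C) : ‖ψ^[n] t‖ ≤ ‖t‖ := by
  induction n with
  | zero => rfl
  | succ n ih => rw [Function.iterate_succ_apply']; exact (h.le _).trans ih

theorem iter_le' (h : Bas ψ θ B α β) (n : ℕ) (t : C) : ‖t‖ ≤ ‖θ^[n] t‖ := by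
  induction n with
  | zero => rfl
  | succ n ih => rw [Function.iterate_succ_apply']; exact ih.trans (h.le' _)

end Bas

namespace Mod

theorem d0 (m : Mod ψ B δ f) {x : C} (hx : ‖x‖ < 0.1 ∨ 0.2 < ‖x‖) : δ x = 0 := by
  by_contra h
  obtain ⟨h1, h2⟩ := m.sup x h
  rcases hx with hx | hx <;> linarith

theorem i0 (h : Bas ψ θ B α β) (m : Mod ψ B δ f) (z : Tor 2) : (f⁻¹).1 z 0 = θ (z 0) := by
  rw [← h.li ((f⁻¹).1 z 0), ← m.e0, ap_inv]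

theorem p0 (m : Mod ψ B δ f) (n : ℕ) (z : Tor 2) : (f ^ n).1 z 0 = ψ^[n] (z 0) := by
  induction n with
  | zero => rfl
  | succ n ih => rw [pow_succ_ap', m.e0, ih, Function.iterate_succ_apply']

theorem q0 (h : Bas ψ θ B α β) (m : Mod ψ B δ f) (n : ℕ) (z : Tor 2) :
    (f⁻¹ ^ n).1 z 0 = θ^[n] (z 0) := by
  induction n with
  | zero => rfl
  | succ n ih => rw [pow_succ_ap', m.i0 h, ih, Function.iterate_succ_apply']

theorem low (h : Bas ψ θ B α β) (m : Mod ψ B δ f) {z : Tor 2} (hz : ‖z 0‖ < 0.1) :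
    f.1 z 1 = bb ψ (z 1) := by
  rw [m.e1, h.b1 z (by linarith), m.d0 (Or.inl hz)]; simp [bb]

theorem high (h : Bas ψ θ B α β) (m : Mod ψ B δ f) {z : Tor 2} (hz : 0.45 ≤ ‖z 0‖) :
    f.1 z 1 = ψ (z 1) := by
  rw [m.e1, h.b2 z hz, m.d0 (Or.inr (by linarith))]; simp

theorem i1 (h : Bas ψ θ B α β) (m : Mod ψ B δ f) {z : Tor 2} (hz : 0.02 < ‖z 0‖) :
    (f⁻¹).1 z 1 = θ (z 1) := by
  rw [← h.li ((f⁻¹).1 z 1), ← m.high h (by rw [m.i0 h]; exact h.big hz), ap_inv]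

theorem p1 (h : Bas ψ θ B α β) (m : Mod ψ B δ f) (n : ℕ) {z : Tor 2} (hz : ‖z 0‖ < 0.1) :
    (f ^ n).1 z 1 = (bb ψ)^[n] (z 1) := by
  induction n with
  | zero => rfl
  | succ n ih =>
    rw [pow_succ_ap', m.low h (by rw [m.p0]; exact (h.iter_le n _).trans_lt hz), ih,
      Function.iterate_succ_apply']

theorem q1 (h : Bas ψ θ B α β) (m : Mod ψ B δ f) (n : ℕ) {z : Tor 2} (hz : 0.02 < ‖z 0‖) :
    (f⁻¹ ^ n).1 z 1 = θ^[n] (z 1) := by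
  induction n with
  | zero => rfl
  | succ n ih =>
    rw [pow_succ_ap', m.i1 h (by rw [m.q0 h]; exact hz.trans_le (h.iter_le' n _)), ih,
      Function.iterate_succ_apply']

theorem to_s (h : Bas ψ θ B α β) (m : Mod ψ B δ f) {z : Tor 2} (hz : ‖z 0‖ < 0.1) (h1 : z 1 ≠ 0) :
    Tendsto (fun n : ℕ => (f ^ n).1 z) atTop (𝓝 ![0, hh]) := by
  refine tor_tendsto ?_ ?_
  · simp only [m.p0]
    exact h.fwd fun e => by rw [e, norm_hh] at hz; linarith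
  · simp only [m.p1 h _ hz]
    exact h.bb_fwd h1

theorem to_u (h : Bas ψ θ B α β) (m : Mod ψ B δ f) {z : Tor 2} (hz : 0.02 < ‖z 0‖) (h1 : z 1 ≠ 0) :
    Tendsto (fun n : ℕ => (f⁻¹ ^ n).1 z) atTop (𝓝 ![hh, hh]) := by
  refine tor_tendsto ?_ ?_
  · simp only [m.q0 h]
    exact h.bwd fun e => by rw [e, norm_zero] at hz; linarith
  · simp only [m.q1 h _ hz]
    exact h.bwd h1

theorem aff (h : Bas ψ θ B α β) (m : Mod ψ B δ f) {c : E 2} (h0 : c 0 = 0 ∨ c 0 = 1 / 2)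
    (h1 : c 1 = 0 ∨ c 1 = 1 / 2) : ∃ r s : ℝ, (c 0 = 0 ∧ r = α ∨ c 0 = 1 / 2 ∧ r = β) ∧
      (c 0 = c 1 ∧ s = β ∨ c 0 ≠ c 1 ∧ s = α) ∧ ∀ z, ‖z - c‖ ≤ 0.05 →
        f.1 (proj z) = proj (c + mat2 r 0 0 s (z - c)) := by
  have key : ∀ {r s : ℝ}, (∀ v : E 2, |v 0| ≤ 0.05 → |v 1| ≤ 0.05 →
      f.1 (proj (c + v)) 0 = (c 0 + r * v 0 : ℝ) ∧ f.1 (proj (c + v)) 1 = (c 1 + s * v 1 : ℝ)) →
      ∀ z, ‖z - c‖ ≤ 0.05 → f.1 (proj z) = proj (c + mat2 r 0 0 s (z - c)) := fun H z hz => by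
    have := H (z - c) ((norm_le_pi_norm _ 0).trans hz) ((norm_le_pi_norm _ 1).trans hz)
    rw [add_sub_cancel] at this
    refine tor_ext (this.1.trans ?_) (this.2.trans ?_) <;> simp [proj, mat2_ap]
  have lo : ∀ v : E 2, c 0 = 0 → |v 0| ≤ 0.05 → ‖proj (c + v) 0‖ < 0.1 := fun v e hv => by
    refine QuotientAddGroup.norm_mk_le_norm.trans_lt ?_
    rw [Pi.add_apply, e, zero_add, Real.norm_eq_abs]; linarith
  have hi : ∀ v : E 2, c 0 = 1 / 2 → |v 0| ≤ 0.05 → 0.45 ≤ ‖proj (c + v) 0‖ := fun v e hv => by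
    have h2 := norm_add_hh (v 0)
    have h3 : ‖((v 0 : ℝ) : C)‖ ≤ 0.05 := QuotientAddGroup.norm_mk_le_norm.trans hv
    rw [hh, ← AddCircle.coe_add, add_comm] at h2
    simp only [proj, Pi.add_apply, e]
    linarith
  rcases h0 with h0 | h0 <;> rcases h1 with h1 | h1
  · refine ⟨α, β, Or.inl ⟨h0, rfl⟩, Or.inl ⟨h0.trans h1.symm, rfl⟩, key fun v a b => ⟨?_, ?_⟩⟩
    · rw [m.e0]; simpa [proj, h0] using h.lin0 _ a
    · rw [m.low h (lo v h0 a), bb, hh, proj, ← AddCircle.coe_add, Pi.add_apply, h1, zero_add,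
        add_comm (v 1), h.lin1 _ b, ← AddCircle.coe_add]
      exact coe_eq_of_int 1 (by push_cast; ring)
  · refine ⟨α, α, Or.inl ⟨h0, rfl⟩, Or.inr ⟨by rw [h0, h1]; norm_num, rfl⟩,
      key fun v a b => ⟨?_, ?_⟩⟩
    · rw [m.e0]; simpa [proj, h0] using h.lin0 _ a
    · rw [m.low h (lo v h0 a), bb, hh, proj, ← AddCircle.coe_add, Pi.add_apply, h1,
        coe_eq_of_int (s := 1 / 2 + v 1 + 1 / 2) (t := v 1) 1 (by push_cast; ring), h.lin0 _ b,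
        ← AddCircle.coe_add, add_comm]
  · refine ⟨β, α, Or.inr ⟨h0, rfl⟩, Or.inr ⟨by rw [h0, h1]; norm_num, rfl⟩,
      key fun v a b => ⟨?_, ?_⟩⟩
    · rw [m.e0, proj, Pi.add_apply, h0, h.lin1 _ a]
    · rw [m.high h (hi v h0 a)]; simpa [proj, h1] using h.lin0 _ b
  · refine ⟨β, β, Or.inr ⟨h0, rfl⟩, Or.inl ⟨h0.trans h1.symm, rfl⟩, key fun v a b => ⟨?_, ?_⟩⟩
    · rw [m.e0, proj, Pi.add_apply, h0, h.lin1 _ a]
    · rw [m.high h (hi v h0 a), proj, Pi.add_apply, h1, h.lin1 _ b]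

end Mod

theorem norm_diag {r μ : ℝ} (h0 : 0 ≤ r) (hr : r ≤ μ) : ‖mat2 r 0 0 r‖ ≤ μ := by
  refine ContinuousLinearMap.opNorm_le_bound _ (h0.trans hr) fun v => ?_
  rw [mat2_ap]
  refine norm_two_le ?_ ?_
  · simpa [abs_mul, abs_of_nonneg h0] using
      mul_le_mul hr (norm_le_pi_norm v 0) (norm_nonneg _) (h0.trans hr)
  · simpa [abs_mul, abs_of_nonneg h0] using
      mul_le_mul hr (norm_le_pi_norm v 1) (norm_nonneg _) (h0.trans hr)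

namespace Mod

theorem ctr_s (h : Bas ψ θ B α β) (m : Mod ψ B δ f) : Ctr f ![0, hh] 0.05 := by
  obtain ⟨r, s, h1, h2, h3⟩ := m.aff h (c := ![0, 1 / 2]) (Or.inl rfl) (Or.inr rfl)
  obtain rfl : r = α := by simpa using h1
  obtain rfl : s = r := by simpa using h2
  have := ctr_of_affine (norm_diag h.a0.le h.a1) h3
  rwa [show proj ![0, 1 / 2] = ![0, hh] from tor_ext rfl rfl] at this

theorem ctr_u (h : Bas ψ θ B α β) (m : Mod ψ B δ f) : Ctr f⁻¹ ![hh, hh] 0.05 := by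
  obtain ⟨r, s, h1, h2, h3⟩ := m.aff h (c := ![1 / 2, 1 / 2]) (Or.inr rfl) (Or.inr rfl)
  obtain rfl : r = β := by simpa using h1
  obtain rfl : s = r := by simpa using h2
  have b0 := h.b0
  have b1 : s⁻¹ ≤ 1 / 2 := by rw [inv_le_comm₀ (by linarith) (by norm_num)]; linarith
  have n1 := norm_diag (r := s⁻¹) (by positivity) b1
  have := ctr_of_affine (g := f⁻¹) (q := ![1 / 2, 1 / 2]) (δ := 0.05) n1 fun z hz => by
    have h4 := ((mat2 s⁻¹ 0 0 s⁻¹).le_opNorm (z - ![1 / 2, 1 / 2])).trans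
      (mul_le_mul n1 hz (norm_nonneg _) (by norm_num))
    rw [eq_comm, ← Equiv.apply_eq_iff_eq f.1, ap_inv, h3 _ (by rw [add_sub_cancel_left]; linarith),
      add_sub_cancel_left]
    congr 1; ext i
    fin_cases i <;> simp [mat2_ap, Matrix.vecHead, Matrix.vecTail] <;> field_simp <;> ring
  rwa [show proj ![1 / 2, 1 / 2] = ![hh, hh] from tor_ext rfl rfl] at this

theorem omega_sub (h : Bas ψ θ B α β) (m : Mod ψ B δ f) {x : Tor 2} (hx : x ∈ Omega f) :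
    (x 0 = 0 ∨ x 0 = hh) ∧ (x 1 = 0 ∨ x 1 = hh) := by
  have c0 : Continuous fun z : Tor 2 => ‖z 0‖ := by fun_prop
  have h0 : x 0 = 0 ∨ x 0 = hh := by
    by_contra hc
    push Not at hc
    exact lyap_wander c0 (fun z => by rw [m.e0]; exact h.le _)
      (by rw [m.e0]; exact h.lt _ hc.1 hc.2) hx
  refine ⟨h0, ?_⟩
  by_contra hc
  push Not at hc
  rcases h0 with h0 | h0
  · have e : ∀ z : Tor 2, ‖z 0‖ < 0.1 → f.1 z 1 + hh = ψ (z 1 + hh) := fun z hz => by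
      rw [m.low h hz, bb, add_assoc, hh_add_hh, add_zero]
    have hx0 : ‖x 0‖ < 0.1 := by rw [h0]; norm_num
    refine lyap_wander_on (L := fun z => ‖z 1 + hh‖) (isOpen_lt c0 continuous_const)
      (by fun_prop) (fun z hz => ⟨?_, ?_⟩) hx0 ?_ hx
    · change ‖f.1 z 0‖ < 0.1
      rw [m.e0]; exact (h.le _).trans_lt hz
    · simp only [e z hz]; exact h.le _
    · simp only [e x hx0]
      exact h.lt _ (mt add_hh_eq_zero.1 hc.2) (by simpa using hc.1)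
  · have hx0 : 0.02 < ‖x 0‖ := by rw [h0, norm_hh]; norm_num
    rw [← omega_inv] at hx
    refine lyap_wander_on (L := fun z => -‖z 1‖) (isOpen_lt continuous_const c0)
      (by fun_prop) (fun z hz => ⟨?_, ?_⟩) hx0 ?_ hx
    · change 0.02 < ‖(f⁻¹).1 z 0‖
      rw [m.i0 h]; exact hz.trans_le (h.le' _)
    · simp only [m.i1 h hz]; exact neg_le_neg (h.le' _)
    · simp only [m.i1 h hx0]
      have := h.lt (θ (x 1)) (fun e => hc.1 (by rw [← h.ri (x 1), e, h.zero]))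
        (fun e => hc.2 (by rw [← h.ri (x 1), e, h.half]))
      rw [h.ri] at this
      exact neg_lt_neg this

theorem fixed (h : Bas ψ θ B α β) (m : Mod ψ B δ f) {x : Tor 2} (h0 : x 0 = 0 ∨ x 0 = hh)
    (h1 : x 1 = 0 ∨ x 1 = hh) : f.1 x = x ∧ ∃ r : Fin 2 → ℝ, (∀ v i, D f x v i = r i * v i) ∧
      ∀ i, (0 < r i ∧ r i ≤ 1 / 2) ∨ 2 ≤ r i := by
  have k : ∀ y : C, y = 0 ∨ y = hh → ∃ t : ℝ, (t = 0 ∨ t = 1 / 2) ∧ y = t := fun y hy =>
    hy.elim (fun e => ⟨0, Or.inl rfl, e⟩) fun e => ⟨1 / 2, Or.inr rfl, e⟩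
  obtain ⟨t0, a0, e0⟩ := k _ h0
  obtain ⟨t1, a1, e1⟩ := k _ h1
  obtain rfl : x = proj ![t0, t1] := tor_ext e0 e1
  obtain ⟨r, s, b1, b2, b3⟩ := m.aff h (c := ![t0, t1]) a0 a1
  refine ⟨by simpa using b3 ![t0, t1] (by norm_num), ![r, s], fun v i => ?_, fun i => ?_⟩
  · rw [D_of_affine b3 (by norm_num), mat2_ap]
    fin_cases i <;> simp
  · fin_cases i
    · rcases b1 with ⟨-, rfl⟩ | ⟨-, rfl⟩
      exacts [Or.inl ⟨h.a0, h.a1⟩, Or.inr h.b0]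
    · rcases b2 with ⟨-, rfl⟩ | ⟨-, rfl⟩
      exacts [Or.inr h.b0, Or.inl ⟨h.a0, h.a1⟩]

theorem axiomA (h : Bas ψ θ B α β) (m : Mod ψ B δ f) : AxiomA f :=
  ⟨hyp_of_diag (omega_iff f) fun _ hx => m.fixed h (m.omega_sub h hx).1 (m.omega_sub h hx).2,
    fun _ hx => subset_closure ⟨1, one_pos, (m.fixed h (m.omega_sub h hx).1 (m.omega_sub h hx).2).1⟩⟩

end Mod

end Pool.Agent.H581Z
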