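import Pool.Agent.H581Z.E0c

open Set Filter Topology Metric

noncomputable section

namespace Pool.Agent.H581Z

theorem shear_homeo {e l : C → ℝ} {L : ℝ} (he : Continuous e) (hl : Continuous l)
    (h1 : ∀ y y', |l y - l y'| ≤ L * ‖y - y'‖) (h2 : ∀ x, |e x| * L ≤ 1 / 2) :
    ∃ χ : Tor 2 ≃ₜ Tor 2, ∀ z, χ z 0 = z 0 ∧ χ z 1 = z 1 + (e (z 0) * l (z 1) : ℝ) := by
  have key : ∀ x y y', ‖((e x * l y : ℝ) : C) - (e x * l y' : ℝ)‖ ≤ 1 / 2 * ‖y - y'‖ := by
    intro x y y'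
    rw [← AddCircle.coe_sub]
    refine QuotientAddGroup.norm_mk_le_norm.trans ?_
    rw [← mul_sub, Real.norm_eq_abs, abs_mul]
    refine (mul_le_mul_of_nonneg_left (h1 y y') (abs_nonneg _)).trans ?_
    rw [← mul_assoc]
    exact mul_le_mul_of_nonneg_right (h2 x) (norm_nonneg _)
  let g : Tor 2 → Tor 2 := fun z => ![z 0, z 1 + (e (z 0) * l (z 1) : ℝ)]
  have hg : Continuous g := continuous_pi fun i => by
    fin_cases i
    · exact continuous_apply 0
    · exact (continuous_apply 1).add ((AddCircle.continuous_mk' 1).comp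
        ((he.comp (continuous_apply 0)).mul (hl.comp (continuous_apply 1))))
  have hi : Function.Injective g := fun z w h => by
    have h0 : z 0 = w 0 := congrFun h 0
    have h3 : z 1 + (e (z 0) * l (z 1) : ℝ) = w 1 + (e (w 0) * l (w 1) : ℝ) := congrFun h 1
    have h4 := key (w 0) (w 1) (z 1)
    rw [h0] at h3
    rw [show ((e (w 0) * l (w 1) : ℝ) : C) - (e (w 0) * l (z 1) : ℝ) = z 1 - w 1 by
      rw [sub_eq_sub_iff_add_eq_add, add_comm, h3], norm_sub_rev (w 1)] at h4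
    exact tor_ext h0 (sub_eq_zero.1 (norm_le_zero_iff.1 (by linarith)))
  have hs : Function.Surjective g := fun w => by
    have hc : ContractingWith (1 / 2) fun y : C => w 1 - (e (w 0) * l y : ℝ) := by
      refine ⟨by norm_num, LipschitzWith.of_dist_le_mul fun y y' => ?_⟩
      rw [dist_eq_norm, dist_eq_norm, sub_sub_sub_cancel_left, norm_sub_rev]
      simpa using key (w 0) y y'
    exact ⟨![w 0, ContractingWith.fixedPoint _ hc], tor_ext rfl
      (eq_sub_iff_add_eq.1 hc.fixedPoint_isFixedPt.symm)⟩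
  exact ⟨Continuous.homeoOfEquivCompactToT2 (f := Equiv.ofBijective g ⟨hi, hs⟩) hg,
    fun z => ⟨rfl, rfl⟩⟩

theorem TopConj.trans {d : ℕ} {f g k : Diff1 d} (h1 : TopConj f g) (h2 : TopConj g k) :
    TopConj f k := by
  obtain ⟨H, h1⟩ := h1
  obtain ⟨G, h2⟩ := h2
  exact ⟨H.trans G, fun x => by simp [h1, h2]⟩

variable {ψ θ : C → C} {B : Tor 2 → C} {α β : ℝ} {δ δ' : C → ℝ} {f g : Diff1 2}

theorem conj_step (h : Bas ψ θ B α β) (m : Mod ψ B δ f) (m' : Mod ψ B δ' g) {η : ℝ} (h0 : 0 < η)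
    (hη : ∀ x, δ x ≠ δ' x → η ≤ δ x ∧ δ x ≤ 0.4) (hd : ∀ x, |δ' x - δ x| ≤ η / 8) :
    TopConj f g := by
  have cθ := h.cθ
  have cδ := m.cont
  have cδ' := m'.cont
  set l : C → ℝ := fun y => max 0 (min 1 (4 / η * ‖y‖ - 1)) with hl
  have l0 : ∀ y, ‖y‖ ≤ η / 4 → l y = 0 := fun y hy => by
    have : 4 / η * ‖y‖ ≤ 4 / η * (η / 4) := by gcongr
    rw [show 4 / η * (η / 4) = 1 by field_simp] at this
    exact max_eq_left ((min_le_right _ _).trans (by linarith))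
  have l1 : ∀ y, η / 2 ≤ ‖y‖ → l y = 1 := fun y hy => by
    have : 4 / η * (η / 2) ≤ 4 / η * ‖y‖ := by gcongr
    rw [show 4 / η * (η / 2) = 2 by field_simp; norm_num] at this
    simp only [hl]
    rw [min_eq_left (by linarith), max_eq_right zero_le_one]
  have l2 : ∀ y, |l y| ≤ 1 := fun y => by
    rw [abs_of_nonneg (le_max_left _ _)]; exact max_le zero_le_one (min_le_left _ _)
  obtain ⟨χ, hχ⟩ := shear_homeo (e := fun x => δ' (θ x) - δ (θ x)) (l := l) (L := 4 / η)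
    (by fun_prop) (by simp only [hl]; fun_prop) (fun y y' => by
      simp only [hl]
      rw [max_comm 0, max_comm 0]
      refine (abs_max_sub_max_le_abs _ _ _).trans ((abs_min_sub_min_le_max _ _ _ _).trans ?_)
      rw [sub_self, abs_zero, sub_sub_sub_cancel_right, ← mul_sub, abs_mul,
        abs_of_pos (by positivity : 0 < 4 / η)]
      exact max_le (by positivity)
        (mul_le_mul_of_nonneg_left (abs_norm_sub_norm_le _ _) (by positivity)))
    (fun x => (mul_le_mul_of_nonneg_right (hd _) (by positivity)).trans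
      (le_of_eq (by field_simp; norm_num)))
  obtain ⟨R, hR⟩ := shear_homeo (e := fun x => δ' (θ x) - δ (θ x)) (l := fun _ => 1) (L := 0)
    (by fun_prop) continuous_const (by simp) (by simp)
  have eg : ∀ z, g.1 z = R (f.1 z) := fun z => tor_ext (by rw [(hR _).1, m.e0, m'.e0]) (by
    rw [(hR _).2, m.e1, m'.e1, m.e0, h.li, add_assoc, ← AddCircle.coe_add]; congr 2; ring)
  have sm : ∀ x, ‖θ x‖ ≤ 0.2 → ‖x‖ ≤ 0.02 := fun x hx => by
    simpa [h.ri] using h.small (θ x) (by linarith)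
  have nz : ∀ x, δ' (θ x) - δ (θ x) ≠ 0 → (η ≤ δ (θ x) ∧ δ (θ x) ≤ 0.4) ∧
      0.1 ≤ ‖θ x‖ ∧ ‖θ x‖ ≤ 0.2 := fun x hx => by
    have := hη _ (sub_ne_zero.1 hx).symm
    exact ⟨this, m.sup _ (by linarith [this.1] : 0 < δ (θ x)).ne'⟩
  have k0 : IsClosed {z : Tor 2 | 0.1 ≤ ‖θ (z 0)‖ ∧ ‖θ (z 0)‖ ≤ 0.2} :=
    IsClosed.and (isClosed_le continuous_const (by fun_prop))
      (isClosed_le (by fun_prop) continuous_const)
  have k1 : IsClosed {z : Tor 2 | (0.1 ≤ ‖θ (z 0)‖ ∧ ‖θ (z 0)‖ ≤ 0.2) ∧ η / 4 ≤ ‖z 1‖} :=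
    IsClosed.and k0 (isClosed_le continuous_const (by fun_prop))
  have k3 : IsClosed {z : Tor 2 | 7 / 8 * η ≤ δ' (θ (z 0)) ∧ δ' (θ (z 0)) ≤ 0.45} :=
    IsClosed.and (isClosed_le continuous_const (by fun_prop))
      (isClosed_le (by fun_prop) continuous_const)
  have k4 : IsClosed {z : Tor 2 | ‖z 1‖ ≤ 5 / 8 * η} := isClosed_le (by fun_prop) continuous_const
  have k2 : IsClosed {z : Tor 2 | (0.1 ≤ ‖θ (z 0)‖ ∧ ‖θ (z 0)‖ ≤ 0.2) ∧
      (7 / 8 * η ≤ δ' (θ (z 0)) ∧ δ' (θ (z 0)) ≤ 0.45) ∧ ‖z 1‖ ≤ 5 / 8 * η} :=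
    IsClosed.and k0 (IsClosed.and k3 k4)
  obtain ⟨H1, e1⟩ := conj_of_wander f χ (Q := ![0, hh])
    (K := {z | (0.1 ≤ ‖θ (z 0)‖ ∧ ‖θ (z 0)‖ ≤ 0.2) ∧ η / 4 ≤ ‖z 1‖})
    (fun z hz => tor_ext (hχ z).1 (by
      rw [(hχ z).2]
      by_cases h1 : δ' (θ (z 0)) - δ (θ (z 0)) = 0
      · simp [h1]
      · rw [l0 _ (not_le.1 fun h2 => hz ⟨(nz _ h1).2, h2⟩).le]; simp))
    (fun n hn z hz hz' => by
      obtain ⟨k, rfl⟩ := Nat.exists_eq_succ_of_ne_zero hn.ne'
      have h1 := hz'.1.1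
      rw [m.p0, Function.iterate_succ_apply', h.li] at h1
      linarith [h.iter_le k (z 0), sm _ hz.1.2])
    (fun ε hε => (m.ctr_s h).unif (by norm_num) k1.isCompact
      (fun z hz => m.to_s h (by linarith [sm _ hz.1.2])
        (norm_pos_iff.1 (lt_of_lt_of_le (by positivity) hz.2))) hε)
  obtain ⟨H2, e2⟩ := conj_of_wander g⁻¹ (χ.symm.trans R) (Q := ![hh, hh])
    (K := {z | (0.1 ≤ ‖θ (z 0)‖ ∧ ‖θ (z 0)‖ ≤ 0.2) ∧
      (7 / 8 * η ≤ δ' (θ (z 0)) ∧ δ' (θ (z 0)) ≤ 0.45) ∧ ‖z 1‖ ≤ 5 / 8 * η})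
    (fun z hz => by
      obtain ⟨w, rfl⟩ := χ.surjective z
      rw [Homeomorph.trans_apply, χ.symm_apply_apply]
      refine tor_ext (by rw [(hR _).1, (hχ _).1]) ?_
      rw [(hR _).2, (hχ _).2]
      by_cases h1 : δ' (θ (w 0)) - δ (θ (w 0)) = 0
      · simp [h1]
      · obtain ⟨⟨a1, a2⟩, a3⟩ := nz _ h1
        obtain ⟨a4, a5⟩ := abs_le.1 (hd (θ (w 0)))
        rw [l1]
        by_contra h2
        refine hz ⟨by rwa [(hχ _).1], by rw [(hχ _).1]; constructor <;> linarith, ?_⟩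
        rw [(hχ _).2]
        refine (norm_add_le _ _).trans ?_
        have : ‖(((δ' (θ (w 0)) - δ (θ (w 0))) * l (w 1) : ℝ) : C)‖ ≤ η / 8 * 1 :=
          QuotientAddGroup.norm_mk_le_norm.trans (by
            rw [Real.norm_eq_abs, abs_mul]
            exact mul_le_mul (hd _) (l2 _) (abs_nonneg _) (by positivity))
        linarith)
    (fun n hn z hz hz' => by
      obtain ⟨k, rfl⟩ := Nat.exists_eq_succ_of_ne_zero hn.ne'
      have h1 := hz'.1.2
      rw [m'.q0 h, ← Function.iterate_succ_apply' θ, Function.iterate_succ_apply,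
        Function.iterate_succ_apply] at h1
      linarith [h.iter_le' k (θ (θ (z 0))), h.big (t := θ (z 0)) (by linarith [hz.1.1])])
    (fun ε hε => (m'.ctr_u h).unif (by norm_num) k2.isCompact
      (fun z hz => (tendsto_add_atTop_iff_nat 1).1 (by
        simp only [pow_succ, mul_ap]
        refine m'.to_u h (by rw [m'.i0 h]; linarith [hz.1.1]) fun h1 => ?_
        have h2 := m'.e1 ((g⁻¹).1 z)
        obtain ⟨-, ⟨a1, a2⟩, a3⟩ := hz
        rw [ap_inv, h.b3 _ h1, zero_add, m'.i0 h] at h2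
        rw [h2, norm_coe_small (abs_le.2 ⟨by linarith, by linarith⟩),
          abs_of_pos (by linarith)] at a3
        linarith)) hε)
  refine ⟨H1.trans ((χ.symm.trans R).trans H2.symm), fun z => ?_⟩
  have := e2 (H2.symm (g.1 (H1 z)))
  rw [H2.apply_symm_apply, inv_ap] at this
  simp only [Homeomorph.trans_apply] at this ⊢
  rw [e1, χ.symm_apply_apply, ← eg, ← this, H2.symm_apply_apply, ap_inv]

theorem conj_chain (h : Bas ψ θ B α β)
    (ex : ∀ δ : C → ℝ, ContDiff ℝ 1 (fun t : ℝ => δ t) →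
      (∀ x, δ x ≠ 0 → 0.1 ≤ ‖x‖ ∧ ‖x‖ ≤ 0.2) → ∃ f : Diff1 2, Mod ψ B δ f)
    (m : Mod ψ B δ f) (m' : Mod ψ B δ' g) (c : ContDiff ℝ 1 fun t : ℝ => δ t)
    (c' : ContDiff ℝ 1 fun t : ℝ => δ' t) {η : ℝ} (h0 : 0 < η)
    (hη : ∀ x, δ x ≠ δ' x → (η ≤ δ x ∧ δ x ≤ 0.4) ∧ η ≤ δ' x ∧ δ' x ≤ 0.4) : TopConj f g := by
  obtain ⟨N, hN⟩ := exists_nat_gt (4 / η)
  have hN0 : (0 : ℝ) < N := lt_trans (by positivity) hN
  have key : ∀ i : ℕ, i ≤ N → ∀ k : Diff1 2,
      Mod ψ B (fun x => δ x + i / N * (δ' x - δ x)) k → TopConj f k := by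
    intro i
    induction i with
    | zero => exact fun _ k mk => conj_step h m mk h0 (by simp) (by simp; positivity)
    | succ i ih =>
      intro hi k mk
      obtain ⟨k', mk'⟩ := ex (fun x => δ x + i / N * (δ' x - δ x))
        (c.add (contDiff_const.mul (c'.sub c))) fun x hx => by
          by_cases h1 : δ x = 0
          · exact m'.sup x fun h2 => hx (by simp [h1, h2])
          · exact m.sup x h1
      refine (ih (by omega) k' mk').trans (conj_step h mk' mk h0 (fun x hx => ?_) fun x => ?_)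
      · obtain ⟨⟨a1, a2⟩, a3, a4⟩ := hη x fun e => hx (by simp [e])
        have t0 : (0 : ℝ) ≤ i / N := by positivity
        have t1 : (i : ℝ) / N ≤ 1 := by
          rw [div_le_one hN0]; exact_mod_cast (by omega : i ≤ N)
        constructor <;> nlinarith
      · rw [show δ x + ((i + 1 : ℕ) : ℝ) / N * (δ' x - δ x) - (δ x + i / N * (δ' x - δ x)) =
          (δ' x - δ x) / N by push_cast; field_simp; ring, abs_div, abs_of_pos hN0,
          div_le_iff₀ hN0]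
        rw [div_lt_iff₀ h0] at hN
        by_cases e : δ x = δ' x
        · rw [e, sub_self, abs_zero]; positivity
        · obtain ⟨⟨a1, a2⟩, a3, a4⟩ := hη x e
          rw [abs_le]; constructor <;> nlinarith
  refine key N le_rfl g ?_
  simpa [div_self hN0.ne'] using m'

end Pool.Agent.H581Z
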