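import Pool.Agent.H581Z.E0d

open Set Filter Topology Metric

noncomputable section

namespace Pool.Agent.H581Z

/-- The forward orbit of `z` converges to `a`. -/
def To {d : ℕ} (f : Diff1 d) (z a : Tor d) : Prop := Tendsto (fun n : ℕ => (f ^ n).1 z) atTop (𝓝 a)

section general

variable {d : ℕ} {f g : Diff1 d}

theorem To.map {H : Tor d → Tor d} (hc : Continuous H) (h : ∀ z, H (f.1 z) = g.1 (H z))
    {z a : Tor d} (t : To f z a) : To g (H z) (H a) := by
  refine ((hc.tendsto a).comp t).congr fun n => ?_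
  simpa using conj_zpow h n z

theorem conj_inv {H : Tor d → Tor d} (h : ∀ z, H (f.1 z) = g.1 (H z)) (z : Tor d) :
    H ((f⁻¹).1 z) = (g⁻¹).1 (H z) := by simpa using conj_zpow h (-1) z

theorem conj_symm {H : Tor d ≃ₜ Tor d} (h : ∀ z, H (f.1 z) = g.1 (H z)) (z : Tor d) :
    H.symm (g.1 z) = f.1 (H.symm z) := by
  rw [H.symm_apply_eq, h, H.apply_symm_apply]

theorem zpow_comm_ap (f : Diff1 d) (k : ℤ) (z : Tor d) : (f ^ k).1 (f.1 z) = f.1 ((f ^ k).1 z) := by
  rw [← mul_ap, ← mul_ap, (Commute.zpow_self f k).eq]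

theorem Ctr.back' {Q : Tor d} {δ : ℝ} (h : Ctr g Q δ) (hδ : 0 < δ) {y : Tor d}
    (hy : To g⁻¹ y Q) : y = Q := by
  refine h.back hδ ⟨Q, rfl, ?_⟩
  have hf : ∀ n : ℕ, (g⁻¹ ^ n).1 Q = Q := fun n => by
    have := fix_zpow (h.fix hδ) (-n)
    rwa [zpow_neg, zpow_natCast, ← inv_pow] at this
  simp only [hf, dist_comm Q]
  exact tendsto_iff_dist_tendsto_zero.1 hy

end general

theorem hh_ne : hh ≠ 0 := half_ne_zero

/-- Time spent near the repelling fixed point of the fibre map. -/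
def tau (ψ : C → C) (t : ℝ) : ℕ∞ := {k : ℕ | ‖(bb ψ)^[k] (t : C)‖ < 0.05}.encard

/-- `W^u(p) \ W^s(q)`. -/
def XX (f : Diff1 2) : Set (Tor 2) := {z | To f⁻¹ z ![hh, 0] ∧ ¬ To f z 0}

variable {ψ θ : C → C} {B : Tor 2 → C} {α β : ℝ} {δ δ' : C → ℝ} {f g : Diff1 2}

namespace Mod

theorem fix_q (h : Bas ψ θ B α β) (m : Mod ψ B δ f) : f.1 0 = 0 :=
  (m.fixed h (Or.inl rfl) (Or.inl rfl)).1

theorem fix_p (h : Bas ψ θ B α β) (m : Mod ψ B δ f) : f.1 ![hh, 0] = ![hh, 0] :=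
  (m.fixed h (Or.inr rfl) (Or.inl rfl)).1

theorem from_p (h : Bas ψ θ B α β) (m : Mod ψ B δ f) {z : Tor 2} (hz : 0.02 < ‖z 0‖)
    (h1 : z 1 = 0) : To f⁻¹ z ![hh, 0] := by
  refine tor_tendsto ?_ ?_
  · simp only [m.q0 h]
    exact h.bwd fun e => by rw [e, norm_zero] at hz; linarith
  · simp only [m.q1 h _ hz, h1, Function.iterate_fixed h.zero']
    exact tendsto_const_nhds

theorem to_q (h : Bas ψ θ B α β) (m : Mod ψ B δ f) {z : Tor 2} (hz : z 0 ≠ hh)
    (h1 : z 1 = 0) (h2 : ∀ n : ℕ, δ ((f ^ n).1 z 0) = 0) : To f z 0 := by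
  refine tor_tendsto ?_ ?_
  · simp only [m.p0]
    exact h.fwd hz
  · have : ∀ n : ℕ, (f ^ n).1 z 1 = 0 := fun n => by
      induction n with
      | zero => exact h1
      | succ n ih => rw [pow_succ_ap', m.e1, h.b3 _ ih, h2]; simp
    simp only [this]
    exact tendsto_const_nhds

theorem to_q' (h : Bas ψ θ B α β) (m : Mod ψ B δ f) {z : Tor 2} (hz : ‖z 0‖ ≤ 0.3)
    (h1 : z 1 = 0) (h2 : δ (z 0) = 0) : To f z 0 := by
  refine m.to_q h (fun e => by rw [e, norm_hh] at hz; linarith) h1 fun n => ?_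
  cases n with
  | zero => exact h2
  | succ n =>
    refine m.d0 (Or.inl ?_)
    rw [m.p0, Function.iterate_succ_apply]
    linarith [h.iter_le n (ψ (z 0)), h.small (z 0) (by linarith)]

theorem conj_pq (h : Bas ψ θ B α β) (m : Mod ψ B δ f) (m' : Mod ψ B δ' g) {H : Tor 2 ≃ₜ Tor 2}
    (e : ∀ z, H (f.1 z) = g.1 (H z)) : H ![hh, 0] = ![hh, 0] ∧ H 0 = 0 := by
  have n3 : ‖((0.3 : ℝ) : C)‖ = 0.3 := by
    rw [norm_coe_small (by norm_num [abs_of_pos])]; norm_num
  have n0 : ((0.3 : ℝ) : C) ≠ 0 := fun e => by rw [e, norm_zero] at n3; linarith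
  have n1 : ((0.3 : ℝ) : C) ≠ hh := fun e => by rw [e, norm_hh] at n3; linarith
  generalize ((0.3 : ℝ) : C) = y at n0 n1 n3
  have a1 : To g⁻¹ (H ![y, 0]) (H ![hh, 0]) :=
    (m.from_p h (z := ![y, 0]) (by change _ < ‖y‖; linarith) rfl).map H.continuous (conj_inv e)
  have a2 : To g (H ![y, 0]) (H 0) :=
    (m.to_q' h (z := ![y, 0]) n3.le rfl (m.d0 (Or.inr (by change _ < ‖y‖; linarith)))).map
      H.continuous e
  have a3 : To g (H ![hh, y]) (H ![hh, 0]) := by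
    refine To.map H.continuous e (tor_tendsto ?_ ?_)
    · simp only [m.p0, Matrix.cons_val_zero, Function.iterate_fixed h.half]
      exact tendsto_const_nhds
    · have : ∀ n : ℕ, (f ^ n).1 ![hh, y] 1 = ψ^[n] y := fun n => by
        induction n with
        | zero => rfl
        | succ n ih =>
          rw [pow_succ_ap', m.high h, ih, Function.iterate_succ_apply']
          rw [m.p0, Matrix.cons_val_zero, Function.iterate_fixed h.half, norm_hh]; norm_num
      simp only [this]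
      exact h.fwd n1
  have a4 : To g⁻¹ (H ![0, y]) (H 0) := by
    refine To.map H.continuous (conj_inv e) (tor_tendsto ?_ ?_)
    · simp only [m.q0 h, Matrix.cons_val_zero, Function.iterate_fixed h.zero']
      exact tendsto_const_nhds
    · have : ∀ n : ℕ, (f⁻¹ ^ n).1 ![0, y] 1 = (bb θ)^[n] y := fun n => by
        induction n with
        | zero => rfl
        | succ n ih =>
          have h1 := m.low h (z := (f⁻¹ ^ (n + 1)).1 ![0, y]) (by
            rw [m.q0 h, Matrix.cons_val_zero, Function.iterate_fixed h.zero']; norm_num)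
          rw [Function.iterate_succ_apply', ← ih, bb]
          conv_lhs at h1 => rw [pow_succ_ap', ap_inv]
          rw [h1, bb, add_assoc, hh_add_hh, add_zero, h.li, add_assoc, hh_add_hh, add_zero]
      simp only [this]
      exact h.bb_bwd n1
  have ns : ∀ {z a : Tor 2}, To g⁻¹ (H z) (H a) → z ≠ a → H a ≠ ![0, hh] := fun t hne e' =>
    hne (H.injective (((m'.ctr_s h).back' (by norm_num) (e' ▸ t)).trans e'.symm))
  have nu : ∀ {z a : Tor 2}, To g (H z) (H a) → z ≠ a → H a ≠ ![hh, hh] := fun t hne e' =>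
    hne (H.injective (((m'.ctr_u h).back' (by norm_num) (by rwa [inv_inv, ← e'])).trans e'.symm))
  have cl : ∀ a : Tor 2, f.1 a = a → H a ≠ ![0, hh] → H a ≠ ![hh, hh] →
      H a = ![hh, 0] ∨ H a = 0 := fun a ha h1 h2 => by
    obtain ⟨b0, b1⟩ := m'.omega_sub h (x := H a)
      (per_subset_omega g ⟨1, one_pos, by change g.1 _ = _; rw [← e, ha]⟩)
    rcases b0 with b0 | b0 <;> rcases b1 with b1 | b1
    exacts [Or.inr (tor_ext b0 b1), absurd (tor_ext b0 b1) h1, Or.inl (tor_ext b0 b1),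
      absurd (tor_ext b0 b1) h2]
  have c1 := cl _ (m.fix_p h) (ns a1 fun e => n1 (congrFun e 0)) (nu a3 fun e => n0 (congrFun e 1))
  have c2 := cl _ (m.fix_q h) (ns a4 fun e => n0 (congrFun e 1)) (nu a2 fun e => n0 (congrFun e 0))
  have c3 : H ![hh, 0] ≠ H 0 := fun e => hh_ne (congrFun (H.injective e) 0)
  rcases c1 with c1 | c1 <;> rcases c2 with c2 | c2
  · exact absurd (c1.trans c2.symm) c3
  · exact ⟨c1, c2⟩
  · exfalso
    rw [c1] at a1
    rw [c2] at a2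
    have b1 := tendsto_pi_nhds.1 a1 0
    have b2 := tendsto_pi_nhds.1 a2 0
    simp only [m'.q0 h] at b1
    simp only [m'.p0] at b2
    have b3 : H ![y, 0] 0 = 0 := by
      by_contra h1
      exact hh_ne (tendsto_nhds_unique (h.bwd h1) b1)
    simp only [b3, Function.iterate_fixed h.zero] at b2
    exact hh_ne (tendsto_nhds_unique b2 tendsto_const_nhds)
  · exact absurd (c1.trans c2.symm) c3

theorem vis_cmp (h : Bas ψ θ B α β) (m : Mod ψ B δ f) (m' : Mod ψ B δ' g) {H : Tor 2 ≃ₜ Tor 2}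
    (e : ∀ z, H (f.1 z) = g.1 (H z)) :
    ∃ N : ℕ, ∀ z, vis g (ball 0 0.05) (H z) ≤ vis f (ball 0 0.05) z + N := by
  obtain ⟨N, hN⟩ := vis_compact f (K := H ⁻¹' closedBall 0 0.05 \ ball 0 0.05)
    ((isClosed_closedBall.preimage H.continuous).sdiff isOpen_ball).isCompact fun x hx hO => by
      have h1 := (m.fixed h (m.omega_sub h hO).1 (m.omega_sub h hO).2).1
      obtain ⟨b0, b1⟩ := m'.omega_sub h (x := H x)
        (per_subset_omega g ⟨1, one_pos, by change g.1 _ = _; rw [← e, h1]⟩)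
      have h2 : ∀ i, H x i ≠ hh := fun i e' => by
        have := (norm_le_pi_norm (H x) i).trans (mem_closedBall_zero_iff.1 hx.1)
        rw [e', norm_hh] at this
        linarith
      have h3 : H x = H 0 := (tor_ext (b0.resolve_right (h2 0)) (b1.resolve_right (h2 1))).trans
        (m.conj_pq h m' e).2.symm
      exact hx.2 (H.injective h3 ▸ mem_ball_self (by norm_num))
  refine ⟨N, fun z => le_trans ?_ ((vis_union f _ _ z).trans (add_le_add le_rfl (hN z)))⟩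
  refine encard_le_encard fun k hk => ?_
  by_cases h1 : (f ^ k).1 z ∈ ball (0 : Tor 2) 0.05
  · exact Or.inl h1
  · exact Or.inr ⟨by rw [mem_preimage, conj_zpow e]; exact ball_subset_closedBall hk, h1⟩

theorem vis_lens (h : Bas ψ θ B α β) (m : Mod ψ B δ f) {z : Tor 2} (h0 : 0.1 ≤ ‖z 0‖)
    (h0' : ‖z 0‖ ≤ 0.2) (h1 : z 1 = 0) : vis f (ball 0 0.05) z = tau ψ (δ (z 0)) := by
  have hs : ‖f.1 z 0‖ ≤ 0.02 := by rw [m.e0]; exact h.small _ (by linarith)
  have key : ∀ n : ℕ, (f ^ ((n : ℤ) + 1)).1 z ∈ ball (0 : Tor 2) 0.05 ↔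
      ‖(bb ψ)^[n] (δ (z 0) : ℝ)‖ < 0.05 := fun n => by
    rw [zpow_add_one, zpow_natCast, mul_ap, mem_ball_zero_iff, pi_norm_lt_iff (by norm_num),
      Fin.forall_fin_two, m.p1 h n (by linarith), m.e1, h.b3 _ h1, zero_add, m.p0]
    exact and_iff_right (by linarith [h.iter_le n (f.1 z 0)])
  unfold vis tau
  rw [← (show Function.Injective fun n : ℕ => (n : ℤ) + 1 from
    fun a b hab => by simpa using hab).encard_image]
  congr 1
  ext k
  constructor
  · intro hk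
    rcases lt_or_ge 0 k with hk0 | hk0
    · obtain ⟨n, rfl⟩ : ∃ n : ℕ, k = n + 1 := ⟨(k - 1).toNat, by omega⟩
      exact ⟨n, (key n).1 hk, rfl⟩
    · obtain ⟨n, rfl⟩ : ∃ n : ℕ, k = -n := ⟨(-k).toNat, by omega⟩
      have := (norm_le_pi_norm _ 0).trans_lt (mem_ball_zero_iff.1 hk)
      rw [zpow_neg, zpow_natCast, ← inv_pow, m.q0 h] at this
      linarith [h.iter_le' n (z 0)]
  · rintro ⟨n, hn, rfl⟩
    exact (key n).2 hn

theorem XX_map (h : Bas ψ θ B α β) (m : Mod ψ B δ f) (m' : Mod ψ B δ' g) {H : Tor 2 ≃ₜ Tor 2}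
    (e : ∀ z, H (f.1 z) = g.1 (H z)) {z : Tor 2} (hz : z ∈ XX f) : H z ∈ XX g := by
  obtain ⟨e1, e2⟩ := m.conj_pq h m' e
  refine ⟨e1 ▸ hz.1.map H.continuous (conj_inv e), fun t => hz.2 ?_⟩
  have := t.map H.symm.continuous (conj_symm e)
  rwa [H.symm_apply_apply, H.symm_apply_eq.2 e2.symm] at this

theorem XX_zpow (h : Bas ψ θ B α β) (m : Mod ψ B δ f) (k : ℤ) {z : Tor 2} (hz : z ∈ XX f) :
    (f ^ k).1 z ∈ XX f :=
  m.XX_map h m (H := ⟨(f ^ k).1, continuous_ap _, continuous_ap (f ^ k)⁻¹⟩) (zpow_comm_ap f k) hz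

theorem XX_snd (h : Bas ψ θ B α β) (m : Mod ψ B δ f) {z : Tor 2} (hz : z ∈ XX f)
    (h0 : 0.02 < ‖z 0‖) : z 1 = 0 := by
  by_contra h1
  exact hh_ne (congrFun (tendsto_nhds_unique (m.to_u h h0 h1) hz.1) 1)

theorem XX_iter (h : Bas ψ θ B α β) (m : Mod ψ B δ f) {z : Tor 2} (hz : z ∈ XX f)
    (hp : z ≠ ![hh, 0]) : ∃ k : ℤ, δ ((f ^ k).1 z 0) ≠ 0 := by
  by_contra hc
  push Not at hc
  obtain ⟨n, hn⟩ := ((tendsto_pi_nhds.1 hz.1 0).norm.eventually
    (lt_mem_nhds (show 0.02 < ‖(![hh, 0] : Tor 2) 0‖ by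
      rw [Matrix.cons_val_zero, norm_hh]; norm_num))).exists
  rw [inv_pow, ← zpow_natCast, ← zpow_neg] at hn
  have h1 := m.XX_zpow h (-n) hz
  have h2 := m.XX_snd h h1 hn
  refine h1.2 (m.to_q h (fun e => hp (eq_of_zpow_fix (m.fix_p h) (tor_ext e h2))) h2 fun j => ?_)
  rw [← mul_ap, ← zpow_natCast, ← zpow_add, hc]

theorem mem_XX (h : Bas ψ θ B α β) (m : Mod ψ B δ f) {z : Tor 2} (h1 : z 1 = 0)
    (h2 : 0 < δ (z 0)) (h3 : δ (z 0) ≤ 0.4) : z ∈ XX f := by
  obtain ⟨a1, a2⟩ := m.sup _ h2.ne'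
  refine ⟨m.from_p h (by linarith) h1, fun t => ?_⟩
  have t1 := m.to_s h (z := f.1 z) (by rw [m.e0]; linarith [h.small (z 0) (by linarith)]) (by
    rw [m.e1, h.b3 _ h1, zero_add, ← norm_pos_iff,
      norm_coe_small (abs_le.2 ⟨by linarith, by linarith⟩)]
    exact abs_pos.2 h2.ne')
  have t2 := (tendsto_add_atTop_iff_nat 1).2 t
  simp only [pow_succ, mul_ap] at t2
  exact hh_ne (congrFun (tendsto_nhds_unique t1 t2) 1)

end Mod

/-- The height function is positive exactly on the balls `ball (c n) (r n)`, with top height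
`a n`. -/
structure Lens (δ : C → ℝ) (c : ℕ → C) (r a : ℕ → ℝ) : Prop where
  pos : ∀ n x, dist x (c n) < r n → 0 < δ x ∧ δ x ≤ a n
  top : ∀ n, δ (c n) = a n
  bd : ∀ n x, dist x (c n) = r n → δ x = 0
  cov : ∀ x, δ x ≠ 0 → ∃ n, dist x (c n) < r n
  rp : ∀ n, 0 < r n
  sub : ∀ n x, dist x (c n) ≤ r n → 0.1 ≤ ‖x‖ ∧ ‖x‖ ≤ 0.2
  le : ∀ n, a n ≤ 0.4

theorem lens_cmp (h : Bas ψ θ B α β) (m : Mod ψ B δ f) (m' : Mod ψ B δ' g) {c : ℕ → C}
    {r a a' : ℕ → ℝ} (l : Lens δ c r a) (l' : Lens δ' c r a') (hc : TopConj f g) :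
    ∃ N : ℕ, ∀ n, ∃ k, (∃ t, 0 < t ∧ t ≤ a' k ∧ tau ψ t ≤ tau ψ (a n) + N) ∧
      ∃ t, 0 < t ∧ t ≤ a n ∧ tau ψ t ≤ tau ψ (a' k) + N := by
  obtain ⟨H, e⟩ := hc
  obtain ⟨N1, h1⟩ := m.vis_cmp h m' e
  obtain ⟨N2, h2⟩ := m'.vis_cmp h m (conj_symm e)
  refine ⟨N1 + N2, fun n => ?_⟩
  have cn : ∀ n, dist (c n) (c n) < r n := fun n => by rw [dist_self]; exact l.rp n
  have zX : (![c n, 0] : Tor 2) ∈ XX f :=
    m.mem_XX h rfl (l.pos n _ (cn n)).1 ((l.pos n _ (cn n)).2.trans (l.le n))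
  have wX := m.XX_map h m' e zX
  obtain ⟨j, hj⟩ := m'.XX_iter h wX fun e' => by
    have h3 := congrFun (H.injective (e'.trans (m.conj_pq h m' e).1.symm)) 0
    have h4 := (l.sub n _ (cn n).le).2
    rw [show c n = hh from h3, norm_hh] at h4
    linarith
  obtain ⟨k, hk⟩ := l'.cov _ hj
  set w := (g ^ j).1 (H ![c n, 0]) with hw
  obtain ⟨w1, w2⟩ := l.sub k _ hk.le
  have w3 := m'.XX_snd h (m'.XX_zpow h j wX) (by linarith)
  refine ⟨k, ⟨δ' (w 0), (l'.pos k _ hk).1, (l'.pos k _ hk).2, ?_⟩, ?_⟩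
  · have h3 := h1 ![c n, 0]
    have h4 : vis g (ball 0 0.05) w = vis g (ball 0 0.05) (H ![c n, 0]) := vis_zpow g _ _ j
    have h5 : vis f (ball 0 0.05) ![c n, 0] = tau ψ (δ (c n)) :=
      m.vis_lens h (z := ![c n, 0]) (l.sub n _ (cn n).le).1 (l.sub n _ (cn n).le).2 rfl
    rw [← h4, m'.vis_lens h w1 w2 w3, h5, l.top n] at h3
    exact h3.trans (by push_cast; rw [← add_assoc]; exact le_self_add)
  · let G : ℝ → Tor 2 := fun t => H.symm ((g ^ (-j)).1 ![c k + t, 0])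
    have Gc : Continuous G := H.symm.continuous.comp ((continuous_ap _).comp (continuous_pi fun i => by
      fin_cases i
      · exact continuous_const.add (AddCircle.continuous_mk' 1)
      · exact continuous_const))
    have GX : ∀ t ∈ Ioo (-r k) (r k), G t ∈ XX f := fun t ht => by
      have : dist (c k + t) (c k) < r k := by
        rw [dist_self_add_left]
        exact QuotientAddGroup.norm_mk_le_norm.trans_lt (abs_lt.2 ht)
      exact m'.XX_map h m (conj_symm e) (m'.XX_zpow h _ (m'.mem_XX h rfl (l'.pos k _ this).1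
        ((l'.pos k _ this).2.trans (l'.le k))))
    obtain ⟨s, -, s1, s2⟩ := exists_rep (w 0 - c k)
    have Gs : G s = ![c n, 0] := by
      have : (![c k + s, 0] : Tor 2) = w := tor_ext (by rw [s1]; exact add_sub_cancel _ _) w3.symm
      simp only [G]
      rw [this, hw, zpow_neg, inv_ap, H.symm_apply_apply]
    have Gd : Continuous fun t => dist (G t 0) (c n) :=
      ((continuous_apply 0).comp Gc).dist continuous_const
    have key := (isPreconnected_Ioo (a := -r k) (b := r k)).subset_of_closure_inter_subset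
      (u := {t | dist (G t 0) (c n) < r n}) (isOpen_lt Gd continuous_const)
      ⟨s, abs_lt.1 (by rw [← s2, ← dist_eq_norm]; exact hk), by
        rw [mem_ofPred_eq, Gs]; exact cn n⟩ (fun t ht => by
        have h3 : dist (G t 0) (c n) ≤ r n :=
          closure_lt_subset_le Gd continuous_const ht.1
        refine lt_of_le_of_ne h3 fun e' => ?_
        obtain ⟨b1, b2⟩ := l.sub n _ h3
        exact (GX t ht.2).2 (m.to_q' h (by linarith) (m.XX_snd h (GX t ht.2) (by linarith))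
          (l.bd n _ e')))
    have h0 : (0 : ℝ) ∈ Ioo (-r k) (r k) := ⟨by linarith [l.rp k], l.rp k⟩
    have h3 : dist (G 0 0) (c n) < r n := key h0
    obtain ⟨b1, b2⟩ := l.sub n _ h3.le
    refine ⟨δ (G 0 0), (l.pos n _ h3).1, (l.pos n _ h3).2, ?_⟩
    have h4 := h2 ((g ^ (-j)).1 ![c k, 0])
    have h5 : vis g (ball 0 0.05) ![c k, 0] = tau ψ (δ' (c k)) :=
      m'.vis_lens h (z := ![c k, 0]) (l.sub k _ (cn k).le).1 (l.sub k _ (cn k).le).2 rfl
    have h6 : H.symm ((g ^ (-j)).1 ![c k, 0]) = G 0 := by simp [G]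
    rw [vis_zpow, h5, h6, m.vis_lens h b1 b2 (m.XX_snd h (GX 0 h0) (by linarith)), l'.top k] at h4
    exact h4.trans (by push_cast; rw [add_comm (N1 : ℕ∞), ← add_assoc]; exact le_self_add)

theorem tau_lt_top (h : Bas ψ θ B α β) {t : ℝ} (h0 : 0 < t) (h1 : t ≤ 0.4) :
    ∃ M : ℕ, tau ψ t = M := by
  have h2 : (t : C) ≠ 0 := by
    rw [← norm_pos_iff, norm_coe_small (abs_le.2 ⟨by linarith, by linarith⟩)]
    exact abs_pos.2 h0.ne'
  have := (h.bb_fwd h2).norm.eventually (lt_mem_nhds (show 0.05 < ‖hh‖ by rw [norm_hh]; norm_num))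
  rw [← Nat.cofinite_eq_atTop] at this
  have h3 : {k : ℕ | ‖(bb ψ)^[k] (t : C)‖ < 0.05}.Finite :=
    (eventually_cofinite.1 this).subset fun k hk => not_lt.2 (le_of_lt hk)
  exact ⟨_, h3.cast_ncard_eq.symm⟩

theorem tau_big (h : Bas ψ θ B α β) (T : ℕ) : ∃ η > 0, ∀ t, 0 < t → t ≤ η → (T : ℕ∞) ≤ tau ψ t := by
  have cb : Continuous (bb ψ) := (h.cψ.comp (continuous_id.add continuous_const)).add continuous_const
  have : ∀ᶠ t : ℝ in 𝓝 0, ∀ k ∈ Finset.range T, ‖(bb ψ)^[k] (t : C)‖ < 0.05 :=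
    (eventually_all_finset _).2 fun k _ =>
      (((cb.iterate k).comp (AddCircle.continuous_mk' 1)).norm.continuousAt).eventually_lt
        continuousAt_const (by
          change ‖(bb ψ)^[k] 0‖ < _
          rw [Function.iterate_fixed h.bb_zero]; norm_num)
  obtain ⟨ε, hε, h1⟩ := Metric.eventually_nhds_iff.1 this
  refine ⟨ε / 2, half_pos hε, fun t h0 ht => ?_⟩
  have h2 := h1 (y := t) (by rw [Real.dist_eq, sub_zero, abs_of_pos h0]; linarith)
  have h3 := encard_le_encard (s := (Finset.range T : Set ℕ))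
    (t := {k : ℕ | ‖(bb ψ)^[k] (t : C)‖ < 0.05}) fun k hk => h2 k hk
  rwa [encard_coe_eq_coe_finsetCard, Finset.card_range] at h3

end Pool.Agent.H581Z
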