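import Pool.Agent.H581Z.E0e

open Set Filter Topology Metric
open scoped ContDiff

noncomputable section

namespace Pool.Agent.H581Z

variable {d : ℕ}

theorem le_inf' (k : ℕ) : (k : WithTop ℕ∞) ≤ ∞ := by exact_mod_cast le_top

theorem bdd_iter {W : Tor d → E d} (hW : ContDiff ℝ ∞ (W ∘ proj)) (k : ℕ) :
    ∃ K, ∀ z, ‖iteratedFDeriv ℝ k (W ∘ proj) z‖ ≤ K := by
  obtain ⟨K, hK⟩ := (isCompact_closedBall (0 : E d) 1).exists_bound_of_continuousOn
    (hW.continuous_iteratedFDeriv (le_inf' k)).continuousOn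
  refine ⟨K, fun z => ?_⟩
  obtain ⟨a, ha, hn⟩ := exists_small_lift (proj z)
  have e : (fun y => (W ∘ proj) (y + (z - a))) = W ∘ proj := funext fun y => by
    simp only [Function.comp_apply, proj_add, proj_sub, ha, sub_self, add_zero]
  have := iteratedFDeriv_comp_add_right (𝕜 := ℝ) (f := W ∘ proj) k (z - a) a
  rw [e, add_sub_cancel] at this
  rw [← this]
  exact hK a (mem_closedBall_zero_iff.2 (by linarith [norm_tor_le (proj z)]))

theorem Lift.Dk_eq {f : Diff1 d} {F : E d → E d} (h : Lift f F) (k : ℕ) (z : E d) :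
    Dk k f (proj z) = iteratedFDeriv ℝ (k + 1) F z := by
  have h0 : Lift f f.2.1.choose := ⟨f.2.1.choose_spec.1, f.2.1.choose_spec.2⟩
  rw [Dk, iteratedFDeriv_succ_eq_comp_right, iteratedFDeriv_succ_eq_comp_right,
    Function.comp_apply, Function.comp_apply]
  congr 1
  set w : E d := fun i => Quotient.out (proj z i) with hw
  have hwz : proj w = proj z := proj_out _
  have e : (fun y => fderiv ℝ f.2.1.choose (y + (w - z))) = fun y => fderiv ℝ F y :=
    funext fun y => by rw [← h0.D_eq, ← h.D_eq, proj_add, proj_sub, hwz, sub_self, add_zero]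
  have := iteratedFDeriv_comp_add_right (𝕜 := ℝ) (f := fun y => fderiv ℝ f.2.1.choose y) k (w - z) z
  rw [e, add_sub_cancel] at this
  exact this.symm

theorem Lift.smooth {f : Diff1 d} {F : E d → E d} (h : Lift f F) (hF : ContDiff ℝ ∞ F) :
    HasSmoothLift f.1 ∧ HasSmoothLift f.1.symm := by
  obtain ⟨G, hG, h1, h2⟩ := h.exists_inv
  let H : E d ≃ₜ E d := ⟨⟨F, G, h1, h2⟩, h.cd.continuous, hG.cd.continuous⟩
  exact ⟨⟨F, hF, h.eq⟩, G, H.contDiff_symm (f₀' := fun z => DE f (proj z)) h.hasFDerivAt hF, hG.eq⟩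

theorem family_smooth {a b : ℕ → E d → E d} (ha : ∀ n, ContDiff ℝ ∞ (a n))
    (hb : ∀ n, ContDiff ℝ ∞ (b n)) (ba : ∀ k n, ∃ K, ∀ z, ‖iteratedFDeriv ℝ k (a n) z‖ ≤ K)
    (bb : ∀ k n, ∃ K, ∀ z, ‖iteratedFDeriv ℝ k (b n) z‖ ≤ K) :
    ∃ κ : ℕ → ℝ, (∀ n, 0 < κ n) ∧ ∀ (p : ℕ → ℝ) (q : (ℕ → Bool) → ℕ → ℝ), (∀ n, |p n| ≤ κ n) →
      (∀ w n, |q w n| ≤ κ n) → (∀ w w' n, w n = w' n → q w n = q w' n) →
      (∀ w, ContDiff ℝ ∞ fun z => ∑' n, (p n • a n z + q w n • b n z)) ∧ ∀ k w0,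
        TendstoUniformly
          (fun w => iteratedFDeriv ℝ k fun z => ∑' n, (p n • a n z + q w n • b n z))
          (iteratedFDeriv ℝ k fun z => ∑' n, (p n • a n z + q w0 n • b n z)) (𝓝 w0) := by
  choose A hA using ba
  choose A' hA' using bb
  choose K hK0 hK using fun n => exists_bound_fin (fun k => A k n + A' k n) (n + 1)
  refine ⟨fun n => (1 / 2) ^ n / K n, fun n => div_pos (by positivity) (hK0 n),
    fun p q hp hq hqq => ?_⟩
  set v : ℕ → ℕ → ℝ := fun k n => (1 / 2) ^ n / K n * (A k n + A' k n) with hv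
  have A0 : ∀ k n, 0 ≤ A k n := fun k n => (norm_nonneg _).trans (hA k n 0)
  have A0' : ∀ k n, 0 ≤ A' k n := fun k n => (norm_nonneg _).trans (hA' k n 0)
  have v0 : ∀ k n, 0 ≤ v k n := fun k n =>
    mul_nonneg (div_pos (by positivity) (hK0 n)).le (add_nonneg (A0 k n) (A0' k n))
  have sv : ∀ k, Summable (v k) := fun k => by
    refine summable_geometric_two.of_norm_bounded_eventually_nat ?_
    filter_upwards [eventually_ge_atTop k] with n hn
    rw [Real.norm_of_nonneg (v0 k n), hv]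
    simp only
    rw [div_mul_eq_mul_div, div_le_iff₀ (hK0 n)]
    exact mul_le_mul_of_nonneg_left (hK n k (by omega)) (by positivity)
  have cd : ∀ w n, ContDiff ℝ ∞ fun z => p n • a n z + q w n • b n z := fun w n =>
    ((ha n).const_smul _).add ((hb n).const_smul _)
  have bd : ∀ w (k n : ℕ) z,
      ‖iteratedFDeriv ℝ k (fun z => p n • a n z + q w n • b n z) z‖ ≤ v k n := fun w k n z => by
    rw [fun_iteratedFDeriv_add_apply (((ha n).const_smul _).of_le (le_inf' k)).contDiffAt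
      (((hb n).const_smul _).of_le (le_inf' k)).contDiffAt,
      iteratedFDeriv_const_smul_apply' ((ha n).of_le (le_inf' k)).contDiffAt,
      iteratedFDeriv_const_smul_apply' ((hb n).of_le (le_inf' k)).contDiffAt]
    refine (norm_add_le _ _).trans ?_
    rw [norm_smul, norm_smul, hv]
    simp only [mul_add]
    exact add_le_add (mul_le_mul (hp n) (hA k n z) (norm_nonneg _) ((abs_nonneg _).trans (hp n)))
      (mul_le_mul (hq w n) (hA' k n z) (norm_nonneg _) ((abs_nonneg _).trans (hp n)))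
  refine ⟨fun w => contDiff_tsum (N := ⊤) (cd w) (fun k _ => sv k) fun k n z _ => bd w k n z,
    fun k w0 => Metric.tendstoUniformly_iff.2 fun ε hε => ?_⟩
  have hR := tendsto_tsum_of_dominated_convergence (𝓕 := 𝓝 w0) (g := fun _ => (0 : ℝ))
    (f := fun (w : ℕ → Bool) n => if w0 n = w n then 0 else 2 * v k n) ((sv k).mul_left 2)
    (fun n => tendsto_const_nhds.congr' (by
      filter_upwards [((continuous_apply n).tendsto w0).eventually
        (mem_nhds_discrete.2 (show w0 n ∈ {t | w0 n = t} from rfl))] with w hw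
      exact (if_pos hw).symm))
    (Eventually.of_forall fun w n => by
      split_ifs
      · simpa using v0 k n
      · rw [Real.norm_of_nonneg (by linarith [v0 k n])])
  rw [tsum_zero] at hR
  filter_upwards [hR.eventually (gt_mem_nhds hε)] with w hw z
  have sm : ∀ w, Summable fun n => iteratedFDeriv ℝ k (fun z => p n • a n z + q w n • b n z) z :=
    fun w => (sv k).of_norm_bounded fun n => bd w k n z
  rw [iteratedFDeriv_tsum_apply (N := ⊤) (cd w) (fun k _ => sv k) (fun k n z _ => bd w k n z) le_top,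
    iteratedFDeriv_tsum_apply (N := ⊤) (cd w0) (fun k _ => sv k) (fun k n z _ => bd w0 k n z) le_top,
    dist_eq_norm, ← (sm w0).tsum_sub (sm w)]
  refine (tsum_of_norm_bounded (Summable.hasSum ?_) fun n => ?_).trans_lt hw
  · refine ((sv k).mul_left 2).of_norm_bounded fun n => ?_
    split_ifs
    · simpa using v0 k n
    · rw [Real.norm_of_nonneg (by linarith [v0 k n])]
  · split_ifs with h
    · rw [hqq _ _ _ h, sub_self, norm_zero]
    · linarith [norm_sub_le_of_le (bd w0 k n z) (bd w k n z)]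

theorem exists_eta {ψ θ : C → C} {B : Tor 2 → C} {α β : ℝ} (h : Bas ψ θ B α β) {κ : ℕ → ℝ}
    (hκ : ∀ n, 0 < κ n) : ∃ η : ℕ → ℝ, (∀ j, 0 < η j ∧ η j ≤ 0.4 ∧ η j ≤ κ j ∧ η (j + 1) ≤ η j) ∧
      ∀ N j j' : ℕ, N < j → (∃ t, 0 < t ∧ t ≤ η j' ∧ tau ψ t ≤ tau ψ (η j) + N) →
        (∃ t, 0 < t ∧ t ≤ η j ∧ tau ψ t ≤ tau ψ (η j') + N) → j = j' := by
  have st : ∀ (j : ℕ) (x : {x : ℝ // 0 < x ∧ x ≤ 0.4}), ∃ y : {x : ℝ // 0 < x ∧ x ≤ 0.4},
      y.1 ≤ x.1 ∧ y.1 ≤ κ (j + 1) ∧ ∀ t, 0 < t → t ≤ y.1 → tau ψ x + (j + 1 : ℕ) ≤ tau ψ t := by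
    intro j x
    obtain ⟨M, hM⟩ := tau_lt_top h x.2.1 x.2.2
    obtain ⟨e, he, h1⟩ := tau_big h (M + (j + 1))
    refine ⟨⟨min x.1 (min (κ (j + 1)) e), lt_min x.2.1 (lt_min (hκ _) he),
      (min_le_left _ _).trans x.2.2⟩, min_le_left _ _,
      (min_le_right _ _).trans (min_le_left _ _), fun t h0 ht => ?_⟩
    rw [hM, ← Nat.cast_add]
    exact h1 t h0 (ht.trans ((min_le_right _ _).trans (min_le_right _ _)))
  choose F f1 f2 f3 using st
  let e : ℕ → {x : ℝ // 0 < x ∧ x ≤ 0.4} := fun j => Nat.rec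
    ⟨min 0.4 (κ 0), lt_min (by norm_num) (hκ 0), min_le_left _ _⟩ F j
  have es : ∀ j, e (j + 1) = F j (e j) := fun _ => rfl
  choose M hM using fun j => tau_lt_top h (e j).2.1 (e j).2.2
  have hm : Monotone M := monotone_nat_of_le_succ fun j => by
    have := f3 j (e j) _ (e (j + 1)).2.1 le_rfl
    rw [hM j, hM (j + 1), ← Nat.cast_add, Nat.cast_le] at this
    omega
  have key : ∀ N i j : ℕ, i < j → (∃ t : ℝ, 0 < t ∧ t ≤ (e j).1 ∧ tau ψ t ≤ tau ψ (e i).1 + N) →
      j ≤ N := by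
    rintro N i j hij ⟨t, t0, t1, t2⟩
    obtain ⟨k, rfl⟩ := Nat.exists_eq_succ_of_ne_zero (show j ≠ 0 by omega)
    have := (f3 k (e k) t t0 t1).trans t2
    rw [hM k, hM i, ← Nat.cast_add, ← Nat.cast_add, Nat.cast_le] at this
    have := hm (show i ≤ k by omega)
    omega
  refine ⟨fun j => (e j).1, fun j => ⟨(e j).2.1, (e j).2.2, ?_, f1 j (e j)⟩,
    fun N j j' hN h1 h2 => ?_⟩
  · cases j with
    | zero => exact min_le_right _ _
    | succ j => exact f2 j _
  · rcases lt_trichotomy j j' with h3 | h3 | h3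
    · have := key N j j' h3 h1
      omega
    · exact h3
    · have := key N j' j h3 h2
      omega

theorem exists_balls : ∃ (c : ℕ → C) (r : ℕ → ℝ), (∀ n, 0 < r n ∧ r n ≤ 1 / 2) ∧
    (∀ n x, dist x (c n) ≤ r n → 0.1 ≤ ‖x‖ ∧ ‖x‖ ≤ 0.2) ∧
    ∀ n m x, dist x (c n) ≤ r n → dist x (c m) ≤ r m → n = m := by
  have p0 : ∀ n : ℕ, (0 : ℝ) < (1 / 2) ^ n := fun n => by positivity
  have p1 : ∀ n : ℕ, (1 / 2 : ℝ) ^ n ≤ 1 := fun n => pow_le_one₀ (by norm_num) (by norm_num)
  have key : ∀ (n : ℕ) (x : C), dist x ((0.1 + 0.06 * (1 / 2) ^ n : ℝ) : C) ≤ 0.01 * (1 / 2) ^ n →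
      0.1 + 0.05 * (1 / 2) ^ n ≤ ‖x‖ ∧ ‖x‖ ≤ 0.1 + 0.07 * (1 / 2) ^ n := fun n x hx => by
    have h1 := (abs_norm_sub_norm_le _ _).trans ((dist_eq_norm _ _).symm.le.trans hx)
    have := p0 n
    have := p1 n
    rw [norm_coe_small (abs_le.2 ⟨by linarith, by linarith⟩), abs_le,
      abs_of_pos (by linarith)] at h1
    constructor <;> linarith [h1.1, h1.2]
  have lt : ∀ (n m : ℕ) (x : C), 0.1 + 0.05 * (1 / 2) ^ n ≤ ‖x‖ → ‖x‖ ≤ 0.1 + 0.07 * (1 / 2) ^ m →
      ¬ n < m := fun n m x h1 h2 h => by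
    have := pow_le_pow_of_le_one (a := (1 / 2 : ℝ)) (by norm_num) (by norm_num)
      (show n + 1 ≤ m by omega)
    rw [pow_succ] at this
    linarith [p0 n]
  refine ⟨fun n => ((0.1 + 0.06 * (1 / 2) ^ n : ℝ) : C), fun n => 0.01 * (1 / 2) ^ n,
    fun n => ⟨by linarith [p0 n], by linarith [p1 n]⟩, fun n x hx => ?_, fun n m x h1 h2 => ?_⟩
  · constructor <;> linarith [(key n x hx).1, (key n x hx).2, p0 n, p1 n]
  · exact le_antisymm (not_lt.1 (lt m n x (key m x h2).1 (key n x h1).2))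
      (not_lt.1 (lt n m x (key n x h1).1 (key m x h2).2))

theorem e0_embeds : ∃ φ : (ℕ → Bool) → DiffInf 2, Continuous φ ∧ (∀ x, AxiomA (φ x).1) ∧
    ∀ x y, {n | x n ≠ y n}.Finite ↔ TopConj (φ x).1 (φ y).1 := by
  obtain ⟨ψ, θ, B, α, β, F0, h, sF, ex⟩ := exists_bas
  obtain ⟨c, r, hr, hsub, hdis⟩ := exists_balls
  have bump : ∀ (c : C) (R : ℝ), 0 < R → R ≤ 1 / 2 → ∃ ρ : C → ℝ,
      ContDiff ℝ ∞ (fun t : ℝ => ρ t) ∧ (∀ x, 0 ≤ ρ x) ∧ (∀ x, ρ x ≤ 1) ∧ ρ c = 1 ∧
        ∀ x, ρ x ≠ 0 ↔ dist x c < R := fun c R h0 h1 => by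
    obtain ⟨ρ, a1, a2, a3, a4, a5⟩ := exists_bump le_rfl h0 h1
    obtain ⟨s, -, rfl, -⟩ := exists_rep c
    refine ⟨fun x => ρ (x - s), ?_, fun x => a2 _, fun x => a3 _, a4 _ (by simp),
      fun x => by rw [a5, dist_eq_norm]⟩
    simp only [← AddCircle.coe_sub]
    exact a1.comp (contDiff_id.sub contDiff_const)
  choose b b1 b2 b3 b4 b5 using fun n => bump (c n) (r n) (hr n).1 (hr n).2
  choose g g1 g2 g3 g4 g5 using fun n => bump (c n) (r n / 2) (half_pos (hr n).1)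
    (by linarith [hr n])
  have vs : ∀ {ρ : C → ℝ}, ContDiff ℝ ∞ (fun t : ℝ => ρ t) →
      ContDiff ℝ ∞ ((fun x : Tor 2 => (![0, ρ (x 0)] : E 2)) ∘ proj) := fun hρ =>
    contDiff_pi.2 fun i => by
      fin_cases i
      · exact contDiff_const
      · exact hρ.comp (contDiff_apply ℝ ℝ 0)
  obtain ⟨κ, hκ, fam⟩ := family_smooth (fun n => vs (b1 n)) (fun n => vs (g1 n))
    (fun k n => bdd_iter (vs (b1 n)) k) (fun k n => bdd_iter (vs (g1 n)) k)
  obtain ⟨η, hη, sep⟩ := exists_eta h (κ := fun j => κ (j / 2)) fun _ => hκ _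
  set q : (ℕ → Bool) → ℕ → ℝ := fun w n => if w n then η (2 * n) - η (2 * n + 1) else 0 with hq
  have q0 : ∀ w n, 0 ≤ q w n ∧ q w n ≤ η (2 * n) := fun w n => by
    have := hη (2 * n)
    have := hη (2 * n + 1)
    simp only [hq]
    split_ifs <;> constructor <;> linarith
  obtain ⟨fs, fc⟩ := fam (fun n => η (2 * n + 1)) q (fun n => by
      have := hη (2 * n + 1)
      rw [show (2 * n + 1) / 2 = n by omega] at this
      rw [abs_of_pos this.1]; exact this.2.2.1)
    (fun w n => by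
      have := (hη (2 * n)).2.2.1
      rw [show 2 * n / 2 = n by omega] at this
      rw [abs_of_nonneg (q0 w n).1]; exact (q0 w n).2.trans this)
    (fun w w' n e => by simp only [hq, e])
  set T : (ℕ → Bool) → ℕ → C → ℝ := fun w n x => η (2 * n + 1) * b n x + q w n * g n x with hT
  have z0 : ∀ n x, r n ≤ dist x (c n) → b n x = 0 ∧ g n x = 0 := fun n x hx =>
    ⟨by_contra fun h => by linarith [(b5 n x).1 h],
      by_contra fun h => by linarith [(g5 n x).1 h, (hr n).1]⟩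
  have z1 : ∀ n x, dist x (c n) ≤ r n → ∀ m, m ≠ n → b m x = 0 ∧ g m x = 0 :=
    fun n x hx m hm => z0 m x (not_lt.1 fun h => hm (hdis m n x h.le hx))
  have z2 : ∀ x, ∃ n, ∀ m, m ≠ n → b m x = 0 ∧ g m x = 0 := fun x => by
    by_cases h : ∃ n, dist x (c n) ≤ r n
    · exact h.imp fun n hn => z1 n x hn
    · exact ⟨0, fun m _ => z0 m x (not_lt.1 fun h' => h ⟨m, h'.le⟩)⟩
  set δ : (ℕ → Bool) → C → ℝ := fun w x => ∑' n, T w n x with hδ
  have d1 : ∀ w n x, (∀ m, m ≠ n → b m x = 0 ∧ g m x = 0) → δ w x = T w n x := fun w n x hx =>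
    tsum_eq_single n fun m hm => by simp [hT, hx m hm]
  have eW : ∀ w, (fun z : E 2 => ∑' n, (η (2 * n + 1) • ((fun x : Tor 2 => (![0, b n (x 0)] : E 2)) ∘
      proj) z + q w n • ((fun x : Tor 2 => (![0, g n (x 0)] : E 2)) ∘ proj) z)) =
      fun z => ![0, δ w (z 0)] := fun w => funext fun z => by
    obtain ⟨n, hn⟩ := z2 (z 0)
    rw [d1 w n _ hn, tsum_eq_single n fun m hm => by
      ext i; fin_cases i <;> simp [proj, hn m hm]]
    ext i; fin_cases i <;> simp [proj, hT]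
  simp only [eW] at fs fc
  have hl : ∀ w, Lens (δ w) c r fun n => η (if w n then 2 * n else 2 * n + 1) := fun w => by
    have ea : ∀ n, η (if w n then 2 * n else 2 * n + 1) = η (2 * n + 1) + q w n := fun n => by
      simp only [hq]; split_ifs <;> ring
    refine ⟨fun n x hx => ?_, fun n => ?_, fun n x hx => ?_, fun x hx => ?_, fun n => (hr n).1,
      hsub, fun n => (hη _).2.1⟩
    · rw [d1 w n x (z1 n x hx.le), ea]
      have h1 := mul_pos (hη (2 * n + 1)).1 ((b2 n x).lt_of_ne' ((b5 n x).2 hx))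
      have h2 := mul_nonneg (q0 w n).1 (g2 n x)
      have h3 := mul_le_of_le_one_right (hη (2 * n + 1)).1.le (b3 n x)
      have h4 := mul_le_of_le_one_right (q0 w n).1 (g3 n x)
      simp only [hT]
      constructor <;> linarith
    · rw [d1 w n _ (z1 n _ (by simpa using (hr n).1.le)), ea]
      simp [hT, b4, g4]
    · rw [d1 w n x (z1 n x hx.le)]
      simp [hT, z0 n x hx.ge]
    · by_contra hc
      push Not at hc
      exact hx (by simp [hδ, hT, fun n => z0 n x (hc n)])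
  have sδ : ∀ w, ContDiff ℝ 1 fun t : ℝ => δ w t := fun w => by
    have : ContDiff ℝ ∞ fun t : ℝ => (![t, 0] : E 2) :=
      contDiff_pi.2 fun i => by fin_cases i; exacts [contDiff_id, contDiff_const]
    exact (((contDiff_apply ℝ ℝ 1).comp ((fs w).comp this))).of_le (le_inf' 1)
  choose f fl fm using fun w => ex (δ w) (sδ w) fun x hx => by
    obtain ⟨n, hn⟩ := (hl w).cov x hx
    exact hsub n x hn.le
  refine ⟨fun w => ⟨f w, (fl w).smooth (sF.add (fs w))⟩, ?_, fun w => (fm w).axiomA h,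
    fun w w' => ⟨fun hf => ?_, fun hc => ?_⟩⟩
  · refine continuous_induced_rng.2 (continuous_iff_continuousAt.2 fun w0 =>
      Tendsto.prodMk_nhds ?_ (tendsto_pi_nhds.2 fun k => ?_))
    · rw [UniformFun.tendsto_iff_tendstoUniformly, Metric.tendstoUniformly_iff]
      intro ε hε
      filter_upwards [Metric.tendstoUniformly_iff.1 (fc 0 w0) ε hε] with w hw x
      obtain ⟨z, rfl⟩ := proj_surj x
      have := hw z
      rw [dist_eq_norm, ← fun_iteratedFDeriv_sub_apply ((fs w0).of_le (le_inf' 0)).contDiffAt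
        ((fs w).of_le (le_inf' 0)).contDiffAt, norm_iteratedFDeriv_zero] at this
      change dist ((f w0).1 (proj z)) ((f w).1 (proj z)) < ε
      rw [← (fl w0).eq, ← (fl w).eq]
      refine (dist_proj_le _ _).trans_lt ?_
      rwa [add_sub_add_left_eq_sub]
    · rw [UniformFun.tendsto_iff_tendstoUniformly, Metric.tendstoUniformly_iff]
      intro ε hε
      filter_upwards [Metric.tendstoUniformly_iff.1 (fc (k + 1) w0) ε hε] with w hw x
      obtain ⟨z, rfl⟩ := proj_surj x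
      change dist (Dk k (f w0) (proj z)) (Dk k (f w) (proj z)) < ε
      rw [(fl w0).Dk_eq, (fl w).Dk_eq,
        fun_iteratedFDeriv_add_apply (sF.of_le (le_inf' _)).contDiffAt
          ((fs w0).of_le (le_inf' _)).contDiffAt,
        fun_iteratedFDeriv_add_apply (sF.of_le (le_inf' _)).contDiffAt
          ((fs w).of_le (le_inf' _)).contDiffAt, dist_add_left]
      exact hw z
  · have lo : ∀ n, ∀ᶠ e in 𝓝[>] (0 : ℝ), ∀ w x, g n x ≠ 0 → e ≤ δ w x := fun n => by
      obtain ⟨y, hy, hm⟩ := (isCompact_closedBall (c n) (r n / 2)).exists_isMinOn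
        ⟨c n, mem_closedBall_self (half_pos (hr n).1).le⟩ (cont_of_lift (b1 n).continuous).continuousOn
      have h1 := mul_pos (hη (2 * n + 1)).1 ((b2 n y).lt_of_ne' ((b5 n y).2
        (by linarith [mem_closedBall.1 hy, (hr n).1])))
      filter_upwards [mem_nhdsWithin_of_mem_nhds (gt_mem_nhds h1)] with e he w x hx
      have h2 := (g5 n x).1 hx
      rw [d1 w n x (z1 n x (by linarith [(hr n).1]))]
      have h3 := mul_le_mul_of_nonneg_left (hm (mem_closedBall.2 h2.le)) (hη (2 * n + 1)).1.le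
      have h4 := mul_nonneg (q0 w n).1 (g2 n x)
      simp only [hT]
      linarith
    obtain ⟨e, he, he0⟩ := (((eventually_all_finite hf).2 fun n _ => lo n).and
      self_mem_nhdsWithin).exists
    have up : ∀ w x, δ w x ≤ 0.4 := fun w x => by
      by_cases h0 : δ w x = 0
      · rw [h0]; norm_num
      · obtain ⟨n, hn⟩ := (hl w).cov x h0
        exact ((hl w).pos n x hn).2.trans ((hl w).le n)
    refine conj_chain h (fun δ h1 h2 => (ex δ h1 h2).imp fun _ h => h.2) (fm w) (fm w') (sδ w)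
      (sδ w') he0 fun x hx => ?_
    obtain ⟨n, hn⟩ := z2 x
    rw [d1 w n x hn, d1 w' n x hn] at hx
    have h1 : w n ≠ w' n := fun e => hx (by simp only [hT, hq, e])
    have h2 : g n x ≠ 0 := fun e => hx (by simp [hT, e])
    exact ⟨⟨he n h1 w x h2, up w x⟩, he n h1 w' x h2, up w' x⟩
  · obtain ⟨N, hN⟩ := lens_cmp h (fm w) (fm w') (hl w) (hl w') hc
    refine (finite_le_nat N).subset fun n hn => (not_lt.1 fun hlt => hn ?_ : n ≤ N)
    obtain ⟨k, h1, h2⟩ := hN n
    have := sep N _ _ (by split_ifs <;> omega) h1 h2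
    cases e : w n <;> cases e' : w' k <;> simp only [e, e', if_true, Bool.false_eq_true,
      if_false] at this
    · rw [show n = k by omega, e']
    · omega
    · omega
    · rw [show n = k by omega, e']

end Pool.Agent.H581Z
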