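import Pool.Agent.H581Z.NS
import Pool.Agent.H581Z.Dyn
import Pool.Agent.H581Z.Dense

open Set Filter Topology Metric

noncomputable section

namespace Pool.Agent.H581Z

theorem omega_iff {d : ℕ} (f : Diff1 d) (x : Tor d) : f.1 x ∈ Omega f ↔ x ∈ Omega f :=
  ⟨fun h => by simpa using omega_zpow h (-1), fun h => by simpa using omega_zpow h 1⟩

theorem half_ne_zero : ((1 / 2 : ℝ) : UnitAddCircle) ≠ 0 := fun h => by
  have := coe_inj_of_lt (s := 1 / 2) (t := 0) h (by norm_num [abs_of_pos])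
  norm_num at this

theorem neg_half : ((-(1 / 2) : ℝ) : UnitAddCircle) = ((1 / 2 : ℝ) : UnitAddCircle) := by
  have : (-(1 / 2) : ℝ) = 1 / 2 + ((-1 : ℤ) : ℝ) := by norm_num
  rw [this, AddCircle.coe_add, coe_int, add_zero]

theorem Step.half {Ψ : ℝ → ℝ} {a b α β : ℝ} (h : Step Ψ a b α β) (hb : 0 ≤ b) :
    Ψ (1 / 2) = 1 / 2 := by simpa using h.lin1 0 (by simpa using hb)

theorem Step.norm_lt {Ψ : ℝ → ℝ} {a b α β : ℝ} (h : Step Ψ a b α β) (hb : 0 ≤ b) (hα : α < 1)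
    (hβ : 1 < β) (hη : 1 / 2 - β * b < a) (t : ℝ) :
    ‖(Ψ t : UnitAddCircle)‖ ≤ ‖(t : UnitAddCircle)‖ ∧
      ((t : UnitAddCircle) ≠ 0 → (t : UnitAddCircle) ≠ ((1 / 2 : ℝ) : UnitAddCircle) →
        ‖(Ψ t : UnitAddCircle)‖ < ‖(t : UnitAddCircle)‖) := by
  have key : ∀ s, 0 < s → s < 1 / 2 → |Ψ s| < s := fun s h0 h1 => by
    rw [abs_of_nonneg (by rw [← h.zero]; exact h.mono h0.le)]
    by_cases h2 : s ≤ a
    · rw [h.lin0 s (by rwa [abs_of_pos h0])]; nlinarith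
    · by_cases h3 : s ≤ 1 / 2 - b
      · have := h.small hb (t := s) (by rwa [abs_of_pos h0])
        linarith [le_abs_self (Ψ s)]
      · have := h.lin1 (s - 1 / 2) (by rw [abs_of_neg (by linarith)]; linarith)
        rw [add_sub_cancel] at this
        rw [this]; nlinarith
  set s := t - round t with hs
  have e1 : (s : UnitAddCircle) = t := by rw [hs, AddCircle.coe_sub, coe_int, sub_zero]
  have e2 : (Ψ s : UnitAddCircle) = Ψ t := coe_congr h.add_int e1
  have e3 : ‖(t : UnitAddCircle)‖ = |s| := UnitAddCircle.norm_eq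
  have e4 : ‖(Ψ t : UnitAddCircle)‖ ≤ |Ψ s| := by
    rw [← e2]; exact QuotientAddGroup.norm_mk_le_norm
  have e5 : |s| ≤ 1 / 2 := abs_sub_round t
  have e6 : |Ψ s| = |Ψ (|s|)| := by
    rcases abs_choice s with h1 | h1
    · rw [h1]
    · rw [h1, h.neg, abs_neg]
  have strict : (t : UnitAddCircle) ≠ 0 → (t : UnitAddCircle) ≠ ((1 / 2 : ℝ) : UnitAddCircle) →
      ‖(Ψ t : UnitAddCircle)‖ < ‖(t : UnitAddCircle)‖ := fun h0 h1 => by
    rw [e3]
    refine e4.trans_lt ?_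
    rw [e6]
    refine key _ (abs_pos.2 fun h2 => h0 ?_) (lt_of_le_of_ne e5 fun h2 => h1 ?_)
    · rw [← e1, h2]; rfl
    · rw [← e1]
      rcases abs_eq (by norm_num : (0 : ℝ) ≤ 1 / 2) |>.1 h2 with h3 | h3
      · rw [h3]
      · rw [h3, neg_half]
  refine ⟨?_, strict⟩
  by_cases h0 : (t : UnitAddCircle) = 0
  · have : (Ψ t : UnitAddCircle) = Ψ 0 := coe_congr h.add_int h0
    rw [this, h.zero, h0]; rfl
  · by_cases h1 : (t : UnitAddCircle) = ((1 / 2 : ℝ) : UnitAddCircle)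
    · have : (Ψ t : UnitAddCircle) = Ψ (1 / 2) := coe_congr h.add_int h1
      rw [this, h.half hb, h1]
    · exact (strict h0 h1).le

theorem Step.coord {d : ℕ} {Ψ : ℝ → ℝ} {a b α β : ℝ} (h : Step Ψ a b α β) (z : E d) (i : Fin d) :
    HasFDerivAt (fun z : E d => Ψ (z i))
      (deriv Ψ (z i) • (ContinuousLinearMap.proj i : E d →L[ℝ] ℝ)) z :=
  HasDerivAt.comp_hasFDerivAt (h₂ := Ψ) (f := fun z : E d => z i) z (h.hasDerivAt (z i))
    (hasFDerivAt_apply i z)

def mon3 (r s t : ℝ) : E 3 →L[ℝ] E 3 :=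
  ContinuousLinearMap.pi ![r • ContinuousLinearMap.proj 0, s • ContinuousLinearMap.proj 2,
    t • ContinuousLinearMap.proj 1]

theorem mon3_ap (r s t : ℝ) (v : E 3) : mon3 r s t v = ![r * v 0, s * v 2, t * v 1] := by
  ext i; fin_cases i <;> simp [mon3]

theorem norm_mon3 {r s t μ : ℝ} (h0 : 0 ≤ μ) (hr : |r| ≤ μ) (hs : |s| ≤ μ) (ht : |t| ≤ μ) :
    ‖mon3 r s t‖ ≤ μ := by
  refine ContinuousLinearMap.opNorm_le_bound _ h0 fun v => ?_
  refine (pi_norm_le_iff_of_nonneg (by positivity)).2 fun i => ?_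
  rw [mon3_ap]
  fin_cases i
  · simpa [abs_mul] using mul_le_mul hr (norm_le_pi_norm v 0) (norm_nonneg _) h0
  · simpa [abs_mul] using mul_le_mul hs (norm_le_pi_norm v 2) (norm_nonneg _) h0
  · simpa [abs_mul] using mul_le_mul ht (norm_le_pi_norm v 1) (norm_nonneg _) h0

theorem spec_mon3 {l1 l2 s t : ℝ} (h2 : 0 < l2) (h21 : l2 < l1) (h1 : l1 < 1)
    (hst : s * t = -l2 ^ 2) : ∀ᶠ A in 𝓝 (mon3 l1 s t), Spec A := by
  refine spec_three h2 h21 h1 ?_ ?_ ?_
  · simp [tr3, ent, mon3_ap]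
  · simp [sg3, ent, mon3_ap, hst]
  · simp [dt3, ent, mon3_ap, hst]

/-- vectors supported on the coordinates in `I` -/
def coordSub {d : ℕ} (I : Set (Fin d)) : Submodule ℝ (E d) := Submodule.pi Iᶜ fun _ => ⊥

theorem mem_coordSub {d : ℕ} {I : Set (Fin d)} {v : E d} : v ∈ coordSub I ↔ ∀ i, i ∉ I → v i = 0 := by
  simp [coordSub, Submodule.mem_pi]

theorem isCompl_coordSub {d : ℕ} (I : Set (Fin d)) : IsCompl (coordSub I) (coordSub Iᶜ) := by
  classical
  refine ⟨Submodule.disjoint_def.2 fun v h1 h2 => ?_, codisjoint_iff.2 ?_⟩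
  · funext i
    by_cases h : i ∈ I
    · exact mem_coordSub.1 h2 i (fun h' => h' h)
    · exact mem_coordSub.1 h1 i h
  · rw [eq_top_iff]
    intro v _
    refine Submodule.mem_sup.2 ⟨fun i => if i ∈ I then v i else 0, mem_coordSub.2 fun i hi => by
      simp [hi], fun i => if i ∈ I then 0 else v i, mem_coordSub.2 fun i hi => by
      simp [not_not.1 hi], ?_⟩
    funext i
    by_cases h : i ∈ I <;> simp [h]

theorem example3 : ∃ f0 : Diff1 3, AxiomA f0 ∧ NoCycles f0 ∧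
    ∀ᶠ f in 𝓝 f0, f ∈ closure {g | ¬ TrivCent g} := by
  obtain ⟨Ψ, β, hβ0, hΨ⟩ := exists_step (a := 0.449) (b := 0.05) (α0 := 1 / 1000) (by norm_num)
    (by norm_num) (by norm_num) (by norm_num) (by norm_num)
  obtain ⟨Ψ1, β1, hβ10, hΨ1⟩ := exists_step (a := 0.399) (b := 0.1) (α0 := 1 / 100) (by norm_num)
    (by norm_num) (by norm_num) (by norm_num) (by norm_num)
  have b1 : β ≤ 10 := by linarith [hΨ.up]
  have b2 : 9 ≤ β := by linarith [hΨ.low]
  have b3 : β1 ≤ 5 := by linarith [hΨ1.up]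
  have b4 : 4.5 ≤ β1 := by linarith [hΨ1.low]
  obtain ⟨Θ, hΘ, hΘ1, hΘ2⟩ := hΨ.exists_inv (by positivity)
  obtain ⟨Θ1, hΘ', hΘ1', hΘ2'⟩ := hΨ1.exists_inv (by positivity)
  have cΨ := hΨ.cd
  have cΨ1 := hΨ1.cd
  obtain ⟨f, hF, -⟩ := exists_diff_of_lift (d := 3)
    (F := fun z => ![Ψ1 (z 0), -Ψ (z 2), Ψ (z 1)]) (G := fun z => ![Θ1 (z 0), Θ (z 2), Θ (-z 1)])
    (contDiff_pi.2 fun i => by fin_cases i <;> simp <;> fun_prop)
    (contDiff_pi.2 fun i => by fin_cases i <;> simp <;> fun_prop)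
    (fun z => by ext i; fin_cases i <;> simp [hΘ1, hΘ1'])
    (fun z => by ext i; fin_cases i <;> simp [hΘ2, hΘ2'])
    (fun z z' h => by
      ext i
      fin_cases i
      · exact coe_congr hΨ1.add_int (congrFun h 0)
      · simpa [proj] using coe_congr hΨ.add_int (congrFun h 2)
      · exact coe_congr hΨ.add_int (congrFun h 1))
    (fun z z' h => by
      ext i
      fin_cases i
      · exact coe_congr (inv_add_int hΨ1.add_int hΘ1' hΘ2') (congrFun h 0)
      · exact coe_congr (inv_add_int hΨ.add_int hΘ1 hΘ2) (congrFun h 2)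
      · refine coe_congr (inv_add_int hΨ.add_int hΘ1 hΘ2) ?_
        simpa [proj] using congrFun h 1)
  have hf : ∀ z, f.1 (proj z) = proj ![Ψ1 (z 0), -Ψ (z 2), Ψ (z 1)] := fun z => (hF.eq z).symm
  have hD : ∀ z, D f (proj z) = mon3 (deriv Ψ1 (z 0)) (-deriv Ψ (z 2)) (deriv Ψ (z 1)) := by
    intro z
    refine (hF.hasFDerivAt z).unique (hasFDerivAt_pi.2 fun i => ?_)
    fin_cases i
    · exact hΨ1.coord z 0
    · exact (hΨ.coord z 2).neg.congr_fderiv (neg_smul _ _).symm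
    · exact hΨ.coord z 1
  have n0 := hΨ.norm_lt (by norm_num) (by linarith) (by linarith) (by linarith)
  have n1 := hΨ1.norm_lt (by norm_num) (by linarith) (by linarith) (by linarith)
  set L : Tor 3 → ℝ := fun x => ‖x 0‖ + ‖x 1‖ + ‖x 2‖ with hL
  have hLc : Continuous L := by simp only [hL]; fun_prop
  have hLf : ∀ z, L (f.1 (proj z)) = ‖(Ψ1 (z 0) : UnitAddCircle)‖ + ‖(Ψ (z 1) : UnitAddCircle)‖ +
      ‖(Ψ (z 2) : UnitAddCircle)‖ := fun z => by
    rw [hf]; simp [hL, proj]; ring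
  have hL1 : ∀ x, L (f.1 x) ≤ L x := fun x => by
    obtain ⟨z, rfl⟩ := proj_surj x
    rw [hLf]
    exact add_le_add (add_le_add (n1 _).1 (n0 _).1) (n0 _).1
  set S : Set (Tor 3) := {x | ∀ i, x i = 0 ∨ x i = ((1 / 2 : ℝ) : UnitAddCircle)} with hS
  have hL2 : ∀ x, x ∉ S → L (f.1 x) < L x := fun x hx => by
    obtain ⟨z, rfl⟩ := proj_surj x
    rw [hLf]
    simp only [hS, mem_setOf_eq, not_forall, not_or] at hx
    obtain ⟨i, h1, h2⟩ := hx
    fin_cases i
    · exact add_lt_add_of_lt_of_le (add_lt_add_of_lt_of_le ((n1 _).2 h1 h2) (n0 _).1) (n0 _).1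
    · exact add_lt_add_of_lt_of_le (add_lt_add_of_le_of_lt (n1 _).1 ((n0 _).2 h1 h2)) (n0 _).1
    · exact add_lt_add_of_le_of_lt (add_le_add (n1 _).1 (n0 _).1) ((n0 _).2 h1 h2)
  have hSz : ∀ x ∈ S, ∃ z, proj z = x ∧ ∀ i, (x i = 0 ∧ z i = 0) ∨ (x i ≠ 0 ∧ z i = 1 / 2) := by
    intro x hx
    classical
    refine ⟨fun i => if x i = 0 then 0 else 1 / 2, ?_, fun i => ?_⟩
    · funext i
      by_cases h : x i = 0
      · simp [proj, h]
      · simp only [proj, h, if_false]; exact ((hx i).resolve_left h).symm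
    · by_cases h : x i = 0 <;> simp [h]
  have hfS : ∀ x ∈ S, f.1 x = ![x 0, x 2, x 1] := fun x hx => by
    obtain ⟨z, rfl, hz⟩ := hSz x hx
    have e0 : ∀ i, Ψ (z i) = z i := fun i => by
      rcases hz i with h | h
      · rw [h.2, hΨ.zero]
      · rw [h.2, hΨ.half (by norm_num)]
    have e1 : ∀ i, Ψ1 (z i) = z i := fun i => by
      rcases hz i with h | h
      · rw [h.2, hΨ1.zero]
      · rw [h.2, hΨ1.half (by norm_num)]
    rw [hf, e0, e0, e1]
    ext i
    fin_cases i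
    · rfl
    · change ((-z 2 : ℝ) : UnitAddCircle) = (z 2 : UnitAddCircle)
      rcases hz 2 with h | h
      · rw [h.2, neg_zero]
      · rw [h.2, neg_half]
    · rfl
  have hper : S ⊆ Function.periodicPts f.1 := fun x hx => by
    refine ⟨2, by norm_num, ?_⟩
    have h1 : f.1 x ∈ S := by
      rw [hfS x hx]
      intro i
      fin_cases i
      exacts [hx 0, hx 2, hx 1]
    change f.1 (f.1 x) = x
    rw [hfS _ h1, hfS x hx]
    ext i; fin_cases i <;> rfl
  have hOS : Omega f ⊆ S := fun x hx => by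
    by_contra h
    exact lyap_wander hLc hL1 (hL2 x h) hx
  have hDS : ∀ x ∈ S, ∃ r : Fin 3 → ℝ, D f x = mon3 (r 0) (-r 2) (r 1) ∧
      ∀ i, (x i = 0 ∧ 0 < r i ∧ r i ≤ 1 / 4) ∨ (x i ≠ 0 ∧ 4 ≤ r i) := fun x hx => by
    obtain ⟨z, rfl, hz⟩ := hSz x hx
    refine ⟨![deriv Ψ1 (z 0), deriv Ψ (z 1), deriv Ψ (z 2)], hD z, fun i => ?_⟩
    have e0 : ∀ i, (proj z i = 0 ∧ 0 < deriv Ψ (z i) ∧ deriv Ψ (z i) ≤ 1 / 4) ∨
        (proj z i ≠ 0 ∧ 4 ≤ deriv Ψ (z i)) := fun i => by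
      rcases hz i with h | h
      · left; rw [h.2, hΨ.deriv0 (by norm_num)]; exact ⟨h.1, by linarith, by linarith⟩
      · right; rw [h.2, hΨ.deriv1 (by norm_num)]; exact ⟨h.1, by linarith⟩
    fin_cases i
    · rcases hz 0 with h | h
      · left
        change _ ∧ 0 < deriv Ψ1 (z 0) ∧ deriv Ψ1 (z 0) ≤ 1 / 4
        rw [h.2, hΨ1.deriv0 (by norm_num)]; exact ⟨h.1, by linarith, by linarith⟩
      · right
        change _ ∧ 4 ≤ deriv Ψ1 (z 0)
        rw [h.2, hΨ1.deriv1 (by norm_num)]; exact ⟨h.1, by linarith⟩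
    · exact e0 1
    · exact e0 2
  have hiff : ∀ x ∈ S, ∀ (P : UnitAddCircle → Prop) (v : E 3),
      D f x v ∈ coordSub {i | P (f.1 x i)} ↔ v ∈ coordSub {i | P (x i)} := fun x hx P v => by
    obtain ⟨r, hr, hr'⟩ := hDS x hx
    have h0 : ∀ i, r i ≠ 0 := fun i => by
      rcases hr' i with h | h
      · exact h.2.1.ne'
      · linarith [h.2]
    rw [hr, mon3_ap, hfS x hx, mem_coordSub, mem_coordSub]
    simp only [Fin.forall_fin_succ, mem_setOf_eq]
    simp [h0]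
    tauto
  refine ⟨f, ⟨hyp_of_one_step (fun x => coordSub {i | x i = 0}) (fun x => coordSub {i | x i ≠ 0})
    (μ := 1 / 4) (by norm_num) (by norm_num) (omega_iff f) (fun x _ => isCompl_coordSub _)
    (fun x hx => hiff x (hOS hx) (fun t => t = 0)) (fun x hx => hiff x (hOS hx) (fun t => t ≠ 0))
    (fun x hx v hv => ?_) (fun x hx v hv => ?_), fun x hx => subset_closure (hper (hOS hx))⟩,
    lyap_noCycles hLc hL1 fun x hx => hL2 x fun h => hx (per_subset_omega f (hper h)), ?_⟩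
  · obtain ⟨r, hr, hr'⟩ := hDS x (hOS hx)
    have key : ∀ i, |r i * v i| ≤ 1 / 4 * ‖v‖ := fun i => by
      rcases hr' i with h | h
      · rw [abs_mul, abs_of_pos h.2.1]
        exact mul_le_mul h.2.2 (norm_le_pi_norm v i) (abs_nonneg _) (by norm_num)
      · rw [mem_coordSub.1 hv i h.1]; simp
    rw [hr, mon3_ap]
    refine (pi_norm_le_iff_of_nonneg (by positivity)).2 fun i => ?_
    fin_cases i
    · exact key 0
    · simpa using key 2
    · exact key 1
  · obtain ⟨r, hr, hr'⟩ := hDS x (hOS hx)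
    have key : ∀ i, |v i| ≤ 1 / 4 * |r i * v i| := fun i => by
      rcases hr' i with h | h
      · rw [mem_coordSub.1 hv i (not_not.2 h.1)]; simp
      · rw [abs_mul, abs_of_pos (by linarith [h.2] : 0 < r i)]
        nlinarith [abs_nonneg (v i), h.2]
    rw [hr]
    refine (pi_norm_le_iff_of_nonneg (by positivity)).2 fun i => (key i).trans ?_
    refine mul_le_mul_of_nonneg_left ?_ (by norm_num)
    fin_cases i
    · simpa [mon3_ap] using norm_le_pi_norm (mon3 (r 0) (-r 2) (r 1) v) 0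
    · simpa [mon3_ap] using norm_le_pi_norm (mon3 (r 0) (-r 2) (r 1) v) 2
    · simpa [mon3_ap] using norm_le_pi_norm (mon3 (r 0) (-r 2) (r 1) v) 1
  · have hco : ∀ (z q : E 3) (a : ℝ), ‖z - q‖ ≤ a → ∀ i, |z i - q i| ≤ a := fun z q a h i =>
      (norm_le_pi_norm (z - q) i).trans h
    have hb : ∀ z : E 3, ‖z - fun _ => 1 / 2‖ ≤ 0.13 → (f⁻¹).1 (proj z) =
        proj ((fun _ => 1 / 2) + mon3 β1⁻¹ β⁻¹ (-β⁻¹) (z - fun _ => 1 / 2)) := fun z hz => by
      have h1 := hco _ _ _ hz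
      have h2 : ∀ {γ : ℝ} (i : Fin 3), 4.5 ≤ γ → |γ⁻¹ * (z i - 1 / 2)| ≤ 0.05 := fun {γ} i hγ => by
        rw [abs_mul, abs_of_pos (by positivity), inv_mul_le_iff₀ (by linarith)]
        linarith [h1 i]
      rw [eq_comm, ← Equiv.apply_eq_iff_eq f.1, ap_inv, hf, mon3_ap]
      ext i
      fin_cases i
      · have := hΨ1.lin1 _ ((h2 0 b4).trans (by norm_num))
        simp only [proj, Fin.zero_eta, Matrix.cons_val_zero, Pi.add_apply, Pi.sub_apply, this]
        congr 1; field_simp; ring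
      · have := hΨ.lin1 (-β⁻¹ * (z 1 - 1 / 2)) (by rw [neg_mul, abs_neg]; exact h2 1 (by linarith))
        change ((-Ψ (1 / 2 + -β⁻¹ * (z 1 - 1 / 2)) : ℝ) : UnitAddCircle) = (z 1 : ℝ)
        rw [this, show -(1 / 2 + β * (-β⁻¹ * (z 1 - 1 / 2))) = z 1 + ((-1 : ℤ) : ℝ) by
          field_simp; ring, AddCircle.coe_add, coe_int, add_zero]
      · have := hΨ.lin1 _ (h2 2 (γ := β) (by linarith))
        change ((Ψ (1 / 2 + β⁻¹ * (z 2 - 1 / 2)) : ℝ) : UnitAddCircle) = (z 2 : ℝ)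
        rw [this]
        congr 1; field_simp; ring
    have i1 : β⁻¹ < β1⁻¹ := inv_strictAnti₀ hβ10 (by linarith)
    have i2 : β1⁻¹ ≤ 1 / 4 := by rw [inv_le_comm₀ hβ10 (by norm_num)]; linarith
    have i3 : 0 < β⁻¹ := by positivity
    refine locally_dense (p0 := fun _ => 1 / 2) (q0 := 0) (c := fun _ => 1 / 4) (a := 0.12)
      (rob_eventually (z0 := fun _ => 0.39)
        (z1 := ![1 / 100 * β1 * 0.39, -(1 / 1000 * β * 0.39), 1 / 1000 * β * 0.39])
        (sink_eventually (A0 := mon3 (1 / 100 * β1) (-(1 / 1000 * β)) (1 / 1000 * β))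
          (by norm_num) ?_ (fun z hz => ?_) ?_
          (spec_mon3 (l2 := 1 / 1000 * β) (by positivity) (by linarith) (by linarith) (by ring)))
        (sink_eventually (A0 := mon3 β1⁻¹ β⁻¹ (-β⁻¹)) (by norm_num) ?_
          (fun z hz => D_of_affine hb (hz.trans_lt (by norm_num))) ?_
          (spec_mon3 (l2 := β⁻¹) i3 i1 (by linarith) (by ring))) ?_ ?_ ?_)
      (by norm_num) ?_ ?_ ?_
    · rw [hf]; simp only [Pi.zero_apply, hΨ.zero, hΨ1.zero, neg_zero]
      congr 1; ext i; fin_cases i <;> rfl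
    · have h1 := hco _ _ _ hz
      simp only [Pi.zero_apply, sub_zero] at h1
      rw [hD, hΨ1.deriv0 ((h1 0).trans_lt (by norm_num)), hΨ.deriv0 ((h1 1).trans_lt (by norm_num)),
        hΨ.deriv0 ((h1 2).trans_lt (by norm_num))]
    · refine (norm_mon3 (μ := 1 / 4) (by norm_num) ?_ ?_ ?_).trans_lt (by norm_num)
      · rw [abs_of_pos (by positivity)]; linarith
      · rw [abs_neg, abs_of_pos (by positivity)]; linarith
      · rw [abs_of_pos (by positivity)]; linarith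
    · simpa using hb (fun _ => 1 / 2) (by norm_num)
    · refine (norm_mon3 (μ := 1 / 4) (by norm_num) ?_ ?_ ?_).trans_lt (by norm_num)
      · rw [abs_of_pos (by positivity)]; linarith
      · rw [abs_of_pos (by positivity)]; linarith
      · rw [abs_neg, abs_of_pos (by positivity)]; linarith
    · refine (pi_norm_lt_iff (by norm_num)).2 fun i => ?_
      norm_num [abs_lt]
    · rw [sub_zero]
      refine (pi_norm_lt_iff (by norm_num)).2 fun i => ?_
      fin_cases i <;> simp [abs_of_pos hβ0, abs_of_pos hβ10] <;> norm_num [abs_of_pos] <;> linarith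
    · rw [hf, hΨ.lin0 _ (by norm_num [abs_le]), hΨ1.lin0 _ (by norm_num [abs_le])]
    · have : ((fun _ => 1 / 2 : E 3) - fun _ => 1 / 4) = fun _ => 1 / 4 := by ext; norm_num
      rw [this, pi_norm_const]; norm_num
    · rw [zero_sub, norm_neg, pi_norm_const]; norm_num
    · rw [sub_zero, pi_norm_const]; norm_num

end Pool.Agent.H581Z
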