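import Pool.Agent.H581Z.Spec

open Set Filter Topology Metric

noncomputable section

namespace Pool.Agent.H581Z

theorem decay_window {δ : ℤ → ℝ} {M κ : ℝ} (hκ : 0 ≤ κ) (hM : ∀ j, δ j ≤ M) (k : ℕ) (j : ℤ)
    (h : ∀ i, |i - j| < k → ∀ M', δ (i - 1) ≤ M' → δ i ≤ M' → δ (i + 1) ≤ M' → δ i ≤ M' / 8 + κ) :
    δ j ≤ (1 / 8) ^ k * M + 8 / 7 * κ := by
  induction k generalizing j with
  | zero => simp only [pow_zero, one_mul]; linarith [hM j]
  | succ k ih =>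
    have a := fun j' (hj : |j' - j| ≤ 1) => ih j' fun i hi => h i (by
      have := abs_add_le (i - j') (j' - j)
      rw [sub_add_sub_cancel] at this
      push_cast; linarith)
    have := h j (by simp) _ (a (j - 1) (by simp)) (a j (by simp)) (a (j + 1) (by simp))
    rw [pow_succ]; linarith

theorem decay_all {δ : ℤ → ℝ} {M κ : ℝ} (hκ : 0 ≤ κ) (hM : ∀ j, δ j ≤ M)
    (h : ∀ i M', δ (i - 1) ≤ M' → δ i ≤ M' → δ (i + 1) ≤ M' → δ i ≤ M' / 8 + κ) (j : ℤ) :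
    δ j ≤ 8 / 7 * κ := by
  have h1 : Tendsto (fun k : ℕ => (1 / 8 : ℝ) ^ k * M + 8 / 7 * κ) atTop (𝓝 (0 * M + 8 / 7 * κ)) :=
    ((tendsto_pow_atTop_nhds_zero_of_lt_one (by norm_num) (by norm_num)).mul_const M).add_const _
  rw [zero_mul, zero_add] at h1
  exact ge_of_tendsto' h1 fun k => decay_window hκ hM k j fun i _ => h i

theorem decay_half {δ : ℕ → ℝ} {M : ℝ} (h0 : ∀ j, 0 ≤ δ j) (hM : ∀ j, δ j ≤ M)
    (h : ∀ i M', δ i ≤ M' → δ (i + 1) ≤ M' → δ (i + 2) ≤ M' → δ (i + 1) ≤ M' / 8) (n : ℕ) :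
    δ n ≤ (1 / 8) ^ n * δ 0 := by
  have key : ∀ n j, δ (n + j) ≤ δ n := fun n j => by
    have h1 : ∀ k : ℕ, ∀ j, δ (n + j) ≤ δ n + (1 / 8) ^ k * M := fun k => by
      induction k with
      | zero => intro j; simp only [pow_zero, one_mul]; linarith [hM (n + j), h0 n]
      | succ k ih =>
        intro j
        have hM0 : 0 ≤ (1 / 8 : ℝ) ^ (k + 1) * M := mul_nonneg (by positivity) ((h0 0).trans (hM 0))
        cases j with
        | zero => simpa using hM0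
        | succ j =>
          have := h (n + j) _ (ih j) (ih (j + 1)) (ih (j + 2))
          rw [pow_succ, ← add_assoc]; linarith [h0 n]
    have h2 : Tendsto (fun k : ℕ => δ n + (1 / 8 : ℝ) ^ k * M) atTop (𝓝 (δ n + 0 * M)) :=
      ((tendsto_pow_atTop_nhds_zero_of_lt_one (by norm_num) (by norm_num)).mul_const M).const_add _
    rw [zero_mul, add_zero] at h2
    exact ge_of_tendsto' h2 fun k => h1 k j
  induction n with
  | zero => simp
  | succ n ih =>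
    have := h n _ (key n 0) (key n 1) (key n 2)
    rw [pow_succ]; linarith

def mat2 (a b c e : ℝ) : E 2 →L[ℝ] E 2 :=
  ContinuousLinearMap.pi ![a • ContinuousLinearMap.proj 0 + b • ContinuousLinearMap.proj 1,
    c • ContinuousLinearMap.proj 0 + e • ContinuousLinearMap.proj 1]

theorem mat2_ap (a b c e : ℝ) (v : E 2) :
    mat2 a b c e v = ![a * v 0 + b * v 1, c * v 0 + e * v 1] := by
  ext i; fin_cases i <;> simp [mat2]

theorem norm_two_le {v : E 2} {M : ℝ} (h0 : |v 0| ≤ M) (h1 : |v 1| ≤ M) : ‖v‖ ≤ M :=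
  (pi_norm_le_iff_of_nonneg ((abs_nonneg _).trans h0)).2 fun i => by
    fin_cases i
    exacts [h0, h1]

theorem abs_co {v : E 2} {M : ℝ} (h : ‖v‖ ≤ M) (i : Fin 2) : -M ≤ v i ∧ v i ≤ M :=
  abs_le.1 ((norm_le_pi_norm v i).trans h)

/-- The three rectangles. -/
inductive St : Type
  | I | R | A
  deriving DecidableEq

def adm (s s' : St) : Prop := s' = St.A ↔ s = St.R

def ctr : St → E 2
  | St.I => ![0, 1 / 4]
  | St.R => ![0, 1 / 2]
  | St.A => ![1 / 2, 0]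

def off (α : ℝ) : St → E 2
  | St.I => ![α / 4, 1 / 2]
  | St.R => ![1 / 2, 0]
  | St.A => ![0, 1 / 2]

def Dm (α β γ : ℝ) : St → E 2 →L[ℝ] E 2
  | St.I => mat2 0 α (-α) γ
  | St.R => mat2 0 β (-α) 0
  | St.A => mat2 0 α (-β) 0

structure Par (α β γ : ℝ) : Prop where
  a0 : 0 < α
  a1 : α ≤ 1 / 100
  b0 : 9 ≤ β
  b1 : β ≤ 10
  c0 : 9 ≤ γ
  c1 : γ ≤ 10

def Tl (α β γ : ℝ) : St → E 2 → E 2 → E 2 → E 2 → E 2 → E 2
  | St.I, V0, V1, V2, r0, r1 => ![α * V0 1 + r0 0, (V2 1 + α * V1 0 - r1 1) / γ]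
  | St.R, V0, _, V2, r0, r1 => ![α * V0 1 + r0 0, (V2 0 - r1 0) / β]
  | St.A, V0, _, V2, r0, r1 => ![-(V2 1 - r1 1) / β, -α * V0 0 + r0 1]

variable {α β γ : ℝ}

theorem small_mul (h : Par α β γ) {x M : ℝ} (hx : -M ≤ x ∧ x ≤ M) :
    -(M / 100) ≤ α * x ∧ α * x ≤ M / 100 := by
  have := h.a0
  have := h.a1
  constructor <;> nlinarith [hx.1, hx.2]

theorem abs_div_le {x b M : ℝ} (hb : 9 ≤ b) (h1 : -(9 * M) ≤ x) (h2 : x ≤ 9 * M) :
    |x / b| ≤ M := by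
  rw [abs_div, abs_of_pos (by linarith : 0 < b), div_le_iff₀ (by linarith)]
  have : |x| ≤ 9 * M := abs_le.2 ⟨h1, h2⟩
  nlinarith [abs_nonneg x]

theorem Tl_bound (h : Par α β γ) (s : St) {V0 V1 V2 r0 r1 : E 2} {M κ : ℝ} (h0 : ‖V0‖ ≤ M)
    (h1 : ‖V1‖ ≤ M) (h2 : ‖V2‖ ≤ M) (k0 : s ≠ St.A → |r0 0| ≤ κ) (k1 : s = St.A → |r0 1| ≤ κ)
    (k2 : ‖r1‖ ≤ 9 * κ) : ‖Tl α β γ s V0 V1 V2 r0 r1‖ ≤ M / 8 + κ := by
  have hM : 0 ≤ M := (norm_nonneg _).trans h0
  have a00 := small_mul h (abs_co h0 0)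
  have a01 := small_mul h (abs_co h0 1)
  have a10 := small_mul h (abs_co h1 0)
  have a20 := abs_co h2 0
  have a21 := abs_co h2 1
  have c0 := abs_co k2 0
  have c1 := abs_co k2 1
  cases s with
  | I =>
    have := abs_le.1 (k0 (by simp))
    refine norm_two_le (abs_le.2 ⟨?_, ?_⟩) (abs_div_le h.c0 ?_ ?_) <;>
      (try simp only [Tl, Matrix.cons_val_zero]) <;> linarith
  | R =>
    have := abs_le.1 (k0 (by simp))
    refine norm_two_le (abs_le.2 ⟨?_, ?_⟩) (abs_div_le h.b0 ?_ ?_) <;>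
      (try simp only [Tl, Matrix.cons_val_zero]) <;> linarith
  | A =>
    have := abs_le.1 (k1 rfl)
    refine norm_two_le (abs_div_le h.b0 ?_ ?_) (abs_le.2 ⟨?_, ?_⟩) <;>
      (try simp only [Tl, Matrix.cons_val_one, Matrix.cons_val_zero]) <;> linarith

theorem Tl_sub (s : St) (V0 V1 V2 W0 W1 W2 r0 r1 : E 2) :
    Tl α β γ s V0 V1 V2 r0 r1 - Tl α β γ s W0 W1 W2 r0 r1 =
      Tl α β γ s (V0 - W0) (V1 - W1) (V2 - W2) 0 0 := by
  cases s <;> ext i <;> fin_cases i <;> simp [Tl] <;> ring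

theorem Tl_of_rec (h : Par α β γ) {s0 s1 : St} (h01 : adm s0 s1) {V0 V1 V2 r0 r1 : E 2}
    (e1 : V1 = Dm α β γ s0 V0 + r0) (e2 : V2 = Dm α β γ s1 V1 + r1) :
    V1 = Tl α β γ s1 V0 V1 V2 r0 r1 := by
  have hb : β ≠ 0 := by linarith [h.b0]
  have hc : γ ≠ 0 := by linarith [h.c0]
  have a0 := congrFun e1 0
  have a1 := congrFun e1 1
  have b0 := congrFun e2 0
  have b1 := congrFun e2 1
  cases s0 <;> cases s1 <;> simp [adm] at h01 <;> simp [Dm, mat2_ap] at a0 a1 b0 b1 <;>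
    ext i <;> fin_cases i <;> simp [Tl] <;> first | linarith | (field_simp; linarith)

theorem rec_of_Tl (h : Par α β γ) {s1 s2 : St} (h12 : adm s1 s2) {V0 V1 V2 V3 r0 r1 r2 : E 2}
    (e1 : V1 = Tl α β γ s1 V0 V1 V2 r0 r1) (e2 : V2 = Tl α β γ s2 V1 V2 V3 r1 r2) :
    V2 = Dm α β γ s1 V1 + r1 := by
  have hb : β ≠ 0 := by linarith [h.b0]
  have hc : γ ≠ 0 := by linarith [h.c0]
  have a0 := congrFun e1 0
  have a1 := congrFun e1 1
  have b0 := congrFun e2 0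
  have b1 := congrFun e2 1
  cases s1 <;> cases s2 <;> simp [adm] at h12 <;> simp [Tl] at a0 a1 b0 b1 <;>
    field_simp at a0 a1 b0 b1 <;>
    ext i <;> fin_cases i <;> simp [Dm, mat2_ap] <;> linarith

theorem local_est (h : Par α β γ) {s0 s1 : St} (h01 : adm s0 s1) {V0 V1 V2 r0 r1 : E 2}
    (e1 : V1 = Dm α β γ s0 V0 + r0) (e2 : V2 = Dm α β γ s1 V1 + r1) {M κ : ℝ} (h0 : ‖V0‖ ≤ M)
    (h1 : ‖V1‖ ≤ M) (h2 : ‖V2‖ ≤ M) (k0 : s1 ≠ St.A → |r0 0| ≤ κ) (k1 : s1 = St.A → |r0 1| ≤ κ)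
    (k2 : ‖r1‖ ≤ 9 * κ) : ‖V1‖ ≤ M / 8 + κ := by
  rw [Tl_of_rec h h01 e1 e2]
  exact Tl_bound h s1 h0 h1 h2 k0 k1 k2

theorem local_est0 (h : Par α β γ) {s0 s1 : St} (h01 : adm s0 s1) {V0 V1 V2 : E 2}
    (e1 : V1 = Dm α β γ s0 V0) (e2 : V2 = Dm α β γ s1 V1) {M : ℝ} (h0 : ‖V0‖ ≤ M)
    (h1 : ‖V1‖ ≤ M) (h2 : ‖V2‖ ≤ M) : ‖V1‖ ≤ M / 8 := by
  simpa using local_est h h01 (r0 := 0) (r1 := 0) (κ := 0) (by simpa using e1) (by simpa using e2)
    h0 h1 h2 (by simp) (by simp) (by simp)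

theorem exists_bounded (h : Par α β γ) {ω : ℤ → St} (hω : ∀ j, adm (ω j) (ω (j + 1)))
    {r : ℤ → E 2} {C : ℝ} (hr : ∀ j, ‖r j‖ ≤ C) :
    ∃ (V : ℤ → E 2) (M : ℝ), (∀ j, V (j + 1) = Dm α β γ (ω j) (V j) + r j) ∧ ∀ j, ‖V j‖ ≤ M := by
  have hC : 0 ≤ C := (norm_nonneg _).trans (hr 0)
  let T : (BoundedContinuousFunction ℤ (E 2)) → (BoundedContinuousFunction ℤ (E 2)) := fun V =>
    BoundedContinuousFunction.ofNormedAddCommGroupDiscrete
      (fun j => Tl α β γ (ω j) (V (j - 1)) (V j) (V (j + 1)) (r (j - 1)) (r j)) (‖V‖ / 8 + C)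
      (fun j => Tl_bound h _ (V.norm_coe_le_norm _) (V.norm_coe_le_norm _) (V.norm_coe_le_norm _)
        (fun _ => (norm_le_pi_norm _ 0).trans (hr _)) (fun _ => (norm_le_pi_norm _ 1).trans (hr _))
        ((hr j).trans (by linarith)))
  have hT : ∀ V j, T V j = Tl α β γ (ω j) (V (j - 1)) (V j) (V (j + 1)) (r (j - 1)) (r j) :=
    fun _ _ => rfl
  have hc : ContractingWith (1 / 8) T := by
    refine ⟨by norm_num, LipschitzWith.of_dist_le_mul fun V W => ?_⟩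
    rw [BoundedContinuousFunction.dist_le (by positivity)]
    intro j
    rw [dist_eq_norm, hT, hT, Tl_sub]
    have k : ∀ i, ‖V i - W i‖ ≤ dist V W := fun i => by
      rw [← dist_eq_norm]; exact BoundedContinuousFunction.dist_coe_le_dist i
    have := Tl_bound h (ω j) (r0 := 0) (r1 := 0) (κ := 0) (k (j - 1)) (k j) (k (j + 1)) (by simp)
      (by simp) (by simp)
    refine this.trans (le_of_eq ?_)
    push_cast; ring
  set V := ContractingWith.fixedPoint T hc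
  have hV : T V = V := hc.fixedPoint_isFixedPt
  have hV' : ∀ j, V j = Tl α β γ (ω j) (V (j - 1)) (V j) (V (j + 1)) (r (j - 1)) (r j) := fun j => by
    rw [← hT, hV]
  refine ⟨V, ‖V‖, fun j => ?_, V.norm_coe_le_norm⟩
  have e2 := hV' (j + 1)
  rw [add_sub_cancel_right] at e2
  exact rec_of_Tl h (hω j) (hV' j) e2

/-- `(ω, V)` codes an orbit. -/
def Rec (α β γ : ℝ) (ω : ℤ → St) (V : ℤ → E 2) : Prop :=
  ∀ j, V (j + 1) = Dm α β γ (ω j) (V j) + (off α (ω j) - ctr (ω (j + 1)))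

theorem Rec.bound (h : Par α β γ) {ω : ℤ → St} (hω : ∀ j, adm (ω j) (ω (j + 1))) {V : ℤ → E 2}
    (hV : Rec α β γ ω V) {M : ℝ} (hM : ∀ j, ‖V j‖ ≤ M) (j : ℤ) : ‖V j‖ ≤ 0.04 := by
  refine (decay_all (δ := fun j => ‖V j‖) (κ := 0.03) (by norm_num) hM
    (fun i M' h0 h1 h2 => ?_) j).trans (by norm_num)
  have e1 := hV (i - 1)
  have a1 := hω (i - 1)
  have a2 := hω i
  rw [sub_add_cancel] at e1 a1
  have := h.a0
  have := h.a1
  refine local_est h a1 e1 (hV i) h0 h1 h2 ?_ ?_ ?_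
  · revert a1
    cases ω (i - 1) <;> cases ω i <;> simp [adm, off, ctr, abs_le] <;> norm_num <;>
      constructor <;> linarith
  · revert a1
    cases ω (i - 1) <;> cases ω i <;> simp [adm, off, ctr] <;> norm_num
  · revert a2
    cases ω i <;> cases ω (i + 1) <;> simp only [adm, reduceCtorEq, iff_self, false_iff, iff_false,
      not_true_eq_false, false_implies, true_implies] <;>
      refine norm_two_le ?_ ?_ <;> simp [off, ctr, abs_le] <;> norm_num <;>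
      constructor <;> linarith

theorem exists_rec (h : Par α β γ) {ω : ℤ → St} (hω : ∀ j, adm (ω j) (ω (j + 1))) :
    ∃ V, Rec α β γ ω V ∧ ∀ j, ‖V j‖ ≤ 0.04 := by
  obtain ⟨V, M, h1, h2⟩ := exists_bounded h hω (r := fun j => off α (ω j) - ctr (ω (j + 1)))
    (C := 1) (fun j => by
      have := h.a0
      have := h.a1
      cases ω j <;> cases ω (j + 1) <;> refine norm_two_le ?_ ?_ <;> simp [off, ctr, abs_le] <;>
        norm_num <;> constructor <;> linarith)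
  exact ⟨V, h1, Rec.bound h hω h1 h2⟩

theorem Rec.diff {ω ω' : ℤ → St} {V V' : ℤ → E 2} (hV : Rec α β γ ω V) (hV' : Rec α β γ ω' V')
    {j j' : ℤ} (e0 : ω j = ω' j') (e1 : ω (j + 1) = ω' (j' + 1)) :
    V (j + 1) - V' (j' + 1) = Dm α β γ (ω j) (V j - V' j') := by
  rw [hV, hV', ← e0, ← e1, map_sub]; abel

theorem Rec.periodic (h : Par α β γ) {ω : ℤ → St} (hω : ∀ j, adm (ω j) (ω (j + 1))) {V : ℤ → E 2}
    (hV : Rec α β γ ω V) (hM : ∀ j, ‖V j‖ ≤ 0.04) {P : ℤ} (hP : ∀ j, ω (j + P) = ω j) (j : ℤ) :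
    V (j + P) = V j := by
  have key : ∀ i, V (i + 1 + P) - V (i + 1) = Dm α β γ (ω i) (V (i + P) - V i) := fun i => by
    have := hV.diff hV (j := i + P) (j' := i) (hP i) (by rw [add_right_comm, hP])
    rwa [add_right_comm, hP] at this
  have := decay_all (δ := fun j => ‖V (j + P) - V j‖) (κ := 0) (M := 0.08) le_rfl
    (fun j => (norm_sub_le _ _).trans (by linarith [hM (j + P), hM j])) (fun i M' h0 h1 h2 => by
      have e1 := key (i - 1)
      have a1 := hω (i - 1)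
      rw [sub_add_cancel] at e1 a1
      simpa using local_est0 h a1 e1 (key i) h0 h1 h2) j
  rw [mul_zero, norm_le_zero_iff, sub_eq_zero] at this
  exact this

end Pool.Agent.H581Z
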