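import Pool.Agent.H581Z.Ex3

open Set Filter Topology Metric

noncomputable section

namespace Pool.Agent.H581Z

variable {d : ℕ}

theorem omega_inv (f : Diff1 d) : Omega f⁻¹ = Omega f := by
  have key : ∀ f : Diff1 d, Omega f ⊆ Omega f⁻¹ := fun f x hx U hU => by
    obtain ⟨n, hn, _, ⟨y, hy, rfl⟩, hy'⟩ := hx U hU
    exact ⟨n, hn, y, ⟨(f ^ n).1 y, hy', by rw [inv_pow, inv_ap]⟩, hy⟩
  refine Subset.antisymm ?_ (key f)
  simpa using key f⁻¹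

theorem orb_inv (f : Diff1 d) (x : Tor d) : orb f⁻¹ x = orb f x := by
  ext y
  constructor
  · rintro ⟨n, rfl⟩
    exact ⟨-n, by simp only [zpow_neg, inv_zpow]⟩
  · rintro ⟨n, rfl⟩
    exact ⟨-n, by simp only [zpow_neg, inv_zpow, inv_inv]⟩

theorem fix_zpow {g : Diff1 d} {Q : Tor d} (h : g.1 Q = Q) (n : ℤ) : (g ^ n).1 Q = Q :=
  zpow_orbit (X := fun _ => Q) (fun _ => h) n

theorem orb_fix {g : Diff1 d} {Q : Tor d} (h : g.1 Q = Q) : orb g Q = {Q} := by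
  ext y
  constructor
  · rintro ⟨n, rfl⟩
    exact fix_zpow h n
  · rintro rfl
    exact ⟨0, rfl⟩

theorem eq_of_zpow_fix {g : Diff1 d} {Q x : Tor d} (h : g.1 Q = Q) {n : ℤ}
    (hx : (g ^ n).1 x = Q) : x = Q :=
  (g ^ n).1.injective (hx.trans (fix_zpow h n).symm)

/-- `g` contracts the `δ`-ball around `Q` towards `Q`. -/
def Ctr (g : Diff1 d) (Q : Tor d) (δ : ℝ) : Prop :=
  ∀ x, dist x Q ≤ δ → dist (g.1 x) Q ≤ 1 / 2 * dist x Q

theorem ctr_of_affine {g : Diff1 d} {q : E d} {A : E d →L[ℝ] E d} {δ : ℝ} (hA : ‖A‖ ≤ 1 / 2)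
    (h : ∀ z, ‖z - q‖ ≤ δ → g.1 (proj z) = proj (q + A (z - q))) : Ctr g (proj q) δ := by
  intro x hx
  obtain ⟨z, rfl, hz⟩ := exists_lift_close q x
  rw [h z (hz.trans_le hx), ← hz]
  refine (dist_proj_le _ _).trans ?_
  rw [add_sub_cancel_left]
  exact (A.le_opNorm _).trans (mul_le_mul_of_nonneg_right hA (norm_nonneg _))

namespace Ctr

variable {g : Diff1 d} {Q : Tor d} {δ : ℝ}

theorem fix (h : Ctr g Q δ) (hδ : 0 < δ) : g.1 Q = Q := by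
  have := h Q (by simpa using hδ.le)
  simpa using this

theorem pow (h : Ctr g Q δ) {x : Tor d} (hx : dist x Q ≤ δ) (n : ℕ) :
    dist ((g ^ n).1 x) Q ≤ (1 / 2) ^ n * dist x Q := by
  induction n with
  | zero => simp
  | succ n ih =>
    have h1 : (1 / 2 : ℝ) ^ n * dist x Q ≤ 1 * dist x Q :=
      mul_le_mul_of_nonneg_right (pow_le_one₀ (by norm_num) (by norm_num)) dist_nonneg
    have := h _ (ih.trans (by linarith))
    rw [pow_succ_ap', pow_succ]; linarith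

theorem pow_succ_le (h : Ctr g Q δ) {x : Tor d} (hx : dist x Q ≤ δ) {n : ℕ} (hn : 0 < n) :
    dist ((g ^ n).1 x) Q ≤ 1 / 2 * dist x Q := by
  refine (h.pow hx n).trans (mul_le_mul_of_nonneg_right ?_ dist_nonneg)
  exact pow_le_of_le_one (by norm_num) (by norm_num) hn.ne'

theorem omega (h : Ctr g Q δ) {x : Tor d} (hx : x ∈ Omega g) (hd : dist x Q < δ) : x = Q := by
  by_contra hne
  have h0 : 0 < dist x Q := dist_pos.2 hne
  have hc : ContinuousAt (fun y => dist y Q) x := by fun_prop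
  obtain ⟨n, hn, _, ⟨y, hy, rfl⟩, hy'⟩ := hx _
    ((hc.eventually_lt continuousAt_const hd).and
      ((hc.eventually_lt continuousAt_const (show dist x Q < 5 / 4 * dist x Q by linarith)).and
        (continuousAt_const.eventually_lt hc (show 3 / 4 * dist x Q < dist x Q by linarith))))
  have h1 := h.pow_succ_le (x := y) hy.1.le hn
  have h2 : dist y Q < 5 / 4 * dist x Q := hy.2.1
  have h3 : 3 / 4 * dist x Q < dist ((g ^ n).1 y) Q := hy'.2.2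
  linarith

theorem omega' (h : Ctr g Q δ) (hδ : 0 < δ) {x : Tor d} (hx : x ∈ Omega g) {n : ℤ}
    (hd : dist ((g ^ n).1 x) Q < δ) : x = Q :=
  eq_of_zpow_fix (h.fix hδ) (h.omega (omega_zpow hx n) hd)

theorem back (h : Ctr g Q δ) (hδ : 0 < δ) {y : Tor d} (hy : y ∈ Ws g⁻¹ {Q}) : y = Q := by
  obtain ⟨x, rfl, hx⟩ := hy
  have hf : ∀ n : ℕ, (g⁻¹ ^ n).1 x = x := fun n => by
    have := fix_zpow (h.fix hδ) (-n)
    rwa [zpow_neg, zpow_natCast, ← inv_pow] at this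
  simp only [hf] at hx
  have h1 : Tendsto (fun n : ℕ => (1 / 2 : ℝ) ^ n * δ) atTop (𝓝 (0 * δ)) :=
    (tendsto_pow_atTop_nhds_zero_of_lt_one (by norm_num) (by norm_num)).mul_const δ
  rw [zero_mul] at h1
  refine dist_le_zero.1 (ge_of_tendsto h1 ?_)
  filter_upwards [hx.eventually (gt_mem_nhds hδ)] with n hn
  rw [dist_comm] at hn
  have := h.pow hn.le n
  rw [inv_pow, ap_inv] at this
  rw [inv_pow] at hn
  exact this.trans (mul_le_mul_of_nonneg_left hn.le (by positivity))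

theorem cycle (h : Ctr g Q δ) (hδ : 0 < δ) {S : Set (Tor d)}
    (hS : ∃ x ∈ Omega g, S = closure (orb g x)) {y : Tor d} (hy : y ∈ Ws g S) {n : ℤ}
    (hn : dist ((g ^ n).1 y) Q ≤ δ) {y' : Tor d} (hy' : y' ∈ Ws g⁻¹ S) : y' = Q := by
  obtain ⟨x0, hx0, rfl⟩ := hS
  obtain ⟨x, hx, ht⟩ := hy
  have hxO := orb_closure_subset hx0 hx
  obtain ⟨N, hN1, hN2⟩ := ((ht.eventually (gt_mem_nhds (half_pos hδ))).and
    (eventually_gt_atTop n.natAbs)).exists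
  have e : (g ^ N).1 y = (g ^ ((N : ℤ) - n).toNat).1 ((g ^ n).1 y) := by
    rw [← mul_ap, ← zpow_natCast, ← zpow_natCast, ← zpow_add]
    congr 3
    omega
  have h1 := h.pow_succ_le hn (n := ((N : ℤ) - n).toNat) (by omega)
  rw [← e] at h1
  have h2 : x = Q := h.omega' hδ hxO (n := N) (by
    rw [zpow_natCast]
    linarith [dist_triangle ((g ^ N).1 x) ((g ^ N).1 y) Q])
  rw [h2] at hx
  obtain ⟨_, ⟨m, rfl⟩, hm⟩ := Metric.mem_closure_iff.1 hx δ hδ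
  have h3 : x0 = Q := h.omega' hδ hx0 (n := m) (by rwa [dist_comm])
  rw [h3, orb_fix (h.fix hδ), closure_singleton] at hy'
  exact h.back hδ hy'

end Ctr

theorem noCycles_of_trap {f : Diff1 d} {P Q : Tor d} {δ : ℝ} (hδ : 0 < δ) (hQ : Ctr f Q δ)
    (hP : Ctr f⁻¹ P δ) (h : ∀ x, x ∉ Omega f → ∃ n : ℤ, dist ((f ^ n).1 x) Q ≤ δ ∨
      dist ((f ^ n).1 x) P ≤ δ) : NoCycles f := by
  rintro ⟨m, Λ, hm, hΛ, hb, he⟩
  obtain ⟨y, ⟨hy1, hy2⟩, hy3⟩ := he 0 hm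
  obtain ⟨n, hn | hn⟩ := h y hy3
  · have hQO : Q ∈ Omega f := per_subset_omega f ⟨1, one_pos, hQ.fix hδ⟩
    rcases eq_or_lt_of_le hm with rfl | hm'
    · rw [← hΛ] at hy1
      exact hy3 (hQ.cycle hδ (hb 1 le_rfl).prop hy2 hn hy1 ▸ hQO)
    · obtain ⟨y', ⟨h1, -⟩, h3⟩ := he 1 hm'
      exact h3 (hQ.cycle hδ (hb 1 hm).prop hy2 hn h1 ▸ hQO)
  · have hPO : P ∈ Omega f := omega_inv f ▸ per_subset_omega f⁻¹ ⟨1, one_pos, hP.fix hδ⟩
    obtain ⟨y', ⟨-, h2⟩, h3⟩ := he (m - 1) (by omega)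
    rw [Nat.sub_add_cancel hm, hΛ] at h2
    obtain ⟨x, hx, e⟩ := (hb 0 (Nat.zero_le _)).prop
    refine h3 (hP.cycle hδ (S := Λ 0) ⟨x, by rwa [omega_inv], by rwa [orb_inv]⟩ hy1 (n := -n)
      (by rwa [zpow_neg, inv_zpow, inv_inv]) (by rwa [inv_inv]) ▸ hPO)

/-- Vectors with bounded forward orbit under the derivative. -/
def Bd (f : Diff1 d) (x : Tor d) : Submodule ℝ (E d) where
  carrier := {v | ∃ C : ℝ, ∀ n : ℕ, ‖D (f ^ n) x v‖ ≤ C}
  add_mem' := by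
    rintro v w ⟨C, h⟩ ⟨C', h'⟩
    exact ⟨C + C', fun n => by rw [map_add]; exact norm_add_le_of_le (h n) (h' n)⟩
  zero_mem' := ⟨0, fun n => by simp⟩
  smul_mem' := by
    rintro c v ⟨C, h⟩
    exact ⟨‖c‖ * C, fun n => by
      rw [map_smul, norm_smul]; exact mul_le_mul_of_nonneg_left (h n) (norm_nonneg _)⟩

theorem mem_Bd {f : Diff1 d} {x : Tor d} {v : E d} :
    v ∈ Bd f x ↔ ∃ C : ℝ, ∀ n : ℕ, ‖D (f ^ n) x v‖ ≤ C := Iff.rfl

theorem D_pow_succ (f : Diff1 d) (n : ℕ) (x : Tor d) (v : E d) :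
    D (f ^ (n + 1)) x v = D (f ^ n) (f.1 x) (D f x v) := by
  rw [pow_succ, D_mul]; rfl

theorem D_pow_succ' (f : Diff1 d) (n : ℕ) (x : Tor d) (v : E d) :
    D (f ^ (n + 1)) x v = D f ((f ^ n).1 x) (D (f ^ n) x v) := by
  rw [pow_succ', D_mul]; rfl

theorem Bd_iff (f : Diff1 d) (x : Tor d) (v : E d) : D f x v ∈ Bd f (f.1 x) ↔ v ∈ Bd f x := by
  constructor
  · rintro ⟨C, h⟩
    refine ⟨max C ‖v‖, fun n => ?_⟩
    cases n with
    | zero => simp [D_one]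
    | succ n => rw [D_pow_succ]; exact (h n).trans (le_max_left _ _)
  · rintro ⟨C, h⟩
    exact ⟨C, fun n => by rw [← D_pow_succ]; exact h _⟩

theorem Bd_iff' (f : Diff1 d) (x : Tor d) (v : E d) : D f x v ∈ Bd f⁻¹ (f.1 x) ↔ v ∈ Bd f⁻¹ x := by
  have := Bd_iff f⁻¹ (f.1 x) (D f x v)
  rw [D_inv_comp, inv_ap] at this
  exact this.symm

/-- The pointwise hyperbolicity condition. -/
def HypAt (f : Diff1 d) (x : Tor d) : Prop :=
  IsCompl (Bd f x) (Bd f⁻¹ x) ∧ ∀ n : ℕ, (∀ v ∈ Bd f x, ‖D (f ^ n) x v‖ ≤ 1 * (1 / 2) ^ n * ‖v‖) ∧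
    ∀ v ∈ Bd f⁻¹ x, ‖D (f⁻¹ ^ n) x v‖ ≤ 1 * (1 / 2) ^ n * ‖v‖

theorem hyp_of_at {f : Diff1 d} {S : Set (Tor d)} (h : ∀ x ∈ S, HypAt f x) : Hyp f S :=
  ⟨Bd f, Bd f⁻¹, 1, 1 / 2, by norm_num, by norm_num, fun x hx =>
    ⟨(h x hx).1, map_eq_of_iff (Bd_iff f x), map_eq_of_iff (Bd_iff' f x), (h x hx).2⟩⟩

theorem HypAt.inv {f : Diff1 d} {x : Tor d} (h : HypAt f⁻¹ x) : HypAt f x := by
  unfold HypAt at h
  rw [inv_inv] at h
  exact ⟨h.1.symm, fun n => (h.2 n).symm⟩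

theorem hypAt_sink {g : Diff1 d} {Q : Tor d} (h : g.1 Q = Q) (hA : ‖D g Q‖ ≤ 1 / 2) :
    HypAt g Q := by
  have hf : ∀ n : ℕ, (g ^ n).1 Q = Q := fun n => by simpa using fix_zpow h n
  have h1 : ∀ (n : ℕ) v, ‖D (g ^ n) Q v‖ ≤ 1 * (1 / 2) ^ n * ‖v‖ := fun n v => by
    induction n with
    | zero => simp [D_one]
    | succ n ih =>
      rw [D_pow_succ', hf, pow_succ]
      have := ((D g Q).le_opNorm (D (g ^ n) Q v)).trans
        (mul_le_mul_of_nonneg_right hA (norm_nonneg _))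
      linarith
  have h2 : ∀ v ∈ Bd g⁻¹ Q, v = 0 := by
    rintro v ⟨C, hC⟩
    have h3 : Tendsto (fun n : ℕ => (1 / 2 : ℝ) ^ n * C) atTop (𝓝 (0 * C)) :=
      (tendsto_pow_atTop_nhds_zero_of_lt_one (by norm_num) (by norm_num)).mul_const C
    rw [zero_mul] at h3
    refine norm_le_zero_iff.1 (ge_of_tendsto' h3 fun n => ?_)
    have h4 := h1 n (D (g⁻¹ ^ n) Q v)
    have h5 := D_comp_inv (g ^ n) Q v
    rw [hf, ← inv_pow] at h5
    rw [h5, one_mul] at h4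
    exact h4.trans (mul_le_mul_of_nonneg_left (hC n) (by positivity))
  refine ⟨⟨Submodule.disjoint_def.2 fun v _ hv => h2 v hv, codisjoint_iff.2 (eq_top_iff.2 ?_)⟩,
    fun n => ⟨fun v _ => h1 n v, fun v hv => by simp [h2 v hv]⟩⟩
  intro v _
  refine Submodule.mem_sup_left ⟨‖v‖, fun n => (h1 n v).trans ?_⟩
  rw [one_mul]
  exact mul_le_of_le_one_left (norm_nonneg _) (pow_le_one₀ (by norm_num) (by norm_num))

end Pool.Agent.H581Z
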