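import Pool.Agent.H581Z.Horse1
import Pool.Agent.H581Z.Horse2

open Set Filter Topology Metric

noncomputable section

namespace Pool.Agent.H581Z

/-- `f` is affine on the three rectangles. -/
structure HS (f : Diff1 2) (α β γ : ℝ) : Prop where
  par : Par α β γ
  aff : ∀ s v, ‖v‖ ≤ 0.05 → f.1 (proj (ctr s + v)) = proj (off α s + Dm α β γ s v)

/-- Admissible bounded codes. -/
structure Code (α β γ : ℝ) (ω : ℤ → St) (V : ℤ → E 2) : Prop where
  ad : ∀ j, adm (ω j) (ω (j + 1))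
  rc : Rec α β γ ω V
  bd : ∀ j, ‖V j‖ ≤ 0.04

/-- The horseshoe. -/
def Lam (α β γ : ℝ) : Set (Tor 2) := {x | ∃ ω V, Code α β γ ω V ∧ x = proj (ctr (ω 0) + V 0)}

variable {f : Diff1 2} {α β γ : ℝ} {ω : ℤ → St} {V : ℤ → E 2}

theorem exists_code (h : Par α β γ) (hω : ∀ j, adm (ω j) (ω (j + 1))) : ∃ V, Code α β γ ω V := by
  obtain ⟨V, h1, h2⟩ := exists_rec h hω
  exact ⟨V, hω, h1, h2⟩

namespace HS

theorem D_eq (h : HS f α β γ) (s : St) {v : E 2} (hv : ‖v‖ ≤ 0.04) :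
    D f (proj (ctr s + v)) = Dm α β γ s :=
  D_of_affine (q := ctr s) (y := off α s) (δ := 0.05)
    (fun z hz => by simpa using h.aff s (z - ctr s) hz)
    (by rw [add_sub_cancel_left]; exact hv.trans_lt (by norm_num))

theorem line (h : HS f α β γ) (c : Code α β γ ω V) (j : ℤ) {w : E 2} (hw : ‖w‖ ≤ 0.01) :
    f.1 (proj (ctr (ω j) + V j + w)) = proj (ctr (ω (j + 1)) + V (j + 1) + Dm α β γ (ω j) w) := by
  rw [add_assoc, h.aff _ _ ((norm_add_le _ _).trans (by linarith [c.bd j])), c.rc j, map_add]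
  congr 1; abel

theorem step (h : HS f α β γ) (c : Code α β γ ω V) (j : ℤ) :
    f.1 (proj (ctr (ω j) + V j)) = proj (ctr (ω (j + 1)) + V (j + 1)) := by
  simpa using h.line c j (w := 0) (by norm_num)

theorem orbit (h : HS f α β γ) (c : Code α β γ ω V) (j : ℤ) :
    (f ^ j).1 (proj (ctr (ω 0) + V 0)) = proj (ctr (ω j) + V j) :=
  zpow_orbit (X := fun j => proj (ctr (ω j) + V j)) (h.step c) j

theorem cocycle (h : HS f α β γ) (c : Code α β γ ω V) (v : E 2) (j : ℤ) :
    D (f ^ (j + 1)) (proj (ctr (ω 0) + V 0)) v =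
      Dm α β γ (ω j) (D (f ^ j) (proj (ctr (ω 0) + V 0)) v) := by
  rw [add_comm j, zpow_one_add, D_mul, ContinuousLinearMap.comp_apply, h.orbit c,
    h.D_eq _ (c.bd j)]

theorem fwd_eq (h : HS f α β γ) (c : Code α β γ ω V) {U : ℤ → E 2}
    (hU : ∀ j, 0 ≤ j → U (j + 1) = Dm α β γ (ω j) (U j)) (n : ℕ) :
    D (f ^ n) (proj (ctr (ω 0) + V 0)) (U 0) = U n := by
  induction n with
  | zero => simp [D_one]
  | succ n ih =>
    have := h.cocycle c (U 0) n
    rw [zpow_natCast, ih, ← hU n (by omega)] at this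
    exact_mod_cast this

theorem bwd_eq (h : HS f α β γ) (c : Code α β γ ω V) {U : ℤ → E 2}
    (hU : ∀ j, j < 0 → U (j + 1) = Dm α β γ (ω j) (U j)) (n : ℕ) :
    D (f⁻¹ ^ n) (proj (ctr (ω 0) + V 0)) (U 0) = U (-n) := by
  induction n with
  | zero => simp [D_one]
  | succ n ih =>
    have e : -((n + 1 : ℕ) : ℤ) + 1 = -n := by push_cast; ring
    have h1 := h.orbit c (-n)
    rw [zpow_neg, zpow_natCast, ← inv_pow] at h1
    rw [D_pow_succ', ih, h1, ← e, hU _ (by omega), ← h.step c, ← h.D_eq _ (c.bd _), D_inv_comp]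

end HS

theorem fwd_decay (h : Par α β γ) (hω : ∀ j, adm (ω j) (ω (j + 1))) {U : ℤ → E 2} {k : ℤ} {C : ℝ}
    (hU : ∀ j, k ≤ j → U (j + 1) = Dm α β γ (ω j) (U j)) (hC : ∀ n : ℕ, ‖U (k + n)‖ ≤ C) (n : ℕ) :
    ‖U (k + n)‖ ≤ (1 / 8) ^ n * ‖U k‖ := by
  have := decay_half (δ := fun n : ℕ => ‖U (k + n)‖) (fun _ => norm_nonneg _) hC
    (fun i M' h0 h1 h2 => by
      push_cast at h1 h2 ⊢
      rw [← add_assoc] at h1 ⊢
      rw [show k + (i + 2) = k + i + 1 + 1 by ring] at h2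
      exact local_est0 h (hω _) (hU _ (by omega)) (hU _ (by omega)) h0 h1 h2) n
  simpa using this

theorem bwd_decay (h : Par α β γ) (hω : ∀ j, adm (ω j) (ω (j + 1))) {U : ℤ → E 2} {k : ℤ} {C : ℝ}
    (hU : ∀ j, j < k → U (j + 1) = Dm α β γ (ω j) (U j)) (hC : ∀ n : ℕ, ‖U (k - n)‖ ≤ C) (n : ℕ) :
    ‖U (k - n)‖ ≤ (1 / 8) ^ n * ‖U k‖ := by
  have := decay_half (δ := fun n : ℕ => ‖U (k - n)‖) (fun _ => norm_nonneg _) hC
    (fun i M' h0 h1 h2 => by
      push_cast at h1 h2 ⊢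
      rw [show k - (i + 1) = k - (i + 2) + 1 by ring] at h1 ⊢
      rw [show k - i = k - (i + 2) + 1 + 1 by ring] at h0
      exact local_est0 h (hω _) (hU _ (by omega)) (hU _ (by omega)) h2 h1 h0) n
  simpa using this

theorem eighth_le (n : ℕ) {r : ℝ} (hr : 0 ≤ r) : (1 / 8 : ℝ) ^ n * r ≤ 1 * (1 / 2) ^ n * r := by
  rw [one_mul]; gcongr; norm_num

namespace HS

theorem fwd_bd (h : HS f α β γ) (c : Code α β γ ω V) {v : E 2}
    (hv : v ∈ Bd f (proj (ctr (ω 0) + V 0))) (n : ℕ) :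
    ‖D (f ^ (n : ℤ)) (proj (ctr (ω 0) + V 0)) v‖ ≤ (1 / 8) ^ n * ‖v‖ := by
  obtain ⟨C, hC⟩ := hv
  have := fwd_decay h.par c.ad (k := 0) (C := C)
    (U := fun j => D (f ^ j) (proj (ctr (ω 0) + V 0)) v) (fun j _ => h.cocycle c v j)
    (fun n => by simpa using hC n) n
  simpa [D_one] using this

theorem bwd_bd (h : HS f α β γ) (c : Code α β γ ω V) {v : E 2}
    (hv : v ∈ Bd f⁻¹ (proj (ctr (ω 0) + V 0))) (n : ℕ) :
    ‖D (f ^ (-n : ℤ)) (proj (ctr (ω 0) + V 0)) v‖ ≤ (1 / 8) ^ n * ‖v‖ := by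
  obtain ⟨C, hC⟩ := hv
  have := bwd_decay h.par c.ad (k := 0) (C := C)
    (U := fun j => D (f ^ j) (proj (ctr (ω 0) + V 0)) v) (fun j _ => h.cocycle c v j)
    (fun n => by simpa using hC n) n
  simpa [D_one] using this

theorem hypAt (h : HS f α β γ) {x : Tor 2} (hx : x ∈ Lam α β γ) : HypAt f x := by
  obtain ⟨ω, V, c, rfl⟩ := hx
  refine ⟨⟨Submodule.disjoint_def.2 fun v h1 h2 => ?_, codisjoint_iff.2 (eq_top_iff.2 ?_)⟩,
    fun n => ⟨fun v hv => ?_, fun v hv => ?_⟩⟩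
  · have hb : ∀ j : ℤ, ‖D (f ^ j) (proj (ctr (ω 0) + V 0)) v‖ ≤ ‖v‖ := fun j => by
      have k : ∀ n : ℕ, (1 / 8 : ℝ) ^ n * ‖v‖ ≤ ‖v‖ := fun n =>
        mul_le_of_le_one_left (norm_nonneg _) (pow_le_one₀ (by norm_num) (by norm_num))
      obtain ⟨n, rfl | rfl⟩ := j.eq_nat_or_neg
      exacts [(h.fwd_bd c h1 n).trans (k n), (h.bwd_bd c h2 n).trans (k n)]
    have := decay_all (κ := 0) le_rfl hb (fun i M' h0 h1 h2 => by
      have e1 := h.cocycle c v (i - 1)
      have a1 := c.ad (i - 1)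
      rw [sub_add_cancel] at e1 a1
      simpa using local_est0 h.par a1 e1 (h.cocycle c v i) h0 h1 h2) 0
    simpa [D_one] using this
  · intro v _
    obtain ⟨U, M, hU, hM⟩ := exists_bounded h.par c.ad (r := fun j => if j = -1 then v else 0)
      (C := ‖v‖) (fun j => by split_ifs <;> simp)
    refine Submodule.mem_sup.2 ⟨U 0, ⟨M, fun n => ?_⟩, v - U 0, ⟨‖v‖ + M, fun n => ?_⟩, by abel⟩
    · rw [h.fwd_eq c (fun j hj => by rw [hU, if_neg (by omega), add_zero])]
      exact hM _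
    · have := h.bwd_eq c (U := fun j => if j = 0 then v - U 0 else -U j) (fun j hj => by
        by_cases h1 : j = -1
        · subst h1
          have := hU (-1)
          simp only [neg_add_cancel, if_true] at this ⊢
          rw [if_neg (by omega), map_neg, this]; abel
        · rw [if_neg (by omega), if_neg (by omega), hU, if_neg h1, add_zero, map_neg]) n
      simp only [if_true] at this
      rw [this]
      split_ifs
      · exact norm_sub_le_of_le le_rfl (hM _)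
      · rw [norm_neg]; linarith [hM (-n), norm_nonneg v]
  · have := h.fwd_bd c hv n
    rw [zpow_natCast] at this
    exact this.trans (eighth_le n (norm_nonneg _))
  · have := h.bwd_bd c hv n
    rw [zpow_neg, zpow_natCast, ← inv_pow] at this
    exact this.trans (eighth_le n (norm_nonneg _))

theorem per (h : HS f α β γ) (c : Code α β γ ω V) {P : ℕ} (h0 : 0 < P)
    (hP : ∀ j, ω (j + P) = ω j) : proj (ctr (ω 0) + V 0) ∈ Function.periodicPts f.1 := by
  refine ⟨P, h0, ?_⟩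
  change f.1^[P] _ = _
  rw [← pow_ap_iterate, ← zpow_natCast, h.orbit c, ← zero_add (P : ℤ), hP,
    c.rc.periodic h.par c.ad c.bd hP]

theorem dense_per (h : HS f α β γ) : Lam α β γ ⊆ closure (Function.periodicPts f.1) := by
  rintro _ ⟨ω, V, c, rfl⟩
  have key : ∀ N : ℕ, ∃ y ∈ Function.periodicPts f.1,
      dist (proj (ctr (ω 0) + V 0)) y ≤ (1 / 8) ^ N * 0.08 := fun N => by
    let σ : ℤ → St := fun k => if k ≤ 2 * N then ω (k - N) else
      if k = 2 * N + 1 then (if ω N = St.R then St.A else St.I) else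
      if k = 2 * N + 2 then St.I else (if ω (-N) = St.A then St.R else St.I)
    let ω' : ℤ → St := fun j => σ ((j + N) % (2 * N + 4))
    have hP0 : (0 : ℤ) < 2 * N + 4 := by omega
    have e1 : ∀ j : ℤ, |j| ≤ N → ω' j = ω j := fun j hj => by
      obtain ⟨h1, h2⟩ := abs_le.1 hj
      simp only [ω', σ]
      rw [Int.emod_eq_of_lt (by omega) (by omega), if_pos (by omega), add_sub_cancel_right]
    have e2 : ∀ j, adm (ω' j) (ω' (j + 1)) := fun j => by
      simp only [ω']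
      rw [add_right_comm, ← Int.emod_add_emod (j + N) _ 1]
      have k0 := Int.emod_nonneg (j + N) hP0.ne'
      have k1 := Int.emod_lt_of_pos (j + N) hP0
      generalize (j + N) % (2 * N + 4) = k at k0 k1 ⊢
      have s1 : ∀ k : ℤ, k ≤ 2 * N → σ k = ω (k - N) := fun k hk => if_pos hk
      have s2 : ∀ k : ℤ, k = 2 * N + 1 → σ k = if ω N = St.R then St.A else St.I := fun k hk =>
        (if_neg (by omega)).trans (if_pos hk)
      have s3 : ∀ k : ℤ, k = 2 * N + 2 → σ k = St.I := fun k hk =>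
        (if_neg (by omega)).trans ((if_neg (by omega)).trans (if_pos hk))
      have s4 : ∀ k : ℤ, k = 2 * N + 3 → σ k = if ω (-N) = St.A then St.R else St.I := fun k hk =>
        (if_neg (by omega)).trans ((if_neg (by omega)).trans (if_neg (by omega)))
      by_cases h1 : k = 2 * N + 3
      · rw [show k + 1 = 2 * N + 4 by omega, Int.emod_self, s4 k h1, s1 0 (by omega), zero_sub]
        unfold adm
        split_ifs with h2 <;> simp [h2]
      · rw [Int.emod_eq_of_lt (by omega) (by omega)]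
        by_cases h2 : k < 2 * N
        · rw [s1 _ h2.le, s1 _ (by omega), show k + 1 - N = k - N + 1 by ring]
          exact c.ad _
        · by_cases h3 : k = 2 * N
          · rw [s1 _ h3.le, s2 _ (by omega), show k - N = N by omega]
            unfold adm
            split_ifs with h2 <;> simp [h2]
          · by_cases h4 : k = 2 * N + 1
            · rw [s2 _ h4, s3 _ (by omega)]
              unfold adm
              split_ifs <;> simp
            · rw [s3 k (by omega), s4 _ (by omega)]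
              unfold adm
              split_ifs <;> simp
    obtain ⟨V', c'⟩ := exists_code h.par e2
    refine ⟨_, h.per c' (P := 2 * N + 4) (by omega) (fun j => ?_), ?_⟩
    · simp only [ω']
      push_cast
      rw [add_right_comm, Int.add_emod_right]
    · refine (dist_proj_le _ _).trans ?_
      rw [e1 0 (by simp), add_sub_add_left_eq_sub]
      have := decay_window (δ := fun j => ‖V j - V' j‖) (κ := 0) (M := 0.08) le_rfl
        (fun j => (norm_sub_le _ _).trans (by linarith [c.bd j, c'.bd j])) N 0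
        (fun i hi M' h0 h1 h2 => by
          obtain ⟨i1, i2⟩ := abs_lt.1 hi
          have b0 := (e1 (i - 1) (abs_le.2 ⟨by omega, by omega⟩)).symm
          have b1 := (e1 i (abs_le.2 ⟨by omega, by omega⟩)).symm
          have b2 := (e1 (i + 1) (abs_le.2 ⟨by omega, by omega⟩)).symm
          have d1 := c.rc.diff c'.rc b0 (by rwa [sub_add_cancel])
          have a1 := c.ad (i - 1)
          rw [sub_add_cancel] at d1 a1
          simpa using local_est0 h.par a1 d1 (c.rc.diff c'.rc b1 b2) h0 h1 h2)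
      simpa using this
  refine Metric.mem_closure_iff.2 fun ε hε => ?_
  have h1 : Tendsto (fun n : ℕ => (1 / 8 : ℝ) ^ n * 0.08) atTop (𝓝 (0 * 0.08)) :=
    (tendsto_pow_atTop_nhds_zero_of_lt_one (by norm_num) (by norm_num)).mul_const _
  rw [zero_mul] at h1
  obtain ⟨N, hN⟩ := (h1.eventually (gt_mem_nhds hε)).exists
  obtain ⟨y, hy, hy'⟩ := key N
  exact ⟨y, hy, hy'.trans_lt hN⟩

end HS

theorem tendsto_eighth {g : ℕ → ℝ} {C : ℝ} (h0 : ∀ n, 0 ≤ g n) (h : ∀ n, g n ≤ (1 / 8) ^ n * C) :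
    Tendsto g atTop (𝓝 0) := by
  have h1 : Tendsto (fun n : ℕ => (1 / 8 : ℝ) ^ n * C) atTop (𝓝 (0 * C)) :=
    (tendsto_pow_atTop_nhds_zero_of_lt_one (by norm_num) (by norm_num)).mul_const _
  rw [zero_mul] at h1
  exact squeeze_zero h0 h h1

theorem Ws_trans {d : ℕ} {g : Diff1 d} {S : Set (Tor d)} {x y : Tor d} (hx : x ∈ Ws g S)
    (h : Tendsto (fun n : ℕ => dist ((g ^ n).1 x) ((g ^ n).1 y)) atTop (𝓝 0)) : y ∈ Ws g S := by
  obtain ⟨p, hp, h1⟩ := hx
  refine ⟨p, hp, squeeze_zero (fun _ => dist_nonneg) (fun n => dist_triangle _ ((g ^ n).1 x) _) ?_⟩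
  simpa using h1.add h

theorem tan_line {d : ℕ} {S : Set (Tor d)} {z v : E d}
    (h : ∀ w : E d, ∀ t : ℝ, w = t • v → ‖w‖ ≤ 0.01 → proj (z + w) ∈ S) : v ∈ Tan S (proj z) := by
  refine ⟨fun t => z + t • v, by fun_prop, by simp, ?_, ?_⟩
  · simpa using (((hasDerivAt_id (0 : ℝ)).smul_const v).const_add z).deriv
  · have hc : Continuous fun t : ℝ => ‖t • v‖ := by fun_prop
    filter_upwards [hc.continuousAt.eventually_lt continuousAt_const
      (show ‖(0 : ℝ) • v‖ < 0.01 by norm_num)] with t ht using h _ t rfl ht.le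

namespace HS

theorem fwd_line (h : HS f α β γ) (c : Code α β γ ω V) {w : E 2}
    (hw : w ∈ Bd f (proj (ctr (ω 0) + V 0))) (hn : ‖w‖ ≤ 0.01) :
    Tendsto (fun n : ℕ => dist ((f ^ n).1 (proj (ctr (ω 0) + V 0)))
      ((f ^ n).1 (proj (ctr (ω 0) + V 0 + w)))) atTop (𝓝 0) := by
  have hb := h.fwd_bd c hw
  have e : ∀ n : ℕ, (f ^ n).1 (proj (ctr (ω 0) + V 0 + w)) =
      proj (ctr (ω n) + V n + D (f ^ (n : ℤ)) (proj (ctr (ω 0) + V 0)) w) := fun n => by
    induction n with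
    | zero => simp [D_one]
    | succ n ih =>
      rw [pow_succ_ap', ih, h.line c _ ((hb n).trans ((mul_le_of_le_one_left (norm_nonneg _)
        (pow_le_one₀ (by norm_num) (by norm_num))).trans hn)), ← h.cocycle c]
      rfl
  refine tendsto_eighth (C := ‖w‖) (fun _ => dist_nonneg) fun n => ?_
  rw [e, ← zpow_natCast, h.orbit c]
  refine (dist_proj_le _ _).trans ?_
  rw [sub_add_cancel_left, norm_neg]
  exact hb n

theorem bwd_line (h : HS f α β γ) (c : Code α β γ ω V) {w : E 2}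
    (hw : w ∈ Bd f⁻¹ (proj (ctr (ω 0) + V 0))) (hn : ‖w‖ ≤ 0.01) :
    Tendsto (fun n : ℕ => dist ((f⁻¹ ^ n).1 (proj (ctr (ω 0) + V 0)))
      ((f⁻¹ ^ n).1 (proj (ctr (ω 0) + V 0 + w)))) atTop (𝓝 0) := by
  have hb := h.bwd_bd c hw
  have e : ∀ n : ℕ, (f⁻¹ ^ n).1 (proj (ctr (ω 0) + V 0 + w)) =
      proj (ctr (ω (-n)) + V (-n) + D (f ^ (-n : ℤ)) (proj (ctr (ω 0) + V 0)) w) := fun n => by
    induction n with
    | zero => simp [D_one]
    | succ n ih =>
      have e : -((n + 1 : ℕ) : ℤ) + 1 = -n := by push_cast; ring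
      rw [pow_succ_ap', ih, ← e, h.cocycle c, ← h.line c _ ((hb (n + 1)).trans
        ((mul_le_of_le_one_left (norm_nonneg _) (pow_le_one₀ (by norm_num) (by norm_num))).trans
          hn)), inv_ap]
  refine tendsto_eighth (C := ‖w‖) (fun _ => dist_nonneg) fun n => ?_
  rw [e, inv_pow, ← zpow_natCast, ← zpow_neg, h.orbit c]
  refine (dist_proj_le _ _).trans ?_
  rw [sub_add_cancel_left, norm_neg]
  exact hb n

theorem homoclinic (h : HS f α β γ) : HasNontrivHomClass f := by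
  obtain ⟨V0, c0⟩ := exists_code (ω := fun _ => St.I) h.par (fun _ => by simp [adm])
  let ω : ℤ → St := fun j => if j = 0 then St.R else if j = 1 then St.A else St.I
  have hω : ∀ j, adm (ω j) (ω (j + 1)) := fun j => by
    simp only [ω, adm]
    split_ifs <;> simp <;> omega
  have hI : ∀ j, j < 0 ∨ 2 ≤ j → ω j = St.I := fun j hj => by
    simp only [ω]; rw [if_neg (by omega), if_neg (by omega)]
  obtain ⟨V, c⟩ := exists_code h.par hω
  have hfix : f.1 (proj (ctr St.I + V0 0)) = proj (ctr St.I + V0 0) := by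
    have := c0.rc.periodic h.par c0.ad c0.bd (P := 1) (fun _ => rfl) 0
    rw [h.step c0 0, this]
  have hd : ∀ j, ‖V0 j - V j‖ ≤ 0.08 := fun j =>
    (norm_sub_le _ _).trans (by linarith [c.bd j, c0.bd j])
  have hdist : ∀ j, j < 0 ∨ 2 ≤ j → dist ((f ^ j).1 (proj (ctr St.I + V0 0)))
      ((f ^ j).1 (proj (ctr (ω 0) + V 0))) ≤ ‖V0 j - V j‖ := fun j hj => by
    rw [h.orbit c0, h.orbit c, hI j hj]
    refine (dist_proj_le _ _).trans ?_
    rw [add_sub_add_left_eq_sub]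
  have hp : proj (ctr St.I + V0 0) ∈ orb f (proj (ctr St.I + V0 0)) := ⟨0, rfl⟩
  have hs : proj (ctr (ω 0) + V 0) ∈ Ws f (orb f (proj (ctr St.I + V0 0))) := by
    refine ⟨_, hp, (tendsto_add_atTop_iff_nat 2).1 (tendsto_eighth (C := ‖V0 2 - V 2‖)
      (fun _ => dist_nonneg) fun n => ?_)⟩
    rw [← zpow_natCast]
    refine (hdist _ (by omega)).trans ?_
    have := fwd_decay h.par c0.ad (U := fun j => V0 j - V j) (k := 2) (fun j hj =>
      c0.rc.diff c.rc (hI j (by omega)).symm (hI (j + 1) (by omega)).symm) (fun n => hd _) n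
    rwa [show ((n + 2 : ℕ) : ℤ) = 2 + n by push_cast; ring]
  have hu : proj (ctr (ω 0) + V 0) ∈ Ws f⁻¹ (orb f (proj (ctr St.I + V0 0))) := by
    refine ⟨_, hp, (tendsto_add_atTop_iff_nat 1).1 (tendsto_eighth (C := ‖V0 (-1) - V (-1)‖)
      (fun _ => dist_nonneg) fun n => ?_)⟩
    rw [inv_pow, ← zpow_natCast, ← zpow_neg]
    refine (hdist _ (by omega)).trans ?_
    have := bwd_decay h.par c0.ad (U := fun j => V0 j - V j) (k := -1) (fun j hj =>
      c0.rc.diff c.rc (hI j (by omega)).symm (hI (j + 1) (by omega)).symm) (fun n => hd _) n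
    rwa [show -((n + 1 : ℕ) : ℤ) = -1 - n by push_cast; ring]
  refine ⟨proj (ctr St.I + V0 0), ⟨1, one_pos, hfix⟩, hyp_of_at fun x hx => ?_, fun hsub => ?_⟩
  · rw [orb_fix hfix] at hx
    exact h.hypAt ⟨_, _, c0, hx⟩
  · have hx : proj (ctr (ω 0) + V 0) ∈ HomClass f (proj (ctr St.I + V0 0)) := by
      refine subset_closure ⟨⟨hs, hu⟩, fun v => ?_⟩
      have := (h.hypAt ⟨_, _, c, rfl⟩).1.codisjoint
      obtain ⟨a, ha, b, hb, e⟩ := Submodule.mem_sup.1 (codisjoint_iff.1 this ▸ Submodule.mem_top :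
        v ∈ Bd f (proj (ctr (ω 0) + V 0)) ⊔ Bd f⁻¹ (proj (ctr (ω 0) + V 0)))
      refine ⟨a, tan_line fun w t hw hn => Ws_trans hs (h.fwd_line c ?_ hn), b,
        tan_line fun w t hw hn => Ws_trans hu (h.bwd_line c ?_ hn), e.symm⟩
      · exact hw ▸ Submodule.smul_mem _ t ha
      · exact hw ▸ Submodule.smul_mem _ t hb
    have h1 := hsub hx
    rw [orb_fix hfix] at h1
    have h2 := abs_co (c.bd 0) 1
    have h3 := abs_co (c0.bd 0) 1
    have h4 := coe_inj_of_lt (congrFun h1 1) (by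
      simp only [ω, if_true, ctr, Pi.add_apply, Matrix.cons_val_one, Matrix.cons_val_zero]
      rw [abs_lt]; constructor <;> linarith)
    simp only [ω, if_true, ctr, Pi.add_apply, Matrix.cons_val_one, Matrix.cons_val_zero] at h4
    linarith

/-- Assembly: a sink, a source and the horseshoe. -/
theorem axiomA (h : HS f α β γ) {P Q : Tor 2} {δ : ℝ} (hδ : 0 < δ) (hQ : Ctr f Q δ)
    (hP : Ctr f⁻¹ P δ) (dQ : ‖D f Q‖ ≤ 1 / 2) (dP : ‖D f⁻¹ P‖ ≤ 1 / 2)
    (trap : ∀ x, (∃ n : ℤ, dist ((f ^ n).1 x) Q < δ ∨ dist ((f ^ n).1 x) P < δ) ∨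
      x ∈ Lam α β γ) : AxiomA f ∧ NoCycles f := by
  have fP : f.1 P = P := by
    conv_lhs => rw [← hP.fix hδ]
    exact ap_inv f P
  have hO : ∀ x ∈ Omega f, x = Q ∨ x = P ∨ x ∈ Lam α β γ := fun x hx => by
    rcases trap x with ⟨n, hn | hn⟩ | hn
    · exact Or.inl (hQ.omega' hδ hx hn)
    · exact Or.inr (Or.inl (hP.omega' hδ (by rwa [omega_inv]) (n := -n)
        (by rwa [zpow_neg, inv_zpow, inv_inv])))
    · exact Or.inr (Or.inr hn)
  refine ⟨⟨hyp_of_at fun x hx => ?_, fun x hx => ?_⟩, noCycles_of_trap hδ hQ hP fun x hx => ?_⟩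
  · rcases hO x hx with rfl | rfl | hx
    exacts [hypAt_sink (hQ.fix hδ) dQ, (hypAt_sink (hP.fix hδ) dP).inv, h.hypAt hx]
  · rcases hO x hx with rfl | rfl | hx
    exacts [subset_closure ⟨1, one_pos, hQ.fix hδ⟩, subset_closure ⟨1, one_pos, fP⟩,
      h.dense_per hx]
  · rcases trap x with ⟨n, hn⟩ | hn
    · exact ⟨n, hn.imp le_of_lt le_of_lt⟩
    · exact absurd ((isClosed_omega f).closure_subset_iff.2 (per_subset_omega f)
        (h.dense_per hn)) hx

end HS

end Pool.Agent.H581Z
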