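import Pool.Agent.H581Z.Basic

open Set Filter Topology

noncomputable section

namespace Pool.Agent.H581Z

variable {d : ℕ}

theorem exists_homeo_of_small {w : E d → E d} (hw : ContDiff ℝ 1 w)
    (hb : ∀ z, ‖fderiv ℝ w z‖ ≤ 1 / 2) :
    ∃ K : E d ≃ₜ E d, (∀ z, K z = z + w z) ∧ ContDiff ℝ 1 K.symm := by
  have hwd : Differentiable ℝ w := hw.differentiable one_ne_zero
  have hA : ApproximatesLinearOn (fun z => z + w z)
      ((ContinuousLinearEquiv.refl ℝ (E d) : E d ≃L[ℝ] E d) : E d →L[ℝ] E d) univ (1 / 2) := by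
    intro x _ y _
    have h1 : ‖w x - w y‖ ≤ 1 / 2 * ‖x - y‖ :=
      convex_univ.norm_image_sub_le_of_norm_fderiv_le (fun z _ => hwd z) (fun z _ => hb z)
        (mem_univ y) (mem_univ x)
    have h2 : x + w x - (y + w y) -
        ((ContinuousLinearEquiv.refl ℝ (E d) : E d ≃L[ℝ] E d) : E d →L[ℝ] E d) (x - y)
        = w x - w y := by
      simp only [ContinuousLinearEquiv.coe_refl, ContinuousLinearMap.id_apply]; abel
    rw [h2]
    simpa using h1
  have hc : Subsingleton (E d) ∨ (1 / 2 : NNReal) <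
      ‖((ContinuousLinearEquiv.refl ℝ (E d)).symm : E d →L[ℝ] E d)‖₊⁻¹ := by
    rcases subsingleton_or_nontrivial (E d) with h | h
    · exact Or.inl h
    · right
      simp only [ContinuousLinearEquiv.refl_symm, ContinuousLinearEquiv.coe_refl,
        ContinuousLinearMap.nnnorm_id, inv_one]
      norm_num
  refine ⟨hA.toHomeomorph _ hc, fun z => rfl, ?_⟩
  have hlt : ∀ z, ‖-fderiv ℝ w z‖ < 1 := fun z => by rw [norm_neg]; linarith [hb z]
  refine Homeomorph.contDiff_symm _
    (f₀' := fun z => ContinuousLinearEquiv.ofUnit (Units.oneSub _ (hlt z))) (fun z => ?_)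
    (contDiff_id.add hw)
  have h1 : HasFDerivAt (fun z => z + w z) (ContinuousLinearMap.id ℝ _ + fderiv ℝ w z) z :=
    (hasFDerivAt_id z).add (hwd z).hasFDerivAt
  have h2 : ((ContinuousLinearEquiv.ofUnit (Units.oneSub _ (hlt z)) : E d ≃L[ℝ] E d) :
      E d →L[ℝ] E d) = ContinuousLinearMap.id ℝ _ + fderiv ℝ w z := by
    ext1 v
    change (1 - -fderiv ℝ w z) v = _
    simp
  rw [h2]
  exact h1

theorem exists_small_diffeo {W : Tor d → E d} (hW : ContDiff ℝ 1 (W ∘ proj))
    (hb : ∀ z, ‖fderiv ℝ (W ∘ proj) z‖ ≤ 1 / 2) :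
    ∃ k : Diff1 d, ∀ x, k.1 x = x + proj (W x) := by
  obtain ⟨K, hK, hKs⟩ := exists_homeo_of_small hW hb
  have hKp : ∀ z, proj (K z) = proj z + proj (W (proj z)) := fun z => by
    rw [hK, proj_add]; rfl
  have hKt : ∀ z m, proj m = 0 → K (z + m) = K z + m := fun z m hm => by
    rw [hK, hK]
    simp only [Function.comp_apply, proj_add, hm, add_zero]
    abel
  have hinj : Function.Injective (fun x : Tor d => x + proj (W x)) := by
    intro x y hxy
    obtain ⟨a, rfl⟩ := proj_surj x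
    obtain ⟨b, rfl⟩ := proj_surj y
    have h1 : proj (K a - K b) = 0 := by
      rw [proj_sub, hKp, hKp]; exact sub_eq_zero.2 hxy
    have h2 : K a = K (b + (K a - K b)) := by rw [hKt _ _ h1]; abel
    have h3 := K.injective h2
    rw [h3, proj_add, h1, add_zero]
  have hsurj : Function.Surjective (fun x : Tor d => x + proj (W x)) := by
    intro y
    obtain ⟨b, rfl⟩ := proj_surj y
    refine ⟨proj (K.symm b), ?_⟩
    have := hKp (K.symm b)
    rw [K.apply_symm_apply] at this
    exact this.symm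
  let e : Equiv.Perm (Tor d) := Equiv.ofBijective _ ⟨hinj, hsurj⟩
  refine ⟨⟨e, ⟨K, ?_, fun z => hKp z⟩, ⟨K.symm, hKs, fun z => ?_⟩⟩, fun x => rfl⟩
  · have : (K : E d → E d) = fun z => z + (W ∘ proj) z := funext hK
    rw [this]; exact contDiff_id.add hW
  · rw [eq_comm, Equiv.symm_apply_eq]
    have := hKp (K.symm z)
    rw [K.apply_symm_apply] at this
    exact this

/-- The lift of `x` closest to `c`. -/
def loc (c : E d) (x : Tor d) : E d := c + (exists_small_lift (x - proj c)).choose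

theorem proj_loc (c : E d) (x : Tor d) : proj (loc c x) = x := by
  rw [loc, proj_add, (exists_small_lift (x - proj c)).choose_spec.1]; abel

theorem norm_loc (c : E d) (x : Tor d) : ‖loc c x - c‖ = ‖x - proj c‖ := by
  rw [loc, add_sub_cancel_left, (exists_small_lift (x - proj c)).choose_spec.2]

theorem norm_tor_le (x : Tor d) : ‖x‖ ≤ 1 / 2 := by
  refine (pi_norm_le_iff_of_nonneg (by norm_num)).2 fun i => ?_
  have := AddCircle.norm_le_half_period (1 : ℝ) (x := x i) one_ne_zero
  simpa using this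

theorem loc_proj {c z : E d} (h : ‖z - c‖ < 1 / 2) : loc c (proj z) = z := by
  refine proj_inj_of_lt (proj_loc _ _) ?_
  have h1 : ‖loc c (proj z) - c‖ ≤ 1 / 2 := by rw [norm_loc]; exact norm_tor_le _
  calc ‖loc c (proj z) - z‖ = ‖(loc c (proj z) - c) - (z - c)‖ := by congr 1; abel
    _ ≤ _ := norm_sub_le _ _
    _ < 1 := by linarith

theorem periodize_eventually {G : Type*} [Zero G] {U : E d → G} {c : E d} {a : ℝ} (ha : a < 1 / 2)
    (hU : ∀ z, a < ‖z - c‖ → U z = 0) (z0 : E d) :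
    (fun z => U (loc c (proj z))) =ᶠ[𝓝 z0] fun z => U (z - (z0 - loc c (proj z0))) := by
  set k := z0 - loc c (proj z0) with hk
  have hk0 : proj k = 0 := by rw [hk, proj_sub, proj_loc, sub_self]
  have hzk : z0 - k = loc c (proj z0) := by rw [hk]; abel
  by_cases h : ‖z0 - k - c‖ < 1 / 2
  · have hc : Continuous fun z : E d => ‖z - k - c‖ := by fun_prop
    filter_upwards [hc.continuousAt.eventually_lt continuousAt_const h] with z hz
    have : proj z = proj (z - k) := by rw [proj_sub, hk0, sub_zero]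
    rw [this, loc_proj hz]
  · have h1 : a < ‖z0 - k - c‖ := lt_of_lt_of_le ha (not_lt.1 h)
    have h2 : a < ‖proj z0 - proj c‖ := by rwa [hzk, norm_loc] at h1
    have hc : Continuous fun z : E d => ‖z - k - c‖ := by fun_prop
    have hc2 : Continuous fun z : E d => ‖proj z - proj c‖ :=
      (continuous_proj.sub continuous_const).norm
    filter_upwards [continuousAt_const.eventually_lt hc.continuousAt h1,
      continuousAt_const.eventually_lt hc2.continuousAt h2] with z hz hz2
    rw [hU _ hz, hU _ (by rwa [norm_loc])]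

theorem periodize_contDiff {U : E d → E d} {c : E d} {a : ℝ} (ha : a < 1 / 2)
    (hU : ∀ z, a < ‖z - c‖ → U z = 0) (hc : ContDiff ℝ 1 U) :
    ContDiff ℝ 1 (fun z => U (loc c (proj z))) := by
  rw [contDiff_iff_contDiffAt]
  intro z0
  refine ContDiffAt.congr_of_eventuallyEq ?_ (periodize_eventually ha hU z0)
  exact (hc.comp (contDiff_id.sub contDiff_const)).contDiffAt

theorem periodize_hasFDerivAt {U : E d → E d} {c : E d} {a : ℝ} (ha : a < 1 / 2)
    (hU : ∀ z, a < ‖z - c‖ → U z = 0) (hc : ContDiff ℝ 1 U) (z0 : E d) :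
    HasFDerivAt (fun z => U (loc c (proj z))) (fderiv ℝ U (loc c (proj z0))) z0 := by
  refine HasFDerivAt.congr_of_eventuallyEq ?_ (periodize_eventually ha hU z0)
  have h1 : HasFDerivAt U (fderiv ℝ U (loc c (proj z0))) (z0 - (z0 - loc c (proj z0))) := by
    rw [sub_sub_cancel]; exact (hc.differentiable one_ne_zero _).hasFDerivAt
  simpa using h1.comp z0 ((hasFDerivAt_id z0).sub_const (z0 - loc c (proj z0)))

theorem perturb (f : Diff1 d) {ε : ℝ} (hε : 0 < ε) :
    ∃ η > 0, ∀ (c : E d) (a : ℝ) (U : E d → E d), a < 1 / 2 → (∀ z, a < ‖z - c‖ → U z = 0) →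
      ContDiff ℝ 1 U → (∀ z, ‖U z‖ ≤ η) → (∀ z, ‖fderiv ℝ U z‖ ≤ η) →
      ∃ g : Diff1 d, Close ε f g ∧ ∀ x, g.1 x = f.1 x + proj (U (loc c x)) := by
  obtain ⟨K, hK1, hK⟩ := exists_D_bound f⁻¹
  have hK0 : 0 < K := by linarith
  refine ⟨min (ε / 2) (1 / (2 * K)), lt_min (half_pos hε) (by positivity),
    fun c a U ha hU hc h0 h1 => ?_⟩
  obtain ⟨F, hF⟩ := exists_lift f
  obtain ⟨G, hG, -, -⟩ := hF.exists_inv
  have hw := periodize_contDiff ha hU hc
  have hw' := periodize_hasFDerivAt ha hU hc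
  set W : Tor d → E d := fun x => U (loc c ((f⁻¹).1 x)) with hW
  have e1 : W ∘ proj = (fun z => U (loc c (proj z))) ∘ G := by
    funext z; simp only [hW, Function.comp_apply, hG.eq]
  obtain ⟨k, hk⟩ := exists_small_diffeo (W := W) (by rw [e1]; exact hw.comp hG.cd) (fun z => by
    rw [e1, ((hw' (G z)).comp z (hG.hasFDerivAt z)).fderiv]
    refine (ContinuousLinearMap.opNorm_comp_le _ _).trans ?_
    calc _ ≤ (1 / (2 * K)) * K :=
          mul_le_mul ((h1 _).trans (min_le_right _ _)) (hK _) (norm_nonneg _) (by positivity)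
      _ = 1 / 2 := by field_simp)
  have e2 : ∀ x, (k * f).1 x = f.1 x + proj (U (loc c x)) := fun x => by
    rw [mul_ap, hk]; simp only [hW, inv_ap]
  have hL : Lift (k * f) (fun z => F z + U (loc c (proj z))) :=
    ⟨hF.cd.add hw, fun z => by rw [proj_add, hF.eq, e2]⟩
  refine ⟨k * f, fun x => ⟨?_, ?_⟩, e2⟩
  · rw [e2, dist_self_add_right]
    exact (norm_proj_le _).trans_lt (((h0 _).trans (min_le_left _ _)).trans_lt (half_lt_self hε))
  · obtain ⟨z, rfl⟩ := proj_surj x
    have := (hL.hasFDerivAt z).unique ((hF.hasFDerivAt z).add (hw' z))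
    rw [this, sub_add_cancel_left, norm_neg]
    exact ((h1 _).trans (min_le_left _ _)).trans_lt (half_lt_self hε)

section DisjSum

variable {ι X G : Type*} [NormedAddCommGroup G] {B : ι → Set X}

theorem tsum_disj_mem (hB : Pairwise (Function.onFun Disjoint B)) {v : ι → X → G}
    (hv : ∀ i z, z ∉ B i → v i z = 0) {i : ι} {z : X} (hz : z ∈ B i) :
    ∑' j, v j z = v i z :=
  tsum_eq_single i fun j hj => hv j z fun h => Set.disjoint_left.1 (hB hj) h hz

theorem tsum_disj_notMem {v : ι → X → G}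
    (hv : ∀ i z, z ∉ B i → v i z = 0) {z : X} (hz : ∀ i, z ∉ B i) : ∑' j, v j z = 0 := by
  simp [fun j => hv j z (hz j)]

theorem tsum_disj_bound (hB : Pairwise (Function.onFun Disjoint B)) {v : ι → X → G}
    (hv : ∀ i z, z ∉ B i → v i z = 0) {η : ℝ} (hη : 0 ≤ η) (hb : ∀ i z, ‖v i z‖ ≤ η) (z : X) :
    ‖∑' j, v j z‖ ≤ η := by
  by_cases h : ∃ i, z ∈ B i
  · obtain ⟨i, hi⟩ := h
    rw [tsum_disj_mem hB hv hi]; exact hb i z
  · push Not at h
    rw [tsum_disj_notMem hv h, norm_zero]; exact hη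

theorem hasSum_disj (hB : Pairwise (Function.onFun Disjoint B)) {v : ι → X → G}
    (hv : ∀ i z, z ∉ B i → v i z = 0) (z : X) : HasSum (fun j => v j z) (∑' j, v j z) := by
  by_cases h : ∃ i, z ∈ B i
  · obtain ⟨i, hi⟩ := h
    rw [tsum_disj_mem hB hv hi]
    exact hasSum_single i fun j hj => hv j z fun h => Set.disjoint_left.1 (hB hj) h hi
  · push Not at h
    rw [tsum_disj_notMem hv h]
    simp [fun j => hv j z (h j)]

theorem tendstoUniformly_disj (hB : Pairwise (Function.onFun Disjoint B)) {v : ι → X → G}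
    (hv : ∀ i z, z ∉ B i → v i z = 0) {e : ι → ℝ} (he : Tendsto e cofinite (𝓝 0))
    (hb : ∀ i z, ‖v i z‖ ≤ e i) :
    TendstoUniformly (fun (S : Finset ι) z => ∑ j ∈ S, v j z) (fun z => ∑' j, v j z) atTop := by
  classical
  rw [Metric.tendstoUniformly_iff]
  intro ε hε
  have h1 : {i | ¬ e i < ε}.Finite := by
    have := he.eventually (gt_mem_nhds hε)
    exact this
  filter_upwards [eventually_ge_atTop h1.toFinset] with S hS z
  by_cases h : ∃ i, z ∈ B i
  · obtain ⟨i, hi⟩ := h
    rw [tsum_disj_mem hB hv hi]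
    have h0 : ∀ j, j ≠ i → v j z = 0 :=
      fun j hj => hv j z fun h => Set.disjoint_left.1 (hB hj) h hi
    by_cases hiS : i ∈ S
    · rw [Finset.sum_eq_single i (fun j _ hj => h0 j hj) (fun h => absurd hiS h)]
      simpa using hε
    · rw [Finset.sum_eq_zero (fun j hj => h0 j (fun h => hiS (h ▸ hj))), dist_zero_right]
      refine (hb i z).trans_lt ?_
      by_contra hc
      exact hiS (hS (h1.mem_toFinset.2 hc))
  · push Not at h
    rw [tsum_disj_notMem hv h, Finset.sum_eq_zero (fun j _ => hv j z (h j))]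
    simpa using hε

end DisjSum

theorem disj_sum {ι : Type*} {B : ι → Set (E d)} (hB : Pairwise (Function.onFun Disjoint B))
    {u : ι → E d → E d} (hu : ∀ i, ContDiff ℝ 1 (u i)) (h0 : ∀ i z, z ∉ B i → u i z = 0)
    (h1 : ∀ i z, z ∉ B i → fderiv ℝ (u i) z = 0) {e : ι → ℝ} (he : Tendsto e cofinite (𝓝 0))
    (hb : ∀ i z, ‖fderiv ℝ (u i) z‖ ≤ e i) :
    ContDiff ℝ 1 (fun z => ∑' i, u i z) ∧
      ∀ z, fderiv ℝ (fun z => ∑' i, u i z) z = ∑' i, fderiv ℝ (u i) z := by
  have hT := tendstoUniformly_disj (v := fun i z => fderiv ℝ (u i) z) hB h1 he hb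
  have hD : ∀ z, HasFDerivAt (fun z => ∑' i, u i z) (∑' i, fderiv ℝ (u i) z) z := by
    intro z
    refine hasFDerivAt_of_tendstoUniformly (f := fun (S : Finset ι) z => ∑ j ∈ S, u j z) hT
      (fun S x => ?_) (fun x => hasSum_disj hB h0 x) z
    exact HasFDerivAt.fun_sum fun j _ => ((hu j).differentiable one_ne_zero x).hasFDerivAt
  refine ⟨?_, fun z => (hD z).fderiv⟩
  rw [contDiff_one_iff_hasFDerivAt]
  refine ⟨_, ?_, hD⟩
  refine hT.continuous (Eventually.frequently (Eventually.of_forall fun S => ?_))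
  exact continuous_finsetSum _ fun j _ => (hu j).continuous_fderiv one_ne_zero

end Pool.Agent.H581Z
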