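import Pool.Agent.H581Z.Aff1
import Pool.Agent.H581Z.Perturb

open Set Filter Topology Real

noncomputable section

namespace Pool.Agent.H581Z

variable {d : ℕ}

theorem bump_bound (β : ContDiffBump (0 : E d)) : ∃ K : ℝ, 0 ≤ K ∧ ∀ z, ‖fderiv ℝ β z‖ ≤ K := by
  have h1 : ContDiff ℝ 1 β := β.contDiff
  obtain ⟨K, hK⟩ := (β.hasCompactSupport.fderiv (𝕜 := ℝ)).exists_bound_of_continuous
    (h1.continuous_fderiv one_ne_zero)
  exact ⟨max K 0, le_max_right _ _, fun z => (hK z).trans (le_max_left _ _)⟩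

theorem tendsto_abs_cofinite : Tendsto (fun n : ℤ => |(n : ℝ)|) cofinite atTop :=
  (tendsto_norm_cocompact_atTop (E := ℝ)).comp Int.tendsto_coe_cofinite

theorem model {e : E d} (he : e ≠ 0) : ∃ R : ℝ, 0 < R ∧ ∀ η > 0,
    ∃ (a b : ℤ → E d → ℝ) (ε : ℤ → ℝ), Tendsto ε cofinite (𝓝 0) ∧ (∀ n, 0 ≤ ε n ∧ ε n ≤ η) ∧
      (∀ n, ContDiff ℝ 1 (a n) ∧ ContDiff ℝ 1 (b n)) ∧
      (∀ n v, |a n v| ≤ ε n ∧ |b n v| ≤ ε n ∧ ‖fderiv ℝ (a n) v‖ ≤ ε n ∧
        ‖fderiv ℝ (b n) v‖ ≤ ε n) ∧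
      (∀ n v, R ≤ ‖v‖ → a n v = 0 ∧ b n v = 0) ∧ (∀ n, a n 0 = 0 ∧ b n 0 = 0) ∧
      (∀ n v, a n v + b (n + 1) (v + a n v • e) = b n v + a n (v + b n v • e)) ∧
      ∃ v, b 0 v ≠ 0 := by
  obtain ⟨i, hi⟩ : ∃ i, e i ≠ 0 := by
    by_contra h
    push Not at h
    exact he (funext h)
  set l : E d →L[ℝ] ℝ := (e i)⁻¹ • ContinuousLinearMap.proj i with hl
  have hle : l e = 1 := by simp [hl, hi]
  clear_value l
  set Q : E d →L[ℝ] E d := ContinuousLinearMap.id ℝ _ - l.smulRight e with hQ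
  have hQv : ∀ v, Q v = v - l v • e := fun v => by simp [hQ]
  clear_value Q
  have hQt : ∀ v (t : ℝ), Q (v + t • e) = Q v := fun v t => by
    rw [map_add, map_smul, hQv e, hle]; simp
  have hlt : ∀ v (t : ℝ), l (v + t • e) = l v + t := fun v t => by
    rw [map_add, map_smul, hle]; simp
  let β : ContDiffBump (0 : E d) := ⟨1, 2, by norm_num, by norm_num⟩
  let γ : ContDiffBump (0 : E d) := ⟨2, 3, by norm_num, by norm_num⟩
  obtain ⟨K1, hK10, hK1⟩ := bump_bound β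
  obtain ⟨K2, hK20, hK2⟩ := bump_bound γ
  set K : ℝ := 1 + ‖l‖ + (K1 + K2) * ‖Q‖ with hK
  have hKa : 1 ≤ K := by
    have : 0 ≤ ‖l‖ + (K1 + K2) * ‖Q‖ := by positivity
    linarith
  have hKl : ‖l‖ ≤ K := by
    have : 0 ≤ (K1 + K2) * ‖Q‖ := by positivity
    linarith
  have hβc : ContDiff ℝ 1 β := β.contDiff
  have hγc : ContDiff ℝ 1 γ := γ.contDiff
  have hβD : ∀ v, HasFDerivAt (fun v => β (Q v)) (fderiv ℝ β (Q v) ∘L Q) v := fun v =>
    (hβc.differentiable one_ne_zero _).hasFDerivAt.comp v Q.hasFDerivAt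
  have hγD : ∀ v, HasFDerivAt (fun v => γ (Q v)) (fderiv ℝ γ (Q v) ∘L Q) v := fun v =>
    (hγc.differentiable one_ne_zero _).hasFDerivAt.comp v Q.hasFDerivAt
  have hβN : ∀ v, ‖fderiv ℝ β (Q v) ∘L Q‖ ≤ K := fun v => by
    refine (ContinuousLinearMap.opNorm_comp_le _ _).trans ?_
    have := mul_le_mul_of_nonneg_right (hK1 (Q v)) (norm_nonneg Q)
    nlinarith [norm_nonneg l, mul_nonneg hK20 (norm_nonneg Q)]
  have hγN : ∀ v, ‖fderiv ℝ γ (Q v) ∘L Q‖ ≤ K := fun v => by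
    refine (ContinuousLinearMap.opNorm_comp_le _ _).trans ?_
    have := mul_le_mul_of_nonneg_right (hK2 (Q v)) (norm_nonneg Q)
    nlinarith [norm_nonneg l, mul_nonneg hK10 (norm_nonneg Q)]
  refine ⟨3 + 5 * ‖e‖, by positivity, fun η hη => ?_⟩
  set Λ : ℝ := 2 + 32 * K / η with hΛ
  have hΛ2 : 2 ≤ Λ := by
    have : 0 ≤ 32 * K / η := by positivity
    linarith
  set lam : ℤ → ℝ := fun n => Λ + 1 + |(n : ℝ)| with hlam
  set δ : ℤ → ℝ := fun n => (Λ + |(n : ℝ)|)⁻¹ with hδ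
  set c : ℤ → ℝ := fun n => lam n / lam (n + 1) with hc
  have hlam0 : ∀ n, 0 < lam n := fun n => by simp only [hlam]; positivity
  have hδ0 : ∀ n, 0 < δ n := fun n => by simp only [hδ]; positivity
  have hδ2 : ∀ n, δ n ≤ 1 / 2 := fun n => by
    simp only [hδ]
    rw [one_div]
    exact inv_anti₀ (by norm_num) (by linarith [abs_nonneg (n : ℝ)])
  have habs : ∀ n : ℤ, |(|(n : ℝ)| - |((n + 1 : ℤ) : ℝ)|)| ≤ 1 := fun n => by
    have := abs_abs_sub_abs_le_abs_sub (n : ℝ) ((n + 1 : ℤ) : ℝ)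
    simpa using this
  have hl1 : ∀ n, (lam n)⁻¹ ≤ δ n := fun n =>
    inv_anti₀ (by positivity) (by simp only [hlam]; linarith)
  have hl2 : ∀ n, (lam (n + 1))⁻¹ ≤ δ n := fun n =>
    inv_anti₀ (by positivity) (by simp only [hlam]; linarith [(abs_le.1 (habs n)).2])
  have hc1 : ∀ n, |c n - 1| ≤ δ n := fun n => by
    have : c n - 1 = (|(n : ℝ)| - |((n + 1 : ℤ) : ℝ)|) * (lam (n + 1))⁻¹ := by
      have := (hlam0 (n + 1)).ne'
      simp only [hc]
      field_simp
      simp only [hlam]; ring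
    rw [this, abs_mul, abs_of_pos (inv_pos.2 (hlam0 _))]
    calc _ ≤ 1 * δ n := mul_le_mul (habs n) (hl2 n) (inv_pos.2 (hlam0 _)).le zero_le_one
      _ = _ := one_mul _
  have hcl : ∀ n, 1 / 2 ≤ c n := fun n => by linarith [(abs_le.1 (hc1 n)).1, hδ2 n]
  have hcu : ∀ n, c n ≤ 2 := fun n => by linarith [(abs_le.1 (hc1 n)).2, hδ2 n]
  have hm1 : ∀ n, mm (c n) 0 ≤ 2 * δ n := fun n => by
    simp only [mm, abs_zero, add_zero]; linarith [hc1 n]
  have hm2 : ∀ n v, mm 1 ((lam n)⁻¹ * β (Q v)) ≤ δ n := fun n v => by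
    simp only [mm, sub_self, abs_zero, mul_zero, zero_add]
    rw [abs_of_nonneg (mul_nonneg (inv_pos.2 (hlam0 _)).le β.nonneg)]
    exact (mul_le_of_le_one_right (inv_pos.2 (hlam0 _)).le β.le_one).trans (hl1 n)
  have hδK : ∀ n, δ n ≤ K * δ n := fun n => le_mul_of_one_le_left (hδ0 n).le hKa
  have hx : ∀ v, HasFDerivAt (fun v => l v - 3) l v := fun v => l.hasFDerivAt.sub_const 3
  refine ⟨fun n v => γ (Q v) * (Phi (c n) 0 (l v - 3) - (l v - 3)),
    fun n v => Phi 1 ((lam n)⁻¹ * β (Q v)) (l v - 3) - (l v - 3), fun n => 32 * K * δ n,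
    ?_, fun n => ⟨by have := hδ0 n; positivity, ?_⟩, fun n => ⟨?_, ?_⟩, fun n v => ⟨?_, ?_, ?_, ?_⟩,
    fun n v hv => ?_, fun n => ?_, fun n v => ?_, ⟨(3 : ℝ) • e, ?_⟩⟩
  · have h1 : Tendsto δ cofinite (𝓝 0) :=
      tendsto_inv_atTop_zero.comp (tendsto_atTop_add_const_left _ Λ tendsto_abs_cofinite)
    simpa using h1.const_mul (32 * K)
  · have h1 : δ n ≤ (32 * K / η)⁻¹ :=
      inv_anti₀ (by positivity) (by linarith [abs_nonneg (n : ℝ)])
    calc 32 * K * δ n ≤ 32 * K * (32 * K / η)⁻¹ := by gcongr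
      _ = η := by field_simp
  · refine (hγc.comp Q.contDiff).mul ?_
    exact (u_contDiff (hcl n) (hcu n)).1.comp
      (contDiff_const.prodMk (l.contDiff.sub contDiff_const))
  · exact (u_contDiff (c := 1) (by norm_num) (by norm_num)).1.comp
      ((contDiff_const.mul (hβc.comp Q.contDiff)).prodMk (l.contDiff.sub contDiff_const))
  · rw [abs_mul, abs_of_nonneg γ.nonneg]
    have h1 := (Phi_sub_le (hcl n) 0 (l v - 3)).trans (hm1 n)
    have h2 := mul_le_of_le_one_left (abs_nonneg (Phi (c n) 0 (l v - 3) - (l v - 3)))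
      (γ.le_one (x := Q v))
    linarith [hδK n, hδ0 n]
  · have h1 := (Phi_sub_le (c := 1) (by norm_num) _ (l v - 3)).trans (hm2 n v)
    linarith [hδK n, hδ0 n]
  · have h1 := ((u_contDiff (hcl n) (hcu n)).2 (0, l v - 3)).comp v
      ((hasFDerivAt_const (0 : ℝ) v).prodMk (hx v))
    have h2 := (hγD v).mul h1
    have h3 : uD (c n) (0, l v - 3) ∘L (0 : E d →L[ℝ] ℝ).prod l = px (c n) 0 (l v - 3) • l := by
      ext1 w; simp [uD]
    rw [h3] at h2
    have h4 : fderiv ℝ (fun v => γ (Q v) * (Phi (c n) 0 (l v - 3) - (l v - 3))) v = _ := h2.fderiv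
    rw [h4]
    refine (norm_add_le _ _).trans ?_
    rw [norm_smul, norm_smul, norm_smul, Real.norm_eq_abs, Real.norm_eq_abs, Real.norm_eq_abs,
      abs_of_nonneg γ.nonneg]
    have h5 := (px_le (hcl n) (hcu n) ((hm1 n).trans (by linarith [hδ2 n])) (l v - 3)).trans
      (mul_le_mul_of_nonneg_left (hm1 n) (by norm_num))
    have h6 := (Phi_sub_le (hcl n) 0 (l v - 3)).trans (hm1 n)
    have := hδ0 n
    calc _ ≤ 1 * (15 * (2 * δ n) * K) + (2 * δ n) * K := by
          gcongr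
          · exact γ.le_one
          · exact h6
          · exact hγN v
      _ = _ := by ring
  · have h1 := ((u_contDiff (c := 1) (by norm_num) (by norm_num)).2
      ((lam n)⁻¹ * β (Q v), l v - 3)).comp v (((hβD v).const_mul (lam n)⁻¹).prodMk (hx v))
    have h3 : uD 1 ((lam n)⁻¹ * β (Q v), l v - 3) ∘L
        ((lam n)⁻¹ • (fderiv ℝ β (Q v) ∘L Q)).prod l =
        ps 1 ((lam n)⁻¹ * β (Q v)) (l v - 3) • ((lam n)⁻¹ • (fderiv ℝ β (Q v) ∘L Q)) +
        px 1 ((lam n)⁻¹ * β (Q v)) (l v - 3) • l := by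
      ext1 w; simp [uD]
    rw [h3] at h1
    have h4 : fderiv ℝ (fun v => Phi 1 ((lam n)⁻¹ * β (Q v)) (l v - 3) - (l v - 3)) v = _ :=
      h1.fderiv
    rw [h4]
    refine (norm_add_le _ _).trans ?_
    rw [norm_smul, norm_smul, norm_smul, Real.norm_eq_abs, Real.norm_eq_abs, Real.norm_eq_abs,
      abs_of_pos (inv_pos.2 (hlam0 n))]
    have h5 := (px_le (c := 1) (by norm_num) (by norm_num)
      ((hm2 n v).trans (by linarith [hδ2 n])) (l v - 3)).trans
      (mul_le_mul_of_nonneg_left (hm2 n v) (by norm_num))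
    have := hδ0 n
    have := (inv_pos.2 (hlam0 n))
    calc _ ≤ 1 * (δ n * K) + (15 * δ n) * K := by
          gcongr
          · exact ps_le _ _ _
          · exact hl1 n
          · exact hβN v
      _ ≤ _ := by nlinarith
  · by_cases h : |l v - 3| < π / 2
    · have h1 : |l v| ≤ 5 := by
        have := pi_le_four
        have h2 := abs_lt.1 h
        rw [abs_le]; constructor <;> linarith [h2.1, h2.2]
      have h2 : 3 ≤ ‖Q v‖ := by
        have e1 : v = Q v + l v • e := by rw [hQv]; abel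
        have e2 : ‖v‖ ≤ ‖Q v‖ + |l v| * ‖e‖ := by
          conv_lhs => rw [e1]
          refine (norm_add_le _ _).trans ?_
          rw [norm_smul, Real.norm_eq_abs]
        nlinarith [norm_nonneg e]
      have h3 : γ (Q v) = 0 := γ.zero_of_le_dist (by simpa using h2)
      have h4 : β (Q v) = 0 := β.zero_of_le_dist (by simp only [dist_zero_right]; linarith)
      simp only [h3, h4, zero_mul, mul_zero, Phi_one, sub_self, and_self]
    · simp only [Phi_out h, sub_self, mul_zero, and_self]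
  · have h : ¬ |l 0 - 3| < π / 2 := by
      have := pi_le_four
      rw [map_zero, zero_sub, abs_neg, abs_of_pos (by norm_num : (0 : ℝ) < 3)]
      linarith
    simp only [Phi_out h, sub_self, mul_zero, and_self]
  · simp only [hQt, hlt]
    by_cases h : β (Q v) = 0
    · simp only [h, mul_zero, Phi_one, sub_self, add_zero, zero_add]
    · have h1 : γ (Q v) = 1 := by
        refine γ.one_of_mem_closedBall ?_
        by_contra h2
        refine h (β.zero_of_le_dist ?_)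
        rw [Metric.mem_closedBall, not_le] at h2
        exact h2.le
      simp only [h1, one_mul]
      have e1 : ∀ y : ℝ, l v + (y - (l v - 3)) - 3 = y := fun y => by ring
      rw [e1, e1, Phi_comp, Phi_comp]
      have e2 : c n * ((lam n)⁻¹ * β (Q v)) + 0 = 1 * 0 + (lam (n + 1))⁻¹ * β (Q v) := by
        have := (hlam0 n).ne'
        have := (hlam0 (n + 1)).ne'
        simp only [hc]; field_simp; ring
      rw [e2, one_mul, mul_one]
      ring
  · have h1 : Q ((3 : ℝ) • e) = 0 := by simpa using hQt 0 3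
    have h2 : l ((3 : ℝ) • e) - 3 = 0 := by simpa using sub_eq_zero.2 (hlt 0 3)
    have h3 : β 0 = 1 := β.one_of_mem_closedBall (by simp [β])
    simp only [h1, h2, h3, mul_one, sub_zero]
    exact Phi_ne (inv_pos.2 (hlam0 0)).ne'

end Pool.Agent.H581Z
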