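import Pool.Agent.H581Z.Basic

open Set Filter Topology

noncomputable section

namespace Pool.Agent.H581Z

/-- Lifts of degree one circle maps, affine near `0` and near `1/2`. -/
structure Step (Ψ : ℝ → ℝ) (a b α β : ℝ) : Prop where
  cd : ContDiff ℝ 1 Ψ
  dl : ∀ t, α ≤ deriv Ψ t
  add_one : ∀ t, Ψ (t + 1) = Ψ t + 1
  neg : ∀ t, Ψ (-t) = -Ψ t
  lin0 : ∀ t, |t| ≤ a → Ψ t = α * t
  lin1 : ∀ s, |s| ≤ b → Ψ (1 / 2 + s) = 1 / 2 + β * s
  mono : Monotone Ψ
  up : β * b ≤ 1 / 2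
  low : 1 / 2 ≤ β * (1 / 2 - a) + α * a

theorem exists_step {a b α0 : ℝ} (ha : 0 < a) (hb : 0 < b) (hab : a + b < 1 / 2) (h0 : 0 ≤ α0)
    (h1 : α0 ≤ 1) : ∃ Ψ β, 0 < β ∧ Step Ψ a b (α0 * β) β := by
  set w := 1 / 2 - a - b with hw
  have hw0 : 0 < w := by linarith
  set φ : ℝ → ℝ := fun t => α0 + (1 - α0) * max 0 (min 1 ((‖(t : UnitAddCircle)‖ - a) / w)) with hφ
  have hφc : Continuous φ := by
    have : Continuous fun t : ℝ => ‖(t : UnitAddCircle)‖ := (AddCircle.continuous_mk' 1).norm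
    simp only [hφ]; fun_prop
  have hφ0 : ∀ t, α0 ≤ φ t := fun t => by
    have : 0 ≤ (1 - α0) * max 0 (min 1 ((‖(t : UnitAddCircle)‖ - a) / w)) :=
      mul_nonneg (by linarith) (le_max_left _ _)
    simp only [hφ]; linarith
  have hφ1 : ∀ t, φ t ≤ 1 := fun t => by
    have : (1 - α0) * max 0 (min 1 ((‖(t : UnitAddCircle)‖ - a) / w)) ≤ (1 - α0) * 1 :=
      mul_le_mul_of_nonneg_left (max_le zero_le_one (min_le_left _ _)) (by linarith)
    simp only [hφ]; linarith
  have hφp : ∀ t, φ (t + 1) = φ t := fun t => by simp [hφ]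
  have hφn : ∀ t, φ (-t) = φ t := fun t => by simp [hφ]
  have hnm : ∀ t : ℝ, |t| ≤ 1 / 2 → ‖(t : UnitAddCircle)‖ = |t| := fun t ht =>
    (AddCircle.norm_coe_eq_abs_iff (1 : ℝ) one_ne_zero).2 (by simpa using ht)
  have hφa : ∀ t, |t| ≤ a → φ t = α0 := fun t ht => by
    have : (|t| - a) / w ≤ 0 := div_nonpos_of_nonpos_of_nonneg (by linarith) hw0.le
    simp only [hφ]
    rw [hnm t (by linarith), max_eq_left ((min_le_right _ _).trans this), mul_zero, add_zero]
  have hφb' : ∀ t, a + w ≤ |t| → |t| ≤ 1 / 2 → φ t = 1 := fun t ht ht' => by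
    have : 1 ≤ (|t| - a) / w := by rw [le_div_iff₀ hw0]; linarith
    simp only [hφ]
    rw [hnm t ht', min_eq_left this, max_eq_right zero_le_one]; ring
  have hφb : ∀ t, |t - 1 / 2| ≤ b → φ t = 1 := fun t ht => by
    obtain ⟨h2, h3⟩ := abs_le.1 ht
    rcases le_total t (1 / 2) with h | h
    · exact hφb' t (by rw [abs_of_nonneg (by linarith)]; linarith)
        (by rw [abs_of_nonneg (by linarith)]; linarith)
    · have := hφp (t - 1)
      rw [sub_add_cancel] at this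
      rw [this]
      exact hφb' _ (by rw [abs_of_nonpos (by linarith)]; linarith)
        (by rw [abs_of_nonpos (by linarith)]; linarith)
  set Φ : ℝ → ℝ := fun t => ∫ x in (0 : ℝ)..t, φ x with hΦ
  have hD : ∀ t, HasDerivAt Φ (φ t) t := fun t => (hφc.integral_hasStrictDerivAt 0 t).hasDerivAt
  have hΦ0 : Φ 0 = 0 := by simp [hΦ]
  have hmv : ∀ (c s t : ℝ), (∀ x ∈ uIcc s t, φ x = c) → Φ t = Φ s + c * (t - s) := by
    intro c s t h
    have h2 := intervalIntegral.integral_eq_sub_of_hasDerivAt (f := Φ) (a := s) (b := t)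
      (fun x _ => hD x) (hφc.intervalIntegrable _ _)
    rw [intervalIntegral.integral_congr (g := fun _ => c) h] at h2
    simp only [intervalIntegral.integral_const, smul_eq_mul] at h2
    linarith
  have hp : ∀ t, Φ (t + 1) = Φ t + Φ 1 := fun t => by
    have h2 : ∀ t, HasDerivAt (fun t => Φ (t + 1) - Φ t) 0 t := fun t => by
      have := ((hD (t + 1)).comp_add_const t 1).sub (hD t)
      rwa [hφp, sub_self] at this
    have := is_const_of_deriv_eq_zero (fun t => (h2 t).differentiableAt) (fun t => (h2 t).deriv) t 0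
    simp only [zero_add, hΦ0] at this
    linarith
  have hn : ∀ t, Φ (-t) = -Φ t := fun t => by
    have h2 : ∀ t, HasDerivAt (fun t => Φ (-t) + Φ t) 0 t := fun t => by
      have := ((hD (-t)).comp t (hasDerivAt_neg t)).add (hD t)
      rw [hφn] at this
      exact this.congr_deriv (by ring)
    have := is_const_of_deriv_eq_zero (fun t => (h2 t).differentiableAt) (fun t => (h2 t).deriv) t 0
    simp only [neg_zero, hΦ0] at this
    linarith
  have hdf : Differentiable ℝ Φ := fun t => (hD t).differentiableAt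
  have hmono : Monotone Φ := monotone_of_deriv_nonneg hdf
    (fun t => by rw [(hD t).deriv]; linarith [hφ0 t])
  have hl0 : ∀ t, |t| ≤ a → Φ t = α0 * t := fun t ht => by
    rw [hmv α0 0 t (fun x hx => hφa x ?_), hΦ0]
    · ring
    · exact (abs_sub_left_of_mem_uIcc hx).trans (by simpa using ht) |> fun h => by simpa using h
  have hh : Φ (1 / 2) = Φ 1 / 2 := by
    have := hp (-(1 / 2))
    rw [hn] at this
    norm_num at this ⊢
    linarith
  have hl1 : ∀ s, |s| ≤ b → Φ (1 / 2 + s) = Φ 1 / 2 + s := fun s hs => by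
    rw [hmv 1 (1 / 2) (1 / 2 + s) (fun x hx => hφb x ?_), hh]
    · ring
    · exact (abs_sub_left_of_mem_uIcc hx).trans (by simpa using hs)
  have hbI : b ≤ Φ 1 / 2 := by
    have h2 := hl1 (-b) (by rw [abs_neg, abs_of_pos hb])
    have h3 : Φ 0 ≤ Φ (1 / 2 + -b) := hmono (by linarith)
    linarith
  have hI : 0 < Φ 1 := by linarith
  have hlow : Φ 1 / 2 ≤ (1 / 2 - a) + α0 * a := by
    have h2 : Monotone fun t => t - Φ t := monotone_of_deriv_nonneg
      (differentiable_id.sub hdf) (fun t => by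
        have := ((hasDerivAt_id t).sub (hD t)).deriv
        erw [this]; linarith [hφ1 t])
    have h3 := h2 (show a ≤ 1 / 2 by linarith)
    simp only [hh, hl0 a (abs_of_pos ha).le] at h3
    linarith
  have hD' : ∀ t, HasDerivAt (fun t => (Φ 1)⁻¹ * Φ t) ((Φ 1)⁻¹ * φ t) t := fun t =>
    (hD t).const_mul _
  refine ⟨fun t => (Φ 1)⁻¹ * Φ t, (Φ 1)⁻¹, inv_pos.2 hI, ?_, fun t => ?_, fun t => ?_, fun t => ?_,
    fun t ht => ?_, fun s hs => ?_, hmono.const_mul (inv_pos.2 hI).le, ?_, ?_⟩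
  · refine contDiff_const.mul (contDiff_one_iff_deriv.2 ⟨hdf, ?_⟩)
    have : deriv Φ = φ := funext fun t => (hD t).deriv
    rw [this]; exact hφc
  · rw [(hD' t).deriv, mul_comm]
    exact mul_le_mul_of_nonneg_left (hφ0 t) (inv_pos.2 hI).le
  · simp only [hp]; field_simp
  · simp only [hn]; ring
  · simp only [hl0 t ht]; ring
  · simp only [hl1 s hs]; field_simp
  · rw [inv_mul_le_iff₀ hI]; linarith
  · have : (Φ 1)⁻¹ * (1 / 2 - a) + α0 * (Φ 1)⁻¹ * a = (Φ 1)⁻¹ * (1 / 2 - a + α0 * a) := by ring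
    rw [this, le_inv_mul_iff₀ hI]; linarith

namespace Step

variable {Ψ : ℝ → ℝ} {a b α β : ℝ}

theorem add_int (h : Step Ψ a b α β) (t : ℝ) (n : ℤ) : Ψ (t + n) = Ψ t + n := by
  induction n using Int.induction_on with
  | zero => simp
  | succ n ih => push_cast at ih ⊢; rw [← add_assoc, h.add_one, ih, add_assoc]
  | pred n ih =>
    push_cast at ih ⊢
    have := h.add_one (t + (-n - 1))
    rw [show t + (-(n : ℝ) - 1) + 1 = t + -n by ring, ih] at this
    linarith

theorem zero (h : Step Ψ a b α β) : Ψ 0 = 0 := by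
  have := h.neg 0
  rw [neg_zero] at this
  linarith

theorem hasDerivAt (h : Step Ψ a b α β) (t : ℝ) : HasDerivAt Ψ (deriv Ψ t) t :=
  (h.cd.differentiable one_ne_zero t).hasDerivAt

theorem deriv0 (h : Step Ψ a b α β) {t : ℝ} (ht : |t| < a) : deriv Ψ t = α := by
  have : Ψ =ᶠ[𝓝 t] fun t => α * t := by
    filter_upwards [continuous_abs.continuousAt.eventually_lt continuousAt_const ht] with s hs
      using h.lin0 s hs.le
  rw [this.deriv_eq]; simp

theorem deriv1 (h : Step Ψ a b α β) {t : ℝ} (ht : |t - 1 / 2| < b) : deriv Ψ t = β := by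
  have hc : Continuous fun t : ℝ => |t - 1 / 2| := by fun_prop
  have : Ψ =ᶠ[𝓝 t] fun t => 1 / 2 + β * (t - 1 / 2) := by
    filter_upwards [hc.continuousAt.eventually_lt continuousAt_const ht] with s hs
    rw [← h.lin1 _ hs.le]; congr 1; ring
  rw [this.deriv_eq]
  exact ((((hasDerivAt_id t).sub_const (1 / 2)).const_mul β).const_add (1 / 2)).deriv.trans
    (mul_one _)

theorem small (h : Step Ψ a b α β) (hb : 0 ≤ b) {t : ℝ} (ht : |t| ≤ 1 / 2 - b) :
    |Ψ t| ≤ 1 / 2 - β * b := by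
  have h1 := h.lin1 (-b) (by rw [abs_neg, abs_of_nonneg hb])
  obtain ⟨h2, h3⟩ := abs_le.1 ht
  have h4 := h.mono (show t ≤ 1 / 2 + -b by linarith)
  have h5 := h.mono (show -t ≤ 1 / 2 + -b by linarith)
  rw [h.neg] at h5
  rw [abs_le]; constructor <;> linarith

theorem exists_inv (h : Step Ψ a b α β) (hα : 0 < α) :
    ∃ Θ : ℝ → ℝ, ContDiff ℝ 1 Θ ∧ (∀ t, Θ (Ψ t) = t) ∧ ∀ t, Ψ (Θ t) = t := by
  have hm : StrictMono Ψ := strictMono_of_deriv_pos fun t => hα.trans_le (h.dl t)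
  have hs : Function.Surjective Ψ := fun y => by
    refine intermediate_value_univ (⌊y⌋ : ℝ) (⌊y⌋ + 1) h.cd.continuous ⟨?_, ?_⟩
    · have := h.add_int 0 ⌊y⌋
      rw [zero_add, h.zero, zero_add] at this
      rw [this]; exact Int.floor_le y
    · have := h.add_int 0 ⌊y⌋
      rw [zero_add, h.zero, zero_add] at this
      rw [h.add_one, this]; exact (Int.lt_floor_add_one y).le
  let H := (hm.orderIsoOfSurjective Ψ hs).toHomeomorph
  exact ⟨H.symm, H.contDiff_symm_deriv (fun t => (hα.trans_le (h.dl t)).ne') h.hasDerivAt h.cd,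
    H.symm_apply_apply, H.apply_symm_apply⟩

end Step

theorem coe_congr {Ψ : ℝ → ℝ} (h : ∀ t (n : ℤ), Ψ (t + n) = Ψ t + n) {s t : ℝ}
    (hst : (s : UnitAddCircle) = t) : (Ψ s : UnitAddCircle) = Ψ t := by
  have h0 : ((s - t : ℝ) : UnitAddCircle) = 0 := by rw [AddCircle.coe_sub, hst, sub_self]
  obtain ⟨n, hn⟩ := coe_eq_zero_int h0
  have : s = t + n := by linarith
  rw [this, h, AddCircle.coe_add, coe_int, add_zero]

theorem inv_add_int {Ψ Θ : ℝ → ℝ} (h : ∀ t (n : ℤ), Ψ (t + n) = Ψ t + n) (h1 : ∀ t, Θ (Ψ t) = t)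
    (h2 : ∀ t, Ψ (Θ t) = t) (t : ℝ) (n : ℤ) : Θ (t + n) = Θ t + n := by
  rw [← h1 (Θ t + n), h, h2]

theorem exists_diff_of_lift {d : ℕ} {F G : E d → E d} (hF : ContDiff ℝ 1 F) (hG : ContDiff ℝ 1 G)
    (h1 : ∀ z, G (F z) = z) (h2 : ∀ z, F (G z) = z)
    (h3 : ∀ z z', proj z = proj z' → proj (F z) = proj (F z'))
    (h4 : ∀ z z', proj z = proj z' → proj (G z) = proj (G z')) :
    ∃ f : Diff1 d, Lift f F ∧ Lift f⁻¹ G := by
  have e1 : ∀ z, proj (F z) = proj (F fun i => Quotient.out (proj z i)) := fun z =>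
    h3 _ _ (proj_out _).symm
  have e2 : ∀ z, proj (G z) = proj (G fun i => Quotient.out (proj z i)) := fun z =>
    h4 _ _ (proj_out _).symm
  let e : Equiv.Perm (Tor d) := ⟨fun x => proj (F fun i => Quotient.out (x i)),
    fun x => proj (G fun i => Quotient.out (x i)),
    fun x => by simp only; rw [← e2, h1, proj_out], fun x => by simp only; rw [← e1, h2, proj_out]⟩
  exact ⟨⟨e, ⟨F, hF, e1⟩, ⟨G, hG, e2⟩⟩, ⟨hF, e1⟩, ⟨hG, e2⟩⟩

end Pool.Agent.H581Z
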