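import Pool.Agent.H581Z.Basic

open Set Filter Topology

noncomputable section

namespace Pool.Agent.H581Z

variable {d : ℕ}

/-- The spectral property used for the derivative at the sink. -/
def Spec (A : E d →L[ℝ] E d) : Prop :=
  ∃ (μ ν K : ℝ) (W : Submodule ℝ (E d)) (Pr : E d →L[ℝ] E d), 0 < μ ∧ μ < 1 ∧ 0 < ν ∧ 0 < K ∧
    d < 2 * Module.finrank ℝ W ∧ Pr ≠ 0 ∧ (∀ (n : ℕ) v, ‖(A ^ n) v‖ ≤ K * μ ^ n * ‖v‖) ∧
    (∀ (n : ℕ) v, ν ^ n * ‖v‖ ≤ K * ‖(A ^ n) v‖) ∧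
    (∀ (n : ℕ), ∀ v ∈ W, ‖(A ^ n) v‖ ≤ K * ν ^ n * ‖v‖) ∧
    ∀ v, Pr v ≠ 0 → ∃ c > 0, ∀ n m : ℕ, n < m → c * μ ^ n ≤ ‖(A ^ n) v - (A ^ m) v‖

theorem pow_succ_ap (A : E d →L[ℝ] E d) (n : ℕ) (v : E d) : (A ^ (n + 1)) v = A ((A ^ n) v) := by
  rw [pow_succ']; rfl

theorem pow_comm_ap {A B : E d →L[ℝ] E d} (h : ∀ v, A (B v) = B (A v)) (n : ℕ) (v : E d) :
    (A ^ n) (B v) = B ((A ^ n) v) := by
  induction n with
  | zero => simp
  | succ n ih => rw [pow_succ_ap, pow_succ_ap, ih, h]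

theorem quad_est (A : E d →L[ℝ] E d) {τ δ : ℝ} (h : τ ^ 2 < 4 * δ) :
    ∃ C : ℝ, 1 ≤ C ∧ ∀ w, A (A w) - τ • A w + δ • w = 0 → ∀ n : ℕ,
      ‖(A ^ n) w‖ ≤ C * √δ ^ n * ‖w‖ ∧ √δ ^ n * ‖w‖ ≤ C * ‖(A ^ n) w‖ := by
  have hδ : 0 < δ := by nlinarith [sq_nonneg τ]
  set ω := √(δ - τ ^ 2 / 4) with hω
  have hω0 : 0 < ω := Real.sqrt_pos.2 (by linarith)
  have hω2 : ω ^ 2 = δ - τ ^ 2 / 4 := Real.sq_sqrt (by linarith)
  set J : E d →L[ℝ] E d := ω⁻¹ • (A - (τ / 2) • ContinuousLinearMap.id ℝ (E d)) with hJ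
  have hJv : ∀ v, J v = ω⁻¹ • (A v - (τ / 2) • v) := fun v => by simp [hJ]
  have hAv : ∀ v, A v = (τ / 2) • v + ω • J v := fun v => by
    rw [hJv, smul_smul, mul_inv_cancel₀ hω0.ne', one_smul]; abel
  set z : ℂ := ⟨τ / 2, ω⟩ with hz
  have hzn : ‖z‖ = √δ := by
    rw [Complex.norm_def, Complex.normSq_mk]; congr 1; nlinarith
  refine ⟨1 + ‖J‖, by linarith [norm_nonneg J], fun w hw n => ?_⟩
  have hAJ : A (J w) = (τ / 2) • J w - ω • w := by
    have h1 : A (A w) = τ • A w - δ • w := by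
      rw [← sub_eq_zero, ← hw]; abel
    have h2 : δ = ω ^ 2 + τ ^ 2 / 4 := by linarith
    rw [hJv, map_smul, map_sub, map_smul, h1, h2]
    ext i
    simp only [Pi.smul_apply, Pi.sub_apply, smul_eq_mul]
    field_simp
    ring
  have hJJ : J (J w) = -w := by
    rw [hJv (J w), hAJ]
    ext i
    simp only [Pi.smul_apply, Pi.sub_apply, Pi.neg_apply, smul_eq_mul]
    field_simp
    ring
  have hp : ∀ n : ℕ, (A ^ n) w = (z ^ n).re • w + (z ^ n).im • J w := by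
    intro n
    induction n with
    | zero => simp
    | succ n ih =>
      rw [pow_succ_ap, ih, map_add, map_smul, map_smul, hAJ, hAv w, pow_succ, Complex.mul_re,
        Complex.mul_im]
      ext i
      simp only [hz, Pi.smul_apply, Pi.sub_apply, Pi.add_apply, smul_eq_mul]
      ring
  have h1 : |(z ^ n).re| ≤ √δ ^ n := by
    rw [← hzn, ← norm_pow]; exact Complex.abs_re_le_norm _
  have h2 : |(z ^ n).im| ≤ √δ ^ n := by
    rw [← hzn, ← norm_pow]; exact Complex.abs_im_le_norm _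
  have h3 : (z ^ n).re ^ 2 + (z ^ n).im ^ 2 = (√δ ^ n) ^ 2 := by
    rw [← hzn, ← norm_pow, Complex.sq_norm, Complex.normSq_apply]; ring
  have hpos : 0 < √δ ^ n := pow_pos (Real.sqrt_pos.2 hδ) n
  have key : ∀ (p q : ℝ) (v : E d), |p| ≤ √δ ^ n → |q| ≤ √δ ^ n →
      ‖p • v + q • J v‖ ≤ (1 + ‖J‖) * √δ ^ n * ‖v‖ := fun p q v hp hq => by
    refine (norm_add_le _ _).trans ?_
    rw [norm_smul, norm_smul, Real.norm_eq_abs, Real.norm_eq_abs]
    have := J.le_opNorm v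
    calc _ ≤ √δ ^ n * ‖v‖ + √δ ^ n * (‖J‖ * ‖v‖) := by gcongr
      _ = _ := by ring
  refine ⟨by rw [hp]; exact key _ _ w h1 h2, ?_⟩
  have h4 : (z ^ n).re • (A ^ n) w + (-(z ^ n).im) • J ((A ^ n) w) = (√δ ^ n) ^ 2 • w := by
    rw [hp, map_add, map_smul, map_smul, hJJ, ← h3]
    ext i
    simp only [Pi.smul_apply, Pi.add_apply, Pi.neg_apply, smul_eq_mul]
    ring
  have h5 := key _ (-(z ^ n).im) ((A ^ n) w) h1 (by rwa [abs_neg])
  rw [h4, norm_smul, Real.norm_eq_abs, abs_of_pos (by positivity)] at h5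
  refine le_of_mul_le_mul_left ?_ hpos
  nlinarith

theorem cubic_est (A : E d →L[ℝ] E d) {μ τ δ : ℝ} (h : τ ^ 2 < 4 * δ) (hμ : 0 < μ)
    (hδμ : δ ≤ μ ^ 2) (P : E d →L[ℝ] E d) (hP : ∀ w, P w = A (A w) - τ • A w + δ • w)
    (hAP : ∀ w, A (P w) = μ • P w) :
    ∃ K : ℝ, 0 < K ∧ (∀ (n : ℕ) v, ‖(A ^ n) v‖ ≤ K * μ ^ n * ‖v‖) ∧
      (∀ (n : ℕ) v, √δ ^ n * ‖v‖ ≤ K * ‖(A ^ n) v‖) ∧
      (∀ (n : ℕ) v, P v = 0 → ‖(A ^ n) v‖ ≤ K * √δ ^ n * ‖v‖) ∧
      ∀ v, P (v - (μ ^ 2 - τ * μ + δ)⁻¹ • P v) = 0 := by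
  obtain ⟨C, hC, hq⟩ := quad_est A h
  have hp : 0 < μ ^ 2 - τ * μ + δ := by nlinarith [sq_nonneg (μ - τ / 2)]
  set p := μ ^ 2 - τ * μ + δ
  have hPP : ∀ v, P (P v) = p • P v := fun v => by
    rw [hP (P v), hAP, map_smul, hAP]
    ext i
    simp only [p, Pi.smul_apply, Pi.sub_apply, Pi.add_apply, smul_eq_mul]
    ring
  have hPA : ∀ v, A (P v) = P (A v) := fun v => by
    rw [hP, hP]; simp
  set π1 : E d →L[ℝ] E d := p⁻¹ • P with hπ1
  set π2 : E d →L[ℝ] E d := ContinuousLinearMap.id ℝ _ - π1 with hπ2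
  have e1 : ∀ v, π1 v = p⁻¹ • P v := fun v => rfl
  have e2 : ∀ v, π2 v = v - π1 v := fun v => rfl
  have h2 : ∀ v, P (π2 v) = 0 := fun v => by
    rw [e2, e1, map_sub, map_smul, hPP, smul_smul, inv_mul_cancel₀ hp.ne', one_smul, sub_self]
  have c1 : ∀ v, A (π1 v) = π1 (A v) := fun v => by rw [e1, e1, map_smul, hPA]
  have c2 : ∀ v, A (π2 v) = π2 (A v) := fun v => by rw [e2, e2, map_sub, c1]
  have h1 : ∀ (n : ℕ) v, (A ^ n) (π1 v) = μ ^ n • π1 v := fun n v => by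
    induction n with
    | zero => simp
    | succ n ih =>
      rw [pow_succ_ap, ih, map_smul, e1, map_smul, hAP, pow_succ, smul_comm p⁻¹ μ, smul_smul]
  have hν : √δ ≤ μ := Real.sqrt_le_iff.2 ⟨hμ.le, hδμ⟩
  have hνn : ∀ n : ℕ, √δ ^ n ≤ μ ^ n := fun n => pow_le_pow_left₀ (Real.sqrt_nonneg _) hν n
  have hq' := fun v n => hq (π2 v) (by rw [← hP]; exact h2 v) n
  have hs : ∀ v, v = π1 v + π2 v := fun v => by rw [e2]; abel
  refine ⟨‖π1‖ + C * ‖π2‖ + C, by positivity, fun n v => ?_, fun n v => ?_, fun n v hv => ?_,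
    fun v => h2 v⟩
  · have a1 : ‖(A ^ n) (π1 v)‖ ≤ μ ^ n * (‖π1‖ * ‖v‖) := by
      rw [h1, norm_smul, Real.norm_eq_abs, abs_of_pos (by positivity)]
      gcongr; exact π1.le_opNorm v
    have a2 : ‖(A ^ n) (π2 v)‖ ≤ C * μ ^ n * (‖π2‖ * ‖v‖) := by
      refine (hq' v n).1.trans ?_
      gcongr
      · exact π2.le_opNorm v
    have a3 : 0 ≤ C * μ ^ n * ‖v‖ := by positivity
    calc ‖(A ^ n) v‖ = ‖(A ^ n) (π1 v) + (A ^ n) (π2 v)‖ := by rw [← map_add, ← hs]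
      _ ≤ _ := norm_add_le _ _
      _ ≤ _ := by nlinarith
  · have a1 : √δ ^ n * ‖π1 v‖ ≤ ‖π1‖ * ‖(A ^ n) v‖ := by
      refine le_trans ?_ (π1.le_opNorm _)
      rw [← pow_comm_ap c1, h1, norm_smul, Real.norm_eq_abs, abs_of_pos (by positivity)]
      gcongr
    have a2 : √δ ^ n * ‖π2 v‖ ≤ C * (‖π2‖ * ‖(A ^ n) v‖) := by
      refine (hq' v n).2.trans ?_
      rw [pow_comm_ap c2]
      gcongr; exact π2.le_opNorm _
    have a3 : 0 ≤ C * ‖(A ^ n) v‖ := by positivity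
    have a4 : ‖v‖ ≤ ‖π1 v‖ + ‖π2 v‖ := by
      conv_lhs => rw [hs v]
      exact norm_add_le _ _
    calc √δ ^ n * ‖v‖ ≤ √δ ^ n * (‖π1 v‖ + ‖π2 v‖) := by gcongr
      _ ≤ _ := by nlinarith
  · refine (hq v (by rw [← hP]; exact hv) n).1.trans ?_
    gcongr
    have : 0 ≤ ‖π1‖ + C * ‖π2‖ := by positivity
    linarith

/-- matrix entries -/
def ent (A : E d →L[ℝ] E d) (i j : Fin d) : ℝ := A (Pi.single j 1) i

theorem ent_ap (A : E d →L[ℝ] E d) (v : E d) (i : Fin d) : A v i = ∑ j, ent A i j * v j := by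
  conv_lhs => rw [← Finset.univ_sum_single v]
  rw [map_sum, Finset.sum_apply]
  refine Finset.sum_congr rfl fun j _ => ?_
  have : Pi.single j (v j) = v j • (Pi.single j 1 : E d) := by
    rw [← Pi.single_smul]; simp
  rw [this, map_smul, ent, Pi.smul_apply, smul_eq_mul, mul_comm]

theorem continuous_ent (i j : Fin d) : Continuous fun A : E d →L[ℝ] E d => ent A i j := by
  unfold ent; fun_prop

theorem half_pow {A : E d →L[ℝ] E d} (hA : ‖A‖ ≤ 1 / 2) (n : ℕ) (v : E d) :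
    ‖(A ^ (n + 1)) v‖ ≤ 1 / 2 * ‖v‖ := by
  have h1 : ∀ w, ‖A w‖ ≤ 1 / 2 * ‖w‖ := fun w =>
    (A.le_opNorm w).trans (mul_le_mul_of_nonneg_right hA (norm_nonneg _))
  induction n with
  | zero => simpa using h1 v
  | succ n ih =>
    rw [pow_succ_ap]
    have := h1 ((A ^ (n + 1)) v)
    linarith [norm_nonneg v]

theorem spec_two {A0 : E 2 →L[ℝ] E 2} (h1 : ‖A0‖ < 1 / 2)
    (h2 : (ent A0 0 0 + ent A0 1 1) ^ 2 < 4 * (ent A0 0 0 * ent A0 1 1 - ent A0 0 1 * ent A0 1 0))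
    (h3 : ent A0 0 0 * ent A0 1 1 - ent A0 0 1 * ent A0 1 0 < 1) :
    ∀ᶠ A in 𝓝 A0, Spec A := by
  have c := @continuous_ent 2
  filter_upwards [continuous_norm.continuousAt.eventually_lt continuousAt_const h1,
    (((c 0 0).add (c 1 1)).pow 2).continuousAt.eventually_lt
      (continuous_const.mul (((c 0 0).mul (c 1 1)).sub ((c 0 1).mul (c 1 0)))).continuousAt h2,
    (((c 0 0).mul (c 1 1)).sub ((c 0 1).mul (c 1 0))).continuousAt.eventually_lt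
      continuousAt_const h3] with A h1 h2 h3
  simp only [Pi.pow_apply, Pi.add_apply, Pi.mul_apply, Pi.sub_apply] at h2 h3
  set τ := ent A 0 0 + ent A 1 1 with hτ
  set δ := ent A 0 0 * ent A 1 1 - ent A 0 1 * ent A 1 0 with hδ
  have hδ0 : 0 < δ := by nlinarith [sq_nonneg τ]
  have hν : 0 < √δ := Real.sqrt_pos.2 hδ0
  obtain ⟨K, hK, e1, e2, e3, -⟩ := cubic_est A (μ := √δ) h2 hν (Real.sq_sqrt hδ0.le).ge 0
    (fun w => by
      ext i
      fin_cases i <;> simp [ent_ap A, Fin.sum_univ_two, hτ, hδ] <;> ring) (by simp)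
  refine ⟨√δ, √δ, K, ⊤, ContinuousLinearMap.id ℝ _, hν, (Real.sqrt_lt' one_pos).2 (by linarith),
    hν, hK, by simp, ?_, e1, e2, fun n v _ => e3 n v rfl, fun v hv => ?_⟩
  · intro h
    have := congrArg (fun L : E 2 →L[ℝ] E 2 => L (fun _ => 1) 0) h
    simp at this
  · have hv0 : 0 < ‖v‖ := norm_pos_iff.2 hv
    refine ⟨‖v‖ / 2 / K, by positivity, fun n m hnm => ?_⟩
    obtain ⟨j, rfl⟩ := Nat.exists_eq_add_of_lt hnm
    have a1 : (A ^ n) v - (A ^ (n + j + 1)) v = (A ^ n) (v - (A ^ (j + 1)) v) := by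
      rw [map_sub, add_assoc, pow_add]; rfl
    have a2 := e2 n (v - (A ^ (j + 1)) v)
    have a3 : ‖v‖ / 2 ≤ ‖v - (A ^ (j + 1)) v‖ := by
      have := norm_sub_norm_le v ((A ^ (j + 1)) v)
      linarith [half_pow h1.le j v]
    rw [a1, div_mul_eq_mul_div, div_le_iff₀ hK]
    calc ‖v‖ / 2 * √δ ^ n ≤ ‖v - (A ^ (j + 1)) v‖ * √δ ^ n := by gcongr
      _ ≤ _ := by linarith

def tr3 (A : E 3 →L[ℝ] E 3) : ℝ := ent A 0 0 + ent A 1 1 + ent A 2 2

def sg3 (A : E 3 →L[ℝ] E 3) : ℝ := ent A 0 0 * ent A 1 1 - ent A 0 1 * ent A 1 0 +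
  (ent A 0 0 * ent A 2 2 - ent A 0 2 * ent A 2 0) + (ent A 1 1 * ent A 2 2 - ent A 1 2 * ent A 2 1)

def dt3 (A : E 3 →L[ℝ] E 3) : ℝ :=
  ent A 0 0 * (ent A 1 1 * ent A 2 2 - ent A 1 2 * ent A 2 1) -
  ent A 0 1 * (ent A 1 0 * ent A 2 2 - ent A 1 2 * ent A 2 0) +
  ent A 0 2 * (ent A 1 0 * ent A 2 1 - ent A 1 1 * ent A 2 0)

theorem spec_three_of_root (A : E 3 →L[ℝ] E 3) {μ : ℝ} (h0 : 0 < μ) (h1 : μ < 1)
    (hr : μ ^ 3 - tr3 A * μ ^ 2 + sg3 A * μ - dt3 A = 0)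
    (h2 : (tr3 A - μ) ^ 2 < 4 * (sg3 A - μ * (tr3 A - μ)))
    (h3 : sg3 A - μ * (tr3 A - μ) ≤ μ ^ 2) : Spec A := by
  set τ := tr3 A - μ with hτ
  set δ := sg3 A - μ * τ with hδ
  set P : E 3 →L[ℝ] E 3 := A ∘L A - τ • A + δ • ContinuousLinearMap.id ℝ _ with hP
  have hPw : ∀ w, P w = A (A w) - τ • A w + δ • w := fun w => rfl
  have hCH : ∀ w, A (A (A w)) = tr3 A • A (A w) - sg3 A • A w + dt3 A • w := fun w => by
    ext i
    fin_cases i <;> simp [ent_ap A, Fin.sum_univ_three, tr3, sg3, dt3] <;> ring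
  have hd : dt3 A = μ * δ := by rw [hδ, hτ]; linarith
  have hAP : ∀ w, A (P w) = μ • P w := fun w => by
    rw [hPw, map_add, map_sub, map_smul, map_smul, hCH, hd, hδ, hτ]
    ext i
    simp only [Pi.smul_apply, Pi.sub_apply, Pi.add_apply, smul_eq_mul]
    ring
  have hPA : ∀ v, A (P v) = P (A v) := fun v => by
    rw [hPw, hPw]; simp
  obtain ⟨K, hK, e1, e2, e3, e4⟩ := cubic_est A h2 h0 h3 P hPw hAP
  have hδ0 : 0 < δ := by nlinarith [sq_nonneg τ]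
  have hp : 0 < μ ^ 2 - τ * μ + δ := by nlinarith [sq_nonneg (μ - τ / 2)]
  set p := μ ^ 2 - τ * μ + δ with hpp
  have htr : P (Pi.single 0 1) 0 + P (Pi.single 1 1) 1 + P (Pi.single 2 1) 2 = p := by
    simp only [hPw, hpp, hδ, hτ]
    simp [ent_ap A, Fin.sum_univ_three, tr3, sg3]
    ring
  have hrank : Module.finrank ℝ (LinearMap.ker P.toLinearMap) = 2 := by
    have hproj : LinearMap.IsProj (LinearMap.ker P.toLinearMap)
        (LinearMap.id - p⁻¹ • P.toLinearMap) := by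
      refine ⟨fun v => e4 v, fun v hv => ?_⟩
      have : P v = 0 := hv
      simp [this]
    have h4 := hproj.trace
    rw [LinearMap.trace_eq_matrix_trace ℝ (Pi.basisFun ℝ (Fin 3))] at h4
    simp only [Matrix.trace, Matrix.diag, LinearMap.toMatrix_apply, Fin.sum_univ_three,
      Pi.basisFun_apply, Pi.basisFun_repr, LinearMap.sub_apply, LinearMap.id_apply,
      LinearMap.smul_apply, Pi.sub_apply, Pi.smul_apply, Pi.single_eq_same, smul_eq_mul,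
      ContinuousLinearMap.coe_coe] at h4
    have h5 : ((Module.finrank ℝ (LinearMap.ker P.toLinearMap) : ℕ) : ℝ) = 2 := by
      rw [← h4]
      have : p⁻¹ * p = 1 := inv_mul_cancel₀ hp.ne'
      rw [← htr] at this
      rw [← htr]
      linarith
    exact_mod_cast h5
  have hP0 : P ≠ 0 := by
    intro h
    rw [h] at htr
    simp at htr
    linarith
  refine ⟨μ, √δ, K, LinearMap.ker P.toLinearMap, P, h0, h1, Real.sqrt_pos.2 hδ0, hK,
    by rw [hrank]; norm_num, hP0, e1, e2, fun n v hv => e3 n v hv, fun v hv => ?_⟩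
  have hPn : 0 < ‖P‖ := norm_pos_iff.2 hP0
  have hv0 : 0 < ‖P v‖ := norm_pos_iff.2 hv
  have hpw : ∀ n : ℕ, P ((A ^ n) v) = μ ^ n • P v := fun n => by
    induction n with
    | zero => simp
    | succ n ih => rw [pow_succ_ap, ← hPA, ih, map_smul, hAP, smul_smul, pow_succ]
  refine ⟨(1 - μ) * ‖P v‖ / ‖P‖, by have : 0 < 1 - μ := by linarith
                                    positivity, fun n m hnm => ?_⟩
  have a1 := P.le_opNorm ((A ^ n) v - (A ^ m) v)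
  have a2 : μ ^ m ≤ μ ^ (n + 1) := pow_le_pow_of_le_one h0.le h1.le hnm
  have a3 : 0 < μ ^ n := by positivity
  rw [pow_succ] at a2
  rw [map_sub, hpw, hpw, ← sub_smul, norm_smul, Real.norm_eq_abs,
    abs_of_nonneg (by nlinarith)] at a1
  rw [div_mul_eq_mul_div, div_le_iff₀ hPn]
  nlinarith

theorem spec_three {A0 : E 3 →L[ℝ] E 3} {l1 l2 : ℝ} (h2 : 0 < l2) (h21 : l2 < l1) (h1 : l1 < 1)
    (e1 : tr3 A0 = l1) (e2 : sg3 A0 = l2 ^ 2) (e3 : dt3 A0 = l1 * l2 ^ 2) :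
    ∀ᶠ A in 𝓝 A0, Spec A := by
  have c := @continuous_ent 3
  have c1 : Continuous tr3 := by unfold tr3; fun_prop
  have c2 : Continuous sg3 := by unfold sg3; fun_prop
  have c3 : Continuous dt3 := by unfold dt3; fun_prop
  have hev : ∀ᶠ q : (E 3 →L[ℝ] E 3) × ℝ in 𝓝 (A0, l1), 0 < q.2 ∧ q.2 < 1 ∧
      (tr3 q.1 - q.2) ^ 2 < 4 * (sg3 q.1 - q.2 * (tr3 q.1 - q.2)) ∧
      sg3 q.1 - q.2 * (tr3 q.1 - q.2) < q.2 ^ 2 := by
    refine (ContinuousAt.eventually_lt (by fun_prop) (by fun_prop) (by simp; linarith)).and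
      ((ContinuousAt.eventually_lt (by fun_prop) (by fun_prop) (by simpa using h1)).and
      ((ContinuousAt.eventually_lt (by fun_prop) (by fun_prop) ?_).and
      (ContinuousAt.eventually_lt (by fun_prop) (by fun_prop) ?_)))
    · simp only [e1, e2]; nlinarith
    · simp only [e1, e2]; nlinarith
  rw [nhds_prod_eq, eventually_prod_iff] at hev
  obtain ⟨pa, hpa, pb, hpb, hab⟩ := hev
  obtain ⟨ε, hε, hb⟩ := Metric.eventually_nhds_iff_ball.1 hpb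
  set η := ε / 2 with hη
  have hη0 : 0 < η := half_pos hε
  let χ : (E 3 →L[ℝ] E 3) → ℝ → ℝ := fun A μ => μ ^ 3 - tr3 A * μ ^ 2 + sg3 A * μ - dt3 A
  have hχ0 : ∀ μ, χ A0 μ = (μ - l1) * (μ ^ 2 + l2 ^ 2) := fun μ => by
    simp only [χ, e1, e2, e3]; ring
  have hm : ∀ᶠ A in 𝓝 A0, χ A (l1 - η) < 0 :=
    ContinuousAt.eventually_lt (f := fun A => χ A (l1 - η)) (by simp only [χ]; fun_prop)
      continuousAt_const (by
        simp only [hχ0]
        have : 0 < (l1 - η) ^ 2 + l2 ^ 2 := by positivity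
        nlinarith)
  have hp : ∀ᶠ A in 𝓝 A0, 0 < χ A (l1 + η) :=
    ContinuousAt.eventually_lt (g := fun A => χ A (l1 + η)) continuousAt_const
      (by simp only [χ]; fun_prop) (by
        simp only [hχ0]
        have : 0 < (l1 + η) ^ 2 + l2 ^ 2 := by positivity
        nlinarith)
  filter_upwards [hpa, hm, hp] with A hA hm hp
  obtain ⟨μ, hμ, hr⟩ := intermediate_value_Icc (f := χ A) (by linarith : l1 - η ≤ l1 + η)
    (by simp only [χ]; fun_prop) ⟨hm.le, hp.le⟩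
  obtain ⟨a1, a2, a3, a4⟩ := hab hA (hb μ (by
    rw [Metric.mem_ball, Real.dist_eq, abs_lt]
    constructor <;> linarith [hμ.1, hμ.2]))
  exact spec_three_of_root A a1 a2 hr a3 a4.le

end Pool.Agent.H581Z
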