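import Pool.Agent.H581Z.Cent
import Pool.Agent.H581Z.Spec

open Set Filter Topology Metric

noncomputable section

namespace Pool.Agent.H581Z

variable {d : ℕ}

theorem D_of_local {f : Diff1 d} {G : E d → E d} {A : E d →L[ℝ] E d} {z : E d}
    (hG : HasFDerivAt G A z) (h : ∀ᶠ w in 𝓝 z, f.1 (proj w) = proj (G w)) :
    D f (proj z) = A := by
  obtain ⟨F, hF⟩ := exists_lift f
  have hk : proj (F z - G z) = 0 := by rw [proj_sub, hF.eq, h.self_of_nhds, sub_self]
  have hc : ContinuousAt (fun w => ‖F w - (G w + (F z - G z))‖) z :=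
    (hF.cd.continuous.continuousAt.sub (hG.continuousAt.add continuousAt_const)).norm
  have h1 : F =ᶠ[𝓝 z] fun w => G w + (F z - G z) := by
    filter_upwards [h, hc.eventually_lt continuousAt_const (show _ < (1 : ℝ) by simp)] with w hw hw1
    exact proj_inj_of_lt (by rw [proj_add, hk, add_zero, hF.eq, hw]) hw1
  exact (hF.hasFDerivAt z).unique ((hG.add_const _).congr_of_eventuallyEq h1)

theorem D_of_affine {f : Diff1 d} {A : E d →L[ℝ] E d} {q y : E d} {δ : ℝ}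
    (h : ∀ z, ‖z - q‖ ≤ δ → f.1 (proj z) = proj (y + A (z - q))) {z : E d} (hz : ‖z - q‖ < δ) :
    D f (proj z) = A := by
  refine D_of_local (G := fun z => y + A (z - q)) ?_ ?_
  · simpa using (A.hasFDerivAt.comp z ((hasFDerivAt_id z).sub_const q)).const_add y
  · have hc : Continuous fun z : E d => ‖z - q‖ := by fun_prop
    filter_upwards [hc.continuousAt.eventually_lt continuousAt_const hz] with w hw using h w hw.le

theorem pow_succ_ap' (f : Diff1 d) (n : ℕ) (x : Tor d) : (f ^ (n + 1)).1 x = f.1 ((f ^ n).1 x) := by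
  rw [pow_succ', mul_ap]

/-- Robust description of a sink. -/
def Sink (f : Diff1 d) (q0 : E d) (a : ℝ) : Prop :=
  dist (f.1 (proj q0)) (proj q0) ≤ a / 2 ∧
    ∀ z, ‖z - q0‖ ≤ a → ‖D f (proj z)‖ ≤ 1 / 2 ∧ Spec (D f (proj z))

theorem sink_eventually {f0 : Diff1 d} {q0 : E d} {a : ℝ} {A0 : E d →L[ℝ] E d} (ha : 0 < a)
    (h0 : f0.1 (proj q0) = proj q0) (h1 : ∀ z, ‖z - q0‖ ≤ a → D f0 (proj z) = A0)
    (h2 : ‖A0‖ < 1 / 2) (h3 : ∀ᶠ A in 𝓝 A0, Spec A) : ∀ᶠ f in 𝓝 f0, Sink f q0 a := by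
  obtain ⟨δ, hδ, hb⟩ := Metric.eventually_nhds_iff_ball.1
    ((continuous_norm.continuousAt.eventually_lt continuousAt_const h2).and h3)
  filter_upwards [mem_nhds_close f0 (lt_min hδ (half_pos ha))] with f hf
  refine ⟨?_, fun z hz => ?_⟩
  · have := (hf (proj q0)).1
    rw [h0, dist_comm] at this
    exact (this.trans_le (min_le_right _ _)).le
  · have := (hf (proj z)).2
    rw [h1 z hz, norm_sub_rev] at this
    have h4 := hb (D f (proj z)) (mem_ball_iff_norm.2 (this.trans_le (min_le_left _ _)))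
    exact ⟨h4.1.le, h4.2⟩

theorem Sink.lift {f : Diff1 d} {q0 : E d} {a : ℝ} (h : Sink f q0 a) (ha : 0 < a) :
    ∃ F, Lift f F ∧ (∀ z, ‖z - q0‖ ≤ a → ‖F z - q0‖ ≤ a) ∧
      ∀ z z', ‖z - q0‖ ≤ a → ‖z' - q0‖ ≤ a → ‖F z - F z'‖ ≤ 1 / 2 * ‖z - z'‖ := by
  obtain ⟨F0, hF0⟩ := exists_lift f
  obtain ⟨b, hb, hbn⟩ := exists_lift_close q0 (f.1 (proj q0))
  have hF := hF0.add_const (c := b - F0 q0) (by rw [proj_sub, hb, hF0.eq, sub_self])
  have hL : ∀ z z', ‖z - q0‖ ≤ a → ‖z' - q0‖ ≤ a →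
      ‖(F0 z + (b - F0 q0)) - (F0 z' + (b - F0 q0))‖ ≤ 1 / 2 * ‖z - z'‖ := fun z z' hz hz' =>
    (convex_closedBall q0 a).norm_image_sub_le_of_norm_hasFDerivWithin_le
      (fun w _ => (hF.hasFDerivAt w).hasFDerivWithinAt)
      (fun w hw => (h.2 w (mem_closedBall_iff_norm.1 hw)).1) (mem_closedBall_iff_norm.2 hz')
      (mem_closedBall_iff_norm.2 hz)
  refine ⟨_, hF, fun z hz => ?_, hL⟩
  have h1 := hL z q0 hz (by simpa using ha.le)
  rw [add_sub_cancel] at h1
  have h2 := h.1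
  calc _ = ‖(F0 z + (b - F0 q0) - b) + (b - q0)‖ := by congr 1; abel
    _ ≤ _ := norm_add_le _ _
    _ ≤ a := by linarith

theorem Sink.fixed {f : Diff1 d} {q0 : E d} {a : ℝ} (h : Sink f q0 a) (ha : 0 < a) :
    ∃ q, ‖q - q0‖ ≤ a ∧ f.1 (proj q) = proj q := by
  obtain ⟨F, hF, h1, h2⟩ := h.lift ha
  have hm : MapsTo F (closedBall q0 a) (closedBall q0 a) := fun z hz =>
    mem_closedBall_iff_norm.2 (h1 z (mem_closedBall_iff_norm.1 hz))
  have hc : ContractingWith (1 / 2) (hm.restrict F _ _) := by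
    refine ⟨by norm_num, LipschitzWith.of_dist_le_mul fun z z' => ?_⟩
    have := h2 z z' (mem_closedBall_iff_norm.1 z.2) (mem_closedBall_iff_norm.1 z'.2)
    rw [Subtype.dist_eq, Subtype.dist_eq, dist_eq_norm, dist_eq_norm]
    simpa using this
  obtain ⟨q, hq, hf, -⟩ := ContractingWith.exists_fixedPoint' isClosed_closedBall.isComplete hm hc
    (mem_closedBall_self ha.le) (edist_ne_top _ _)
  exact ⟨q, mem_closedBall_iff_norm.1 hq, by rw [← hF.eq, hf]⟩

theorem dense_ne_zero {Pr : E d →L[ℝ] E d} (h : Pr ≠ 0) (q : E d) :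
    Dense {v | Pr (v - q) ≠ 0} := by
  obtain ⟨e, he⟩ : ∃ e, Pr e ≠ 0 := by
    by_contra h1
    push Not at h1
    exact h (ContinuousLinearMap.ext h1)
  intro v
  by_cases hv : Pr (v - q) = 0
  · have h1 : Tendsto (fun t : ℝ => v + t • e) (𝓝[≠] 0) (𝓝 v) := by
      have : Continuous fun t : ℝ => v + t • e := by fun_prop
      simpa using (this.tendsto 0).mono_left nhdsWithin_le_nhds
    refine mem_closure_of_tendsto h1 ?_
    filter_upwards [self_mem_nhdsWithin] with t ht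
    have : v + t • e - q = (v - q) + t • e := by abel
    rw [this, map_add, hv, zero_add, map_smul]
    exact smul_ne_zero ht he
  · exact subset_closure hv

theorem Lift.homeo {f : Diff1 d} {F : E d → E d} (h : Lift f F) :
    ∃ H : E d ≃ₜ E d, ∀ z, H z = F z := by
  obtain ⟨G, hG, h1, h2⟩ := h.exists_inv
  exact ⟨⟨⟨F, G, h1, h2⟩, h.cd.continuous, hG.cd.continuous⟩, fun _ => rfl⟩

theorem Lift.iter {f : Diff1 d} {F : E d → E d} (h : Lift f F) (n : ℕ) : Lift (f ^ n) F^[n] := by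
  induction n with
  | zero => simpa using lift_one
  | succ n ih => rw [pow_succ, Function.iterate_succ]; exact ih.mul h

theorem exists_bound_fin (g : ℕ → ℝ) (N : ℕ) : ∃ K : ℝ, 0 < K ∧ ∀ j < N, g j ≤ K :=
  ⟨1 + ∑ j ∈ Finset.range N, |g j|, by positivity, fun j hj => by
    have := Finset.single_le_sum (f := fun j => |g j|) (fun _ _ => abs_nonneg _)
      (Finset.mem_range.2 hj)
    linarith [le_abs_self (g j)]⟩

theorem half {f : Diff1 d} {q0 q : E d} {a δ : ℝ} (h : Sink f q0 a) (ha : 0 < a) (ha2 : a < 1 / 2)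
    (hq : ‖q - q0‖ ≤ a) (hδ : 0 < δ) {A : E d →L[ℝ] E d}
    (hlin : ∀ z, ‖z - q‖ ≤ δ → f.1 (proj z) = proj (q + A (z - q))) :
    ∃ (μ : ℝ) (O : Set (E d)), 0 < μ ∧ μ < 1 ∧ IsOpen O ∧ Dense O ∧ ∀ y ∈ O, ‖y - q0‖ ≤ a →
      ∃ (Y : ℕ → E d) (K c : ℝ) (W : Submodule ℝ (E d)), Y 0 = y ∧ (∀ j, ‖Y j - q0‖ ≤ a) ∧
        (∀ j, f.1 (proj (Y j)) = proj (Y (j + 1))) ∧ 0 < c ∧ 0 < K ∧
        d < 2 * Module.finrank ℝ W ∧ (∀ i j, i < j → c * μ ^ i ≤ ‖Y i - Y j‖) ∧
        (∀ j : ℕ, ‖D (f ^ j) (proj y)‖ ≤ K * μ ^ j) ∧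
        ∀ j : ℕ, ∀ e ∈ W, ‖D (f ^ j) (proj y) e‖ * ‖D (f ^ j)⁻¹ (proj (Y j))‖ ≤ K * ‖e‖ := by
  obtain ⟨F, hF, hF1, hF2⟩ := h.lift ha
  have hA : D f (proj q) = A := D_of_affine hlin (by simpa using hδ)
  obtain ⟨hAn, μ, ν, K, W, Pr, hμ0, hμ1, hν, hK, hW, hPr, s1, s2, s3, s4⟩ := hA ▸ h.2 q hq
  have hFq : F q = q := by
    refine proj_inj_of_lt (by simpa [hF.eq] using hlin q (by simpa using hδ.le)) ?_
    calc ‖F q - q‖ = ‖(F q - q0) - (q - q0)‖ := by congr 1; abel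
      _ ≤ _ := norm_sub_le _ _
      _ < 1 := by linarith [hF1 q hq]
  have hin : ∀ y, ‖y - q0‖ ≤ a → ∀ j, ‖F^[j] y - q0‖ ≤ a := fun y hy j => by
    induction j with
    | zero => exact hy
    | succ j ih => rw [Function.iterate_succ_apply']; exact hF1 _ ih
  have hcon : ∀ y, ‖y - q0‖ ≤ a → ∀ j, ‖F^[j] y - q‖ ≤ (1 / 2) ^ j * ‖y - q‖ := fun y hy j => by
    induction j with
    | zero => simp
    | succ j ih =>
      have := hF2 _ _ (hin y hy j) hq
      rw [hFq] at this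
      rw [Function.iterate_succ_apply', pow_succ]
      linarith
  obtain ⟨N, hN⟩ := exists_pow_lt_of_lt_one (show 0 < min δ (1 / 2) by positivity)
    (show (1 / 2 : ℝ) < 1 by norm_num)
  obtain ⟨H, hH⟩ := (hF.iter N).homeo
  refine ⟨μ, H ⁻¹' {v | Pr (v - q) ≠ 0}, hμ0, hμ1, ?_,
    (dense_ne_zero hPr q).preimage H.isOpenMap, fun y hy hya => ?_⟩
  · refine IsOpen.preimage H.continuous ?_
    exact isOpen_ne_fun (by fun_prop) continuous_const
  have hy' : Pr (F^[N] y - q) ≠ 0 := by rw [← hH]; exact hy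
  have hyq : ‖y - q‖ ≤ 1 := by
    calc ‖y - q‖ = ‖(y - q0) - (q - q0)‖ := by congr 1; abel
      _ ≤ _ := norm_sub_le _ _
      _ ≤ 1 := by linarith
  have hsm : ∀ j, ‖F^[N + j] y - q‖ < min δ (1 / 2) := fun j => by
    refine (hcon y hya _).trans_lt (lt_of_le_of_lt ?_ hN)
    have : (1 / 2 : ℝ) ^ (N + j) ≤ (1 / 2) ^ N :=
      pow_le_pow_of_le_one (by norm_num) (by norm_num) (Nat.le_add_right _ _)
    calc _ ≤ (1 / 2 : ℝ) ^ N * 1 := by gcongr
      _ = _ := mul_one _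
  have hY : ∀ j, F^[N + j] y - q = (A ^ j) (F^[N] y - q) := fun j => by
    induction j with
    | zero => simp
    | succ j ih =>
      rw [pow_succ_ap, ← ih, sub_eq_iff_eq_add', ← add_assoc, Function.iterate_succ_apply']
      refine proj_inj_of_lt (by rw [hF.eq, hlin _ ((hsm j).le.trans (min_le_left _ _))]) ?_
      have h1 := (hsm (j + 1)).trans_le (min_le_right _ _)
      rw [← add_assoc, Function.iterate_succ_apply'] at h1
      have h2 := (hsm j).trans_le (min_le_right _ _)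
      have h3 := (A.le_opNorm (F^[N + j] y - q)).trans
        (mul_le_mul_of_nonneg_right hAn (norm_nonneg _))
      calc _ = ‖(F (F^[N + j] y) - q) - A (F^[N + j] y - q)‖ := by congr 1; abel
        _ ≤ _ := norm_sub_le _ _
        _ < 1 := by linarith
  have hX : ∀ j, (f ^ j).1 (proj y) = proj (F^[j] y) := fun j => ((hF.iter j).eq y).symm
  have hM : ∀ j v, D (f ^ (N + j)) (proj y) v = (A ^ j) (D (f ^ N) (proj y) v) := fun j v => by
    induction j with
    | zero => simp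
    | succ j ih =>
      rw [pow_succ_ap, ← ih, ← add_assoc, pow_succ', D_mul, hX,
        D_of_affine hlin ((hsm j).trans_le (min_le_left _ _))]
      rfl
  obtain ⟨c1, hc1, s5⟩ := s4 _ hy'
  have hne : ∀ i < N, 0 < ‖F^[i] y - q‖ := fun i hi => by
    refine norm_pos_iff.2 fun h0 => hy' ?_
    obtain ⟨k, rfl⟩ := Nat.exists_eq_add_of_lt hi
    have h1 := hcon _ (hin y hya i) (k + 1)
    rw [h0, norm_zero, mul_zero, ← Function.iterate_add_apply] at h1
    have e : i + k + 1 = k + 1 + i := by ring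
    rw [e, norm_le_zero_iff.1 h1, map_zero]
  obtain ⟨K1, hK1, b1⟩ := exists_bound_fin (fun i => 2 / ‖F^[i] y - q‖) N
  obtain ⟨K2, hK2, b2⟩ := exists_bound_fin (fun j => ‖D (f ^ j) (proj y)‖ / μ ^ j) N
  obtain ⟨K3, hK3, b3⟩ := exists_bound_fin
    (fun j => ‖D (f ^ j) (proj y)‖ * ‖D (f ^ j)⁻¹ (proj (F^[j] y))‖) N
  set M := D (f ^ N) (proj y)
  set M' := D (f ^ N)⁻¹ ((f ^ N).1 (proj y))
  have hμN : 0 < μ ^ N := by positivity
  refine ⟨fun j => F^[j] y, K2 + K * ‖M‖ / μ ^ N + K3 + K * K * ‖M‖ * ‖M'‖, min c1 K1⁻¹,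
    W.map (DE (f ^ N) (proj y)).symm.toLinearEquiv.toLinearMap, rfl, hin y hya,
    fun j => by simp only [← hF.eq, Function.iterate_succ_apply'], lt_min hc1 (inv_pos.2 hK1),
    by positivity, by rwa [LinearEquiv.finrank_map_eq], fun i j hij => ?_, fun j => ?_,
    fun j e he => ?_⟩
  · by_cases hi : i < N
    · obtain ⟨k, rfl⟩ := Nat.exists_eq_add_of_lt hij
      have h1 := hcon _ (hin y hya i) (k + 1)
      rw [← Function.iterate_add_apply] at h1
      have e : i + k + 1 = k + 1 + i := by ring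
      rw [e]
      have h2 : (1 / 2 : ℝ) ^ (k + 1) ≤ 1 / 2 := by
        rw [pow_succ]
        exact mul_le_of_le_one_left (by norm_num) (pow_le_one₀ (by norm_num) (by norm_num))
      have h3 : ‖F^[i] y - q‖ ≤ ‖F^[i] y - F^[k + 1 + i] y‖ + ‖F^[k + 1 + i] y - q‖ := by
        calc _ = ‖(F^[i] y - F^[k + 1 + i] y) + (F^[k + 1 + i] y - q)‖ := by congr 1; abel
          _ ≤ _ := norm_add_le _ _
      have h4 := hne i hi
      have h5 : K1⁻¹ ≤ ‖F^[i] y - q‖ / 2 := by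
        rw [← inv_div]; exact inv_anti₀ (by positivity) (b1 i hi)
      have h6 : μ ^ i ≤ 1 := pow_le_one₀ hμ0.le hμ1.le
      have h7 : min c1 K1⁻¹ * μ ^ i ≤ K1⁻¹ * 1 := by
        gcongr; exact min_le_right _ _
      nlinarith
    · obtain ⟨i', rfl⟩ := Nat.exists_eq_add_of_le (not_lt.1 hi)
      obtain ⟨j', rfl⟩ := Nat.exists_eq_add_of_le ((not_lt.1 hi).trans hij.le)
      have h1 := s5 i' j' (by omega)
      rw [← hY, ← hY, sub_sub_sub_cancel_right] at h1
      refine le_trans ?_ h1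
      exact mul_le_mul (min_le_left _ _)
        (pow_le_pow_of_le_one hμ0.le hμ1.le (Nat.le_add_left _ _)) (by positivity) hc1.le
  · have h0 : 0 < μ ^ j := by positivity
    by_cases hj : j < N
    · have := b2 j hj
      rw [div_le_iff₀ h0] at this
      refine this.trans ?_
      gcongr
      have : 0 ≤ K * ‖M‖ / μ ^ N + K3 + K * K * ‖M‖ * ‖M'‖ := by positivity
      linarith
    · obtain ⟨j', rfl⟩ := Nat.exists_eq_add_of_le (not_lt.1 hj)
      have h1 : ‖D (f ^ (N + j')) (proj y)‖ ≤ K * ‖M‖ / μ ^ N * μ ^ (N + j') := by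
        refine ContinuousLinearMap.opNorm_le_bound _ (by positivity) fun v => ?_
        rw [hM]
        refine (s1 _ _).trans ?_
        calc K * μ ^ j' * ‖M v‖ ≤ K * μ ^ j' * (‖M‖ * ‖v‖) := by gcongr; exact M.le_opNorm v
          _ = _ := by rw [pow_add]; field_simp
      refine h1.trans ?_
      gcongr
      have : 0 ≤ K3 + K * K * ‖M‖ * ‖M'‖ := by positivity
      linarith
  · by_cases hj : j < N
    · have h1 := b3 j hj
      calc _ ≤ ‖D (f ^ j) (proj y)‖ * ‖e‖ * ‖D (f ^ j)⁻¹ (proj (F^[j] y))‖ := by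
            gcongr; exact ContinuousLinearMap.le_opNorm _ _
        _ = ‖D (f ^ j) (proj y)‖ * ‖D (f ^ j)⁻¹ (proj (F^[j] y))‖ * ‖e‖ := by ring
        _ ≤ _ := by
            gcongr
            have : 0 ≤ K2 + K * ‖M‖ / μ ^ N := by positivity
            have : 0 ≤ K * K * ‖M‖ * ‖M'‖ := by positivity
            linarith
    · obtain ⟨j', rfl⟩ := Nat.exists_eq_add_of_le (not_lt.1 hj)
      obtain ⟨w, hw, rfl⟩ := Submodule.mem_map.1 he
      set e := (DE (f ^ N) (proj y)).symm.toLinearEquiv.toLinearMap w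
      have he : M e = w := D_comp_inv (f ^ N) (proj y) w
      have hνj : 0 < ν ^ j' := by positivity
      have h1 : ‖D (f ^ (N + j')) (proj y) e‖ ≤ K * ν ^ j' * (‖M‖ * ‖e‖) := by
        rw [hM, he]
        refine (s3 _ _ hw).trans ?_
        gcongr
        rw [← he]; exact M.le_opNorm e
      have h2 : ‖D (f ^ (N + j'))⁻¹ (proj (F^[N + j'] y))‖ ≤ ‖M'‖ * K / ν ^ j' := by
        refine ContinuousLinearMap.opNorm_le_bound _ (by positivity) fun v => ?_
        rw [← hX]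
        set u := D (f ^ (N + j'))⁻¹ ((f ^ (N + j')).1 (proj y)) v
        have e1 : D (f ^ (N + j')) (proj y) u = v := D_comp_inv _ _ v
        have e2 : M' (M u) = u := D_inv_comp _ _ u
        have e3 := s2 j' (M u)
        rw [← hM, e1] at e3
        have e4 := M'.le_opNorm (M u)
        rw [e2] at e4
        rw [div_mul_eq_mul_div, le_div_iff₀ hνj]
        calc ‖u‖ * ν ^ j' ≤ ‖M'‖ * ‖M u‖ * ν ^ j' := by gcongr
          _ = ‖M'‖ * (ν ^ j' * ‖M u‖) := by ring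
          _ ≤ ‖M'‖ * (K * ‖v‖) := by gcongr
          _ = _ := by ring
      calc _ ≤ K * ν ^ j' * (‖M‖ * ‖e‖) * (‖M'‖ * K / ν ^ j') := by gcongr
        _ = K * K * ‖M‖ * ‖M'‖ * ‖e‖ := by field_simp
        _ ≤ _ := by
            gcongr
            have : 0 ≤ K2 + K * ‖M‖ / μ ^ N + K3 := by positivity
            linarith

end Pool.Agent.H581Z
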